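import Pool.Agent.Helper74.PQ.TanLine
import Pool.Agent.Helper10.LB.NoTwo

/-!
# PQ-BADLINE: lines which meet the generic quartic in at most two points do not move

`E` the splitting field of `h`, `D' J`, `δ'` the extensions of `D J`, `δ` to `E` (`der_ext`,
`Helper10/LB/DerExt.lean`). As in the first half of `three_roots` (`Helper10/LB/NoTwo.lean`, copy its
private lemmas): over `E` one has `lf a u v = C lead ((X - ρ_1)^α (X - ρ_2)^β)`, `α + β = q`,
`ρ_1 ≠ ρ_2` (`lf_coeff_top`: the coefficient of degree `q` is `F(v) ≠ 0`). So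
`F(S_0 u + S_1 v) = lead (S_1 - ρ_1 S_0)^α (S_1 - ρ_2 S_0)^β` (for all `S_0, S_1`, also `S_0 = 0`).
With `p = (u + ρ_2 v) / (ρ_2 - ρ_1)`, `r = - (u + ρ_1 v) / (ρ_2 - ρ_1)`:
`F(s p + t r) = lead s^α t^β`. `tan_line` over `E`: `δ' p = c p`, `δ' r = c' r`, and
`p_j r_l - p_l r_j = (u_j v_l - u_l v_j) / (ρ_2 - ρ_1)`, so
`δ' (u_j v_l - u_l v_j) = c'' (u_j v_l - u_l v_j)`, `c'' = δ(w) / w`, `w = u_b v_b' - u_b' v_b`, in `K`.
-/

set_option autoImplicit false

namespace Pool.Agent.Helper74.PQ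

open scoped BigOperators
open Pool.Agent.Helper8.LG (form mon)

section aux

open Polynomial Pool.Agent.Helper8.LG Pool.Agent.Helper10.LB

theorem badLine_scale {K σ : Type*} [Field K] [Fintype σ] [DecidableEq σ] {n : ℕ}
    (a : Sym σ n → K) (c : K) (x : σ → K) : form a (fun l => c * x l) = c ^ n * form a x := by
  unfold form
  rw [Finset.mul_sum]
  refine Finset.sum_congr rfl fun J _ => ?_
  have h : mon (fun l => c * x l) J = c ^ n * mon x J := by
    unfold mon
    rw [Multiset.prod_map_mul, Multiset.map_const', Multiset.prod_replicate, Sym.card_coe]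
  rw [h]
  ring


theorem badLine_hom {K : Type*} [Field K] {σ : Type*} [Fintype σ] [DecidableEq σ] {n : ℕ}
    (a : Sym σ n → K) (u v : σ → K) (ρ₁ ρ₂ : K) (α β : ℕ) (hαβ : α + β = n)
    (h : lf a u v = C (form a v) * ((X - C ρ₁) ^ α * (X - C ρ₂) ^ β)) (x y : K) :
    form a (fun l => x * (u l + ρ₁ * v l) + y * (u l + ρ₂ * v l)) =
      form a v * ((y * (ρ₂ - ρ₁)) ^ α * (x * (ρ₁ - ρ₂)) ^ β) := by
  by_cases hxy : x + y = 0
  · have hx : x = -y := by linear_combination hxy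
    have h1 : (fun l => x * (u l + ρ₁ * v l) + y * (u l + ρ₂ * v l)) =
        fun l => (y * (ρ₂ - ρ₁)) * v l := by
      funext l
      rw [hx]
      ring
    have h2 : x * (ρ₁ - ρ₂) = y * (ρ₂ - ρ₁) := by
      rw [hx]
      ring
    rw [h1, badLine_scale, h2, ← pow_add, hαβ]
    ring
  · set z : K := (x * ρ₁ + y * ρ₂) / (x + y) with hz
    have hz1 : (x + y) * z = x * ρ₁ + y * ρ₂ := by
      rw [hz]
      field_simp
    have h1 : (fun l => x * (u l + ρ₁ * v l) + y * (u l + ρ₂ * v l)) =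
        fun l => (x + y) * (u l + z * v l) := by
      funext l
      linear_combination (-v l) * hz1
    have h2 : y * (ρ₂ - ρ₁) = (x + y) * (z - ρ₁) := by
      linear_combination -hz1
    have h3 : x * (ρ₁ - ρ₂) = (x + y) * (z - ρ₂) := by
      linear_combination -hz1
    have h5 : (x + y) ^ n = (x + y) ^ α * (x + y) ^ β := by rw [← pow_add, hαβ]
    rw [h1, badLine_scale, ← lf_eval, h, h2, h3, mul_pow, mul_pow, h5]
    simp only [eval_mul, eval_C, eval_pow, eval_sub, eval_X]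
    ring


theorem badLine_fact {K : Type*} [Field K] (f h : K[X]) (hf0 : f ≠ 0) (hh0 : h ≠ 0)
    (hh : h.Splits) (k : ℕ) (hdvd : f ∣ h ^ k) (ρ₁ ρ₂ : K) (hρ : ρ₁ ≠ ρ₂)
    (hr : ∀ r ∈ h.roots, r = ρ₁ ∨ r = ρ₂) :
    ∃ α β : ℕ, α + β = f.natDegree ∧
      f = C f.leadingCoeff * ((X - C ρ₁) ^ α * (X - C ρ₂) ^ β) := by
  classical
  have hs : f.Splits := (hh.pow k).of_dvd (pow_ne_zero _ hh0) hdvd
  have hsub : f.roots.toFinset ⊆ {ρ₁, ρ₂} := by
    intro r hr1
    rw [Multiset.mem_toFinset, mem_roots hf0] at hr1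
    have h1 : (h ^ k).IsRoot r := hr1.dvd hdvd
    rw [IsRoot, eval_pow] at h1
    have h2 : r ∈ h.roots := by
      rw [mem_roots hh0]
      exact eq_zero_of_pow_eq_zero h1
    rcases hr r h2 with h3 | h3
    · simp [h3]
    · simp [h3]
  refine ⟨f.roots.count ρ₁, f.roots.count ρ₂, ?_, ?_⟩
  · rw [hs.natDegree_eq_card_roots, ← Multiset.toFinset_sum_count_eq,
      Finset.sum_subset hsub fun r _ h1 => ?_, Finset.sum_pair hρ]
    rw [Multiset.mem_toFinset] at h1
    exact Multiset.count_eq_zero_of_notMem h1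
  · conv_lhs => rw [hs.eq_prod_roots]
    congr 1
    rw [Finset.prod_multiset_map_count, Finset.prod_subset hsub fun r _ h1 => ?_,
      Finset.prod_pair hρ]
    rw [Multiset.mem_toFinset] at h1
    rw [Multiset.count_eq_zero_of_notMem h1, pow_zero]


theorem badLine_roots {K : Type*} [Field K] (h : K[X]) (hn : h.natDegree ≤ 2) :
    ∃ ρ₁ ρ₂ : K, ρ₁ ≠ ρ₂ ∧ ∀ r ∈ h.roots, r = ρ₁ ∨ r = ρ₂ := by
  classical
  have h1 : h.roots.toFinset.card ≤ 2 :=
    (Multiset.toFinset_card_le _).trans ((card_roots' h).trans hn)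
  rcases Nat.lt_or_ge h.roots.toFinset.card 2 with h2 | h2
  · rcases Nat.eq_zero_or_pos h.roots.toFinset.card with h3 | h3
    · refine ⟨0, 1, zero_ne_one, fun r hr => ?_⟩
      rw [Finset.card_eq_zero] at h3
      rw [← Multiset.mem_toFinset, h3] at hr
      exact absurd hr (Finset.notMem_empty _)
    · obtain ⟨ρ, hρ⟩ := Finset.card_eq_one.1 (by omega : h.roots.toFinset.card = 1)
      refine ⟨ρ, ρ + 1, fun h4 => ?_, fun r hr => ?_⟩
      · exact one_ne_zero (left_eq_add.1 h4)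
      · rw [← Multiset.mem_toFinset, hρ, Finset.mem_singleton] at hr
        exact Or.inl hr
  · obtain ⟨ρ₁, ρ₂, hne, hρ⟩ := Finset.card_eq_two.1 (le_antisymm h1 h2)
    refine ⟨ρ₁, ρ₂, hne, fun r hr => ?_⟩
    rw [← Multiset.mem_toFinset, hρ, Finset.mem_insert, Finset.mem_singleton] at hr
    exact hr


/-- the derivation of the minors, upstairs -/
theorem badLine_minor {E : Type*} [Field E] (δ : Derivation ℤ E E) (p r : Fin 3 → E) (c c' k : E)
    (hk : k ≠ 0) (hp : ∀ l, δ (p l) = c * p l) (hr : ∀ l, δ (r l) = c' * r l) (w : E)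
    (j l : Fin 3) (hw : p j * r l - p l * r j = k * w) :
    δ w = (c + c' - δ k / k) * w := by
  have h1 : δ (k * w) = (c + c') * (k * w) := by
    rw [← hw, map_sub, Derivation.leibniz, Derivation.leibniz, hp, hp, hr, hr]
    simp only [smul_eq_mul]
    ring
  rw [Derivation.leibniz] at h1
  simp only [smul_eq_mul] at h1
  have h2 : k * δ w = k * ((c + c' - δ k / k) * w) := by
    have h3 : k * ((c + c' - δ k / k) * w) = (c + c') * (k * w) - δ k * w := by
      field_simp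
    rw [h3]
    linear_combination h1
  exact mul_left_cancel₀ hk h2

end aux

theorem bad_line {K : Type*} [Field K] [CharZero K] {q : ℕ} (hq : q = 4)
    (a : Sym (Fin 3) q → K) (D : Sym (Fin 3) q → Derivation ℤ K K)
    (hD : ∀ I J, D J (a I) = if I = J then 1 else 0) (u v : Fin 3 → K) (b b' : Fin 3)
    (hpi : u b * v b' - u b' * v b ≠ 0) (hv : form a v ≠ 0) (h : Polynomial K) (h0 : h ≠ 0)
    (n : ℕ) (hdvd : Pool.Agent.Helper10.LB.lf a u v ∣ h ^ n) (hdeg : h.natDegree < 3)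
    (δ : Derivation ℤ K K) (hδ : ∀ J, δ (a J) = 0) :
    ∃ c : K, ∀ j l, δ (u j * v l - u l * v j) = c * (u j * v l - u l * v j) := by
  classical
  let E := h.SplittingField
  let φ : K →+* E := algebraMap K E
  have hφ : Function.Injective φ := φ.injective
  have : CharZero E := charZero_of_injective_algebraMap hφ
  have hhK0 : h.map φ ≠ 0 := (Polynomial.map_ne_zero_iff hφ).2 h0
  have hhK : (h.map φ).Splits := Polynomial.SplittingField.splits h
  obtain ⟨ρ₁, ρ₂, hρ, hroots⟩ := badLine_roots (h.map φ)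
    (by rw [Polynomial.natDegree_map]; omega)
  choose D' hD' using fun s => Pool.Agent.Helper10.LB.der_ext (K := E) (D s)
  obtain ⟨δ', hδ'⟩ := Pool.Agent.Helper10.LB.der_ext (K := E) δ
  have hDual : ∀ I J, D' J (φ (a I)) = if I = J then 1 else 0 := by
    intro I J
    have h1 := hD' J (a I)
    rw [hD I J] at h1
    rw [show D' J (φ (a I)) = _ from h1]
    split_ifs
    · exact map_one φ
    · exact map_zero φ
  -- the factorisation
  have hv' : form (fun J => φ (a J)) (fun l => φ (v l)) ≠ 0 := by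
    rw [← Pool.Agent.Helper10.LB.pd_map_form]
    exact (map_ne_zero φ).2 hv
  have hc := Pool.Agent.Helper10.LB.lf_coeff_top (fun J => φ (a J)) (fun l => φ (u l))
    (fun l => φ (v l))
  have hle := Pool.Agent.Helper10.LB.lf_natDegree_le (fun J => φ (a J)) (fun l => φ (u l))
    (fun l => φ (v l))
  have hdg : (Pool.Agent.Helper10.LB.lf (fun J => φ (a J)) (fun l => φ (u l))
      (fun l => φ (v l))).natDegree = q := by
    refine le_antisymm hle (Polynomial.le_natDegree_of_ne_zero ?_)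
    rw [hc]
    exact hv'
  have hf0 : Pool.Agent.Helper10.LB.lf (fun J => φ (a J)) (fun l => φ (u l))
      (fun l => φ (v l)) ≠ 0 := by
    intro h1
    rw [h1, Polynomial.coeff_zero] at hc
    exact hv' hc.symm
  obtain ⟨α, β, h1, h2⟩ := badLine_fact _ _ hf0 hhK0 hhK n (by
    rw [← Pool.Agent.Helper10.LB.lf_map, ← Polynomial.map_pow]
    exact Polynomial.map_dvd φ hdvd) ρ₁ ρ₂ hρ hroots
  have hαβ : α + β = q := h1.trans hdg
  rw [Polynomial.leadingCoeff, hdg, hc] at h2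
  have hk : ρ₂ - ρ₁ ≠ 0 := sub_ne_zero.2 hρ.symm
  have hmin : ∀ j l : Fin 3, (φ (u j) + ρ₁ * φ (v j)) * (φ (u l) + ρ₂ * φ (v l)) -
      (φ (u l) + ρ₁ * φ (v l)) * (φ (u j) + ρ₂ * φ (v j)) =
      (ρ₂ - ρ₁) * φ (u j * v l - u l * v j) := by
    intro j l
    rw [map_sub, map_mul, map_mul]
    ring
  have hdet : (φ (u b) + ρ₁ * φ (v b)) * (φ (u b') + ρ₂ * φ (v b')) -
      (φ (u b') + ρ₁ * φ (v b')) * (φ (u b) + ρ₂ * φ (v b)) ≠ 0 := by
    rw [hmin]
    exact mul_ne_zero hk ((map_ne_zero φ).2 hpi)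
  obtain ⟨c, c', hp, hr⟩ := tan_line hq (fun J => φ (a J)) D' hDual
    (fun l => φ (u l) + ρ₁ * φ (v l)) (fun l => φ (u l) + ρ₂ * φ (v l)) b b' hdet
    (form (fun J => φ (a J)) (fun l => φ (v l)) * ((ρ₂ - ρ₁) ^ α * (ρ₁ - ρ₂) ^ β)) β α
    ((Nat.add_comm β α).trans hαβ) (fun s t => by
      have h3 := badLine_hom (fun J => φ (a J)) (fun l => φ (u l)) (fun l => φ (v l)) ρ₁ ρ₂ α β
        hαβ h2 s t
      rw [h3, mul_pow, mul_pow]
      ring) δ' (fun J => by
      have h3 := hδ' (a J)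
      rw [hδ J, map_zero] at h3
      exact h3)
  have key : ∀ j l, φ (δ (u j * v l - u l * v j)) =
      (c + c' - δ' (ρ₂ - ρ₁) / (ρ₂ - ρ₁)) * φ (u j * v l - u l * v j) := by
    intro j l
    rw [← hδ']
    exact badLine_minor δ' _ _ c c' _ hk hp hr _ j l (hmin j l)
  have hw0 : φ (u b * v b' - u b' * v b) ≠ 0 := (map_ne_zero φ).2 hpi
  refine ⟨δ (u b * v b' - u b' * v b) / (u b * v b' - u b' * v b), fun j l => hφ ?_⟩
  have k1 := key b b'
  have k2 : c + c' - δ' (ρ₂ - ρ₁) / (ρ₂ - ρ₁) =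
      φ (δ (u b * v b' - u b' * v b)) / φ (u b * v b' - u b' * v b) := by
    rw [k1, mul_div_cancel_right₀ _ hw0]
  rw [key, k2, map_mul, map_div₀]

end Pool.Agent.Helper74.PQ
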