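import Pool.Agent.Helper74.PQ.KeyCL
import Pool.Agent.Helper8.LG.Poly

/-!
# PQ-COVER24: the statement of the engine

The integral points over a ring of finite type over `k₀` lie on finitely many conics over `M`.
-/

set_option autoImplicit false

namespace Pool.Agent.Helper74.PQ

open MvPolynomial
open Pool.Agent.Helper8.LG (form mon cf)

universe u v

/-- the statement of the engine -/
def Cover24 : Prop :=
  ∀ (k₀ : Type v) (M : Type u) [Field k₀] [Field M] [CharZero M] [Algebra k₀ M]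
    (_ : (⊤ : IntermediateField k₀ M).FG) (q : ℕ) (_ : q = 4) (F : MvPolynomial (Fin 3) M)
    (_ : F.IsHomogeneous q) (_ : ((2 + q).choose 2 : Cardinal) ≤
      Algebra.trdeg k₀ (IntermediateField.adjoin k₀ {z | ∃ J, z = coeff J F}))
    (A : Subalgebra k₀ M) (_ : A.FG),
    ∃ D : Sym (Fin 3) q → Derivation ℤ M M,
      (∀ I J, D J (cf q F I) = if I = J then 1 else 0) ∧
      ∀ i₀ : Fin 3, ∃ T : Finset (MvPolynomial (Fin 3) M),
        (∀ Q ∈ T, Q.IsHomogeneous 2 ∧ Q ≠ 0) ∧
        ∀ y : Fin 3 → M, y i₀ = 1 → eval y F ≠ 0 →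
          (∀ J : Sym (Fin 3) q, mon y J / eval y F ∈ A) → ∃ Q ∈ T, eval y Q = 0

end Pool.Agent.Helper74.PQ
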