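import Pool.Agent.Helper74.PQ.Defs
import Pool.Agent.Helper6.QS.Rat
import Pool.Agent.Helper6.QS.Der

/-!
# PQ-RATL: basic properties of the frame

`lrat_alg`, `lrat_der`: copies of `rat_alg`, `rat_der` of `Helper6/QS/Rat.lean` (the additional
hypothesis `RowBdd` is not used). `ln_of_mem`: a rational point lies on a rational line.
`ln_of_plu`: if the line through `x` and `y` has rational Pluecker coordinates, then it is a
rational line through `x` (cross product). `ln_of_der`: if `h ≠ 0`, `h . x = 0` and `δ h` is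
proportional to `h` for all derivations `δ` over `B`, then a multiple of `h` is rational
(`exists_der` of `Helper6/QS/Der.lean`, `lrat_alg`).
-/

set_option autoImplicit false

namespace Pool.Agent.Helper74.PQ

open scoped BigOperators
open MvPolynomial
open Pool.Agent.Helper8.LG (Bdd RowBdd form mon)
open Pool.Agent.Helper49.LN (cP mo hf pl)
open Pool.Agent.Helper6.QS
open Pool.Agent.Helper74.Q8 (rr)

variable {Ω : Type*} [Field Ω] {q : ℕ}

section

variable {σ : Type*} [Fintype σ] [DecidableEq σ] {D : Sym σ q → Derivation ℤ Ω Ω}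
  {a : Sym σ q → Ω} {B : Subfield Ω} {x : σ → Ω}

theorem lrat_alg (hB : LFrame D a B x) (y : Ω) (hy : IsAlgebraic B y) : y ∈ B := by
  classical
  have hy' : IsIntegral B y := hy.isIntegral
  set P : Polynomial B := minpoly B y with hP
  have hmon : P.Monic := minpoly.monic hy'
  set s : Finset Ω := (Finset.range P.natDegree).image fun i => (P.coeff i : Ω) with hs
  refine hB.rat s ?_ y 1 ?_
  · intro b hb
    rw [hs, Finset.mem_image] at hb
    obtain ⟨i, -, rfl⟩ := hb
    exact (P.coeff i).2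
  · intro O Δ hΔ hsO _
    rw [pow_one]
    have hdeg : (P.map (algebraMap B Ω)).natDegree = P.natDegree :=
      Polynomial.natDegree_map _
    refine Rat_int hΔ.1 (P := P.map (algebraMap B Ω)) (hmon.map _) ?_ ?_
    · rw [Polynomial.eval_map, ← Polynomial.aeval_def]
      exact minpoly.aeval B y
    · intro i hi
      rw [hdeg] at hi
      rw [Polynomial.coeff_map]
      exact hsO _ (Finset.mem_image.2 ⟨i, Finset.mem_range.2 hi, rfl⟩)

theorem lrat_der (hB : LFrame D a B x) (J : Sym σ q) (b : Ω) (hb : b ∈ B) : D J b ∈ B := by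
  classical
  refine hB.rat {b} (by simpa using hb) _ 3 ?_
  intro O Δ hΔ hsO _
  have hb1 : Δ * b ∈ O := hsO b (Finset.mem_singleton_self b)
  have h1 : Δ * D J (Δ * b) ∈ O := hΔ.2 J _ hb1
  have h2 : Δ * D J Δ ∈ O := hΔ.2 J _ hΔ.1
  have h3 : Δ ^ 3 * D J b = Δ * (Δ * D J (Δ * b)) - (Δ * b) * (Δ * D J Δ) := by
    rw [Derivation.leibniz]
    simp only [smul_eq_mul]
    ring
  rw [h3]
  exact O.toSubring.sub_mem (O.mul_mem _ _ hΔ.1 h1) (O.mul_mem _ _ hb1 h2)

end

theorem ln_of_mem {B : Subfield Ω} {x : Fin 3 → Ω} (hx : ∀ l, x l ∈ B) : Ln B x := by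
  by_cases h : x 0 = 0
  · refine ⟨![1, 0, 0], fun h1 => ?_, fun i => ?_, ?_⟩
    · have h2 := congrFun h1 0
      simp at h2
    · fin_cases i
      · exact B.one_mem
      · exact B.zero_mem
      · exact B.zero_mem
    · simp [dt, Fin.sum_univ_three, h]
  · refine ⟨![x 1, - x 0, 0], fun h1 => ?_, fun i => ?_, ?_⟩
    · have h2 := congrFun h1 1
      simp at h2
      exact h h2
    · fin_cases i
      · exact hx 1
      · exact B.neg_mem (hx 0)
      · exact B.zero_mem
    · simp [dt, Fin.sum_univ_three]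
      ring

theorem ln_of_plu {B : Subfield Ω} {x y : Fin 3 → Ω} (h0 : ∃ j b, x j * y b - x b * y j ≠ 0)
    (hB : ∀ j b, x j * y b - x b * y j ∈ B) : Ln B x := by
  refine ⟨![x 1 * y 2 - x 2 * y 1, x 2 * y 0 - x 0 * y 2, x 0 * y 1 - x 1 * y 0],
    fun h1 => ?_, fun i => ?_, ?_⟩
  · have e0 : x 1 * y 2 - x 2 * y 1 = 0 := congrFun h1 0
    have e1 : x 2 * y 0 - x 0 * y 2 = 0 := congrFun h1 1
    have e2 : x 0 * y 1 - x 1 * y 0 = 0 := congrFun h1 2
    obtain ⟨j, b, hjb⟩ := h0
    apply hjb
    fin_cases j <;> fin_cases b <;> simp only [Fin.zero_eta, Fin.mk_one, Fin.reduceFinMk] <;>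
      first
        | linear_combination e0
        | linear_combination e1
        | linear_combination e2
        | linear_combination -e0
        | linear_combination -e1
        | linear_combination -e2
        | ring
  · fin_cases i
    · exact hB 1 2
    · exact hB 2 0
    · exact hB 0 1
  · simp [dt, Fin.sum_univ_three]
    ring

theorem ln_of_der [CharZero Ω] {B : Subfield Ω} {x : Fin 3 → Ω}
    (hcl : ∀ y, IsAlgebraic B y → y ∈ B) (h : Fin 3 → Ω) (h0 : h ≠ 0) (hx : dt h x = 0)
    (hδ : ∀ δ : Derivation ℤ Ω Ω, (∀ b ∈ B, δ b = 0) → ∃ c : Ω, ∀ i, δ (h i) = c * h i) :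
    Ln B x := by
  obtain ⟨i0, hi0⟩ : ∃ i, h i ≠ 0 := by
    by_contra hc
    push Not at hc
    exact h0 (funext hc)
  refine ⟨fun i => h i * (h i0)⁻¹, fun h1 => ?_, fun i => ?_, ?_⟩
  · have h2 := congrFun h1 i0
    simp only [Pi.zero_apply] at h2
    rw [mul_inv_cancel₀ hi0] at h2
    exact one_ne_zero h2
  · apply hcl
    by_contra hna
    obtain ⟨δ, hδB, hne⟩ := exists_der B (h i * (h i0)⁻¹) hna
    apply hne
    obtain ⟨c, hc⟩ := hδ δ hδB
    have h3 : δ (h i) = δ (h i * (h i0)⁻¹ * h i0) := by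
      rw [inv_mul_cancel_right₀ hi0]
    rw [Derivation.leibniz, hc i, hc i0] at h3
    simp only [smul_eq_mul] at h3
    have h4 : h i * (h i0)⁻¹ * (c * h i0) = c * h i := by
      field_simp
    rw [h4] at h3
    have h5 : h i0 * δ (h i * (h i0)⁻¹) = 0 := by linear_combination -h3
    exact (mul_eq_zero.1 h5).resolve_left hi0
  · have h6 : dt (fun i => h i * (h i0)⁻¹) x = dt h x * (h i0)⁻¹ := by
      simp only [dt, Fin.sum_univ_three]
      ring
    rw [h6, hx, zero_mul]

end Pool.Agent.Helper74.PQ
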