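import Pool.Agent.Helper74.PQ.NormL

/-!
# PQ-SPANL: the forms vanishing at the point

`et_part`: `ev_cP_part` of `Helper6/QS/Ev.lean` (compare `dv_part`). `lw_span`: `l_0 = - ∑ l_b x_b`
(`x_0 = 1`). `et_span`: monomial by monomial, `X^J ≡ x^J X_0^q` modulo the ideal of the `lw_i`
(`X_b = x_b X_0 + lw_(b-1)`, induction on the multiset); compare `FinQ8_lin` in
`Helper74/Q8/FinQ8.lean`. `et_free`: consequence: two forms with the same value at `x` have the same
`et` modulo the `et (P lw_i)`. `et_zero`: a functional which kills all `et (P lw_i)`.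
`et_x_ne`: `gr . et (f) = - f(x)`.
-/

set_option autoImplicit false

namespace Pool.Agent.Helper74.PQ

open scoped BigOperators
open MvPolynomial
open Pool.Agent.Helper8.LG (Bdd RowBdd form mon)
open Pool.Agent.Helper49.LN (cP mo hf pl)
open Pool.Agent.Helper6.QS
open Pool.Agent.Helper74.Q8 (rr)

variable {Ω : Type*} [Field Ω] {q : ℕ} {D : Sym (Fin 3) q → Derivation ℤ Ω Ω}
  {a : Sym (Fin 3) q → Ω} {B : Subfield Ω} {x : Fin 3 → Ω}

/-- the ideal of the point -/
noncomputable def SpanL_I (x : Fin 3 → Ω) : Ideal (MvPolynomial (Fin 3) Ω) :=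
  Ideal.span {lf (lw x 0), lf (lw x 1)}

theorem SpanL_lf (hx : x 0 = 1) (i : Fin 2) :
    (lf (lw x i) : MvPolynomial (Fin 3) Ω) = X i.succ - C (x i.succ) * X 0 := by
  unfold lf lw rr
  simp only [hx, sub_smul, Finset.sum_sub_distrib, ite_smul, one_smul, zero_smul,
    mul_ite, mul_one, mul_zero, Finset.sum_ite_eq', Finset.mem_univ, if_true, smul_eq_C_mul]

theorem SpanL_X (hx : x 0 = 1) (b : Fin 3) :
    (X b - C (x b) * X 0 : MvPolynomial (Fin 3) Ω) ∈ SpanL_I x := by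
  have key : ∀ i : Fin 2, (X i.succ - C (x i.succ) * X 0 : MvPolynomial (Fin 3) Ω) ∈
      SpanL_I x := by
    intro i
    rw [← SpanL_lf hx i]
    refine Ideal.subset_span ?_
    fin_cases i
    · exact Set.mem_insert _ _
    · exact Set.mem_insert_of_mem _ rfl
  refine Fin.cases ?_ key b
  rw [hx, C_1, one_mul, sub_self]
  exact zero_mem _

theorem SpanL_mo (hx : x 0 = 1) (K : Multiset (Fin 3)) :
    mo Ω K - C (eval x (mo Ω K)) * X 0 ^ Multiset.card K ∈ SpanL_I x := by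
  induction K using Multiset.induction_on with
  | empty =>
    have h1 : mo Ω (0 : Multiset (Fin 3)) = 1 := by simp [mo]
    rw [h1, map_one, C_1, Multiset.card_zero, pow_zero, one_mul, sub_self]
    exact zero_mem _
  | cons b K ih =>
    have h1 : mo Ω (b ::ₘ K) = X b * mo Ω K := by
      rw [mo, mo, Multiset.map_cons, Multiset.prod_cons]
    have h2 : mo Ω (b ::ₘ K) - C (eval x (mo Ω (b ::ₘ K))) * X 0 ^ Multiset.card (b ::ₘ K) =
        X b * (mo Ω K - C (eval x (mo Ω K)) * X 0 ^ Multiset.card K) +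
          C (eval x (mo Ω K)) * X 0 ^ Multiset.card K * (X b - C (x b) * X 0) := by
      rw [h1, map_mul, eval_X, C_mul, Multiset.card_cons, pow_succ]
      ring
    rw [h2]
    exact add_mem (Ideal.mul_mem_left _ _ ih) (Ideal.mul_mem_left _ _ (SpanL_X hx b))

theorem SpanL_hom (hx : x 0 = 1) (n : ℕ) (f : MvPolynomial (Fin 3) Ω) (hf : f.IsHomogeneous n) :
    f - C (eval x f) * X 0 ^ n ∈ SpanL_I x := by
  have h0 : f - C (eval x f) * X 0 ^ n = ∑ m ∈ f.support, coeff m f •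
      (mo Ω (Finsupp.toMultiset m) - C (eval x (mo Ω (Finsupp.toMultiset m))) * X 0 ^ n) := by
    have h1 := Pool.Agent.Helper49.LN.mo_span f
    have h2 : eval x f = ∑ m ∈ f.support, coeff m f * eval x (mo Ω (Finsupp.toMultiset m)) := by
      conv_lhs => rw [h1]
      rw [map_sum]
      exact Finset.sum_congr rfl fun m _ => by rw [smul_eval]
    have h3 : f - C (eval x f) * X 0 ^ n =
        (∑ m ∈ f.support, coeff m f • mo Ω (Finsupp.toMultiset m)) -
          C (∑ m ∈ f.support, coeff m f * eval x (mo Ω (Finsupp.toMultiset m))) * X 0 ^ n := by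
      rw [← h1, ← h2]
    rw [h3, map_sum, Finset.sum_mul, ← Finset.sum_sub_distrib]
    refine Finset.sum_congr rfl fun m _ => ?_
    rw [smul_sub, C_mul, smul_eq_C_mul, smul_eq_C_mul, mul_assoc]
  rw [h0]
  refine Submodule.sum_mem _ fun m hm => ?_
  have hc : Multiset.card (Finsupp.toMultiset m) = n := by
    rw [← Pool.Agent.Helper49.LN.toFinsupp_degree, Finsupp.toMultiset_toFinsupp]
    by_contra hne
    exact (mem_support_iff.1 hm) (hf.coeff_eq_zero hne)
  rw [smul_eq_C_mul]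
  refine Ideal.mul_mem_left _ _ ?_
  have h3 := SpanL_mo hx (Finsupp.toMultiset m)
  rwa [hc] at h3

/-- `et` only sees the part of degree `k` of `f` in `f g`, `g` a form of degree `q - k` -/
theorem et_part (D : Sym (Fin 3) q → Derivation ℤ Ω Ω) (a : Sym (Fin 3) q → Ω)
    (x : Fin 3 → Ω) (k e : ℕ) (hq : k + e = q) (f g : MvPolynomial (Fin 3) Ω)
    (hg : g.IsHomogeneous e) : et D a x (f * g) = et D a x (homogeneousComponent k f * g) :=
  ev_cP_part (Ω := Ω) (fun J l => D J (x l) - (q : Ω)⁻¹ * (D J (form a x) / form a x) * x l)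
    k e hq f g hg

theorem lw_x (hx : x 0 = 1) (i : Fin 2) : dt (lw x i) x = 0 := by
  unfold dt lw rr
  simp only [sub_mul, mul_assoc, ite_mul, one_mul, zero_mul, Finset.sum_sub_distrib,
    mul_ite, mul_zero, Finset.sum_ite_eq', Finset.mem_univ, if_true]
  ring

theorem lw_span (hx : x 0 = 1) (l : Fin 3 → Ω) (hl : dt l x = 0) :
    l = l 1 • lw x 0 + l 2 • lw x 1 := by
  have h1 : l 0 = -(l 1 * x 1) - l 2 * x 2 := by
    have h2 := hl
    rw [dt, Fin.sum_univ_three, hx, mul_one] at h2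
    linear_combination h2
  funext i
  fin_cases i
  · show l 0 = l 1 * lw x 0 0 + l 2 * lw x 1 0
    have e0 : lw x 0 0 = - x 1 := by simp [lw, rr, hx]
    have e1 : lw x 1 0 = - x 2 := by simp [lw, rr, hx]
    rw [e0, e1, h1]
    ring
  · show l 1 = l 1 * lw x 0 1 + l 2 * lw x 1 1
    have e0 : lw x 0 1 = 1 := by simp [lw, rr, hx]
    have e1 : lw x 1 1 = 0 := by simp [lw, rr, hx]
    rw [e0, e1]
    ring
  · show l 2 = l 1 * lw x 0 2 + l 2 * lw x 1 2
    have e0 : lw x 0 2 = 0 := by simp [lw, rr, hx]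
    have e1 : lw x 1 2 = 1 := by simp [lw, rr, hx]
    rw [e0, e1]
    ring

theorem et_span (D : Sym (Fin 3) q → Derivation ℤ Ω Ω) (a : Sym (Fin 3) q → Ω) (hx : x 0 = 1)
    (hq : 0 < q) (f : MvPolynomial (Fin 3) Ω) (hf : ev q x f = 0) :
    ∃ P : Fin 2 → MvPolynomial (Fin 3) Ω,
      et D a x f = et D a x (P 0 * lf (lw x 0)) + et D a x (P 1 * lf (lw x 1)) := by
  have h1 := SpanL_hom hx q (homogeneousComponent q f) (homogeneousComponent_isHomogeneous q f)
  rw [← ev_part, hf, C_0, zero_mul, sub_zero] at h1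
  obtain ⟨P, Q, h2⟩ := Ideal.mem_span_pair.1 h1
  refine ⟨![P, Q], ?_⟩
  have h3 := et_part D a x q 0 (add_zero q) f 1 (isHomogeneous_one (Fin 3) Ω)
  rw [mul_one, mul_one] at h3
  rw [h3, ← h2, map_add]
  rfl

/-- linear functionals which kill the `et (P lw_i)` -/
theorem et_zero {V : Type*} [AddCommGroup V] [Module Ω V] (D : Sym (Fin 3) q → Derivation ℤ Ω Ω)
    (a : Sym (Fin 3) q → Ω) (hx : x 0 = 1) (hq : 0 < q) (Λ : (Fin 3 → Ω) →ₗ[Ω] V)
    (hΛ : ∀ P i, Λ (et D a x (P * lf (lw x i))) = 0) (f : MvPolynomial (Fin 3) Ω)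
    (hf : ev q x f = 0) : Λ (et D a x f) = 0 := by
  obtain ⟨P, hP⟩ := et_span D a hx hq f hf
  rw [hP, map_add, hΛ, hΛ, add_zero]

/-- `X_m^q / x_m^q` instead of `X_0^q` -/
theorem et_pow {V : Type*} [AddCommGroup V] [Module Ω V] (D : Sym (Fin 3) q → Derivation ℤ Ω Ω)
    (a : Sym (Fin 3) q → Ω) (hx : x 0 = 1) (hq : 0 < q) (Λ : (Fin 3 → Ω) →ₗ[Ω] V)
    (hΛ : ∀ P i, Λ (et D a x (P * lf (lw x i))) = 0) (m : Fin 3) :
    Λ (et D a x (X m ^ q)) = x m ^ q • Λ (et D a x (X 0 ^ q)) := by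
  have h1 : ev q x (X m ^ q - x m ^ q • X 0 ^ q : MvPolynomial (Fin 3) Ω) = 0 := by
    rw [map_sub, map_smul, ev_hom q x _ (by simpa using (isHomogeneous_X Ω m).pow q),
      ev_hom q x _ (by simpa using (isHomogeneous_X Ω (0 : Fin 3)).pow q), map_pow, map_pow,
      eval_X, eval_X, hx, one_pow, smul_eq_mul, mul_one, sub_self]
  have h2 := et_zero D a hx hq Λ hΛ _ h1
  rw [map_sub, map_smul, map_sub, map_smul] at h2
  exact sub_eq_zero.1 h2

theorem SpanL_ev (n : ℕ) (hn : 0 < n) (x l : Fin 3 → Ω) (hl : dt l x = 0)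
    (P : MvPolynomial (Fin 3) Ω) : ev n x (P * lf l) = 0 := by
  obtain ⟨k, rfl⟩ : ∃ k, n = k + 1 := ⟨n - 1, by omega⟩
  rw [ev_lf, hl, mul_zero]

/-- the vectors `et (P l)`, `l . x = 0`, are orthogonal to the gradient -/
theorem gr_lw (h : PtL D a B x) [CharZero Ω] (P : MvPolynomial (Fin 3) Ω) (l : Fin 3 → Ω)
    (hl : dt l x = 0) : dt (gr a x) (et D a x (P * lf l)) = 0 := by
  have hq0 : 0 < q := by rw [h.hq]; norm_num
  rw [gr_et D a h.frame.dual (Nat.cast_ne_zero.2 hq0.ne') x h.ne, SpanL_ev q hq0 x l hl, neg_zero]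

theorem gr_pow (h : PtL D a B x) [CharZero Ω] : dt (gr a x) (et D a x (X 0 ^ q)) = -1 := by
  have hq0 : 0 < q := by rw [h.hq]; norm_num
  rw [gr_et D a h.frame.dual (Nat.cast_ne_zero.2 hq0.ne') x h.ne,
    ev_hom q x _ (by simpa using (isHomogeneous_X Ω (0 : Fin 3)).pow q), map_pow, eval_X, h.one,
    one_pow]

theorem SpanL_gr_ne (h : PtL D a B x) [CharZero Ω] : gr a x ≠ 0 := by
  intro h0
  have h1 := gr_x a x
  rw [h0] at h1
  have h2 : dt (0 : Fin 3 → Ω) x = 0 := by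
    rw [Pool.Agent.Helper74.Q8.dt_comm', Pool.Agent.Helper74.Q8.dt_zero']
  rw [h2] at h1
  have hq0 : 0 < q := by rw [h.hq]; norm_num
  rcases mul_eq_zero.1 h1.symm with h3 | h3
  · exact hq0.ne' (Nat.cast_eq_zero.1 h3)
  · exact h.ne h3

/-- three vectors orthogonal to the gradient are linearly dependent -/
theorem gr_det (h : PtL D a B x) [CharZero Ω] (u v w : Fin 3 → Ω) (hu : dt (gr a x) u = 0)
    (hv : dt (gr a x) v = 0) (hw : dt (gr a x) w = 0) :
    Matrix.det (Matrix.of ![u, v, w]) = 0 := by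
  refine Matrix.exists_mulVec_eq_zero_iff.1 ⟨gr a x, SpanL_gr_ne h, ?_⟩
  have key : ∀ z : Fin 3 → Ω, dt (gr a x) z = 0 → z ⬝ᵥ gr a x = 0 := by
    intro z hz
    rw [← hz]
    exact Finset.sum_congr rfl fun i _ => mul_comm _ _
  funext i
  fin_cases i
  · exact key u hu
  · exact key v hv
  · exact key w hw

/-- in the equivariant case the `et (l ∂F/∂X_i)`, `l . x = 0`, vanish -/
theorem eqv_lf (hE : Eqv D a x) (l : Fin 3 → Ω) (hl : dt l x = 0) (i : Fin 3) :
    et D a x (pderiv i (Fp a) * lf l) = 0 := by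
  have h1 : (pderiv i (Fp a) * lf l : MvPolynomial (Fin 3) Ω) =
      ∑ j, l j • (X j * pderiv i (Fp a)) := by
    rw [lf, Finset.mul_sum]
    refine Finset.sum_congr rfl fun j _ => ?_
    rw [mul_smul_comm, mul_comm]
  rw [h1, map_sum]
  have h2 : ∀ j ∈ Finset.univ, et D a x (l j • (X j * pderiv i (Fp a))) =
      -(Pi.single i (l j * x j) : Fin 3 → Ω) := by
    intro j _
    rw [map_smul, hE i j, smul_neg, ← Pi.single_smul, smul_eq_mul]
  rw [Finset.sum_congr rfl h2, Finset.sum_neg_distrib, neg_eq_zero]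
  funext k
  rw [Finset.sum_apply, Pi.zero_apply]
  by_cases hk : k = i
  · subst hk
    simp only [Pi.single_eq_same]
    exact hl
  · exact Finset.sum_eq_zero fun j _ => Pi.single_eq_of_ne hk _

end Pool.Agent.Helper74.PQ
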