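import Pool.Agent.Helper74.PQ.Wt
import Pool.Agent.Helper74.PQ.RatL
import Pool.Agent.Helper74.PQ.SpanL

/-!
# PQ-PTTL: a rational point which governs the motion

`z` is rational, not proportional to `x`; `ϑ . et f = c f(z)` for all forms `f` with `f(x) = 0`,
`c ≠ 0`; `et (P1 l) ≠ 0` for `l ≠ 0`, `l . x = 0`. Then `x` is rational.
`μ_ij = x_i z_j - x_j z_i`, not all zero; `m = x × z` (cross product, entries `± μ_ij`):
`m . x = m . z = 0`, `m ≠ 0`, `et (P1 m) ≠ 0`, `ϑ . et (P1 m) = 0`, `gr . et (P1 m) = 0`. For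
`f_0` with `f_0(z) = 0`, `f_0(x) ≠ 0` the cross product of `et (P1 m)` and `et f_0 / f_0(x)` does not
depend on `f_0` (the difference `et (f_0 / f_0(x) - f_0' / f_0'(x))` is orthogonal to `gr` and to
`ϑ`, which are independent on.. : `gr^⊥ ∩ ϑ^⊥` has dimension one because `ϑ ≠ 0` on `gr^⊥`, so the
difference is a multiple of `et (P1 m)`), and is not zero (`gr . et f_0 / f_0(x) = -1`). At `O` with
maximal coordinate `x_t` and `μ_ij` maximal (`WA.cover`, `WA.of_C`: `μ_kl / μ_ij` has weight 0)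
take `f_0 = (z_j X_i - z_i X_j) X_t^(q-1)`, `f_0(x) = μ_ij x_t^(q-1)`: the cross product is
`et (P1 m') × et (f_0) / x_t^(q-1)` with `m' = m / μ_ij` of weight `0`, so it has weight
`1 + 1 - 3 = -1`: `wa_pt`.
-/

set_option autoImplicit false

namespace Pool.Agent.Helper74.PQ

open scoped BigOperators
open MvPolynomial
open Pool.Agent.Helper8.LG (Bdd RowBdd form mon)
open Pool.Agent.Helper49.LN (cP mo hf pl)
open Pool.Agent.Helper6.QS
open Pool.Agent.Helper74.Q8 (rr)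

section PtTL_gen

variable {Ω : Type*} [Field Ω]

theorem PtTL_dt3 (u v : Fin 3 → Ω) : dt u v = u 0 * v 0 + u 1 * v 1 + u 2 * v 2 := by
  unfold dt
  rw [Fin.sum_univ_three]

/-- the coefficients of the linear form `z_l X_j - z_j X_l` -/
def PtTL_r (z : Fin 3 → Ω) (j l : Fin 3) (i : Fin 3) : Ω :=
  z l * (if i = j then 1 else 0) - z j * (if i = l then 1 else 0)

theorem PtTL_dt_r (z t : Fin 3 → Ω) (j l : Fin 3) : dt (PtTL_r z j l) t = pl t z j l := by
  have h : ∀ (c : Fin 3) (r : Ω), ∑ i, r * (if i = c then (1 : Ω) else 0) * t i = r * t c := by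
    intro c r
    rw [Finset.sum_eq_single c]
    · rw [if_pos rfl, mul_one]
    · intro i _ hi
      rw [if_neg hi, mul_zero, zero_mul]
    · intro hc
      exact absurd (Finset.mem_univ c) hc
  unfold dt PtTL_r
  simp only [sub_mul, Finset.sum_sub_distrib, h]
  unfold pl
  ring

theorem PtTL_ev (k : ℕ) {q : ℕ} (hq : q = k + 1) (x r : Fin 3 → Ω) (m : Fin 3) :
    ev q x (X m ^ k * lf r : MvPolynomial (Fin 3) Ω) = x m ^ k * dt r x := by
  subst hq
  rw [ev_lf, ev_hom k x (X m ^ k) (by simpa using (isHomogeneous_X Ω m).pow k), map_pow, eval_X]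

theorem PtTL_ev0 (k : ℕ) {q : ℕ} (hq : q = k + 1) (x l : Fin 3 → Ω)
    (P : MvPolynomial (Fin 3) Ω) (hl : dt l x = 0) : ev q x (P * lf l) = 0 := by
  subst hq
  rw [ev_lf, hl, mul_zero]

theorem PtTL_mul3 (N v t : Fin 3 → Ω) (hv : ∀ i j, N i * v j = N j * v i)
    (ht : ∀ i j, N i * t j = N j * t i) (k i j : Fin 3) : N k * pl v t i j = 0 := by
  unfold pl
  have h1 := hv k i
  have h2 := ht i j
  have h3 := hv j k
  linear_combination t j * h1 + v k * h2 + t i * h3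

/-- two vectors orthogonal to two independent vectors -/
theorem PtTL_zero (g θ v t : Fin 3 → Ω) (h1 : dt g v = 0) (h2 : dt θ v = 0) (h3 : dt g t = 0)
    (h4 : dt θ t = 0) (hN : ∃ i j, pl g θ i j ≠ 0) (i j : Fin 3) : pl v t i j = 0 := by
  obtain ⟨N, hN'⟩ : ∃ N : Fin 3 → Ω, N = ![pl g θ 1 2, pl g θ 2 0, pl g θ 0 1] := ⟨_, rfl⟩
  have n0 : N 0 = pl g θ 1 2 := by rw [hN']; rfl
  have n1 : N 1 = pl g θ 2 0 := by rw [hN']; rfl
  have n2 : N 2 = pl g θ 0 1 := by rw [hN']; rfl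
  have key : ∀ u : Fin 3 → Ω, dt g u = 0 → dt θ u = 0 → ∀ i j, N i * u j = N j * u i := by
    intro u e1 e2
    rw [PtTL_dt3] at e1 e2
    have c01 : N 0 * u 1 = N 1 * u 0 := by
      rw [n0, n1]
      unfold pl
      linear_combination θ 2 * e1 - g 2 * e2
    have c02 : N 0 * u 2 = N 2 * u 0 := by
      rw [n0, n2]
      unfold pl
      linear_combination -θ 1 * e1 + g 1 * e2
    have c12 : N 1 * u 2 = N 2 * u 1 := by
      rw [n1, n2]
      unfold pl
      linear_combination θ 0 * e1 - g 0 * e2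
    intro i j
    fin_cases i <;> fin_cases j
    · rfl
    · exact c01
    · exact c02
    · exact c01.symm
    · rfl
    · exact c12
    · exact c02.symm
    · exact c12.symm
    · rfl
  have hk : ∃ k, N k ≠ 0 := by
    by_contra hcon
    push Not at hcon
    have m0 : pl g θ 1 2 = 0 := by rw [← n0]; exact hcon 0
    have m1 : pl g θ 2 0 = 0 := by rw [← n1]; exact hcon 1
    have m2 : pl g θ 0 1 = 0 := by rw [← n2]; exact hcon 2
    obtain ⟨i, j, hij⟩ := hN
    apply hij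
    unfold pl at m0 m1 m2 ⊢
    fin_cases i <;> fin_cases j <;> simp only [Fin.zero_eta, Fin.mk_one, Fin.reduceFinMk]
    · ring
    · exact m2
    · linear_combination -m1
    · linear_combination -m2
    · ring
    · exact m0
    · exact m1
    · linear_combination -m0
    · ring
  obtain ⟨k, hk⟩ := hk
  exact (mul_eq_zero.1 (PtTL_mul3 N v t (key v h1 h2) (key t h3 h4) k i j)).resolve_left hk

/-- a vector outside of the plane -/
theorem PtTL_ne (g v t : Fin 3 → Ω) (hv : v ≠ 0) (h1 : dt g v = 0) (h2 : dt g t ≠ 0) :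
    ∃ i j, pl v t i j ≠ 0 := by
  by_contra hcon
  push Not at hcon
  obtain ⟨k, hk⟩ : ∃ k, v k ≠ 0 := by
    by_contra h
    push Not at h
    exact hv (funext h)
  have h3 : v k * dt g t = t k * dt g v := by
    unfold dt
    rw [Finset.mul_sum, Finset.mul_sum]
    refine Finset.sum_congr rfl fun i _ => ?_
    have h4 := hcon k i
    unfold pl at h4
    linear_combination g i * h4
  rw [h1, mul_zero] at h3
  exact h2 ((mul_eq_zero.1 h3).resolve_left hk)

/-- the cross product -/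
theorem PtTL_cross (x z : Fin 3 → Ω) (hzx : ∃ i j, pl x z i j ≠ 0) :
    ∃ m : Fin 3 → Ω, m ≠ 0 ∧ dt m x = 0 ∧ dt m z = 0 ∧
      ∀ i, ∃ j l, m i = pl x z j l := by
  obtain ⟨m, hm⟩ : ∃ m : Fin 3 → Ω, m = ![pl x z 1 2, pl x z 2 0, pl x z 0 1] := ⟨_, rfl⟩
  have m0 : m 0 = pl x z 1 2 := by rw [hm]; rfl
  have m1 : m 1 = pl x z 2 0 := by rw [hm]; rfl
  have m2 : m 2 = pl x z 0 1 := by rw [hm]; rfl
  refine ⟨m, ?_, ?_, ?_, ?_⟩
  · intro h0
    obtain ⟨i, j, hij⟩ := hzx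
    apply hij
    have k0 : pl x z 1 2 = 0 := by rw [← m0, h0]; rfl
    have k1 : pl x z 2 0 = 0 := by rw [← m1, h0]; rfl
    have k2 : pl x z 0 1 = 0 := by rw [← m2, h0]; rfl
    unfold pl at k0 k1 k2 ⊢
    fin_cases i <;> fin_cases j <;> simp only [Fin.zero_eta, Fin.mk_one, Fin.reduceFinMk]
    · ring
    · exact k2
    · linear_combination -k1
    · linear_combination -k2
    · ring
    · exact k0
    · exact k1
    · linear_combination -k0
    · ring
  · rw [PtTL_dt3, m0, m1, m2]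
    unfold pl
    ring
  · rw [PtTL_dt3, m0, m1, m2]
    unfold pl
    ring
  · intro i
    fin_cases i
    · exact ⟨1, 2, m0⟩
    · exact ⟨2, 0, m1⟩
    · exact ⟨0, 1, m2⟩

end PtTL_gen

variable {Ω : Type*} [Field Ω] [CharZero Ω] {q : ℕ} {D : Sym (Fin 3) q → Derivation ℤ Ω Ω}
  {a : Sym (Fin 3) q → Ω} {B : Subfield Ω} {x : Fin 3 → Ω}

/-- `et (P l)` is linear in `l` -/
theorem PtTL_et_lf (D : Sym (Fin 3) q → Derivation ℤ Ω Ω) (a : Sym (Fin 3) q → Ω)
    (x : Fin 3 → Ω) (P : MvPolynomial (Fin 3) Ω) (l : Fin 3 → Ω) :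
    et D a x (P * lf l) = ∑ b, l b • et D a x (P * X b) := by
  unfold lf
  rw [Finset.mul_sum, map_sum]
  exact Finset.sum_congr rfl fun b _ => by rw [mul_smul_comm, map_smul]

theorem pt_l (h : PtL D a B x) (P1 : MvPolynomial (Fin 3) Ω) (hP1 : RatP B P1)
    (hinj : ∀ l : Fin 3 → Ω, l ≠ 0 → dt l x = 0 → et D a x (P1 * lf l) ≠ 0)
    (z : Fin 3 → Ω) (hz : ∀ i, z i ∈ B) (hzx : ∃ i j, x i * z j - x j * z i ≠ 0)
    (ϑ : Fin 3 → Ω) (c : Ω) (hc : c ≠ 0)
    (hϑ : ∀ f, ev q x f = 0 → dt ϑ (et D a x f) = c * ev q z f) : ∀ l, x l ∈ B := by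
  have hq0 : (q : Ω) ≠ 0 := Nat.cast_ne_zero.2 (by have := h.hq; omega)
  have hq : q = 3 + 1 := h.hq
  have hzx' : ∃ i j, pl x z i j ≠ 0 := hzx
  obtain ⟨j₀, l₀, hjl⟩ := hzx'
  obtain ⟨m₀, hm0, hmx, hmz, hmμ⟩ := PtTL_cross x z ⟨j₀, l₀, hjl⟩
  obtain ⟨v, hv⟩ : ∃ v, v = et D a x (P1 * lf m₀) := ⟨_, rfl⟩
  have hv0 : v ≠ 0 := by rw [hv]; exact hinj m₀ hm0 hmx
  have gv : dt (gr a x) v = 0 := by rw [hv]; exact gr_lw h P1 m₀ hmx
  have tv : dt ϑ v = 0 := by
    rw [hv, hϑ _ (PtTL_ev0 3 hq x m₀ P1 hmx), PtTL_ev0 3 hq z m₀ P1 hmz, mul_zero]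
  have hget : ∀ f, dt (gr a x) (et D a x f) = - ev q x f :=
    gr_et D a h.frame.dual hq0 x h.ne
  -- the reference form
  obtain ⟨f, hf⟩ : ∃ f : MvPolynomial (Fin 3) Ω, f = X 0 ^ 3 * lf (PtTL_r z j₀ l₀) := ⟨_, rfl⟩
  have evf : ev q x f = pl x z j₀ l₀ := by
    rw [hf, PtTL_ev 3 hq, h.one, one_pow, one_mul, PtTL_dt_r]
  have evfz : ev q z f = 0 := by
    rw [hf, PtTL_ev 3 hq, PtTL_dt_r]
    unfold pl
    ring
  have hf0 : ev q x f ≠ 0 := by rw [evf]; exact hjl
  have hgf : dt (gr a x) (et D a x f) ≠ 0 := by rw [hget]; exact neg_ne_zero.2 hf0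
  -- `gr` and `ϑ` are independent
  have hind : ∃ i j, pl (gr a x) ϑ i j ≠ 0 := by
    -- a form which vanishes at `x` and not at `z`
    obtain ⟨k, hk⟩ : ∃ k, z k ≠ 0 := by
      by_contra hcon
      push Not at hcon
      apply hjl
      unfold pl
      rw [hcon, hcon]
      ring
    obtain ⟨g, hg⟩ : ∃ g : MvPolynomial (Fin 3) Ω, g = X k ^ 3 * lf (PtTL_r x j₀ l₀) := ⟨_, rfl⟩
    have e1 : ev q x g = 0 := by
      rw [hg, PtTL_ev 3 hq, PtTL_dt_r]
      unfold pl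
      ring
    have e2 : ev q z g ≠ 0 := by
      rw [hg, PtTL_ev 3 hq, PtTL_dt_r]
      refine mul_ne_zero (pow_ne_zero 3 hk) ?_
      intro h0
      apply hjl
      unfold pl at h0 ⊢
      linear_combination - h0
    have e3 : dt ϑ (et D a x g) ≠ 0 := by
      rw [hϑ g e1]
      exact mul_ne_zero hc e2
    have e4 : dt (gr a x) (et D a x g) = 0 := by rw [hget, e1, neg_zero]
    by_contra hcon
    push Not at hcon
    obtain ⟨s, hs⟩ : ∃ s, gr a x s ≠ 0 := by
      by_contra h0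
      push Not at h0
      apply hgf
      unfold dt
      exact Finset.sum_eq_zero fun i _ => by rw [h0, zero_mul]
    have h3 : gr a x s * dt ϑ (et D a x g) = ϑ s * dt (gr a x) (et D a x g) := by
      unfold dt
      rw [Finset.mul_sum, Finset.mul_sum]
      refine Finset.sum_congr rfl fun i _ => ?_
      have h4 := hcon s i
      unfold pl at h4
      linear_combination et D a x g i * h4
    rw [e4, mul_zero] at h3
    exact e3 ((mul_eq_zero.1 h3).resolve_left hs)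
  obtain ⟨i, j, hM⟩ := PtTL_ne (gr a x) v (et D a x f) hv0 gv hgf
  -- independence of the form
  have indep : ∀ g, ev q z g = 0 → pl v (et D a x g) i j * ev q x f =
      ev q x g * pl v (et D a x f) i j := by
    intro g hg
    have e1 : ev q x (ev q x f • g - ev q x g • f) = 0 := by
      rw [map_sub, map_smul, map_smul, smul_eq_mul, smul_eq_mul]
      ring
    have e2 : ev q z (ev q x f • g - ev q x g • f) = 0 := by
      rw [map_sub, map_smul, map_smul, hg, evfz, smul_zero, smul_zero, sub_zero]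
    have h3 := PtTL_zero (gr a x) ϑ v (et D a x (ev q x f • g - ev q x g • f)) gv tv
      (by rw [hget, e1, neg_zero]) (by rw [hϑ _ e1, e2, mul_zero]) hind i j
    rw [map_sub, map_smul, map_smul] at h3
    unfold pl at h3 ⊢
    simp only [Pi.sub_apply, Pi.smul_apply, smul_eq_mul] at h3
    linear_combination h3
  -- the end
  refine wa_pt h.frame h.one (y := pl v (et D a x f) i j / ev q x f) (div_ne_zero hM hf0)
    fun m hm => ?_
  refine WA.cover (fun p : Fin 3 × Fin 3 => pl x z p.1 p.2) ⟨(j₀, l₀), hjl⟩ fun p hp => ?_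
  obtain ⟨j', l'⟩ := p
  obtain ⟨μ, hμ⟩ : ∃ μ, μ = pl x z j' l' := ⟨_, rfl⟩
  have hμ0 : μ ≠ 0 := by rw [hμ]; exact hp
  obtain ⟨C, hC⟩ : ∃ C : ValuationSubring Ω → Prop, C = fun O => True ∧
      ∀ p : Fin 3 × Fin 3, pl x z p.1 p.2 / pl x z j' l' ∈ O := ⟨_, rfl⟩
  show WA D a B x (fun O => True ∧ ∀ p : Fin 3 × Fin 3, pl x z p.1 p.2 / pl x z j' l' ∈ O) m (-1)
    (pl v (et D a x f) i j / ev q x f)
  rw [← hC]
  obtain ⟨r, hr⟩ : ∃ r : Fin 3 → Ω, r = fun i => m₀ i / μ := ⟨_, rfl⟩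
  have hmr : m₀ = μ • r := by
    funext i
    rw [Pi.smul_apply, smul_eq_mul, hr, mul_div_cancel₀ _ hμ0]
  have hrw : ∀ b, WA D a B x C m 0 (r b) := by
    intro b
    refine WA.of_C fun O hO => ?_
    rw [hC] at hO
    obtain ⟨j1, l1, h1⟩ := hmμ b
    rw [hr, hμ]
    simp only
    rw [h1]
    exact hO.2 (j1, l1)
  obtain ⟨v', hv'⟩ : ∃ v', v' = et D a x (P1 * lf r) := ⟨_, rfl⟩
  have hvv : v = μ • v' := by
    rw [hv, hv', hmr, Pool.Agent.Helper74.Q8.lf_smul', mul_smul_comm, map_smul]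
  have wv : ∀ s, WA D a B x C m 1 (v' s) := by
    intro s
    rw [hv', PtTL_et_lf, Finset.sum_apply]
    refine WA.sum _ _ fun b _ => ?_
    rw [Pi.smul_apply, smul_eq_mul]
    have h1 := (hrw b).mul hm (wa_et (C := C) h.frame hq0 h.ne hm (P1 * X b)
      (ratP_mul hP1 (ratP_X b)) s)
    rwa [zero_add] at h1
  obtain ⟨g, hg⟩ : ∃ g : MvPolynomial (Fin 3) Ω, g = X m ^ 3 * lf (PtTL_r z j' l') := ⟨_, rfl⟩
  have evg : ev q x g = x m ^ 3 * μ := by rw [hg, PtTL_ev 3 hq, PtTL_dt_r, hμ]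
  have evgz : ev q z g = 0 := by
    rw [hg, PtTL_ev 3 hq, PtTL_dt_r]
    unfold pl
    ring
  have h01 : ∀ p : Prop, ∀ [Decidable p], (if p then (1 : Ω) else 0) ∈ B := by
    intro p _
    split_ifs
    · exact one_mem B
    · exact zero_mem B
  have hgB : RatP B g := by
    rw [hg]
    refine ratP_mul (ratP_pow (ratP_X m) 3) (ratP_lf fun i => ?_)
    unfold PtTL_r
    exact sub_mem (mul_mem (hz _) (h01 _)) (mul_mem (hz _) (h01 _))
  have wg : ∀ s, WA D a B x C m 1 (et D a x g s) := fun s =>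
    wa_et (C := C) h.frame hq0 h.ne hm g hgB s
  have h3 := indep g evgz
  have h4 : pl v (et D a x g) i j = μ * pl v' (et D a x g) i j := by
    rw [hvv]
    unfold pl
    simp only [Pi.smul_apply, smul_eq_mul]
    ring
  have hm3 : x m ^ 3 ≠ 0 := pow_ne_zero 3 hm
  have h5 : pl v (et D a x f) i j / ev q x f = pl v' (et D a x g) i j * (x m ^ 3)⁻¹ := by
    rw [h4, evg] at h3
    rw [div_eq_iff hf0, mul_comm, ← mul_assoc, eq_mul_inv_iff_mul_eq₀ hm3]
    apply mul_left_cancel₀ hμ0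
    linear_combination - h3
  rw [h5]
  have w1 : WA D a B x C m 2 (pl v' (et D a x g) i j) := by
    unfold pl
    exact ((wv i).mul hm (wg j)).sub ((wv j).mul hm (wg i))
  exact w1.mul hm (WA.inv_pow hm 3)

end Pool.Agent.Helper74.PQ
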