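import Pool.Agent.Helper74.PQ.RatPL

/-!
# PQ-TRL: the traces are rational

`det (um (P1 + P)) = det (1 + um P) = 1 + tr + det`; `tr A tr A' - tr (A A') =
det (A + A') - det A - det A'`. Compare `Helper74/Q8/Traces.lean` and `fam_trace` in
`Helper74/Q8/CaseN.lean`.
-/

set_option autoImplicit false

namespace Pool.Agent.Helper74.PQ

open scoped BigOperators
open MvPolynomial
open Pool.Agent.Helper8.LG (Bdd RowBdd form mon)
open Pool.Agent.Helper49.LN (cP mo hf pl)
open Pool.Agent.Helper6.QS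
open Pool.Agent.Helper74.Q8 (rr)

theorem TrL_one {R : Type*} [CommRing R] (A : Matrix (Fin 2) (Fin 2) R) :
    A.trace = (1 + A).det - A.det - 1 := by
  rw [Matrix.trace_fin_two, Matrix.det_fin_two, Matrix.det_fin_two]
  simp only [Matrix.add_apply, Matrix.one_apply_eq, Matrix.one_apply_ne (show (0 : Fin 2) ≠ 1 by
    decide), Matrix.one_apply_ne (show (1 : Fin 2) ≠ 0 by decide)]
  ring

theorem TrL_two {R : Type*} [CommRing R] (A A' : Matrix (Fin 2) (Fin 2) R) :
    (A * A').trace = A.trace * A'.trace - ((A + A').det - A.det - A'.det) := by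
  simp only [Matrix.trace_fin_two, Matrix.det_fin_two, Matrix.mul_apply, Fin.sum_univ_two,
    Matrix.add_apply]
  ring

variable {Ω : Type*} [Field Ω] [CharZero Ω] {q : ℕ} {D : Sym (Fin 3) q → Derivation ℤ Ω Ω}
  {a : Sym (Fin 3) q → Ω} {B : Subfield Ω} {x : Fin 3 → Ω}

theorem tr_mem {θ : Fin 2 → Fin 3 → Ω} {P1 : MvPolynomial (Fin 3) Ω} (h : MtL D a B x θ P1)
    (P : MvPolynomial (Fin 3) Ω) (hP : RatP B P) : (um D a x θ P).trace ∈ B := by
  rw [TrL_one, ← h.a1, ← map_add]
  exact sub_mem (sub_mem (h.det _ (ratP_add h.r1 hP)) (h.det _ hP)) (one_mem B)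

theorem tr_mul_mem {θ : Fin 2 → Fin 3 → Ω} {P1 : MvPolynomial (Fin 3) Ω}
    (h : MtL D a B x θ P1) (P P' : MvPolynomial (Fin 3) Ω) (hP : RatP B P) (hP' : RatP B P') :
    (um D a x θ P * um D a x θ P').trace ∈ B := by
  rw [TrL_two, ← map_add]
  exact sub_mem (mul_mem (tr_mem h P hP) (tr_mem h P' hP'))
    (sub_mem (sub_mem (h.det _ (ratP_add hP hP')) (h.det _ hP)) (h.det _ hP'))

theorem fam_tr {θ : Fin 2 → Fin 3 → Ω} {P1 : MvPolynomial (Fin 3) Ω} (h : MtL D a B x θ P1)
    (i j : Option (Fin 3 →₀ ℕ)) : (fam D a x θ i * fam D a x θ j).trace ∈ B := by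
  have h1 : ∀ p : Fin 3 →₀ ℕ, RatP B (monomial p (1 : Ω)) := fun p => ratP_mono p (one_mem B)
  cases i with
  | none =>
    cases j with
    | none =>
      show ((1 : Matrix (Fin 2) (Fin 2) Ω) * 1).trace ∈ B
      rw [mul_one, Matrix.trace_one, Fintype.card_fin]
      exact natCast_mem B 2
    | some p =>
      show ((1 : Matrix (Fin 2) (Fin 2) Ω) * um D a x θ (monomial p 1)).trace ∈ B
      rw [one_mul]
      exact tr_mem h _ (h1 p)
  | some p =>
    cases j with
    | none =>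
      show (um D a x θ (monomial p 1) * (1 : Matrix (Fin 2) (Fin 2) Ω)).trace ∈ B
      rw [mul_one]
      exact tr_mem h _ (h1 p)
    | some p' => exact tr_mul_mem h _ _ (h1 p) (h1 p')

end Pool.Agent.Helper74.PQ
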