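import Pool.Agent.Helper74.PQ.AnnL
import Pool.Agent.Helper74.PQ.PtTL
import Pool.Agent.Helper74.PQ.TrL
import Pool.Agent.Helper74.Q8.Tri
import Pool.Agent.Helper74.Q8.FinQ8

/-!
# PQ-CASETL: the triangular case

Compare `Helper74/Q8/CaseT.lean` (`CaseT_fun`, `CaseT_alg`, `tri_eig` of `Helper74/Q8/Tri.lean`).
`tri_eig`: `um P v = f(P) v`, `w um P = g(P) w`, `f + g` and `f g` are the trace and the
determinant. `f` is linear, `f(P1) = 1`, and `f(P) ∈ B` for rational `P` (`lrat_alg`: zero of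
`T^2 - tr T + det`). `l' = w_0 lw_0 + w_1 lw_1 ≠ 0`: `um (C l')` has the rows
`∑_k w_k um (C lw_i)_k = g(C lw_i) w` (symmetry `C lw_k lw_i`), so `um (C l') v = 0`,
`f (C l') = 0`. `ann_l` with `n = 2` (`f` only depends on the part of degree `3` by `et_part`):
`Ln B x`, or a rational `z ≠ 0` with `l'(z) = 0`, `f P = c P(z)`. If `z` is proportional to `x`,
then `x` is rational (`x_0 = 1`). Otherwise `(lw_0(z), lw_1(z)) ≠ 0` is orthogonal to `w`, so equal
to `λ v`, `λ ≠ 0`. With `ϑ = v_0 θ_0 + v_1 θ_1`: `ϑ . et (P lw_i) = (um P v)_i = f(P) v_i =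
(c / λ) P(z) lw_i(z)`, and so for all `f` with `f(x) = 0` (`et_span` and the same computation for
the value at `z`, or `et_zero` applied to a functional on polynomials: do it monomial by monomial).
`pt_l`; `hinj`: `um P1 = 1`.
-/

set_option autoImplicit false

namespace Pool.Agent.Helper74.PQ

open scoped BigOperators
open MvPolynomial
open Pool.Agent.Helper8.LG (Bdd RowBdd form mon)
open Pool.Agent.Helper49.LN (cP mo hf pl)
open Pool.Agent.Helper6.QS
open Pool.Agent.Helper74.Q8 (rr)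

section CaseTL_gen

variable {Ω : Type*} [Field Ω] {σ : Type*} [Fintype σ] [DecidableEq σ] {q : ℕ}

omit [Fintype σ] [DecidableEq σ] in
theorem CaseTL_alg {B : Subfield Ω} (f g : Ω) (ht : f + g ∈ B) (hd : f * g ∈ B) :
    IsAlgebraic B f := by
  obtain ⟨t, ht'⟩ : ∃ t : B, (t : Ω) = f + g := ⟨⟨_, ht⟩, rfl⟩
  obtain ⟨d, hd'⟩ : ∃ d : B, (d : Ω) = f * g := ⟨⟨_, hd⟩, rfl⟩
  refine ⟨Polynomial.X ^ 2 - Polynomial.C t * Polynomial.X + Polynomial.C d, ?_, ?_⟩
  · intro h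
    have h1 := congrArg (fun p => Polynomial.coeff p 2) h
    simp at h1
  · have h1 : algebraMap B Ω t = f + g := ht'
    have h2 : algebraMap B Ω d = f * g := hd'
    simp only [map_add, map_sub, map_mul, map_pow, Polynomial.aeval_X, Polynomial.aeval_C, h1, h2]
    ring

/-- a linear map which kills the multiples of the forms `X_b - x_b X_o`: monomials -/
theorem CaseTL_mo {V : Type*} [AddCommGroup V] [Module Ω V] (Φ : MvPolynomial σ Ω →ₗ[Ω] V)
    (x : σ → Ω) (o : σ) (hx : x o = 1) (hΦ : ∀ P b, Φ (P * lf (rr x o b)) = 0)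
    (K : Multiset σ) : ∀ R : MvPolynomial σ Ω,
      Φ (R * mo Ω K) = (K.map x).prod • Φ (R * X o ^ Multiset.card K) := by
  induction K using Multiset.induction_on with
  | empty =>
    intro R
    have h1 : mo Ω (0 : Multiset σ) = 1 := by
      rw [mo, Multiset.map_zero, Multiset.prod_zero]
    rw [h1, Multiset.map_zero, Multiset.prod_zero, one_smul, Multiset.card_zero, pow_zero]
  | cons b K ih =>
    intro R
    have h1 : mo Ω (b ::ₘ K) = X b * mo Ω K := by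
      rw [mo, mo, Multiset.map_cons, Multiset.prod_cons]
    have h2 : R * X b * X o ^ Multiset.card K = x b • (R * X o ^ Multiset.card (b ::ₘ K)) +
        R * X o ^ Multiset.card K * lf (rr x o b) := by
      rw [Pool.Agent.Helper74.Q8.FinQ8_lf_rr x o hx b, smul_eq_C_mul, Multiset.card_cons]
      ring
    rw [h1, ← mul_assoc, ih, h2, map_add, map_smul, hΦ, add_zero, smul_smul, Multiset.map_cons,
      Multiset.prod_cons, mul_comm (x b)]

/-- the same for maps which only see the part of degree `q` -/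
theorem CaseTL_lin {V : Type*} [AddCommGroup V] [Module Ω V] (Φ : MvPolynomial σ Ω →ₗ[Ω] V)
    (x : σ → Ω) (o : σ) (hx : x o = 1) (hΦ : ∀ P b, Φ (P * lf (rr x o b)) = 0)
    (hu : ∀ f, Φ f = ∑ J : Sym σ q,
      coeff (Multiset.toFinsupp (J : Multiset σ)) f • Φ (mo Ω (J : Multiset σ)))
    (f : MvPolynomial σ Ω) (hf : ev q x f = 0) : Φ f = 0 := by
  have h1 : ∀ J : Sym σ q, Φ (mo Ω (J : Multiset σ)) = mon x J • Φ (X o ^ q) := by
    intro J
    have h2 := CaseTL_mo Φ x o hx hΦ (J : Multiset σ) 1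
    rw [one_mul, one_mul, Sym.card_coe] at h2
    exact h2
  rw [hu f]
  simp only [h1, smul_smul]
  rw [← Finset.sum_smul]
  have h3 : ∑ J : Sym σ q, coeff (Multiset.toFinsupp (J : Multiset σ)) f * mon x J = 0 := by
    rw [ev, Pool.Agent.Helper49.LN.cP_apply] at hf
    exact hf
  rw [h3, zero_smul]

theorem CaseTL_cP {V : Type*} [AddCommGroup V] [Module Ω V] (v : Sym σ q → V)
    (f : MvPolynomial σ Ω) : cP v f = ∑ J : Sym σ q,
      coeff (Multiset.toFinsupp (J : Multiset σ)) f • cP v (mo Ω (J : Multiset σ)) := by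
  rw [Pool.Agent.Helper49.LN.cP_apply]
  refine Finset.sum_congr rfl fun J _ => ?_
  rw [Pool.Agent.Helper49.LN.cP_mo]

theorem CaseTL_ev_lf (k : ℕ) (hk : q = k + 1) (x l : σ → Ω) (P : MvPolynomial σ Ω) :
    ev q x (P * lf l) = ev k x P * dt l x := by
  subst hk
  exact ev_lf k x l P

/-- the functional `f ↦ ϑ . et f - c f(z)` -/
noncomputable def CaseTL_psi (D : Sym σ q → Derivation ℤ Ω Ω) (a : Sym σ q → Ω)
    (x ϑ z : σ → Ω) (c : Ω) : MvPolynomial σ Ω →ₗ[Ω] Ω where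
  toFun f := dt ϑ (et D a x f) - c * ev q z f
  map_add' f f' := by
    rw [map_add, map_add, Pool.Agent.Helper74.Q8.dt_add']
    ring
  map_smul' r f := by
    rw [map_smul, map_smul, Pool.Agent.Helper74.Q8.dt_smul', smul_eq_mul, smul_eq_mul,
      RingHom.id_apply]
    ring

theorem CaseTL_psi_apply (D : Sym σ q → Derivation ℤ Ω Ω) (a : Sym σ q → Ω)
    (x ϑ z : σ → Ω) (c : Ω) (f : MvPolynomial σ Ω) :
    CaseTL_psi D a x ϑ z c f = dt ϑ (et D a x f) - c * ev q z f := rfl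

theorem CaseTL_psi_sum (D : Sym σ q → Derivation ℤ Ω Ω) (a : Sym σ q → Ω)
    (x ϑ z : σ → Ω) (c : Ω) (f : MvPolynomial σ Ω) :
    CaseTL_psi D a x ϑ z c f = ∑ J : Sym σ q,
      coeff (Multiset.toFinsupp (J : Multiset σ)) f •
        CaseTL_psi D a x ϑ z c (mo Ω (J : Multiset σ)) := by
  simp only [CaseTL_psi_apply]
  have h1 : et D a x f = ∑ J : Sym σ q,
      coeff (Multiset.toFinsupp (J : Multiset σ)) f • et D a x (mo Ω (J : Multiset σ)) :=
    CaseTL_cP _ f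
  have h2 : ev q z f = ∑ J : Sym σ q,
      coeff (Multiset.toFinsupp (J : Multiset σ)) f • ev q z (mo Ω (J : Multiset σ)) :=
    CaseTL_cP _ f
  rw [h1, h2, Pool.Agent.Helper74.Q8.dt_sum', Finset.mul_sum, ← Finset.sum_sub_distrib]
  refine Finset.sum_congr rfl fun J _ => ?_
  rw [Pool.Agent.Helper74.Q8.dt_smul', smul_eq_mul, smul_eq_mul]
  ring

theorem CaseTL_psi_zero (D : Sym σ q → Derivation ℤ Ω Ω) (a : Sym σ q → Ω)
    (x ϑ z : σ → Ω) (c : Ω) (o : σ) (hx : x o = 1)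
    (hΦ : ∀ P b, dt ϑ (et D a x (P * lf (rr x o b))) = c * ev q z (P * lf (rr x o b)))
    (f : MvPolynomial σ Ω) (hf : ev q x f = 0) : dt ϑ (et D a x f) = c * ev q z f := by
  have h1 := CaseTL_lin (CaseTL_psi D a x ϑ z c) x o hx (fun P b => by
    rw [CaseTL_psi_apply, hΦ, sub_self]) (CaseTL_psi_sum D a x ϑ z c) f hf
  rw [CaseTL_psi_apply] at h1
  exact sub_eq_zero.1 h1

omit [Fintype σ] [DecidableEq σ] in
/-- proportional vectors of the plane -/
theorem CaseTL_mult (u v : Fin 2 → Ω) (hu : u ≠ 0) (hv : v ≠ 0) (h : u 0 * v 1 = u 1 * v 0) :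
    ∃ μ : Ω, μ ≠ 0 ∧ ∀ i, v i = μ * u i := by
  have hex : ∃ i, u i ≠ 0 := by
    by_contra hcon
    push Not at hcon
    exact hu (funext hcon)
  obtain ⟨i, hi⟩ := hex
  have key : ∀ j, v j = v i / u i * u j := by
    intro j
    rw [div_mul_eq_mul_div, eq_div_iff hi]
    fin_cases i <;> fin_cases j <;> simp only [Fin.zero_eta, Fin.mk_one, Fin.isValue]
    · linear_combination h
    · linear_combination -h
  refine ⟨v i / u i, ?_, key⟩
  intro h0
  apply hv
  funext j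
  rw [key j, h0, zero_mul, Pi.zero_apply]

end CaseTL_gen

section CaseTL_fin

variable {Ω : Type*} [Field Ω] {q : ℕ} {D : Sym (Fin 3) q → Derivation ℤ Ω Ω}
  {a : Sym (Fin 3) q → Ω} {B : Subfield Ω} {x : Fin 3 → Ω}

open scoped Matrix in
theorem CaseTL_all (D : Sym (Fin 3) q → Derivation ℤ Ω Ω) (a : Sym (Fin 3) q → Ω)
    (x : Fin 3 → Ω) (θ : Fin 2 → Fin 3 → Ω) (v w : Fin 2 → Ω)
    (hM : ∀ i, w ⬝ᵥ (fam D a x θ i *ᵥ v) = 0) (P : MvPolynomial (Fin 3) Ω) :
    w ⬝ᵥ (um D a x θ P *ᵥ v) = 0 := by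
  induction P using MvPolynomial.induction_on' with
  | monomial u c =>
    have h1 : w ⬝ᵥ (um D a x θ (monomial u 1) *ᵥ v) = 0 := hM (some u)
    have h2 : (monomial u c : MvPolynomial (Fin 3) Ω) = c • monomial u (1 : Ω) := by
      rw [smul_monomial, smul_eq_mul, mul_one]
    rw [h2, map_smul, Matrix.smul_mulVec, dotProduct_smul, h1, smul_zero]
  | add p r hp hr => rw [map_add, Matrix.add_mulVec, dotProduct_add, hp, hr, add_zero]

theorem CaseTL_part (D : Sym (Fin 3) q → Derivation ℤ Ω Ω) (a : Sym (Fin 3) q → Ω)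
    (x : Fin 3 → Ω) (θ : Fin 2 → Fin 3 → Ω) (n : ℕ) (hq : n + 1 = q)
    (P : MvPolynomial (Fin 3) Ω) : um D a x θ P = um D a x θ (homogeneousComponent n P) := by
  ext i j
  rw [um_apply, um_apply, et_part D a x n 1 hq P (lf (lw x i)) (lf_hom (lw x i))]

/-- `l' = w_0 lw_0 + w_1 lw_1` -/
def CaseTL_l (x : Fin 3 → Ω) (w : Fin 2 → Ω) : Fin 3 → Ω := w 0 • lw x 0 + w 1 • lw x 1

theorem CaseTL_lf (x : Fin 3 → Ω) (w : Fin 2 → Ω) :
    (lf (CaseTL_l x w) : MvPolynomial (Fin 3) Ω) = w 0 • lf (lw x 0) + w 1 • lf (lw x 1) := by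
  rw [CaseTL_l, Pool.Agent.Helper74.Q8.lf_add', Pool.Agent.Helper74.Q8.lf_smul',
    Pool.Agent.Helper74.Q8.lf_smul']

theorem CaseTL_dt (x : Fin 3 → Ω) (w : Fin 2 → Ω) (z : Fin 3 → Ω) :
    dt (CaseTL_l x w) z = w 0 * dt (lw x 0) z + w 1 * dt (lw x 1) z := by
  rw [CaseTL_l, Pool.Agent.Helper74.Q8.dt_comm', Pool.Agent.Helper74.Q8.dt_add',
    Pool.Agent.Helper74.Q8.dt_smul', Pool.Agent.Helper74.Q8.dt_smul',
    Pool.Agent.Helper74.Q8.dt_comm' z, Pool.Agent.Helper74.Q8.dt_comm' z]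

theorem CaseTL_lw (hx : x 0 = 1) (i : Fin 2) (z : Fin 3 → Ω) :
    dt (lw x i) z = z i.succ - x i.succ * z 0 := by
  unfold dt lw rr
  fin_cases i
  · simp [Fin.sum_univ_three, hx]
    ring
  · simp [Fin.sum_univ_three, hx]
    ring

theorem CaseTL_ne (hx : x 0 = 1) (w : Fin 2 → Ω) (hw : w ≠ 0) : CaseTL_l x w ≠ 0 := by
  intro h0
  apply hw
  have e : ∀ z, w 0 * dt (lw x 0) z + w 1 * dt (lw x 1) z = 0 := by
    intro z
    rw [← CaseTL_dt, h0, Pool.Agent.Helper74.Q8.dt_comm', Pool.Agent.Helper74.Q8.dt_zero']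
  have e1 := e (Pi.single 1 1)
  have e2 := e (Pi.single 2 1)
  rw [CaseTL_lw hx, CaseTL_lw hx] at e1 e2
  funext i
  fin_cases i
  · simpa using e1
  · simpa using e2

open scoped Matrix in
/-- the matrices of `C l'` -/
theorem CaseTL_um (D : Sym (Fin 3) q → Derivation ℤ Ω Ω) (a : Sym (Fin 3) q → Ω)
    (x : Fin 3 → Ω) (θ : Fin 2 → Fin 3 → Ω) (w : Fin 2 → Ω) (C : MvPolynomial (Fin 3) Ω)
    (i j : Fin 2) : um D a x θ (C * lf (CaseTL_l x w)) i j =
      (w ᵥ* um D a x θ (C * lf (lw x i))) j := by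
  have h1 : C * lf (CaseTL_l x w) * lf (lw x i) =
      w 0 • (C * lf (lw x i) * lf (lw x 0)) + w 1 • (C * lf (lw x i) * lf (lw x 1)) := by
    rw [CaseTL_lf, smul_eq_C_mul, smul_eq_C_mul, smul_eq_C_mul, smul_eq_C_mul]
    ring
  rw [um_apply, h1, map_add, map_smul, map_smul, Pool.Agent.Helper74.Q8.dt_add',
    Pool.Agent.Helper74.Q8.dt_smul', Pool.Agent.Helper74.Q8.dt_smul',
    Matrix.vecMul, dotProduct, Fin.sum_univ_two, um_apply, um_apply]

open scoped Matrix in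
theorem CaseTL_kill (D : Sym (Fin 3) q → Derivation ℤ Ω Ω) (a : Sym (Fin 3) q → Ω)
    (x : Fin 3 → Ω) (θ : Fin 2 → Fin 3 → Ω) (v w : Fin 2 → Ω) (hv : v ≠ 0) (hwv : w ⬝ᵥ v = 0)
    (f g : MvPolynomial (Fin 3) Ω →ₗ[Ω] Ω) (hf : ∀ P, um D a x θ P *ᵥ v = f P • v)
    (hg : ∀ P, w ᵥ* um D a x θ P = g P • w) (C : MvPolynomial (Fin 3) Ω) :
    f (C * lf (CaseTL_l x w)) = 0 := by
  have hv' : ∀ a b : Ω, a • v = b • v → a = b := fun a b h => smul_left_injective Ω hv h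
  apply hv'
  rw [← hf, zero_smul]
  funext i
  rw [Matrix.mulVec, dotProduct, Fin.sum_univ_two, CaseTL_um, CaseTL_um, hg, Pi.smul_apply,
    Pi.smul_apply, smul_eq_mul, smul_eq_mul, Pi.zero_apply]
  rw [dotProduct, Fin.sum_univ_two] at hwv
  linear_combination (g (C * lf (lw x i))) * hwv

theorem CaseTL_inj (hx : x 0 = 1) {θ : Fin 2 → Fin 3 → Ω} {P1 : MvPolynomial (Fin 3) Ω}
    (a1 : um D a x θ P1 = 1) (l : Fin 3 → Ω) (hl : l ≠ 0) (hlx : dt l x = 0) :
    et D a x (P1 * lf l) ≠ 0 := by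
  intro h0
  apply hl
  have e := lw_span hx l hlx
  have h1 : P1 * lf l = l 1 • (P1 * lf (lw x 0)) + l 2 • (P1 * lf (lw x 1)) := by
    conv_lhs => rw [e]
    rw [Pool.Agent.Helper74.Q8.lf_add', Pool.Agent.Helper74.Q8.lf_smul',
      Pool.Agent.Helper74.Q8.lf_smul', mul_add, mul_smul_comm, mul_smul_comm]
  have h2 : ∀ j, l 1 * um D a x θ P1 0 j + l 2 * um D a x θ P1 1 j = 0 := by
    intro j
    rw [um_apply, um_apply, ← Pool.Agent.Helper74.Q8.dt_smul', ← Pool.Agent.Helper74.Q8.dt_smul',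
      ← Pool.Agent.Helper74.Q8.dt_add', ← map_smul, ← map_smul, ← map_add, ← h1, h0,
      Pool.Agent.Helper74.Q8.dt_zero']
  have h3 := h2 0
  have h4 := h2 1
  rw [a1] at h3 h4
  simp only [Matrix.one_apply_eq, ne_eq, zero_ne_one, one_ne_zero, not_false_eq_true,
    Matrix.one_apply_ne, mul_one, mul_zero, add_zero, zero_add] at h3 h4
  rw [e, h3, h4, zero_smul, zero_smul, add_zero]

/-- `z` proportional to `x` -/
theorem CaseTL_par (hx : x 0 = 1) (z : Fin 3 → Ω) (hzB : ∀ i, z i ∈ B) (hz0 : z ≠ 0)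
    (h : ∀ i j, x i * z j - x j * z i = 0) (l : Fin 3) : x l ∈ B := by
  have h1 : ∀ j, z j = x j * z 0 := by
    intro j
    have := h 0 j
    rw [hx, one_mul] at this
    exact sub_eq_zero.1 this
  have h2 : z 0 ≠ 0 := by
    intro h3
    apply hz0
    funext j
    rw [h1 j, h3, mul_zero, Pi.zero_apply]
  have h4 : x l = z l / z 0 := by
    rw [eq_div_iff h2]
    exact (h1 l).symm
  rw [h4]
  exact div_mem (hzB l) (hzB 0)

/-- `z` not proportional to `x` -/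
theorem CaseTL_zeta (hx : x 0 = 1) (z : Fin 3 → Ω) (h : ∃ i j, x i * z j - x j * z i ≠ 0) :
    (fun i : Fin 2 => dt (lw x i) z) ≠ 0 := by
  intro h0
  have h1 : ∀ i : Fin 2, z i.succ = x i.succ * z 0 := by
    intro i
    have h2 := congrFun h0 i
    rw [Pi.zero_apply] at h2
    have h3 : dt (lw x i) z = 0 := h2
    rw [CaseTL_lw hx] at h3
    exact sub_eq_zero.1 h3
  have h4 : ∀ j, z j = x j * z 0 := by
    intro j
    refine Fin.cases ?_ (fun i => ?_) j
    · rw [hx, one_mul]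
    · exact h1 i
  obtain ⟨i, j, hij⟩ := h
  apply hij
  rw [h4 i, h4 j]
  ring

end CaseTL_fin

variable {Ω : Type*} [Field Ω] [CharZero Ω] {q : ℕ} {D : Sym (Fin 3) q → Derivation ℤ Ω Ω}
  {a : Sym (Fin 3) q → Ω} {B : Subfield Ω} {x : Fin 3 → Ω}

open scoped Matrix in
theorem case_tl {θ : Fin 2 → Fin 3 → Ω} {P1 : MvPolynomial (Fin 3) Ω} (h : MtL D a B x θ P1)
    (N : Matrix (Fin 2) (Fin 2) Ω) (hN : N ≠ 0)
    (hNs : N ∈ Submodule.span Ω (Set.range (fam D a x θ)))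
    (hN0 : ∀ i, (N * fam D a x θ i).trace = 0) : Ln B x := by
  have hx := h.pt.one
  have hq : 3 + 1 = q := h.pt.hq.symm
  obtain ⟨v, w, hv, hw, hwv, hM⟩ :=
    Pool.Agent.Helper74.Q8.tri (fam D a x θ) none rfl N hN hNs hN0
  have hM' := CaseTL_all D a x θ v w hM
  obtain ⟨f, g, hf, hg, ht⟩ :=
    Pool.Agent.Helper74.Q8.tri_eig (um D a x θ) v w hv hw hwv hM'
  have hv' : ∀ a b : Ω, a • v = b • v → a = b := fun a b h => smul_left_injective Ω hv h
  have hf1 : f P1 = 1 := hv' _ _ (by rw [← hf, h.a1, Matrix.one_mulVec, one_smul])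
  have hf0 : f ≠ 0 := fun h0 => by
    rw [h0, LinearMap.zero_apply] at hf1
    exact zero_ne_one hf1
  have hfB : ∀ P, RatP B P → f P ∈ B := fun P hP =>
    lrat_alg h.pt.frame _ (CaseTL_alg (f P) (g P) (by rw [← (ht P).1]; exact tr_mem h P hP)
      (by rw [← (ht P).2]; exact h.det P hP))
  have hfn : ∀ P, f P = f (homogeneousComponent (2 + 1) P) := by
    intro P
    apply hv'
    rw [← hf, ← hf, ← CaseTL_part D a x θ (2 + 1) hq P]
  have hlx : dt (CaseTL_l x w) x = 0 := by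
    rw [CaseTL_dt, lw_x hx, lw_x hx, mul_zero, mul_zero, add_zero]
  rcases ann_l 2 f hf0 hfB hfn (CaseTL_l x w) (CaseTL_ne hx w hw) hlx
    (CaseTL_kill D a x θ v w hv hwv f g hf hg) with hL | ⟨z, c, hzB, hz0, hlz, hc, hfz⟩
  · exact hL
  by_cases hzx : ∃ i j, x i * z j - x j * z i ≠ 0
  · have hζ := CaseTL_zeta hx z hzx
    have hwζ : w ⬝ᵥ (fun i : Fin 2 => dt (lw x i) z) = 0 := by
      rw [dotProduct, Fin.sum_univ_two]
      rw [CaseTL_dt] at hlz
      exact hlz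
    obtain ⟨μ, hμ, hvμ⟩ := CaseTL_mult _ v hζ hv
      (Pool.Agent.Helper74.Q8.tri_prop hw hwv hwζ)
    have hval : ∀ P (i : Fin 2), dt (v 0 • θ 0 + v 1 • θ 1) (et D a x (P * lf (lw x i))) =
        c * μ * ev q z (P * lf (lw x i)) := by
      intro P i
      have h1 := congrFun (hf P) i
      rw [Matrix.mulVec, dotProduct, Fin.sum_univ_two, Pi.smul_apply, smul_eq_mul, um_apply,
        um_apply, hfz, hvμ i] at h1
      rw [CaseTL_ev_lf 3 hq.symm, ev_part, Pool.Agent.Helper74.Q8.dt_comm',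
        Pool.Agent.Helper74.Q8.dt_add', Pool.Agent.Helper74.Q8.dt_smul',
        Pool.Agent.Helper74.Q8.dt_smul', Pool.Agent.Helper74.Q8.dt_comm' _ (θ 0),
        Pool.Agent.Helper74.Q8.dt_comm' _ (θ 1)]
      linear_combination h1
    refine ln_of_mem (pt_l h.pt P1 h.r1 (CaseTL_inj hx h.a1) z hzB hzx (v 0 • θ 0 + v 1 • θ 1)
      (c * μ) (mul_ne_zero hc hμ) ?_)
    refine CaseTL_psi_zero D a x _ z (c * μ) 0 hx ?_
    intro P b
    refine Fin.cases ?_ (fun i => ?_) b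
    · have h1 : (rr x 0 0 : Fin 3 → Ω) = 0 := by
        funext i
        unfold rr
        rw [Pi.zero_apply]
        ring
      rw [h1, Pool.Agent.Helper74.Q8.lf_zero', mul_zero, map_zero, map_zero,
        Pool.Agent.Helper74.Q8.dt_zero', mul_zero]
    · exact hval P i
  · push Not at hzx
    exact ln_of_mem (CaseTL_par hx z hzB hz0 hzx)

end Pool.Agent.Helper74.PQ
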