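import Pool.Agent.Helper74.PQ.SpanL

/-!
# PQ-DELTAL: the quadratic form of a derivation

Compare `delta8` in `Helper74/Q8/Delta8.lean` (`delta8_psi`). `u_i(P)` = the `i`-th row of `um P`
(`Fin 2 → Ω`), linear in `P`; for `P` with coefficients in `B`, and then for all `P` (with `δ P` the
polynomial with the coefficients `δ (coeff P)`): `δ (um P) = um (δ P) + X um P - um P X`. Symmetry:
`u_0 (C lw_1) = u_1 (C lw_0)`. Apply `δ` to it for rational `C`: with
`m_i = ∑_k X_ik lw_k - δ lw_i` (`δ lw_i = - δ x_(i+1) e_0`) one gets `u_0 (C m_1) = u_1 (C m_0)`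
for rational `C`, so for all `C` (linearity). So `θ_j . et (C (m_1 lw_0 - m_0 lw_1)) = 0` and
`gr . et (..) = 0` (`gr_lw`), hence `et (C (m_1 lw_0 - m_0 lw_1)) = 0` (`tp`).
`Q = m_1 lw_0 - m_0 lw_1`. If `Q = 0`: `lw_0, lw_1` are linearly independent linear forms, so
`m_0 = c lw_0`, `m_1 = c lw_1`, so `δ lw_i` vanishes at `x`: `δ x_(i+1) = 0`, and `δ x_0 = 0`, a
contradiction to `hδx`.
-/

set_option autoImplicit false

namespace Pool.Agent.Helper74.PQ

open scoped BigOperators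
open MvPolynomial
open Pool.Agent.Helper8.LG (Bdd RowBdd form mon)
open Pool.Agent.Helper49.LN (cP mo hf pl)
open Pool.Agent.Helper6.QS
open Pool.Agent.Helper74.Q8 (rr dt_add' dt_smul' dt_comm' lf_add' lf_smul')

section

variable {Ω : Type*} [Field Ω] {σ : Type*} [Fintype σ]

/-- a derivation and the dot product -/
private theorem deltaL_dt (δ : Derivation ℤ Ω Ω) (u v : σ → Ω) :
    δ (dt u v) = dt (fun k => δ (u k)) v + dt u (fun k => δ (v k)) := by
  simp only [dt, map_sum, Derivation.leibniz, smul_eq_mul, Finset.sum_add_distrib]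
  rw [add_comm]
  congr 1
  exact Finset.sum_congr rfl fun k _ => mul_comm _ _

private theorem deltaL_add_left (u v w : σ → Ω) : dt (u + v) w = dt u w + dt v w := by
  rw [dt_comm', dt_add', dt_comm' w u, dt_comm' w v]

private theorem deltaL_smul_left (c : Ω) (u w : σ → Ω) : dt (c • u) w = c * dt u w := by
  rw [dt_comm', dt_smul', dt_comm' w u]

private theorem deltaL_monomial (m : σ →₀ ℕ) (c : Ω) :
    (monomial m c : MvPolynomial σ Ω) = c • monomial m 1 := by
  rw [smul_monomial, smul_eq_mul, mul_one]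

private theorem deltaL_mul_lf (m : σ →₀ ℕ) (c : σ → Ω) :
    (monomial m 1 * lf c : MvPolynomial σ Ω) =
      ∑ k, c k • monomial (m + Finsupp.single k 1) 1 := by
  unfold lf
  rw [Finset.mul_sum]
  refine Finset.sum_congr rfl fun k _ => ?_
  rw [mul_smul_comm, X, monomial_mul, mul_one]

/-- The functionals `ψ_j`. Stated for an abstract linear map `V`. -/
private theorem deltaL_psi (V : MvPolynomial σ Ω →ₗ[Ω] (σ → Ω)) (δ : Derivation ℤ Ω Ω)
    (l θ m : Fin 2 → σ → Ω) (X₀ : Matrix (Fin 2) (Fin 2) Ω)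
    (hm : ∀ i, m i = X₀ i 0 • l 0 + X₀ i 1 • l 1 + (-1 : Ω) • fun k => δ (l i k))
    (h : ∀ (e : σ →₀ ℕ) i j, δ (dt (θ j) (V (monomial e 1 * lf (l i)))) =
      X₀ i 0 * dt (θ j) (V (monomial e 1 * lf (l 0))) +
        X₀ i 1 * dt (θ j) (V (monomial e 1 * lf (l 1))) -
      (dt (θ 0) (V (monomial e 1 * lf (l i))) * X₀ 0 j +
        dt (θ 1) (V (monomial e 1 * lf (l i))) * X₀ 1 j)) :
    ∃ ψ : Fin 2 → MvPolynomial σ Ω →ₗ[Ω] Ω, ∀ P i j,
      dt (θ j) (V (P * lf (m i))) = ψ j (P * lf (l i)) := by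
  classical
  obtain ⟨Θ, hΘ⟩ : ∃ Θ : Fin 2 → MvPolynomial σ Ω →ₗ[Ω] Ω,
      ∀ j f, Θ j f = dt (θ j) (V f) := by
    refine ⟨fun j =>
      { toFun := fun f => dt (θ j) (V f)
        map_add' := fun f g => by rw [map_add, dt_add']
        map_smul' := fun c f => by
          rw [map_smul, dt_smul', RingHom.id_apply, smul_eq_mul] }, fun j f => rfl⟩
  let Θ' : Fin 2 → MvPolynomial σ Ω →ₗ[Ω] Ω := fun j =>
    (MvPolynomial.basisMonomials σ Ω).constr Ω fun m => δ (Θ j (monomial m 1))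
  have hΘ' : ∀ j m, Θ' j (monomial m 1) = δ (Θ j (monomial m 1)) := by
    intro j m
    have h := (MvPolynomial.basisMonomials σ Ω).constr_basis Ω
      (fun m => δ (Θ j (monomial m 1))) m
    rw [MvPolynomial.coe_basisMonomials] at h
    exact h
  refine ⟨fun j => Θ' j + (X₀ 0 j • Θ 0 + X₀ 1 j • Θ 1), fun P i j => ?_⟩
  rw [← hΘ, LinearMap.add_apply, LinearMap.add_apply, LinearMap.smul_apply, LinearMap.smul_apply,
    smul_eq_mul, smul_eq_mul]
  induction P using MvPolynomial.induction_on' with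
  | monomial u a =>
    rw [deltaL_monomial u a, smul_mul_assoc, smul_mul_assoc, map_smul, map_smul, map_smul, map_smul,
      smul_eq_mul, smul_eq_mul, smul_eq_mul, smul_eq_mul]
    have h1 := h u i j
    simp only [← hΘ] at h1
    have h2 : δ (Θ j (monomial u 1 * lf (l i))) =
        Θ j (monomial u 1 * lf fun k => δ (l i k)) + Θ' j (monomial u 1 * lf (l i)) := by
      rw [deltaL_mul_lf, deltaL_mul_lf, map_sum, map_sum, map_sum, map_sum,
        ← Finset.sum_add_distrib]
      refine Finset.sum_congr rfl fun k _ => ?_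
      rw [LinearMap.map_smul (Θ j), LinearMap.map_smul (Θ j), LinearMap.map_smul (Θ' j), hΘ',
        smul_eq_mul, smul_eq_mul, smul_eq_mul, Derivation.leibniz, smul_eq_mul, smul_eq_mul]
      ring
    have h3 : Θ j (monomial u 1 * lf (m i)) = X₀ i 0 * Θ j (monomial u 1 * lf (l 0)) +
        X₀ i 1 * Θ j (monomial u 1 * lf (l 1)) - Θ j (monomial u 1 * lf fun k => δ (l i k)) := by
      rw [hm i, lf_add', lf_add', lf_smul', lf_smul', lf_smul', mul_add, mul_add, mul_smul_comm,
        mul_smul_comm, mul_smul_comm, map_add, map_add, map_smul, map_smul, map_smul, smul_eq_mul,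
        smul_eq_mul, smul_eq_mul]
      ring
    rw [h3]
    rw [h2] at h1
    linear_combination (-a) * h1
  | add p q h3 h4 =>
    rw [add_mul, add_mul, map_add, map_add, map_add, map_add, h3, h4]
    ring

private theorem deltaL_lw (x v : Fin 3 → Ω) (i : Fin 2) :
    dt (lw x i) v = x 0 * v i.succ - x i.succ * v 0 := by
  unfold lw dt rr
  fin_cases i <;> simp [Fin.sum_univ_three] <;> ring

end

variable {Ω : Type*} [Field Ω] [CharZero Ω] {q : ℕ} {D : Sym (Fin 3) q → Derivation ℤ Ω Ω}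
  {a : Sym (Fin 3) q → Ω} {B : Subfield Ω} {x : Fin 3 → Ω}

theorem delta_l {θ : Fin 2 → Fin 3 → Ω} {P1 : MvPolynomial (Fin 3) Ω} (h : MtL D a B x θ P1)
    (δ : Derivation ℤ Ω Ω) (hδB : ∀ b ∈ B, δ b = 0) (hδx : ∃ l, δ (x l) ≠ 0)
    (Y : Matrix (Fin 2) (Fin 2) Ω)
    (hY : ∀ i, (fam D a x θ i).map δ = Y * fam D a x θ i - fam D a x θ i * Y) :
    ∃ Q : MvPolynomial (Fin 3) Ω, Q.IsHomogeneous 2 ∧ Q ≠ 0 ∧ ∀ C, et D a x (C * Q) = 0 := by
  classical
  have hpt := h.pt
  have hx1 : x 0 = 1 := hpt.one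
  have hlx : ∀ i, dt (lw x i) x = 0 := fun i => lw_x hx1 i
  obtain ⟨w, hw⟩ : ∃ w : Fin 2 → Fin 3 → Ω, ∀ i, w i = Y i 0 • lw x 0 + Y i 1 • lw x 1 +
      (-1 : Ω) • fun t => δ (lw x i t) := ⟨_, fun _ => rfl⟩
  obtain ⟨ψ, hψ⟩ : ∃ ψ : Fin 2 → MvPolynomial (Fin 3) Ω →ₗ[Ω] Ω, ∀ P i j,
      dt (θ j) (et D a x (P * lf (w i))) = ψ j (P * lf (lw x i)) := by
    refine deltaL_psi (et D a x) δ (lw x) θ w Y hw fun e i j => ?_
    have e0 : (um D a x θ (monomial e 1)).map δ =
        Y * um D a x θ (monomial e 1) - um D a x θ (monomial e 1) * Y := hY (some e)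
    have e1 := congrFun (congrFun e0 i) j
    rw [Matrix.map_apply, Matrix.sub_apply, Matrix.mul_apply, Matrix.mul_apply, Fin.sum_univ_two,
      Fin.sum_univ_two, um_apply, um_apply, um_apply, um_apply, um_apply] at e1
    exact e1
  obtain ⟨Q, hQ⟩ : ∃ Q : MvPolynomial (Fin 3) Ω,
      Q = lf (lw x 1) * lf (w 0) - lf (lw x 0) * lf (w 1) := ⟨_, rfl⟩
  have hQ2 : Q.IsHomogeneous 2 := by
    rw [hQ]
    exact ((lf_hom (lw x 1)).mul (lf_hom (w 0))).sub ((lf_hom (lw x 0)).mul (lf_hom (w 1)))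
  have hev : ∀ y, eval y Q = dt (lw x 1) y * dt (w 0) y - dt (lw x 0) y * dt (w 1) y := by
    intro y
    rw [hQ, map_sub, map_mul, map_mul, eval_lf, eval_lf, eval_lf, eval_lf]
  refine ⟨Q, hQ2, ?_, ?_⟩
  · intro hQ0
    have hz : ∀ y, dt (lw x 1) y * dt (w 0) y - dt (lw x 0) y * dt (w 1) y = 0 := by
      intro y
      rw [← hev, hQ0, map_zero]
    have hm0 : dt (w 0) x = 0 := by
      have a1 : dt (lw x 1) (Pi.single 2 1) = 1 := by
        rw [deltaL_lw, hx1]
        simp
      have a0 : dt (lw x 0) (Pi.single 2 1) = 0 := by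
        rw [deltaL_lw, hx1]
        simp
      have e1 := hz (Pi.single 2 1)
      rw [a1, a0, one_mul, zero_mul, sub_zero] at e1
      have e2 := hz (x + Pi.single 2 1)
      rw [dt_add', dt_add', dt_add', dt_add', hlx 0, hlx 1, a1, a0, e1, zero_add, zero_add,
        one_mul, zero_mul, sub_zero, add_zero] at e2
      exact e2
    have hm1 : dt (w 1) x = 0 := by
      have a1 : dt (lw x 1) (Pi.single 1 1) = 0 := by
        rw [deltaL_lw, hx1]
        simp
      have a0 : dt (lw x 0) (Pi.single 1 1) = 1 := by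
        rw [deltaL_lw, hx1]
        simp
      have e1 := hz (Pi.single 1 1)
      rw [a1, a0, one_mul, zero_mul, zero_sub, neg_eq_zero] at e1
      have e2 := hz (x + Pi.single 1 1)
      rw [dt_add', dt_add', dt_add', dt_add', hlx 0, hlx 1, a1, a0, e1, zero_add, zero_add,
        one_mul, zero_mul, zero_sub, add_zero, neg_eq_zero] at e2
      exact e2
    have hδ0 : δ (x 0) = 0 := by
      rw [hx1]
      exact δ.map_one_eq_zero
    have hlδ : ∀ i : Fin 2, dt (w i) x = 0 → δ (x i.succ) = 0 := by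
      intro i hi
      have e1 := deltaL_dt δ (lw x i) x
      rw [hlx i, map_zero, deltaL_lw, hδ0, hx1, mul_zero, sub_zero, one_mul] at e1
      rw [hw i, deltaL_add_left, deltaL_add_left, deltaL_smul_left, deltaL_smul_left,
        deltaL_smul_left, hlx 0, hlx 1] at hi
      linear_combination hi - e1
    obtain ⟨j, hj⟩ := hδx
    apply hj
    fin_cases j
    · exact hδ0
    · exact hlδ 0 hm0
    · exact hlδ 1 hm1
  · intro C
    refine h.tp _ ?_ fun j => ?_
    · have e3 : C * Q = C * lf (w 0) * lf (lw x 1) + (-1 : Ω) • (C * lf (w 1) * lf (lw x 0)) := by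
        rw [hQ, neg_one_smul]
        ring
      rw [e3, map_add, map_smul, dt_add', dt_smul', gr_lw hpt _ _ (hlx 1), gr_lw hpt _ _ (hlx 0)]
      ring
    · have e1 := hψ (C * lf (lw x 1)) 0 j
      have e2 := hψ (C * lf (lw x 0)) 1 j
      have e3 : C * Q = C * lf (lw x 1) * lf (w 0) + (-1 : Ω) • (C * lf (lw x 0) * lf (w 1)) := by
        rw [hQ, neg_one_smul]
        ring
      have e5 : C * lf (lw x 1) * lf (lw x 0) = C * lf (lw x 0) * lf (lw x 1) :=
        mul_right_comm C (lf (lw x 1)) (lf (lw x 0))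
      rw [e5] at e1
      rw [e3, map_add, map_smul, dt_add', dt_smul', e1, e2]
      ring

end Pool.Agent.Helper74.PQ
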