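import Pool.Agent.Helper74.PQ.Wt
import Pool.Agent.Helper74.PQ.RatL
import Pool.Agent.Helper74.PQ.SpanL
import Pool.Agent.Helper74.Q8.AnnPt6

/-!
# PQ-FINQL: weight `-1`

Compare `Helper74/Q8/FinQ8.lean`. `w = et (X_0^2 Q1)`. For `C` of degree 2:
`et (C Q1) = C(x) w` (`C - C(x) X_0^2` is a combination of `C' lw_i`, as in `et_span`; only the
part of degree 2 of `C` matters, `et_part`). In particular `w = et (X_m^2 Q1) / x_m^2` has weight
`1 - 2 = -1` at `m`: if a component of `w` is not zero, then `x` is rational (`wa_pt`,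
`ln_of_mem`). If `w = 0`, then `et (C Q1) = 0` for all `C`.
-/

set_option autoImplicit false

namespace Pool.Agent.Helper74.PQ

open scoped BigOperators
open MvPolynomial
open Pool.Agent.Helper8.LG (Bdd RowBdd form mon)
open Pool.Agent.Helper49.LN (cP mo hf pl)
open Pool.Agent.Helper6.QS
open Pool.Agent.Helper74.Q8 (rr)

/-- the values on forms, for an arbitrary linear map -/
theorem FinQL_lin {Ω : Type*} [Field Ω] {σ : Type*} [Fintype σ] [DecidableEq σ]
    (L : MvPolynomial σ Ω →ₗ[Ω] (σ → Ω)) (x : σ → Ω) (o : σ) (hx : x o = 1)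
    (Q : MvPolynomial σ Ω) (hL : ∀ C l, dt l x = 0 → L (C * Q * lf l) = 0) (k : ℕ)
    (C : MvPolynomial σ Ω) (hC : C.IsHomogeneous k) :
    L (C * Q) = eval x C • L (X o ^ k * Q) := by
  funext i
  obtain ⟨v, hv⟩ : ∃ v : MvPolynomial σ Ω →ₗ[Ω] Ω, ∀ C, v C = L (C * Q) i :=
    ⟨{ toFun := fun C => L (C * Q) i
       map_add' := fun C C' => by rw [add_mul, map_add, Pi.add_apply]
       map_smul' := fun c C => by
        rw [smul_mul_assoc, map_smul, Pi.smul_apply, RingHom.id_apply] }, fun C => rfl⟩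
  have hr : ∀ C (b : σ), x o * v (C * X b) = x b * v (C * X o) := by
    intro C b
    have h1 : lf (rr x o b) = x o • X b - x b • (X o : MvPolynomial σ Ω) := by
      unfold lf rr
      simp only [sub_smul, Finset.sum_sub_distrib, mul_ite, mul_one, mul_zero, ite_smul,
        zero_smul, Finset.sum_ite_eq', Finset.mem_univ, if_true]
    have h2 : dt (rr x o b) x = 0 := by
      unfold dt rr
      simp only [sub_mul, mul_assoc, ite_mul, one_mul, zero_mul, Finset.sum_sub_distrib,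
        mul_ite, mul_zero, Finset.sum_ite_eq', Finset.mem_univ, if_true]
      ring
    have h3 := congrFun (hL C (rr x o b) h2) i
    have h4 : C * Q * lf (rr x o b) = x o • (C * X b * Q) - x b • (C * X o * Q) := by
      rw [h1, mul_sub, mul_smul_comm, mul_smul_comm]
      ring_nf
    rw [h4, map_sub, map_smul, map_smul, Pi.sub_apply, Pi.smul_apply, Pi.smul_apply, smul_eq_mul,
      smul_eq_mul, ← hv, ← hv, Pi.zero_apply] at h3
    linear_combination h3
  have h5 := Pool.Agent.Helper74.Q8.AnnPt6_form v x o hr k C hC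
  rw [hx, one_pow, one_mul, hv, hv] at h5
  rw [h5, Pi.smul_apply, smul_eq_mul]

variable {Ω : Type*} [Field Ω] [CharZero Ω] {q : ℕ} {D : Sym (Fin 3) q → Derivation ℤ Ω Ω}
  {a : Sym (Fin 3) q → Ω} {B : Subfield Ω} {x : Fin 3 → Ω}

theorem fin_ql (h : PtL D a B x) (Q1 : MvPolynomial (Fin 3) Ω) (hQ1 : Q1.IsHomogeneous 2)
    (hQB : RatP B Q1)
    (hQe : ∀ (C : MvPolynomial (Fin 3) Ω) (l : Fin 3 → Ω), dt l x = 0 →
      et D a x (C * Q1 * lf l) = 0) :
    Ln B x ∨ ∀ C, et D a x (C * Q1) = 0 := by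
  have hq : 2 + 2 = q := h.hq.symm
  have hq0 : (q : Ω) ≠ 0 := Nat.cast_ne_zero.2 (by omega)
  have key : ∀ C, C.IsHomogeneous 2 →
      et D a x (C * Q1) = eval x C • et D a x (X 0 ^ 2 * Q1) := fun C hC =>
    FinQL_lin (et D a x) x 0 h.one Q1 hQe 2 C hC
  by_cases hw : et D a x (X 0 ^ 2 * Q1) = 0
  · right
    intro C
    rw [et_part D a x 2 2 hq C Q1 hQ1, key _ (homogeneousComponent_isHomogeneous 2 C), hw,
      smul_zero]
  · left
    obtain ⟨i, hi⟩ : ∃ i, et D a x (X 0 ^ 2 * Q1) i ≠ 0 := by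
      by_contra hcon
      push Not at hcon
      exact hw (funext hcon)
    refine ln_of_mem (wa_pt h.frame h.one hi fun m hm => ?_)
    have h1 : (X m ^ 2 : MvPolynomial (Fin 3) Ω).IsHomogeneous 2 := by
      simpa using (isHomogeneous_X Ω m).pow 2
    have h2 := congrFun (key _ h1) i
    rw [map_pow, eval_X, Pi.smul_apply, smul_eq_mul] at h2
    have h3 : et D a x (X 0 ^ 2 * Q1) i = et D a x (X m ^ 2 * Q1) i * ((x m) ^ 2)⁻¹ := by
      rw [h2, mul_comm (x m ^ 2), mul_inv_cancel_right₀ (pow_ne_zero 2 hm)]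
    have h4 : RatP B (X m ^ 2 * Q1) := by
      refine ratP_mul ?_ hQB
      rw [X_pow_eq_monomial]
      exact ratP_mono _ B.one_mem
    have h5 := (wa_et (C := fun _ => True) h.frame hq0 h.ne hm (X m ^ 2 * Q1) h4 i).mul hm
      (WA.inv_pow hm 2)
    rw [h3]
    exact h5

end Pool.Agent.Helper74.PQ
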