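import Pool.Agent.Helper74.PQ.Wt
import Pool.Agent.Helper74.PQ.RatL
import Pool.Agent.Helper74.PQ.SpanL

/-!
# PQ-FREEL: the equivariance

`e = et (X_j ∂F/∂X_i) + x_j e_i ≠ 0` has weight `1` (`fp_pderiv_rat`) and `gr . e = 0`
(`- x_j (∂F/∂X_i)(x) + x_j gr_i = 0`). Not small (with `u = e`): some `et (P l)`, `l . x = 0`, is
not a multiple of `e`; by linearity `P = X^K` a monomial with coefficient one. Let
`L b = det (e, et (X^K X_b), et (X_0^q))`. Then
`x_j L_b - x_b L_j = det (e, et (X^K lf (rr x j b)), et (X_0^q))`, which is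
`det (e, et (X^K lf (rr x j b)), et (X_m^q)) / x_m^q` (`et_pow`, `gr_det`), of weight
`1 + 2 + 1 - 4 = 0`: rational (`wa_rat`). Not all are zero: `e` and `et (X^K l)` are a basis of
`gr^⊥` and `gr . et (X_0^q) = -1`. `ln_of_plu`.
-/

set_option autoImplicit false

namespace Pool.Agent.Helper74.PQ

open scoped BigOperators
open MvPolynomial
open Pool.Agent.Helper8.LG (Bdd RowBdd form mon)
open Pool.Agent.Helper49.LN (cP mo hf pl)
open Pool.Agent.Helper6.QS
open Pool.Agent.Helper74.Q8 (rr)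

section

variable {Ω : Type*} [Field Ω]

/-- the determinant of three vectors -/
theorem freeL_det (u v w : Fin 3 → Ω) : Matrix.det (Matrix.of ![u, v, w]) =
    u 0 * v 1 * w 2 - u 0 * v 2 * w 1 - u 1 * v 0 * w 2 + u 1 * v 2 * w 0 + u 2 * v 0 * w 1 -
      u 2 * v 1 * w 0 := by
  rw [Matrix.det_fin_three]
  rfl

/-- the determinant as a linear function of the last row -/
def freeL_lin (u v : Fin 3 → Ω) : (Fin 3 → Ω) →ₗ[Ω] Ω where
  toFun w := Matrix.det (Matrix.of ![u, v, w])
  map_add' w w' := by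
    simp only [freeL_det, Pi.add_apply]
    ring
  map_smul' c w := by
    simp only [freeL_det, Pi.smul_apply, smul_eq_mul, RingHom.id_apply]
    ring

theorem freeL_add (u v v' w : Fin 3 → Ω) : Matrix.det (Matrix.of ![u, v + v', w]) =
    Matrix.det (Matrix.of ![u, v, w]) + Matrix.det (Matrix.of ![u, v', w]) := by
  simp only [freeL_det, Pi.add_apply]
  ring

theorem freeL_smul (u v w : Fin 3 → Ω) (c : Ω) : Matrix.det (Matrix.of ![u, c • v, w]) =
    c * Matrix.det (Matrix.of ![u, v, w]) := by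
  simp only [freeL_det, Pi.smul_apply, smul_eq_mul]
  ring

/-- two independent vectors orthogonal to `g` and a third one which is not orthogonal to `g` -/
theorem freeL_ne (g u v w : Fin 3 → Ω) (hu : dt g u = 0) (hv : dt g v = 0) (hw : dt g w ≠ 0)
    (hu0 : u ≠ 0) (huv : ∀ c : Ω, v ≠ c • u) : Matrix.det (Matrix.of ![u, v, w]) ≠ 0 := by
  intro h0
  obtain ⟨c, hc, hc0⟩ := Matrix.exists_vecMul_eq_zero_iff.2 h0
  have h1 : ∀ l, c 0 * u l + c 1 * v l + c 2 * w l = 0 := by
    intro l
    have h2 := congrFun hc0 l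
    rw [Matrix.vecMul, dotProduct, Fin.sum_univ_three] at h2
    exact h2
  have h2 : c 0 • u + c 1 • v + c 2 • w = 0 := by
    funext l
    exact h1 l
  have h3 := congrArg (dt g) h2
  rw [Pool.Agent.Helper74.Q8.dt_add', Pool.Agent.Helper74.Q8.dt_add',
    Pool.Agent.Helper74.Q8.dt_smul', Pool.Agent.Helper74.Q8.dt_smul',
    Pool.Agent.Helper74.Q8.dt_smul', hu, hv, mul_zero, mul_zero, zero_add, zero_add,
    Pool.Agent.Helper74.Q8.dt_zero'] at h3
  have h4 : c 2 = 0 := (mul_eq_zero.1 h3).resolve_right hw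
  rw [h4, zero_smul, add_zero] at h2
  by_cases h5 : c 1 = 0
  · rw [h5, zero_smul, add_zero] at h2
    have h6 : c 0 = 0 := (smul_eq_zero.1 h2).resolve_right hu0
    apply hc
    funext i
    fin_cases i
    · exact h6
    · exact h5
    · exact h4
  · apply huv (-(c 1)⁻¹ * c 0)
    have h6 : c 1 • v = - (c 0 • u) := by
      rw [add_comm] at h2
      exact eq_neg_of_add_eq_zero_left h2
    calc v = (c 1)⁻¹ • (c 1 • v) := by rw [smul_smul, inv_mul_cancel₀ h5, one_smul]
      _ = (-(c 1)⁻¹ * c 0) • u := by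
        rw [h6, smul_neg, smul_smul, neg_mul, neg_smul]

/-- a linear form vanishing at `x` -/
theorem freeL_span (x : Fin 3 → Ω) (hx : x 0 = 1) (l : Fin 3 → Ω) (hl : dt l x = 0) :
    l = l 0 • rr x 0 0 + (l 1 • rr x 0 1 + l 2 • rr x 0 2) := by
  have h1 : l 0 * x 0 + l 1 * x 1 + l 2 * x 2 = 0 := by
    rw [dt, Fin.sum_univ_three] at hl
    exact hl
  rw [hx, mul_one] at h1
  have h2 : l 0 = - (l 1 * x 1 + l 2 * x 2) := by linear_combination h1
  funext i
  simp only [Pi.add_apply, Pi.smul_apply, smul_eq_mul]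
  unfold rr
  fin_cases i
  · simp [hx]
    rw [h2]
    ring
  · simp [hx]
  · simp [hx]

end

section

variable {Ω : Type*} [Field Ω] {σ : Type*} [Fintype σ] [DecidableEq σ]

theorem freeL_single (g : σ → Ω) (i : σ) (c : Ω) : dt g (Pi.single i c) = g i * c := by
  rw [dt, Finset.sum_eq_single i, Pi.single_eq_same]
  · intro j _ hj
    rw [Pi.single_eq_of_ne hj, mul_zero]
  · intro h
    exact absurd (Finset.mem_univ _) h

/-- the linear forms `x_j X_b - x_b X_j` -/
theorem freeL_rr (x : σ → Ω) (j b : σ) :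
    (lf (rr x j b) : MvPolynomial σ Ω) = x j • X b - x b • X j := by
  unfold lf rr
  have h1 : ∀ i, (x j * (if i = b then 1 else 0) - x b * (if i = j then 1 else 0)) •
      (X i : MvPolynomial σ Ω) = (if i = b then x j • X b else 0) -
        (if i = j then x b • X j else 0) := by
    intro i
    rw [sub_smul]
    congr 1
    · split_ifs with h
      · rw [mul_one, h]
      · rw [mul_zero, zero_smul]
    · split_ifs with h
      · rw [mul_one, h]
      · rw [mul_zero, zero_smul]
  rw [Finset.sum_congr rfl fun i _ => h1 i, Finset.sum_sub_distrib, Finset.sum_ite_eq',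
    Finset.sum_ite_eq', if_pos (Finset.mem_univ _), if_pos (Finset.mem_univ _)]

omit [Fintype σ] [DecidableEq σ] in
/-- if all monomials give multiples of `v`, then all polynomials do -/
theorem freeL_mono {V : Type*} [AddCommGroup V] [Module Ω V] (E : MvPolynomial σ Ω →ₗ[Ω] V)
    (g : MvPolynomial σ Ω) (v : V) (h : ∀ K : σ →₀ ℕ, ∃ c : Ω, E (monomial K 1 * g) = c • v)
    (P : MvPolynomial σ Ω) : ∃ c : Ω, E (P * g) = c • v := by
  have h1 : E (P * g) ∈ Submodule.span Ω {v} := by
    rw [P.as_sum, Finset.sum_mul, map_sum]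
    refine Submodule.sum_mem _ fun m _ => ?_
    have h2 : (monomial m (coeff m P) : MvPolynomial σ Ω) = coeff m P • monomial m 1 := by
      rw [smul_monomial, smul_eq_mul, mul_one]
    rw [h2, smul_mul_assoc, map_smul]
    refine Submodule.smul_mem _ _ ?_
    obtain ⟨c, hc⟩ := h m
    rw [hc]
    exact Submodule.mem_span_singleton.2 ⟨c, rfl⟩
  obtain ⟨c, hc⟩ := Submodule.mem_span_singleton.1 h1
  exact ⟨c, hc.symm⟩

end

variable {Ω : Type*} [Field Ω] [CharZero Ω] {q : ℕ} {D : Sym (Fin 3) q → Derivation ℤ Ω Ω}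
  {a : Sym (Fin 3) q → Ω} {B : Subfield Ω} {x : Fin 3 → Ω}

theorem freeL_q (h : PtL D a B x) : (q : Ω) ≠ 0 := by
  have h1 : q ≠ 0 := by
    intro h2
    have h3 := h.hq
    omega
  exact Nat.cast_ne_zero.2 h1

omit [CharZero Ω] in
theorem freeL_hom (h : PtL D a B x) (i j : Fin 3) :
    (X j * pderiv i (Fp a)).IsHomogeneous q := by
  have h1 : 1 + (q - 1) = q := by
    have h3 := h.hq
    omega
  have h2 := (isHomogeneous_X Ω j).mul ((fp_hom a).pderiv (i := i))
  rwa [h1] at h2

/-- `e` is orthogonal to the gradient -/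
theorem freeL_gr (h : PtL D a B x) (i j : Fin 3) :
    dt (gr a x) (et D a x (X j * pderiv i (Fp a)) + Pi.single i (x j)) = 0 := by
  rw [Pool.Agent.Helper74.Q8.dt_add', gr_et D a h.frame.dual (freeL_q h) x h.ne, freeL_single,
    ev_hom q x _ (freeL_hom h i j), map_mul, eval_X]
  unfold gr
  ring

/-- the components of `e` have weight `1` -/
theorem freeL_we (h : PtL D a B x) (i j : Fin 3) {m : Fin 3} (hm : x m ≠ 0) (l : Fin 3) :
    WA D a B x (fun _ => True) m 1
      ((et D a x (X j * pderiv i (Fp a)) + Pi.single i (x j) : Fin 3 → Ω) l) := by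
  rw [Pi.add_apply]
  refine WA.add ?_ ?_
  · exact wa_et h.frame (freeL_q h) h.ne hm _
      (ratP_mul (ratP_X j) (fp_pderiv_rat B a h.frame.mem i)) l
  · by_cases hl : l = i
    · rw [hl, Pi.single_eq_same]
      exact WA.coord j
    · rw [Pi.single_eq_of_ne hl]
      exact WA.zero

/-- the determinants are rational -/
theorem freeL_rat (h : PtL D a B x) (v : Fin 3 → Ω) (hv : dt (gr a x) v = 0)
    (hw : ∀ m, x m ≠ 0 → ∀ l, WA D a B x (fun _ => True) m 1 (v l)) (K : Fin 3 →₀ ℕ)
    (j b : Fin 3) (hx : dt (rr x j b) x = 0) :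
    Matrix.det (Matrix.of ![v, et D a x (monomial K 1 * lf (rr x j b)), et D a x (X 0 ^ q)]) ∈
      B := by
  have hq0 : 0 < q := by
    have h3 := h.hq
    omega
  refine wa_rat h.frame h.one fun m hm => ?_
  have h1 := et_pow D a h.one hq0
    (freeL_lin v (et D a x (monomial K 1 * lf (rr x j b))))
    (fun P i => gr_det h _ _ _ hv (gr_lw h _ _ hx) (gr_lw h _ _ (lw_x h.one i))) m
  have h2 : Matrix.det (Matrix.of ![v, et D a x (monomial K 1 * lf (rr x j b)),
      et D a x (X m ^ q)]) = x m ^ q * Matrix.det (Matrix.of ![v,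
        et D a x (monomial K 1 * lf (rr x j b)), et D a x (X 0 ^ q)]) := h1
  have h3 : Matrix.det (Matrix.of ![v, et D a x (monomial K 1 * lf (rr x j b)),
      et D a x (X 0 ^ q)]) = Matrix.det (Matrix.of ![v,
        et D a x (monomial K 1 * lf (rr x j b)), et D a x (X m ^ q)]) * (x m ^ q)⁻¹ := by
    rw [h2, mul_comm (x m ^ q), mul_assoc, mul_inv_cancel₀ (pow_ne_zero _ hm), mul_one]
  rw [h3]
  have h4 : WA D a B x (fun _ => True) m ((![1, 1 + 1, 1] : Fin 3 → ℤ) 0 +
      (![1, 1 + 1, 1] : Fin 3 → ℤ) 1 + (![1, 1 + 1, 1] : Fin 3 → ℤ) 2)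
      (Matrix.det (Matrix.of ![v, et D a x (monomial K 1 * lf (rr x j b)),
        et D a x (X m ^ q)])) := by
    refine WA.det hm _ _ fun i l => ?_
    fin_cases i
    · exact hw m hm l
    · show WA D a B x (fun _ => True) m (1 + 1) (et D a x (monomial K 1 * lf (rr x j b)) l)
      have h5 : et D a x (monomial K 1 * lf (rr x j b)) l =
          x j * et D a x (monomial K 1 * X b) l - x b * et D a x (monomial K 1 * X j) l := by
        rw [freeL_rr, mul_sub, mul_smul_comm, mul_smul_comm, map_sub, map_smul, map_smul]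
        rfl
      rw [h5]
      exact WA.sub
        (WA.mul hm (WA.coord j) (wa_et h.frame (freeL_q h) h.ne hm _
          (ratP_mul (ratP_mono K (one_mem _)) (ratP_X b)) l))
        (WA.mul hm (WA.coord b) (wa_et h.frame (freeL_q h) h.ne hm _
          (ratP_mul (ratP_mono K (one_mem _)) (ratP_X j)) l))
    · exact wa_et h.frame (freeL_q h) h.ne hm _ (ratP_pow (ratP_X m) q) l
  have h5 := WA.mul hm h4 (WA.inv_pow (D := D) (a := a) (B := B) (C := fun _ => True) hm q)
  have h6 : (![1, 1 + 1, 1] : Fin 3 → ℤ) 0 + (![1, 1 + 1, 1] : Fin 3 → ℤ) 1 +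
      (![1, 1 + 1, 1] : Fin 3 → ℤ) 2 + -(q : ℤ) = 0 := by
    have h7 : (q : ℤ) = 4 := by exact_mod_cast h.hq
    rw [h7]
    rfl
  rwa [h6] at h5

omit [CharZero Ω] in
theorem freeL_rx (x : Fin 3 → Ω) (j b : Fin 3) : dt (rr x j b) x = 0 := by
  rw [← eval_lf, freeL_rr, map_sub, smul_eval, smul_eval, eval_X, eval_X]
  ring

theorem free_line (h : PtL D a B x) (hs : ¬ Small D a x) (i j : Fin 3)
    (he : et D a x (X j * pderiv i (Fp a)) ≠ - Pi.single i (x j)) : Ln B x := by
  obtain ⟨v, hv⟩ : ∃ v, v = et D a x (X j * pderiv i (Fp a)) + Pi.single i (x j) := ⟨_, rfl⟩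
  have hv0 : v ≠ 0 := by
    intro h0
    rw [hv] at h0
    exact he (eq_neg_of_add_eq_zero_left h0)
  have hvg : dt (gr a x) v = 0 := by
    rw [hv]
    exact freeL_gr h i j
  have hvw : ∀ m, x m ≠ 0 → ∀ l, WA D a B x (fun _ => True) m 1 (v l) := by
    intro m hm l
    rw [hv]
    exact freeL_we h i j hm l
  clear hv he
  obtain ⟨l, hl, K, hK⟩ : ∃ l : Fin 3 → Ω, dt l x = 0 ∧ ∃ K : Fin 3 →₀ ℕ,
      ∀ c : Ω, et D a x (monomial K 1 * lf l) ≠ c • v := by
    by_contra hcon
    push Not at hcon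
    apply hs
    refine ⟨v, fun P l hl => ?_⟩
    exact freeL_mono (et D a x) (lf l) v (hcon l hl) P
  obtain ⟨L, hL⟩ : ∃ L : Fin 3 → Ω, ∀ b, L b = Matrix.det (Matrix.of ![v,
      et D a x (monomial K 1 * X b), et D a x (X 0 ^ q)]) := ⟨_, fun _ => rfl⟩
  have h1 : ∀ j b, x j * L b - x b * L j = Matrix.det (Matrix.of ![v,
      et D a x (monomial K 1 * lf (rr x j b)), et D a x (X 0 ^ q)]) := by
    intro j b
    have h5 : et D a x (monomial K 1 * lf (rr x j b)) =
        x j • et D a x (monomial K 1 * X b) + (-x b) • et D a x (monomial K 1 * X j) := by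
      rw [freeL_rr, mul_sub, mul_smul_comm, mul_smul_comm, map_sub, map_smul, map_smul,
        neg_smul, sub_eq_add_neg]
    rw [h5, freeL_add, freeL_smul, freeL_smul, hL, hL]
    ring
  refine ln_of_plu (y := L) ?_ fun j b => ?_
  · by_contra hcon
    push Not at hcon
    refine freeL_ne (gr a x) v (et D a x (monomial K 1 * lf l)) (et D a x (X 0 ^ q)) hvg
      (gr_lw h _ _ hl) ?_ hv0 hK ?_
    · rw [gr_pow h]
      exact neg_ne_zero.2 one_ne_zero
    · have h6 : et D a x (monomial K 1 * lf l) =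
          l 0 • et D a x (monomial K 1 * lf (rr x 0 0)) +
            (l 1 • et D a x (monomial K 1 * lf (rr x 0 1)) +
              l 2 • et D a x (monomial K 1 * lf (rr x 0 2))) := by
        conv_lhs => rw [freeL_span x h.one l hl]
        rw [Pool.Agent.Helper74.Q8.lf_add', Pool.Agent.Helper74.Q8.lf_add',
          Pool.Agent.Helper74.Q8.lf_smul', Pool.Agent.Helper74.Q8.lf_smul',
          Pool.Agent.Helper74.Q8.lf_smul', mul_add, mul_add, mul_smul_comm, mul_smul_comm,
          mul_smul_comm, map_add, map_add, map_smul, map_smul, map_smul]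
      rw [h6, freeL_add, freeL_add, freeL_smul, freeL_smul, freeL_smul, ← h1, ← h1, ← h1,
        hcon, hcon, hcon, mul_zero, mul_zero, mul_zero, add_zero, add_zero]
  · rw [h1]
    exact freeL_rat h v hvg hvw K j b (freeL_rx x j b)

end Pool.Agent.Helper74.PQ
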