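import Pool.Agent.Helper74.PQ.RatL
import Pool.Agent.Helper74.PQ.SpanL

/-!
# PQ-GLL: the derivatives are given by rational matrices

Consider the `B`-linear map `(c, C) ↦ ∑_ij c_ij X_j ∂F/∂X_i + C Q1` from
`gl_3(B) × {forms of degree 2 over B}` (dimension `9 + 6 = 15`) to the forms of degree `q = 4` over
`B` (dimension `15`; `Sym (Fin 3) q → B`, `Sym.card_sym_eq_choose`, do not enumerate). By `Eqv` and
`hQe`: `et (∑ c_ij X_j ∂F/∂X_i + C Q1) = - c x` (`c.mulVec x`).
If the map is not injective: `(c, C) ≠ 0` in the kernel; `c ≠ 0` (otherwise `C Q1 = 0`), and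
`c x = 0`: a nonzero row of `c` is a rational linear form vanishing at `x`: `Ln B x`. If it is
injective, it is onto: every `X^J` is `∑ c_ij X_j ∂F/∂X_i + C Q1`, so `et (X^J) = - c x`: `Cnc`.
`zero`: `0 = gr . et (X_0^2 Q1) = - Q1(x)` (`gr_et`, `ev_mul`).
-/

set_option autoImplicit false

namespace Pool.Agent.Helper74.PQ

open scoped BigOperators
open MvPolynomial
open Pool.Agent.Helper8.LG (Bdd RowBdd form mon)
open Pool.Agent.Helper49.LN (cP mo hf pl)
open Pool.Agent.Helper6.QS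
open Pool.Agent.Helper74.Q8 (rr)

/-- as many rational polynomials as monomials of degree `q`: a relation, or everything -/
theorem GlL_lin {Ω : Type*} [Field Ω] {σ : Type*} [Fintype σ] [DecidableEq σ] {q : ℕ}
    {B : Subfield Ω} {ι : Type*} [Fintype ι] (g : ι → MvPolynomial σ Ω)
    (hg : ∀ i, RatP B (g i)) (hc : Fintype.card ι = Fintype.card (Sym σ q)) :
    (∃ c : ι → Ω, c ≠ 0 ∧ (∀ i, c i ∈ B) ∧ ∀ J : Sym σ q,
      coeff (Multiset.toFinsupp (J : Multiset σ)) (∑ i, c i • g i) = 0) ∨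
    ∀ b : Sym σ q → Ω, (∀ J, b J ∈ B) → ∃ c : ι → Ω, (∀ i, c i ∈ B) ∧ ∀ J : Sym σ q,
      coeff (Multiset.toFinsupp (J : Multiset σ)) (∑ i, c i • g i) = b J := by
  classical
  let M : Matrix (Sym σ q) ι B := fun J i =>
    ⟨coeff (Multiset.toFinsupp (J : Multiset σ)) (g i), hg i _⟩
  have hM : ∀ (c : ι → B) (J : Sym σ q),
      coeff (Multiset.toFinsupp (J : Multiset σ)) (∑ i, (c i : Ω) • g i) =
        ((M.mulVecLin c J : B) : Ω) := by
    intro c J
    rw [coeff_sum, Matrix.mulVecLin_apply, Matrix.mulVec, dotProduct]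
    rw [AddSubmonoidClass.coe_finsetSum]
    refine Finset.sum_congr rfl fun i _ => ?_
    rw [coeff_smul, smul_eq_mul, mul_comm]
    rfl
  have hf : Module.finrank B (ι → B) = Module.finrank B (Sym σ q → B) := by
    rw [Module.finrank_fintype_fun_eq_card, Module.finrank_fintype_fun_eq_card, hc]
  by_cases hi : Function.Injective M.mulVecLin
  · right
    have hs := (LinearMap.injective_iff_surjective_of_finrank_eq_finrank hf).1 hi
    intro b hb
    obtain ⟨c, hc⟩ := hs fun J => ⟨b J, hb J⟩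
    refine ⟨fun i => c i, fun i => (c i).2, fun J => ?_⟩
    rw [hM, hc]
  · left
    rw [← LinearMap.ker_eq_bot, LinearMap.ker_eq_bot'] at hi
    push Not at hi
    obtain ⟨c, hc0, hne⟩ := hi
    refine ⟨fun i => c i, fun h => hne ?_, fun i => (c i).2, fun J => ?_⟩
    · funext i
      exact Subtype.ext (congrFun h i)
    · rw [hM, hc0]
      rfl

/-- a form of degree `q` whose coefficients vanish -/
theorem GlL_zero {Ω : Type*} [Field Ω] {σ : Type*} [Fintype σ] [DecidableEq σ] {q : ℕ}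
    (f : MvPolynomial σ Ω) (hf : f.IsHomogeneous q)
    (h0 : ∀ J : Sym σ q, coeff (Multiset.toFinsupp (J : Multiset σ)) f = 0) : f = 0 := by
  ext m
  rw [coeff_zero]
  by_cases hm : m.degree = q
  · have h1 : Multiset.card (Finsupp.toMultiset m) = q := by
      rw [← Pool.Agent.Helper49.LN.toFinsupp_degree, Finsupp.toMultiset_toFinsupp, hm]
    have h2 := h0 (Sym.mk _ h1)
    rwa [Sym.coe_mk, Finsupp.toMultiset_toFinsupp] at h2
  · exact hf.coeff_eq_zero hm

theorem GlL_mo {Ω : Type*} [Field Ω] {σ : Type*} [Fintype σ] [DecidableEq σ] {q : ℕ}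
    (J J' : Sym σ q) : coeff (Multiset.toFinsupp (J' : Multiset σ)) (mo Ω (J : Multiset σ)) =
      if J' = J then 1 else 0 := by
  rw [Pool.Agent.Helper49.LN.mo_eq, coeff_monomial]
  by_cases h : J' = J
  · rw [if_pos h, h, if_pos rfl]
  · rw [if_neg h, if_neg]
    intro h1
    exact h (Sym.coe_injective (Multiset.toFinsupp.injective h1)).symm

theorem GlL_et {Ω : Type*} [Field Ω] {σ : Type*} [Fintype σ] [DecidableEq σ] {q : ℕ}
    (D : Sym σ q → Derivation ℤ Ω Ω) (a : Sym σ q → Ω) (x : σ → Ω) (f g : MvPolynomial σ Ω)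
    (h : ∀ J : Sym σ q, coeff (Multiset.toFinsupp (J : Multiset σ)) f =
      coeff (Multiset.toFinsupp (J : Multiset σ)) g) : et D a x f = et D a x g := by
  rw [et, Pool.Agent.Helper49.LN.cP_apply, Pool.Agent.Helper49.LN.cP_apply]
  exact Finset.sum_congr rfl fun J _ => by rw [h J]

/-- the matrices act -/
theorem GlL_act {Ω : Type*} [Field Ω] {σ : Type*} [Fintype σ] [DecidableEq σ] {q : ℕ}
    {D : Sym σ q → Derivation ℤ Ω Ω} {a : Sym σ q → Ω} {x : σ → Ω} (hE : Eqv D a x)
    {κ : Type*} [Fintype κ] (Q1 : MvPolynomial σ Ω) (hQe : ∀ C, et D a x (C * Q1) = 0)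
    (w : κ → MvPolynomial σ Ω) (c : (σ × σ) ⊕ κ → Ω) :
    et D a x (∑ i, c i • (Sum.elim (fun p : σ × σ => X p.2 * pderiv p.1 (Fp a))
      (fun k => w k * Q1) i : MvPolynomial σ Ω)) =
      - (Matrix.of fun i j => c (Sum.inl (i, j))).mulVec x := by
  rw [Fintype.sum_sum_type, map_add, map_sum, map_sum]
  have h1 : ∑ k, et D a x (c (Sum.inr k) • (w k * Q1)) = 0 :=
    Finset.sum_eq_zero fun k _ => by rw [map_smul, hQe, smul_zero]
  simp only [Sum.elim_inl, Sum.elim_inr]
  have hE' : ∀ i j, et D a x (X j * pderiv i (Fp a)) = - Pi.single i (x j) := hE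
  rw [h1, add_zero, Fintype.sum_prod_type]
  funext l
  simp only [Finset.sum_apply, map_smul, hE', Pi.smul_apply, Pi.neg_apply, smul_eq_mul,
    Matrix.mulVec, dotProduct, Matrix.of_apply, mul_neg, Finset.sum_neg_distrib, neg_inj]
  rw [Finset.sum_eq_single l]
  · exact Finset.sum_congr rfl fun j _ => by rw [Pi.single_eq_same]
  · intro i _ hi
    exact Finset.sum_eq_zero fun j _ => by rw [Pi.single_eq_of_ne hi.symm, mul_zero]
  · intro h
    exact absurd (Finset.mem_univ l) h

variable {Ω : Type*} [Field Ω] [CharZero Ω] {q : ℕ} {D : Sym (Fin 3) q → Derivation ℤ Ω Ω}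
  {a : Sym (Fin 3) q → Ω} {B : Subfield Ω} {x : Fin 3 → Ω}

theorem GlL_card (hq : q = 4) : Fintype.card ((Fin 3 × Fin 3) ⊕ Sym (Fin 3) 2) =
    Fintype.card (Sym (Fin 3) q) := by
  rw [Fintype.card_sum, Fintype.card_prod, Fintype.card_fin, Sym.card_sym_eq_choose,
    Sym.card_sym_eq_choose, Fintype.card_fin, hq]
  rfl

theorem gl_l (h : PtL D a B x) (hE : Eqv D a x) (Q1 : MvPolynomial (Fin 3) Ω)
    (hQ1 : Q1.IsHomogeneous 2) (hQ0 : Q1 ≠ 0) (hQB : RatP B Q1)
    (hQe : ∀ C, et D a x (C * Q1) = 0) : Ln B x ∨ Cnc D a B x Q1 := by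
  have hq : 2 + 2 = q := h.hq.symm
  have hcoef : ∀ i : (Fin 3 × Fin 3) ⊕ Sym (Fin 3) 2, RatP B
      (Sum.elim (fun p : Fin 3 × Fin 3 => X p.2 * pderiv p.1 (Fp a))
        (fun k : Sym (Fin 3) 2 => mo Ω (k : Multiset (Fin 3)) * Q1) i :
          MvPolynomial (Fin 3) Ω) := by
    intro i
    rcases i with p | k
    · exact ratP_mul (ratP_X _) (fp_pderiv_rat B a h.frame.mem _)
    · exact ratP_mul (ratP_mo' _) hQB
  rcases GlL_lin _ hcoef (GlL_card h.hq) with ⟨c, hc0, hcB, hc⟩ | hs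
  · left
    have h1 := GlL_act hE Q1 hQe (fun k : Sym (Fin 3) 2 => mo Ω (k : Multiset (Fin 3))) c
    rw [GlL_et D a x _ 0 (fun J => by rw [hc J, coeff_zero]), map_zero] at h1
    by_cases hz : ∀ i j, c (Sum.inl (i, j)) = 0
    · exfalso
      have h2 : ∑ i, c i • (Sum.elim (fun p : Fin 3 × Fin 3 => X p.2 * pderiv p.1 (Fp a))
          (fun k : Sym (Fin 3) 2 => mo Ω (k : Multiset (Fin 3)) * Q1) i :
            MvPolynomial (Fin 3) Ω) =
          (∑ k : Sym (Fin 3) 2, c (Sum.inr k) • mo Ω (k : Multiset (Fin 3))) * Q1 := by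
        rw [Fintype.sum_sum_type, Finset.sum_mul]
        simp only [Sum.elim_inl, Sum.elim_inr]
        rw [Finset.sum_eq_zero fun p _ => by rw [hz p.1 p.2, zero_smul], zero_add]
        exact Finset.sum_congr rfl fun k _ => by rw [smul_mul_assoc]
      have h3 : (∑ k : Sym (Fin 3) 2, c (Sum.inr k) • mo Ω (k : Multiset (Fin 3)) :
          MvPolynomial (Fin 3) Ω).IsHomogeneous 2 := by
        refine IsHomogeneous.sum _ _ _ fun k _ => ?_
        rw [smul_eq_C_mul]
        have := (isHomogeneous_C (Fin 3) (c (Sum.inr k))).mul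
          (Pool.Agent.Helper49.LN.mo_hom (E := Ω) (k : Multiset (Fin 3)))
        rwa [Sym.card_coe, zero_add] at this
      rw [h2] at hc
      have h4 := GlL_zero _ (hq ▸ h3.mul hQ1) hc
      rcases mul_eq_zero.1 h4 with h5 | h5
      · apply hc0
        funext i
        rcases i with p | k
        · exact hz p.1 p.2
        · have h6 := congrArg (coeff (Multiset.toFinsupp (k : Multiset (Fin 3)))) h5
          rw [coeff_sum, coeff_zero, Finset.sum_eq_single k] at h6
          · rwa [coeff_smul, GlL_mo, if_pos rfl, smul_eq_mul, mul_one] at h6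
          · intro k' _ hk
            rw [coeff_smul, GlL_mo, if_neg hk.symm, smul_zero]
          · intro hk
            exact absurd (Finset.mem_univ k) hk
      · exact hQ0 h5
    · push Not at hz
      obtain ⟨i, j, hij⟩ := hz
      refine ⟨fun j => c (Sum.inl (i, j)), fun h0 => hij (congrFun h0 j), fun j => hcB _, ?_⟩
      have h2 := congrFun h1 i
      rw [Pi.zero_apply, Pi.neg_apply, eq_comm, neg_eq_zero] at h2
      exact h2
  · right
    refine ⟨hQ1, hQ0, hQB, ?_, fun J => ?_⟩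
    · have h1 := gr_et D a h.frame.dual (by rw [h.hq]; norm_num) x h.ne (X 0 ^ 2 * Q1)
      rw [hQe, Pool.Agent.Helper74.Q8.dt_zero', ev_hom q x _
        (hq ▸ (isHomogeneous_X_pow 0 2).mul hQ1), map_mul, map_pow, eval_X, h.one, one_pow,
        one_mul, eq_comm, neg_eq_zero] at h1
      exact h1
    · obtain ⟨c, hcB, hc⟩ := hs (fun J' => if J' = J then 1 else 0) fun J' => by
        split_ifs
        · exact one_mem _
        · exact zero_mem _
      refine ⟨Matrix.of fun i j => c (Sum.inl (i, j)), fun i j => hcB _, ?_⟩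
      rw [← GlL_act hE Q1 hQe (fun k : Sym (Fin 3) 2 => mo Ω (k : Multiset (Fin 3))) c]
      exact GlL_et D a x _ _ fun J' => by rw [hc J', GlL_mo]

end Pool.Agent.Helper74.PQ
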