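import Pool.Agent.Helper74.PQ.RatL
import Pool.Agent.Helper74.PQ.SpanL
import Pool.Agent.Helper74.Q8.ConicCount8

/-!
# PQ-KERLINEL: a linear form which does not move the point

`et (P k) = 0` for all `P`; `L` is the line `k = 0`, through `x`. Let `l` be one of the `lw`, not
proportional to `k`. The map `P ↦ et (P l)` on cubic forms kills the multiples of `k`, is onto
`gr^⊥` (dimension 2; otherwise `Small`), so its kernel on cubic forms modulo `k` (dimension 4) has
dimension 2. By `eqv_lf` the kernel contains the three `∂F/∂X_i`: there are `c ≠ 0` and `Q2` with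
`∑ c_i ∂F/∂X_i = k Q2`.
The linear map `Ψ : (c', k') ↦ ∑ c'_i ∂F/∂X_i - k' Q2` restricted to `L` (modulo `k`, values in the
space of cubic forms on `L`, dimension 4) is onto: apply `D_f` (to the coefficients; `D_f F = f` by
duality) to the relation: `∑ c_i ∂f/∂X_i = - Ψ (D_f c, D_f k)` on `L`, and the left hand sides give
all cubic forms on `L` (`c ≠ 0`: if `k . c ≠ 0` take `f = k P`, otherwise the derivative in the
direction `c` of the quartics on `L` is onto the cubics on `L`). So the kernel of `Ψ` has dimension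
`6 - 4 = 2` and is spanned by `(c, 0)` and `(0, k)`. For a derivation `δ` over `B`, applied to the
relation: `Ψ (δ c, δ k) = 0` on `L`, so `δ k` is a multiple of `k`: `ln_of_der`.
The restriction to `L` is the substitution `conicCount8_phi g`, `g : Ω^3 → Ω^2` onto with `g k = 0`.
-/

set_option autoImplicit false

namespace Pool.Agent.Helper74.PQ

open scoped BigOperators
open MvPolynomial
open Pool.Agent.Helper8.LG (Bdd RowBdd form mon)
open Pool.Agent.Helper49.LN (cP mo hf pl)
open Pool.Agent.Helper6.QS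
open Pool.Agent.Helper74.Q8 (rr lf_add' lf_smul' lf_zero' dt_add' dt_smul' dt_comm'
  conicCount8_phi conicCount8_phi_lf conicCount8_phi_hom conicCount8_surj conicCount8_lf_single)

section lin

variable {Ω : Type*} [Field Ω]

/-- `dt n` as a linear map -/
noncomputable def KerLineL_dt (n : Fin 3 → Ω) : (Fin 3 → Ω) →ₗ[Ω] Ω where
  toFun := dt n
  map_add' := dt_add' n
  map_smul' c v := by rw [dt_smul', RingHom.id_apply, smul_eq_mul]

theorem KerLineL_dt_single (n : Fin 3 → Ω) (i : Fin 3) : dt n (Pi.single i 1) = n i := by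
  unfold dt
  rw [Finset.sum_eq_single i]
  · rw [Pi.single_eq_same, mul_one]
  · intro j _ hj
    rw [Pi.single_eq_of_ne hj, mul_zero]
  · intro h
    exact absurd (Finset.mem_univ i) h

theorem KerLineL_fin (n : Fin 3 → Ω) (hn : n ≠ 0) :
    Module.finrank Ω (LinearMap.ker (KerLineL_dt n)) = 2 := by
  have h1 := LinearMap.finrank_range_add_finrank_ker (KerLineL_dt n)
  obtain ⟨i, hi⟩ : ∃ i, n i ≠ 0 := by
    by_contra hcon
    push Not at hcon
    exact hn (funext hcon)
  have h2 : LinearMap.range (KerLineL_dt n) = ⊤ := by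
    rw [LinearMap.range_eq_top]
    refine LinearMap.surjective ?_
    intro h0
    apply hi
    have h3 := congrArg (fun f => f (Pi.single i 1)) h0
    change dt n (Pi.single i 1) = 0 at h3
    rw [KerLineL_dt_single] at h3
    exact h3
  rw [h2, finrank_top, Module.finrank_self, Module.finrank_fintype_fun_eq_card,
    Fintype.card_fin] at h1
  omega

theorem KerLineL_ex0 (n : Fin 3 → Ω) (hn : n ≠ 0) : ∃ v : Fin 3 → Ω, v ≠ 0 ∧ dt n v = 0 := by
  have h1 := KerLineL_fin n hn
  have h2 : LinearMap.ker (KerLineL_dt n) ≠ ⊥ := by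
    intro h
    rw [h, finrank_bot] at h1
    omega
  obtain ⟨v, hv, hv0⟩ := Submodule.exists_mem_ne_zero_of_ne_bot h2
  exact ⟨v, hv0, hv⟩

theorem KerLineL_ex1 (n : Fin 3 → Ω) (hn : n ≠ 0) (v : Fin 3 → Ω) (hv : v ≠ 0)
    (_hnv : dt n v = 0) : ∃ w : Fin 3 → Ω, dt n w = 0 ∧ LinearIndependent Ω ![v, w] := by
  have h1 := KerLineL_fin n hn
  by_contra hcon
  push Not at hcon
  have h2 : LinearMap.ker (KerLineL_dt n) ≤ Submodule.span Ω {v} := by
    intro w hw
    by_contra hw2
    refine hcon w hw ?_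
    rw [LinearIndependent.pair_iff' hv]
    intro a ha
    exact hw2 (Submodule.mem_span_singleton.2 ⟨a, ha⟩)
  have h3 := Submodule.finrank_mono h2
  rw [h1, finrank_span_singleton hv] at h3
  omega

theorem KerLineL_sp (n : Fin 3 → Ω) (hn : n ≠ 0) (v w : Fin 3 → Ω)
    (hvw : LinearIndependent Ω ![v, w]) (hv : dt n v = 0) (hw : dt n w = 0) (u : Fin 3 → Ω)
    (hu : dt n u = 0) : ∃ α β : Ω, u = α • v + β • w := by
  have h1 := KerLineL_fin n hn
  have h2 : Submodule.span Ω (Set.range ![v, w]) ≤ LinearMap.ker (KerLineL_dt n) := by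
    rw [Submodule.span_le]
    rintro _ ⟨i, rfl⟩
    fin_cases i
    · exact hv
    · exact hw
  have h3 : Submodule.span Ω (Set.range ![v, w]) = LinearMap.ker (KerLineL_dt n) := by
    refine Submodule.eq_of_le_of_finrank_eq h2 ?_
    rw [h1, finrank_span_eq_card hvw, Fintype.card_fin]
  have h4 : u ∈ Submodule.span Ω (Set.range ![v, w]) := by
    rw [h3]
    exact hu
  rw [Matrix.range_cons, Matrix.range_cons, Matrix.range_empty, Set.union_empty,
    Set.singleton_union, Submodule.mem_span_pair] at h4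
  obtain ⟨α, β, h5⟩ := h4
  exact ⟨α, β, h5.symm⟩

/-- the restriction of linear forms to the plane spanned by `v, w` -/
noncomputable def KerLineL_g (v w : Fin 3 → Ω) : (Fin 3 → Ω) →ₗ[Ω] (Fin 2 → Ω) where
  toFun l := ![dt l v, dt l w]
  map_add' l l' := by
    ext i
    fin_cases i
    · change dt (l + l') v = dt l v + dt l' v
      rw [dt_comm', dt_add', dt_comm' v l, dt_comm' v l']
    · change dt (l + l') w = dt l w + dt l' w
      rw [dt_comm', dt_add', dt_comm' w l, dt_comm' w l']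
  map_smul' c l := by
    ext i
    fin_cases i
    · change dt (c • l) v = c * dt l v
      rw [dt_comm', dt_smul', dt_comm' v l]
    · change dt (c • l) w = c * dt l w
      rw [dt_comm', dt_smul', dt_comm' w l]

theorem KerLineL_surj (v w : Fin 3 → Ω) (hvw : LinearIndependent Ω ![v, w]) :
    Function.Surjective (KerLineL_g v w) := by
  rw [← LinearMap.range_eq_top]
  by_contra hne
  obtain ⟨f, hf0, hf⟩ := Submodule.exists_le_ker_of_lt_top _ (lt_top_iff_ne_top.2 hne)
  apply hf0
  have h1 : ∀ l, f ![dt l v, dt l w] = 0 := fun l => hf ⟨l, rfl⟩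
  have h2 : ∀ s t : Ω, f ![s, t] = s * f ![1, 0] + t * f ![0, 1] := by
    intro s t
    have h3 : (![s, t] : Fin 2 → Ω) = s • ![1, 0] + t • ![0, 1] := by
      ext i
      fin_cases i <;> simp
    rw [h3, map_add, map_smul, map_smul, smul_eq_mul, smul_eq_mul]
  have h4 : f ![1, 0] • v + f ![0, 1] • w = 0 := by
    ext i
    have h5 := h1 (Pi.single i 1)
    rw [h2, dt_comm', KerLineL_dt_single, dt_comm', KerLineL_dt_single] at h5
    rw [Pi.add_apply, Pi.smul_apply, Pi.smul_apply, smul_eq_mul, smul_eq_mul, Pi.zero_apply]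
    linear_combination h5
  rw [LinearIndependent.pair_iff] at hvw
  obtain ⟨h6, h7⟩ := hvw _ _ h4
  refine LinearMap.ext fun z => ?_
  have h8 : z = ![z 0, z 1] := by
    ext i
    fin_cases i <;> rfl
  rw [h8, h2, h6, h7, mul_zero, mul_zero, add_zero, LinearMap.zero_apply]

theorem KerLineL_ker (v w k : Fin 3 → Ω) (hvw : LinearIndependent Ω ![v, w]) (hk : k ≠ 0)
    (hv : dt k v = 0) (hw : dt k w = 0) (l : Fin 3 → Ω) (hl : KerLineL_g v w l = 0) :
    ∃ t : Ω, l = t • k := by
  have h1 := LinearMap.finrank_range_add_finrank_ker (KerLineL_g v w)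
  rw [LinearMap.range_eq_top.2 (KerLineL_surj v w hvw), finrank_top,
    Module.finrank_fintype_fun_eq_card, Module.finrank_fintype_fun_eq_card, Fintype.card_fin,
    Fintype.card_fin] at h1
  have h2 : Submodule.span Ω {k} ≤ LinearMap.ker (KerLineL_g v w) := by
    rw [Submodule.span_singleton_le_iff_mem, LinearMap.mem_ker]
    change ![dt k v, dt k w] = 0
    rw [hv, hw]
    ext i
    fin_cases i <;> rfl
  have h3 : Submodule.span Ω {k} = LinearMap.ker (KerLineL_g v w) := by
    refine Submodule.eq_of_le_of_finrank_eq h2 ?_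
    rw [finrank_span_singleton hk]
    omega
  have h4 : l ∈ Submodule.span Ω {k} := by
    rw [h3]
    exact hl
  obtain ⟨t, ht⟩ := Submodule.mem_span_singleton.1 h4
  exact ⟨t, ht.symm⟩

end lin

section pol

variable {Ω : Type*} [Field Ω]

/-- a section of the restriction -/
noncomputable def KerLineL_s (c : Fin 2 → Fin 3 → Ω) :
    MvPolynomial (Fin 2) Ω →ₐ[Ω] MvPolynomial (Fin 3) Ω := aeval fun j => lf (c j)

/-- every polynomial is, modulo `lf k`, its restriction -/
theorem KerLineL_mod (v w k : Fin 3 → Ω) (hvw : LinearIndependent Ω ![v, w]) (hk : k ≠ 0)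
    (hv : dt k v = 0) (hw : dt k w = 0) (c : Fin 2 → Fin 3 → Ω)
    (hc : ∀ j, KerLineL_g v w (c j) = Pi.single j 1) (P : MvPolynomial (Fin 3) Ω) :
    ∃ R, P = KerLineL_s c (conicCount8_phi (KerLineL_g v w) P) + lf k * R := by
  have h1 : (Ideal.Quotient.mkₐ Ω (Ideal.span {lf k})).comp
      ((KerLineL_s c).comp (conicCount8_phi (KerLineL_g v w))) =
      Ideal.Quotient.mkₐ Ω (Ideal.span {(lf k : MvPolynomial (Fin 3) Ω)}) := by
    refine MvPolynomial.algHom_ext fun i => ?_
    rw [AlgHom.comp_apply, AlgHom.comp_apply, Ideal.Quotient.mkₐ_eq_mk,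
      Ideal.Quotient.eq, Ideal.mem_span_singleton]
    have h2 : conicCount8_phi (KerLineL_g v w) (X i) = lf (KerLineL_g v w (Pi.single i 1)) := by
      rw [conicCount8_phi, aeval_X]
    have h3 : KerLineL_s c (lf (KerLineL_g v w (Pi.single i 1))) =
        lf (KerLineL_g v w (Pi.single i 1) 0 • c 0 + KerLineL_g v w (Pi.single i 1) 1 • c 1) := by
      rw [lf_add', lf_smul', lf_smul', lf, Fin.sum_univ_two, map_add, map_smul, map_smul,
        KerLineL_s, aeval_X, aeval_X]
    obtain ⟨t, ht⟩ := KerLineL_ker v w k hvw hk hv hw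
      (KerLineL_g v w (Pi.single i 1) 0 • c 0 + KerLineL_g v w (Pi.single i 1) 1 • c 1 -
        Pi.single i 1) (by
        rw [map_sub, map_add, map_smul, map_smul, hc, hc, sub_eq_zero]
        ext j
        fin_cases j <;> simp)
    have h4 : lf (KerLineL_g v w (Pi.single i 1) 0 • c 0 +
        KerLineL_g v w (Pi.single i 1) 1 • c 1) = X i + t • lf k := by
      rw [← conicCount8_lf_single, ← lf_smul', ← lf_add', ← ht]
      congr 1
      abel
    rw [h2, h3, h4]
    refine ⟨C t, ?_⟩
    rw [add_sub_cancel_left, smul_eq_C_mul, mul_comm]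
  have h5 := congrArg (fun f => f P) h1
  change Ideal.Quotient.mk _ (KerLineL_s c (conicCount8_phi (KerLineL_g v w) P)) =
    Ideal.Quotient.mk _ P at h5
  rw [eq_comm, Ideal.Quotient.eq, Ideal.mem_span_singleton] at h5
  obtain ⟨R, hR⟩ := h5
  exact ⟨R, by rw [← hR]; ring⟩

theorem KerLineL_dvd (v w k : Fin 3 → Ω) (hvw : LinearIndependent Ω ![v, w]) (hk : k ≠ 0)
    (hv : dt k v = 0) (hw : dt k w = 0) (P : MvPolynomial (Fin 3) Ω)
    (hP : conicCount8_phi (KerLineL_g v w) P = 0) : ∃ R, P = lf k * R := by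
  choose c hc using fun j : Fin 2 => KerLineL_surj v w hvw (Pi.single j 1)
  obtain ⟨R, hR⟩ := KerLineL_mod v w k hvw hk hv hw c hc P
  exact ⟨R, by rw [hR, hP, map_zero, zero_add]⟩

/-- the chain rule in the direction `v` -/
theorem KerLineL_chain (v w : Fin 3 → Ω) (P : MvPolynomial (Fin 3) Ω) :
    conicCount8_phi (KerLineL_g v w) (∑ i, v i • pderiv i P) =
      pderiv 0 (conicCount8_phi (KerLineL_g v w) P) := by
  induction P using MvPolynomial.induction_on with
  | C t =>
    have h1 : conicCount8_phi (KerLineL_g v w) (C t) = C t := by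
      rw [conicCount8_phi, ← algebraMap_eq, AlgHom.commutes, algebraMap_eq]
    simp only [pderiv_C, smul_zero, Finset.sum_const_zero, map_zero, h1]
  | add p q hp hq =>
    simp only [map_add, smul_add, Finset.sum_add_distrib] at hp hq ⊢
    rw [hp, hq]
  | mul_X p j hp =>
    have h2 : ∑ i, v i • pderiv i (p * X j) = (∑ i, v i • pderiv i p) * X j + v j • p := by
      rw [Finset.sum_mul]
      have h3 : ∀ i, v i • pderiv i (p * X j) = v i • pderiv i p * X j +
          (if i = j then v j • p else 0) := by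
        intro i
        rw [Derivation.leibniz, smul_eq_mul, smul_eq_mul, pderiv_X, Pi.single_apply]
        by_cases h : j = i
        · subst h
          rw [if_pos rfl, if_pos rfl, mul_one, smul_add, mul_comm (X j), smul_mul_assoc, add_comm]
        · rw [if_neg h, if_neg (Ne.symm h), mul_zero, zero_add, add_zero, mul_comm (X j),
            smul_mul_assoc]
      simp only [h3]
      rw [Finset.sum_add_distrib, Finset.sum_ite_eq' Finset.univ j, if_pos (Finset.mem_univ j)]
    have h4 : conicCount8_phi (KerLineL_g v w) (X j) = v j • X 0 + w j • X 1 := by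
      rw [conicCount8_phi, aeval_X]
      change lf ![dt (Pi.single j 1) v, dt (Pi.single j 1) w] = _
      rw [dt_comm', KerLineL_dt_single, dt_comm', KerLineL_dt_single, lf, Fin.sum_univ_two]
      rfl
    rw [h2, map_add, map_mul, map_smul, hp, map_mul, h4, Derivation.leibniz]
    have h5 : pderiv (0 : Fin 2) (v j • X 0 + w j • X 1 : MvPolynomial (Fin 2) Ω) = C (v j) := by
      rw [map_add, Derivation.map_smul, Derivation.map_smul, pderiv_X_self,
        pderiv_X_of_ne (by decide), smul_zero, add_zero, smul_eq_C_mul, mul_one]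
    rw [h5]
    simp only [smul_eq_mul, smul_eq_C_mul]
    ring

theorem KerLineL_der_monomial (δ : Derivation ℤ Ω Ω) (m : Fin 3 →₀ ℕ) (t : Ω) :
    cc_der δ (monomial m t) = monomial m (δ t) := by
  classical
  ext e
  rw [cc_coeff, coeff_monomial, coeff_monomial]
  split_ifs
  · rfl
  · rw [map_zero]

theorem KerLineL_der_pderiv (δ : Derivation ℤ Ω Ω) (i : Fin 3) (P : MvPolynomial (Fin 3) Ω) :
    cc_der δ (pderiv i P) = pderiv i (cc_der δ P) := by
  induction P using MvPolynomial.induction_on' with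
  | monomial m t =>
    rw [KerLineL_der_monomial, pderiv_monomial, pderiv_monomial, KerLineL_der_monomial,
      Derivation.leibniz, Derivation.map_natCast, smul_zero, zero_add, smul_eq_mul, mul_comm]
  | add p q hp hq => rw [map_add, cc_add, cc_add, map_add, hp, hq]

theorem KerLineL_der_smul (δ : Derivation ℤ Ω Ω) (t : Ω) (P : MvPolynomial (Fin 3) Ω) :
    cc_der δ (t • P) = δ t • P + t • cc_der δ P := by
  ext m
  rw [cc_coeff, coeff_smul, coeff_add, coeff_smul, coeff_smul, cc_coeff]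
  simp only [smul_eq_mul, Derivation.leibniz]
  ring

theorem KerLineL_der_sum (δ : Derivation ℤ Ω Ω) (f : Fin 3 → MvPolynomial (Fin 3) Ω) :
    cc_der δ (∑ i, f i) = ∑ i, cc_der δ (f i) := by
  rw [Fin.sum_univ_three, Fin.sum_univ_three, cc_add, cc_add]

theorem KerLineL_der_X (δ : Derivation ℤ Ω Ω) (i : Fin 3) :
    cc_der δ (X i : MvPolynomial (Fin 3) Ω) = 0 := by
  rw [X, KerLineL_der_monomial, Derivation.map_one_eq_zero, monomial_zero]

theorem KerLineL_der_lf (δ : Derivation ℤ Ω Ω) (l : Fin 3 → Ω) :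
    cc_der δ (lf l) = lf fun i => δ (l i) := by
  rw [lf, KerLineL_der_sum, lf]
  refine Finset.sum_congr rfl fun i _ => ?_
  rw [KerLineL_der_smul, KerLineL_der_X, smul_zero, add_zero]

/-- the relation, differentiated and restricted -/
theorem KerLineL_rel (g : (Fin 3 → Ω) →ₗ[Ω] (Fin 2 → Ω)) (k c : Fin 3 → Ω) (hg : g k = 0)
    (F Q : MvPolynomial (Fin 3) Ω) (hR : ∑ i, c i • pderiv i F = lf k * Q)
    (δ : Derivation ℤ Ω Ω) :
    conicCount8_phi g (∑ i, c i • pderiv i (cc_der δ F)) =
      conicCount8_phi g (lf (fun i => δ (k i)) * Q) -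
        conicCount8_phi g (∑ i, δ (c i) • pderiv i F) := by
  have h1 := congrArg (fun p => conicCount8_phi g (cc_der δ p)) hR
  simp only [KerLineL_der_sum, KerLineL_der_smul, KerLineL_der_pderiv, cc_mul,
    KerLineL_der_lf, Finset.sum_add_distrib, map_add] at h1
  rw [map_mul _ (lf k), conicCount8_phi_lf, hg, lf_zero', zero_mul, add_zero] at h1
  rw [← h1]
  ring

end pol

variable {Ω : Type*} [Field Ω] [CharZero Ω] {q : ℕ} {D : Sym (Fin 3) q → Derivation ℤ Ω Ω}
  {a : Sym (Fin 3) q → Ω} {B : Subfield Ω} {x : Fin 3 → Ω}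

/-- the linear map `Ψ` -/
noncomputable def KerLineL_psi (g : (Fin 3 → Ω) →ₗ[Ω] (Fin 2 → Ω))
    (F Q : MvPolynomial (Fin 3) Ω) :
    ((Fin 3 → Ω) × (Fin 3 → Ω)) →ₗ[Ω] MvPolynomial (Fin 2) Ω where
  toFun z := conicCount8_phi g (lf z.2 * Q) - conicCount8_phi g (∑ i, z.1 i • pderiv i F)
  map_add' z z' := by
    simp only [Prod.fst_add, Prod.snd_add, lf_add', add_mul, map_add, Pi.add_apply, add_smul,
      Finset.sum_add_distrib]
    ring
  map_smul' t z := by
    simp only [Prod.smul_fst, Prod.smul_snd, lf_smul', smul_mul_assoc, map_smul, Pi.smul_apply,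
      smul_eq_mul, mul_smul, ← Finset.smul_sum, smul_sub, RingHom.id_apply]

/-- the cubic forms on the line are derivatives in the direction `c` -/
theorem KerLineL_cub (k c : Fin 3 → Ω) (hk : k ≠ 0) (hc : c ≠ 0) :
    ∃ v w : Fin 3 → Ω, LinearIndependent Ω ![v, w] ∧ dt k v = 0 ∧ dt k w = 0 ∧
      ∀ J : Sym (Fin 2) 3, ∃ f : MvPolynomial (Fin 3) Ω, f.IsHomogeneous 4 ∧
        conicCount8_phi (KerLineL_g v w) (∑ i, c i • pderiv i f) =
          Pool.Agent.Helper49.LN.mo Ω (J : Multiset (Fin 2)) := by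
  by_cases hkc : dt k c = 0
  · obtain ⟨w, hw, hvw⟩ := KerLineL_ex1 k hk c hc hkc
    refine ⟨c, w, hvw, hkc, hw, fun J => ?_⟩
    obtain ⟨P, hP, hPJ⟩ := conicCount8_surj (KerLineL_g c w) (KerLineL_surj c w hvw) J
    obtain ⟨l, hl⟩ := KerLineL_surj c w hvw (Pi.single 0 1)
    set m : Fin 2 →₀ ℕ := Multiset.toFinsupp (J : Multiset (Fin 2)) with hm
    have hne : ((m 0 : Ω) + 1) ≠ 0 := by
      have := Nat.cast_add_one_ne_zero (R := Ω) (m 0)
      exact this
    refine ⟨((m 0 : Ω) + 1)⁻¹ • (lf l * P), ?_, ?_⟩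
    · rw [smul_eq_C_mul]
      have h1 := (isHomogeneous_C (Fin 3) (((m 0 : Ω) + 1)⁻¹)).mul ((lf_hom l).mul hP)
      rwa [zero_add] at h1
    · rw [KerLineL_chain, map_smul, map_mul, conicCount8_phi_lf, hl, conicCount8_lf_single, hPJ,
        Pool.Agent.Helper49.LN.mo_eq, Derivation.map_smul, X, monomial_mul, one_mul,
        pderiv_monomial, ← hm, smul_monomial, add_tsub_cancel_left]
      congr 1
      rw [Finsupp.add_apply, Finsupp.single_eq_same, smul_eq_mul]
      push_cast
      rw [one_mul, add_comm (1 : Ω), inv_mul_cancel₀ hne]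
  · obtain ⟨v, hv0, hv⟩ := KerLineL_ex0 k hk
    obtain ⟨w, hw, hvw⟩ := KerLineL_ex1 k hk v hv0 hv
    refine ⟨v, w, hvw, hv, hw, fun J => ?_⟩
    obtain ⟨P, hP, hPJ⟩ := conicCount8_surj (KerLineL_g v w) (KerLineL_surj v w hvw) J
    refine ⟨(dt k c)⁻¹ • (lf k * P), ?_, ?_⟩
    · rw [smul_eq_C_mul]
      have h1 := (isHomogeneous_C (Fin 3) ((dt k c)⁻¹)).mul ((lf_hom k).mul hP)
      rwa [zero_add] at h1
    · have hgk : KerLineL_g v w k = 0 := by
        change ![dt k v, dt k w] = 0
        rw [hv, hw]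
        ext i
        fin_cases i <;> rfl
      have h2 : ∀ i, pderiv i (lf k : MvPolynomial (Fin 3) Ω) = C (k i) := by
        intro i
        rw [lf, map_sum, Finset.sum_eq_single i]
        · rw [Derivation.map_smul, pderiv_X_self, smul_eq_C_mul, mul_one]
        · intro j _ hj
          rw [Derivation.map_smul, pderiv_X_of_ne hj, smul_zero]
        · intro h
          exact absurd (Finset.mem_univ i) h
      have h3 : ∑ i, c i • pderiv i ((dt k c)⁻¹ • (lf k * P)) =
          lf k * (∑ i, c i • pderiv i ((dt k c)⁻¹ • P)) + P := by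
        have h4 : ∀ i, c i • pderiv i ((dt k c)⁻¹ • (lf k * P)) =
            lf k * (c i • pderiv i ((dt k c)⁻¹ • P)) + C ((k i * c i) * (dt k c)⁻¹) * P := by
          intro i
          rw [Derivation.map_smul, Derivation.leibniz, h2, Derivation.map_smul, smul_eq_mul,
            smul_eq_mul]
          simp only [smul_eq_C_mul, C_mul]
          ring
        simp only [h4]
        rw [Finset.sum_add_distrib, ← Finset.mul_sum, ← Finset.sum_mul, ← map_sum,
          ← Finset.sum_mul]
        change _ + C (dt k c * (dt k c)⁻¹) * P = _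
        rw [mul_inv_cancel₀ hkc, C_1, one_mul]
      rw [h3, map_add, map_mul, conicCount8_phi_lf, hgk, lf_zero', zero_mul, zero_add, hPJ]

/-- the second step: derivations over `B` -/
theorem KerLineL_two (F Q : MvPolynomial (Fin 3) Ω) (k c : Fin 3 → Ω) (hk : k ≠ 0) (hc : c ≠ 0)
    (hR : ∑ i, c i • pderiv i F = lf k * Q)
    (hF : ∀ f : MvPolynomial (Fin 3) Ω, f.IsHomogeneous 4 →
      f ∈ Submodule.span Ω {p | ∃ δ : Derivation ℤ Ω Ω, p = cc_der δ F})
    (δ : Derivation ℤ Ω Ω) (hδ : cc_der δ F = 0) : ∃ t : Ω, ∀ i, δ (k i) = t * k i := by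
  obtain ⟨v, w, hvw, hv, hw, hcub⟩ := KerLineL_cub k c hk hc
  have hgk : KerLineL_g v w k = 0 := by
    change ![dt k v, dt k w] = 0
    rw [hv, hw]
    ext i
    fin_cases i <;> rfl
  have hrel : ∀ δ' : Derivation ℤ Ω Ω, conicCount8_phi (KerLineL_g v w)
      (∑ i, c i • pderiv i (cc_der δ' F)) =
      KerLineL_psi (KerLineL_g v w) F Q (fun i => δ' (c i), fun i => δ' (k i)) := fun δ' =>
    KerLineL_rel (KerLineL_g v w) k c hgk F Q hR δ'
  have hmem : ∀ f : MvPolynomial (Fin 3) Ω, f.IsHomogeneous 4 →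
      conicCount8_phi (KerLineL_g v w) (∑ i, c i • pderiv i f) ∈
        LinearMap.range (KerLineL_psi (KerLineL_g v w) F Q) := by
    intro f hf
    have h1 := hF f hf
    clear hf
    induction h1 using Submodule.span_induction with
    | mem p hp =>
      obtain ⟨δ', rfl⟩ := hp
      rw [hrel]
      exact ⟨_, rfl⟩
    | zero =>
      simp only [map_zero, smul_zero, Finset.sum_const_zero]
      exact Submodule.zero_mem _
    | add p p' _ _ h h' =>
      simp only [map_add, smul_add, Finset.sum_add_distrib]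
      exact Submodule.add_mem _ h h'
    | smul t p _ h =>
      have h2 : ∑ i, c i • pderiv i (t • p) = t • ∑ i, c i • pderiv i p := by
        rw [Finset.smul_sum]
        refine Finset.sum_congr rfl fun i _ => ?_
        rw [Derivation.map_smul, smul_comm]
      rw [h2, map_smul]
      exact Submodule.smul_mem _ _ h
  have hmo : ∀ J : Sym (Fin 2) 3, ∃ w', KerLineL_psi (KerLineL_g v w) F Q w' =
      Pool.Agent.Helper49.LN.mo Ω (J : Multiset (Fin 2)) := by
    intro J
    obtain ⟨f, hf, hfJ⟩ := hcub J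
    obtain ⟨w', hw'⟩ := hmem f hf
    exact ⟨w', by rw [hw', hfJ]⟩
  choose W hW using hmo
  have hli : LinearIndependent Ω (fun J : Sym (Fin 2) 3 =>
      (⟨Pool.Agent.Helper49.LN.mo Ω (J : Multiset (Fin 2)), ⟨W J, hW J⟩⟩ :
        LinearMap.range (KerLineL_psi (KerLineL_g v w) F Q))) := by
    refine LinearIndependent.of_comp (Submodule.subtype _) ?_
    exact cc_indep 3
  have h4 := hli.fintype_card_le_finrank
  rw [Sym.card_sym_eq_choose, Fintype.card_fin] at h4
  have h5 : (2 + 3 - 1).choose 3 = 4 := by decide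
  rw [h5] at h4
  have h6 := LinearMap.finrank_range_add_finrank_ker (KerLineL_psi (KerLineL_g v w) F Q)
  rw [Module.finrank_prod, Module.finrank_fintype_fun_eq_card, Fintype.card_fin] at h6
  have e1 : KerLineL_psi (KerLineL_g v w) F Q (c, 0) = 0 := by
    change conicCount8_phi (KerLineL_g v w) (lf (0 : Fin 3 → Ω) * Q) -
      conicCount8_phi (KerLineL_g v w) (∑ i, c i • pderiv i F) = 0
    rw [hR, lf_zero', zero_mul, map_zero, map_mul, conicCount8_phi_lf, hgk, lf_zero', zero_mul,
      sub_zero]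
  have e2 : KerLineL_psi (KerLineL_g v w) F Q (0, k) = 0 := by
    change conicCount8_phi (KerLineL_g v w) (lf k * Q) -
      conicCount8_phi (KerLineL_g v w) (∑ i, (0 : Fin 3 → Ω) i • pderiv i F) = 0
    simp only [Pi.zero_apply, zero_smul, Finset.sum_const_zero, map_zero, sub_zero]
    rw [map_mul, conicCount8_phi_lf, hgk, lf_zero', zero_mul]
  have e3 : KerLineL_psi (KerLineL_g v w) F Q (fun i => δ (c i), fun i => δ (k i)) = 0 := by
    rw [← hrel, hδ]
    simp only [map_zero, smul_zero, Finset.sum_const_zero]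
  have hci : LinearIndependent Ω ![((c, 0) : (Fin 3 → Ω) × (Fin 3 → Ω)), (0, k)] := by
    rw [LinearIndependent.pair_iff]
    intro s t hst
    have h7 := congrArg Prod.fst hst
    have h8 := congrArg Prod.snd hst
    simp only [Prod.fst_add, Prod.snd_add, Prod.smul_fst, Prod.smul_snd, smul_zero, add_zero,
      zero_add, Prod.fst_zero, Prod.snd_zero] at h7 h8
    exact ⟨(smul_eq_zero.1 h7).resolve_right hc, (smul_eq_zero.1 h8).resolve_right hk⟩
  have h9 : Submodule.span Ω (Set.range ![((c, 0) : (Fin 3 → Ω) × (Fin 3 → Ω)), (0, k)]) ≤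
      LinearMap.ker (KerLineL_psi (KerLineL_g v w) F Q) := by
    rw [Submodule.span_le]
    rintro _ ⟨i, rfl⟩
    fin_cases i
    · exact e1
    · exact e2
  have h10 : Submodule.span Ω (Set.range ![((c, 0) : (Fin 3 → Ω) × (Fin 3 → Ω)), (0, k)]) =
      LinearMap.ker (KerLineL_psi (KerLineL_g v w) F Q) := by
    refine Submodule.eq_of_le_of_finrank_le h9 ?_
    rw [finrank_span_eq_card hci, Fintype.card_fin]
    omega
  have h11 : ((fun i => δ (c i), fun i => δ (k i)) : (Fin 3 → Ω) × (Fin 3 → Ω)) ∈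
      Submodule.span Ω (Set.range ![((c, 0) : (Fin 3 → Ω) × (Fin 3 → Ω)), (0, k)]) := by
    rw [h10]
    exact e3
  rw [Matrix.range_cons, Matrix.range_cons, Matrix.range_empty, Set.union_empty,
    Set.singleton_union, Submodule.mem_span_pair] at h11
  obtain ⟨s, t, hst⟩ := h11
  refine ⟨t, fun i => ?_⟩
  have h12 := congrFun (congrArg Prod.snd hst) i
  simp only [Prod.snd_add, Prod.smul_snd, smul_zero, zero_add, Pi.smul_apply, smul_eq_mul] at h12
  exact h12.symm

/-- the map `P ↦ et (P l)` on the cubic forms on the line -/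
noncomputable def KerLineL_Phi (E : MvPolynomial (Fin 3) Ω →ₗ[Ω] (Fin 3 → Ω))
    (c : Fin 2 → Fin 3 → Ω) (l : Fin 3 → Ω) : (Sym (Fin 2) 3 → Ω) →ₗ[Ω] (Fin 3 → Ω) where
  toFun z := E (KerLineL_s c (∑ J, z J • Pool.Agent.Helper49.LN.mo Ω (J : Multiset (Fin 2))) *
    lf l)
  map_add' z z' := by
    simp only [Pi.add_apply, add_smul, Finset.sum_add_distrib, map_add, add_mul]
  map_smul' t z := by
    simp only [Pi.smul_apply, smul_eq_mul, mul_smul, ← Finset.smul_sum, map_smul,
      smul_mul_assoc, RingHom.id_apply]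

omit [CharZero Ω] in
/-- the first step: a relation between the partial derivatives on the line -/
theorem KerLineL_one (E : MvPolynomial (Fin 3) Ω →ₗ[Ω] (Fin 3 → Ω)) (x k : Fin 3 → Ω)
    (hx : x ≠ 0) (hk : k ≠ 0) (hkx : dt k x = 0) (hK : ∀ P, E (P * lf k) = 0)
    (hpart : ∀ (P : MvPolynomial (Fin 3) Ω) (l : Fin 3 → Ω),
      E (P * lf l) = E (homogeneousComponent 3 P * lf l))
    (hs : ¬ ∃ u : Fin 3 → Ω, ∀ (P : MvPolynomial (Fin 3) Ω) (l : Fin 3 → Ω), dt l x = 0 →
      ∃ t : Ω, E (P * lf l) = t • u)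
    (G : Fin 3 → MvPolynomial (Fin 3) Ω) (hG : ∀ i, (G i).IsHomogeneous 3)
    (hE : ∀ l : Fin 3 → Ω, dt l x = 0 → ∀ i, E (G i * lf l) = 0) :
    ∃ c : Fin 3 → Ω, c ≠ 0 ∧ ∃ Q, ∑ i, c i • G i = lf k * Q := by
  have hkx' : dt x k = 0 := by
    rw [dt_comm']
    exact hkx
  obtain ⟨l, hl, hkl⟩ := KerLineL_ex1 x hx k hk hkx'
  have hlx : dt l x = 0 := by
    rw [dt_comm']
    exact hl
  obtain ⟨v, hv0, hv⟩ := KerLineL_ex0 k hk
  obtain ⟨w, hw, hvw⟩ := KerLineL_ex1 k hk v hv0 hv
  choose s hs' using fun j : Fin 2 => KerLineL_surj v w hvw (Pi.single j 1)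
  have hA : ∀ P : MvPolynomial (Fin 3) Ω, E (P * lf l) =
      E (KerLineL_s s (conicCount8_phi (KerLineL_g v w) P) * lf l) := by
    intro P
    obtain ⟨R, hR⟩ := KerLineL_mod v w k hvw hk hv hw s hs' P
    have h1 : P * lf l = KerLineL_s s (conicCount8_phi (KerLineL_g v w) P) * lf l +
        (R * lf l) * lf k := by
      conv_lhs => rw [hR]
      ring
    rw [h1, map_add, hK, add_zero]
  have hB : ∀ P : MvPolynomial (Fin 3) Ω, P.IsHomogeneous 3 → E (P * lf l) =
      KerLineL_Phi E s l (fun J => coeff (Multiset.toFinsupp (J : Multiset (Fin 2)))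
        (conicCount8_phi (KerLineL_g v w) P)) := by
    intro P hP
    rw [hA P]
    change _ = E (KerLineL_s s (∑ J : Sym (Fin 2) 3,
      coeff (Multiset.toFinsupp (J : Multiset (Fin 2))) (conicCount8_phi (KerLineL_g v w) P) •
        Pool.Agent.Helper49.LN.mo Ω (J : Multiset (Fin 2))) * lf l)
    rw [cc_sum (conicCount8_phi_hom (KerLineL_g v w) hP)]
  have hr : 2 ≤ Module.finrank Ω (LinearMap.range (KerLineL_Phi E s l)) := by
    by_contra hcon
    have h1 : Module.finrank Ω (LinearMap.range (KerLineL_Phi E s l)) ≤ 1 := by omega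
    obtain ⟨u, hu⟩ := finrank_le_one_iff.1 h1
    apply hs
    refine ⟨u, fun P l' hl' => ?_⟩
    obtain ⟨α, β, h2⟩ := KerLineL_sp x hx k l hkl hkx' hl l' (by
      rw [dt_comm']
      exact hl')
    have h3 : P * lf l' = α • (P * lf k) + β • (P * lf l) := by
      rw [h2, lf_add', lf_smul', lf_smul', mul_add, mul_smul_comm, mul_smul_comm]
    have h4 : E (P * lf l) ∈ LinearMap.range (KerLineL_Phi E s l) := by
      rw [hpart, hB _ (homogeneousComponent_isHomogeneous 3 P)]
      exact ⟨_, rfl⟩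
    obtain ⟨t, ht⟩ := hu ⟨_, h4⟩
    have h5 := congrArg Subtype.val ht
    change t • (u : Fin 3 → Ω) = E (P * lf l) at h5
    refine ⟨β * t, ?_⟩
    rw [h3, map_add, map_smul, map_smul, hK, smul_zero, zero_add, ← h5, smul_smul]
  have hrk := LinearMap.finrank_range_add_finrank_ker (KerLineL_Phi E s l)
  have h5 : (2 + 3 - 1).choose 3 = 4 := by decide
  rw [Module.finrank_fintype_fun_eq_card, Sym.card_sym_eq_choose, Fintype.card_fin, h5] at hrk
  have hV : ∀ i, (fun J : Sym (Fin 2) 3 => coeff (Multiset.toFinsupp (J : Multiset (Fin 2)))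
      (conicCount8_phi (KerLineL_g v w) (G i))) ∈ LinearMap.ker (KerLineL_Phi E s l) := by
    intro i
    rw [LinearMap.mem_ker, ← hB _ (hG i)]
    exact hE l hlx i
  have hnl : ¬ LinearIndependent Ω (fun i : Fin 3 => (⟨_, hV i⟩ :
      LinearMap.ker (KerLineL_Phi E s l))) := by
    intro h
    have h6 := h.fintype_card_le_finrank
    rw [Fintype.card_fin] at h6
    omega
  obtain ⟨c, hc, i0, hi0⟩ := Fintype.not_linearIndependent_iff.1 hnl
  refine ⟨c, fun h => hi0 (by rw [h, Pi.zero_apply]), ?_⟩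
  refine KerLineL_dvd v w k hvw hk hv hw _ ?_
  have h7 : ∀ i, conicCount8_phi (KerLineL_g v w) (G i) = ∑ J : Sym (Fin 2) 3,
      coeff (Multiset.toFinsupp (J : Multiset (Fin 2))) (conicCount8_phi (KerLineL_g v w) (G i)) •
        Pool.Agent.Helper49.LN.mo Ω (J : Multiset (Fin 2)) := fun i =>
    (cc_sum (conicCount8_phi_hom (KerLineL_g v w) (hG i))).symm
  have h8 : ∀ J : Sym (Fin 2) 3, ∑ i, c i * coeff (Multiset.toFinsupp (J : Multiset (Fin 2)))
      (conicCount8_phi (KerLineL_g v w) (G i)) = 0 := by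
    intro J
    have h9 := congrFun (congrArg Subtype.val hc) J
    rw [Submodule.coe_sum, Finset.sum_apply] at h9
    exact h9
  rw [map_sum]
  have h10 : ∀ i, conicCount8_phi (KerLineL_g v w) (c i • G i) = ∑ J : Sym (Fin 2) 3,
      (c i * coeff (Multiset.toFinsupp (J : Multiset (Fin 2)))
        (conicCount8_phi (KerLineL_g v w) (G i))) •
        Pool.Agent.Helper49.LN.mo Ω (J : Multiset (Fin 2)) := by
    intro i
    rw [map_smul, h7 i, Finset.smul_sum]
    refine Finset.sum_congr rfl fun J _ => ?_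
    rw [← h7 i, smul_smul]
  simp only [h10]
  rw [Finset.sum_comm]
  refine Finset.sum_eq_zero fun J _ => ?_
  rw [← Finset.sum_smul, h8, zero_smul]

omit [CharZero Ω] in
theorem KerLineL_span (D : Sym (Fin 3) q → Derivation ℤ Ω Ω) (a : Sym (Fin 3) q → Ω)
    (hD : ∀ I J, D J (a I) = if I = J then 1 else 0) (f : MvPolynomial (Fin 3) Ω)
    (hf : f.IsHomogeneous q) :
    f ∈ Submodule.span Ω {p | ∃ δ : Derivation ℤ Ω Ω, p = cc_der δ (Fp a)} := by
  rw [← cc_sum hf]
  refine Submodule.sum_mem _ fun J _ => Submodule.smul_mem _ _ (Submodule.subset_span ?_)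
  exact ⟨D J, (cc_form D a hD J).symm⟩

omit [CharZero Ω] in
theorem KerLineL_zero {B : Subfield Ω} (F : MvPolynomial (Fin 3) Ω) (hF : RatP B F)
    (δ : Derivation ℤ Ω Ω) (hδ : ∀ b ∈ B, δ b = 0) : cc_der δ F = 0 := by
  ext m
  rw [cc_coeff, hδ _ (hF m), coeff_zero]

theorem ker_line (h : PtL D a B x) (hs : ¬ Small D a x) (hE : Eqv D a x) (k : Fin 3 → Ω)
    (hk : k ≠ 0) (hkx : dt k x = 0) (hK : ∀ P, et D a x (P * lf k) = 0) : Ln B x := by
  have hx : x ≠ 0 := by
    intro h0
    have h1 := h.one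
    rw [h0, Pi.zero_apply] at h1
    exact zero_ne_one h1
  have hq3 : 3 + 1 = q := by rw [h.hq]
  have hG : ∀ i, (pderiv i (Fp a)).IsHomogeneous 3 := by
    intro i
    have h1 := (fp_hom a).pderiv (i := i)
    have h2 : q - 1 = 3 := by
      rw [← hq3]
    rwa [h2] at h1
  obtain ⟨c, hc, Q, hR⟩ := KerLineL_one (et D a x) x k hx hk hkx hK
    (fun P l => et_part D a x 3 1 hq3 P (lf l) (lf_hom l)) hs (fun i => pderiv i (Fp a)) hG
    (fun l hl i => eqv_lf hE l hl i)
  refine ln_of_der (fun y hy => lrat_alg h.frame y hy) k hk hkx fun δ hδ => ?_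
  refine KerLineL_two (Fp a) Q k c hk hc hR (fun f hf => ?_) δ
    (KerLineL_zero (Fp a) (fp_rat B a h.frame.mem) δ hδ)
  refine KerLineL_span D a h.frame.dual f ?_
  rw [h.hq]
  exact hf

end Pool.Agent.Helper74.PQ
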