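import Pool.Agent.Helper74.PQ.GRatL

/-!
# PQ-MATSL: the matrices

`gg P1 ≠ 0`: `u_i = et (P1 lw_i)` and `w = et (X_0^q)` are a basis of `Ω^3`; let `θ_0, θ_1` be the
first two coordinates (rows of the inverse matrix). `tp`: `v` with `gr . v = 0` is a combination of
`u_0, u_1` (`gr . w = -1`). `det`: `(um P).det * gg P1 = gg P` (multiplicativity of the
determinant: the matrix with rows `et (P lw_0)`, `et (P lw_1)`, `w` is the block matrix of `um P` and
`1` times the matrix with rows `u_0, u_1, w`), `g_rat`.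
-/

set_option autoImplicit false

namespace Pool.Agent.Helper74.PQ

open scoped BigOperators
open MvPolynomial
open Pool.Agent.Helper8.LG (Bdd RowBdd form mon)
open Pool.Agent.Helper49.LN (cP mo hf pl)
open Pool.Agent.Helper6.QS
open Pool.Agent.Helper74.Q8 (rr)

section matsL

variable {Ω : Type*} [Field Ω]

/-- coordinates in a basis of `Ω^3` -/
theorem matsL_lin (u0 u1 w : Fin 3 → Ω) (hne : Matrix.det (Matrix.of ![u0, u1, w]) ≠ 0) :
    ∃ θ : Fin 2 → Fin 3 → Ω, dt (θ 0) u0 = 1 ∧ dt (θ 1) u0 = 0 ∧ dt (θ 0) u1 = 0 ∧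
      dt (θ 1) u1 = 1 ∧ ∀ v, ∃ c : Ω, v = dt (θ 0) v • u0 + dt (θ 1) v • u1 + c • w := by
  set A : Matrix (Fin 3) (Fin 3) Ω := Matrix.of ![u0, u1, w] with hA
  have hu : IsUnit A.det := isUnit_iff_ne_zero.2 hne
  have h1 : A * A⁻¹ = 1 := Matrix.mul_nonsing_inv A hu
  have h2 : A⁻¹ * A = 1 := Matrix.nonsing_inv_mul A hu
  set N : Matrix (Fin 3) (Fin 3) Ω := A⁻¹ with hN
  have hd : ∀ (i j : Fin 3), dt (fun k => N k j) (A i) = (1 : Matrix (Fin 3) (Fin 3) Ω) i j := by
    intro i j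
    rw [← h1, Matrix.mul_apply, dt]
    exact Finset.sum_congr rfl fun k _ => mul_comm _ _
  have hc : ∀ v : Fin 3 → Ω, v = dt (fun k => N k 0) v • u0 + dt (fun k => N k 1) v • u1 +
      dt (fun k => N k 2) v • w := by
    intro v
    have h3 : Matrix.vecMul (Matrix.vecMul v N) A = v := by
      rw [Matrix.vecMul_vecMul, h2, Matrix.vecMul_one]
    have h4 : ∀ j, Matrix.vecMul v N j = dt (fun k => N k j) v := by
      intro j
      rw [Matrix.vecMul, dotProduct, dt]
      exact Finset.sum_congr rfl fun k _ => mul_comm _ _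
    funext i
    have h5 := congrFun h3 i
    rw [Matrix.vecMul, dotProduct, Fin.sum_univ_three, h4, h4, h4] at h5
    rw [← h5]
    rfl
  refine ⟨![fun k => N k 0, fun k => N k 1], ?_, ?_, ?_, ?_, ?_⟩
  · exact (hd 0 0).trans (Matrix.one_apply_eq 0)
  · exact (hd 0 1).trans (Matrix.one_apply_ne (by decide))
  · exact (hd 1 0).trans (Matrix.one_apply_ne (by decide))
  · exact (hd 1 1).trans (Matrix.one_apply_eq 1)
  · intro v
    exact ⟨dt (fun k => N k 2) v, hc v⟩

/-- multiplicativity of the determinant -/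
theorem matsL_det (u0 u1 w v0 v1 : Fin 3 → Ω) (a b c a' b' c' : Ω)
    (h0 : v0 = a • u0 + b • u1 + c • w) (h1 : v1 = a' • u0 + b' • u1 + c' • w) :
    Matrix.det (Matrix.of ![v0, v1, w]) =
      Matrix.det (Matrix.of ![u0, u1, w]) * (a * b' - b * a') := by
  subst h0
  subst h1
  rw [Matrix.det_fin_three, Matrix.det_fin_three]
  simp only [Matrix.of_apply, Matrix.cons_val_zero, Matrix.cons_val_one, Matrix.cons_val,
    Pi.add_apply, Pi.smul_apply, smul_eq_mul]
  ring

end matsL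

variable {Ω : Type*} [Field Ω] [CharZero Ω] {q : ℕ} {D : Sym (Fin 3) q → Derivation ℤ Ω Ω}
  {a : Sym (Fin 3) q → Ω} {B : Subfield Ω} {x : Fin 3 → Ω}

theorem mats (h : PtL D a B x) (P1 : MvPolynomial (Fin 3) Ω) (hP1 : RatP B P1)
    (hg : gg D a x P1 ≠ 0) : ∃ θ : Fin 2 → Fin 3 → Ω, MtL D a B x θ P1 := by
  have hw := gr_pow h
  have hrat := fun P hP => g_rat h P hP
  have hg' := hg
  unfold gg at hg'
  obtain ⟨θ, t00, t10, t01, t11, hc⟩ := matsL_lin _ _ _ hg'
  refine ⟨θ, h, hP1, ?_, ?_, ?_⟩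
  · intro v hv hθ
    obtain ⟨c, h1⟩ := hc v
    rw [hθ 0, hθ 1, zero_smul, zero_smul, zero_add, zero_add] at h1
    rw [h1, Pool.Agent.Helper74.Q8.dt_smul', hw] at hv
    have h2 : c = 0 := by linear_combination -hv
    rw [h1, h2, zero_smul]
  · ext i j
    rw [um_apply]
    fin_cases i <;> fin_cases j
    · simpa using t00
    · simpa using t10
    · simpa using t01
    · simpa using t11
  · intro P hP
    have h3 : gg D a x P = gg D a x P1 * (um D a x θ P).det := by
      rw [Matrix.det_fin_two, um_apply, um_apply, um_apply, um_apply]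
      unfold gg
      obtain ⟨c, h1⟩ := hc (et D a x (P * lf (lw x 0)))
      obtain ⟨c', h2⟩ := hc (et D a x (P * lf (lw x 1)))
      exact matsL_det _ _ _ _ _ _ _ _ _ _ _ h1 h2
    have h4 : (um D a x θ P).det = gg D a x P * (gg D a x P1)⁻¹ := by
      rw [h3]
      field_simp
    rw [h4]
    exact B.mul_mem (hrat P hP) (B.inv_mem (hrat P1 hP1))

end Pool.Agent.Helper74.PQ
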