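import Pool.Agent.Helper74.PQ.SpanL
import Pool.Agent.Helper74.PQ.TrL
import Pool.Agent.Helper6.QS.RatQ

/-!
# PQ-RATQL: a rational quadratic form

Compare `Helper74/Q8/RatQ8.lean`. For `Λ : Ω →ₗ[B] B` with `Λ (coeff) ≠ 0` for some coefficient of
`Q` let `Q1 = Λ(Q)` (coefficientwise), rational, homogeneous, not zero. For a monomial `X^K`:
`um (X^K Q) = 0` (`et (X^K Q lw_i) = 0`), so for all `i`: `0 = Λ (tr (um (X^K Q) fam i)) =
tr (um (X^K Q1) fam i)`, because `P ↦ tr (um P fam i)` is linear with values in `B` at monomials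
(`fam_tr`). By nondegeneracy `um (X^K Q1) = 0`; with `gr_lw` and `tp`: `et (X^K Q1 lw_i) = 0`, and
by `lw_span` and linearity the claim.
-/

set_option autoImplicit false

namespace Pool.Agent.Helper74.PQ

open scoped BigOperators
open MvPolynomial
open Pool.Agent.Helper8.LG (Bdd RowBdd form mon)
open Pool.Agent.Helper49.LN (cP mo hf pl)
open Pool.Agent.Helper6.QS
open Pool.Agent.Helper74.Q8 (rr)

/-- the trace of the product with a fixed matrix, as a linear functional -/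
noncomputable def ratQL_tr {Ω : Type*} [Field Ω] (M : Matrix (Fin 2) (Fin 2) Ω) :
    Matrix (Fin 2) (Fin 2) Ω →ₗ[Ω] Ω where
  toFun N := (N * M).trace
  map_add' N N' := by rw [add_mul, Matrix.trace_add]
  map_smul' c N := by rw [Matrix.smul_mul, Matrix.trace_smul, RingHom.id_apply]

/-- the abstract step -/
theorem ratQL_abs {Ω : Type*} [Field Ω] {σ : Type*} {B : Subfield Ω}
    (U : MvPolynomial σ Ω →ₗ[Ω] Matrix (Fin 2) (Fin 2) Ω)
    (F : Option (σ →₀ ℕ) → Matrix (Fin 2) (Fin 2) Ω)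
    (hF : ∀ m, F (some m) = U (monomial m 1))
    (htr : ∀ i j, (F i * F j).trace ∈ B)
    (hU : ∀ P, U P ∈ Submodule.span Ω (Set.range F))
    (hnd : ∀ N ∈ Submodule.span Ω (Set.range F), (∀ i, (N * F i).trace = 0) → N = 0)
    (Q : MvPolynomial σ Ω) (μ : Ω →ₗ[B] Ω) (hQ : ∀ C, U (C * Q) = 0) :
    ∀ C, U (C * ∑ m ∈ Q.support, monomial m (μ (coeff m Q))) = 0 := by
  have hmon : ∀ c : σ →₀ ℕ,
      U (monomial c 1 * ∑ m ∈ Q.support, monomial m (μ (coeff m Q))) = 0 := by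
    intro c
    refine hnd _ (hU _) ?_
    intro i
    have hmem : ∀ m, ((ratQL_tr (F i)) ∘ₗ U ∘ₗ LinearMap.mulLeft Ω
        (monomial c (1 : Ω) : MvPolynomial σ Ω)) (monomial m 1) ∈ B := by
      intro m
      rw [LinearMap.comp_apply, LinearMap.comp_apply, LinearMap.mulLeft_apply, monomial_mul,
        one_mul]
      show (U (monomial (c + m) 1) * F i).trace ∈ B
      rw [← hF]
      exact htr _ _
    have h3 := ratQ_lin μ Q _ hmem
    rw [LinearMap.comp_apply, LinearMap.comp_apply, LinearMap.mulLeft_apply,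
      LinearMap.comp_apply, LinearMap.comp_apply, LinearMap.mulLeft_apply, hQ, map_zero,
      map_zero] at h3
    exact h3
  generalize (∑ m ∈ Q.support, monomial m (μ (coeff m Q))) = Q1 at hmon ⊢
  intro C
  rw [C.as_sum, Finset.sum_mul, map_sum]
  refine Finset.sum_eq_zero fun c _ => ?_
  have h3 : monomial c (coeff c C) = coeff c C • monomial c (1 : Ω) := by
    rw [smul_monomial, smul_eq_mul, mul_one]
  rw [h3, smul_mul_assoc, map_smul, hmon, smul_zero]

theorem ratQL_dt_zero {Ω : Type*} [Field Ω] {σ : Type*} [Fintype σ] (u : σ → Ω) :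
    dt u 0 = 0 := by
  unfold dt
  exact Finset.sum_eq_zero fun i _ => by rw [Pi.zero_apply, mul_zero]

variable {Ω : Type*} [Field Ω] [CharZero Ω] {q : ℕ} {D : Sym (Fin 3) q → Derivation ℤ Ω Ω}
  {a : Sym (Fin 3) q → Ω} {B : Subfield Ω} {x : Fin 3 → Ω}

omit [CharZero Ω] in
/-- `um P` is in the span of the family -/
theorem ratQL_um_mem (D : Sym (Fin 3) q → Derivation ℤ Ω Ω) (a : Sym (Fin 3) q → Ω)
    (x : Fin 3 → Ω) (θ : Fin 2 → Fin 3 → Ω) (P : MvPolynomial (Fin 3) Ω) :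
    um D a x θ P ∈ Submodule.span Ω (Set.range (fam D a x θ)) := by
  rw [P.as_sum, map_sum]
  refine Submodule.sum_mem _ fun m _ => ?_
  have h3 : monomial m (coeff m P) = coeff m P • monomial m (1 : Ω) := by
    rw [smul_monomial, smul_eq_mul, mul_one]
  rw [h3, map_smul]
  exact Submodule.smul_mem _ _ (Submodule.subset_span ⟨some m, rfl⟩)

theorem rat_ql {θ : Fin 2 → Fin 3 → Ω} {P1 : MvPolynomial (Fin 3) Ω} (h : MtL D a B x θ P1)
    (hnd : ∀ N ∈ Submodule.span Ω (Set.range (fam D a x θ)),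
      (∀ i, (N * fam D a x θ i).trace = 0) → N = 0)
    (Q : MvPolynomial (Fin 3) Ω) (hQ : Q.IsHomogeneous 2) (hQ0 : Q ≠ 0)
    (hQe : ∀ C, et D a x (C * Q) = 0) :
    ∃ Q1 : MvPolynomial (Fin 3) Ω, Q1.IsHomogeneous 2 ∧ Q1 ≠ 0 ∧ RatP B Q1 ∧
      ∀ (C : MvPolynomial (Fin 3) Ω) (l : Fin 3 → Ω), dt l x = 0 →
        et D a x (C * Q1 * lf l) = 0 := by
  obtain ⟨m0, hm0⟩ : ∃ m, coeff m Q ≠ 0 := by
    by_contra hcon
    push Not at hcon
    exact hQ0 (MvPolynomial.ext _ _ fun m => by rw [hcon, coeff_zero])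
  obtain ⟨φ, hφ⟩ : ∃ φ : Module.Dual B Ω, φ (coeff m0 Q) ≠ 0 := by
    by_contra hcon
    push Not at hcon
    exact hm0 ((Module.forall_dual_apply_eq_zero_iff B (coeff m0 Q)).1 hcon)
  obtain ⟨μ, hμB, hμ⟩ : ∃ μ : Ω →ₗ[B] Ω, (∀ b, μ b ∈ B) ∧ μ (coeff m0 Q) ≠ 0 :=
    ⟨(Algebra.linearMap B Ω) ∘ₗ φ, fun b => (φ b).2, fun h => hφ (Subtype.ext h)⟩
  have hum : ∀ C, um D a x θ (C * Q) = 0 := by
    intro C
    ext i j
    rw [um_apply, Matrix.zero_apply]
    have e : C * Q * lf (lw x i) = C * lf (lw x i) * Q := by ring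
    rw [e, hQe, ratQL_dt_zero]
  have hab := ratQL_abs (B := B) (um D a x θ) (fam D a x θ) (fun _ => rfl) (fam_tr h)
    (ratQL_um_mem D a x θ) hnd Q μ hum
  refine ⟨∑ m ∈ Q.support, monomial m (μ (coeff m Q)), ?_, ?_, ?_, ?_⟩
  · intro p hp
    rw [ratQ_coeff] at hp
    exact hQ fun h => hp (by rw [h, map_zero])
  · intro h0
    have h1 := ratQ_coeff μ Q m0
    rw [h0, coeff_zero] at h1
    exact hμ h1.symm
  · intro p
    rw [ratQ_coeff]
    exact hμB _
  · generalize (∑ m ∈ Q.support, monomial m (μ (coeff m Q))) = Q1 at hab ⊢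
    intro C l hl
    have hz : ∀ i, et D a x (C * Q1 * lf (lw x i)) = 0 := by
      intro i
      refine h.tp _ (gr_lw h.pt _ _ (lw_x h.pt.one i)) ?_
      intro j
      rw [← um_apply, hab, Matrix.zero_apply]
    have h2 := lw_span h.pt.one l hl
    have h3 : (lf l : MvPolynomial (Fin 3) Ω) = l 1 • lf (lw x 0) + l 2 • lf (lw x 1) := by
      conv_lhs => rw [h2]
      rw [Pool.Agent.Helper74.Q8.lf_add', Pool.Agent.Helper74.Q8.lf_smul',
        Pool.Agent.Helper74.Q8.lf_smul']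
    rw [h3, mul_add, map_add, mul_smul_comm, mul_smul_comm, map_smul, map_smul, hz, hz,
      smul_zero, smul_zero, add_zero]

end Pool.Agent.Helper74.PQ
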