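import Pool.Agent.Helper74.PQ.SpanL

/-!
# PQ-SINGL: the singular case

`G(P, P') = det (et (P lw_0), et (P' lw_1), w) + det (et (P' lw_0), et (P lw_1), w)`,
`w = et (X_0^q)`, is bilinear and `G(P, P') = gg (P + P') - gg P - gg P'`, `2 gg P = G(P, P)`. It
vanishes for monomials, so for all `P`: `et (P lw_0)` and `et (P lw_1)` are linearly dependent for
all `P` (they are orthogonal to `gr`, and `gr . w = -1`). In a basis of `gr^⊥` (dimension 2) we
have a linear space of singular 2 x 2 matrices: all have a common vector `(α, β) ≠ 0` with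
`α et (P lw_0) + β et (P lw_1) = 0`, or all the vectors `et (P lw_i)` are multiples of one vector
(then `Small`, by `lw_span`). `k = α lw_0 + β lw_1`.
Linear algebra: if `A = (a_1; a_2)` has rank one, choose the basis so that `A = (u; 0)`; for
`B = (b_1; b_2)`: `det(A + B) = 0` gives `u ∧ b_2 = 0`, `b_2 = β u`; if `b_2 ≠ 0` for one `B`, then
`b_1` is a multiple of `u` for this `B`, and for every `C`, `c_2 = γ u`, `det (B + C) = 0` gives
`c_1` a multiple of `u`.
-/

set_option autoImplicit false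

namespace Pool.Agent.Helper74.PQ

open scoped BigOperators
open MvPolynomial
open Pool.Agent.Helper8.LG (Bdd RowBdd form mon)
open Pool.Agent.Helper49.LN (cP mo hf pl)
open Pool.Agent.Helper6.QS
open Pool.Agent.Helper74.Q8 (rr)

section SingL_alg

variable {Ω : Type*} [Field Ω]

/-- the determinant of three vectors -/
def SingL_om (u v w : Fin 3 → Ω) : Ω :=
  u 0 * (v 1 * w 2 - v 2 * w 1) - u 1 * (v 0 * w 2 - v 2 * w 0) + u 2 * (v 0 * w 1 - v 1 * w 0)

theorem SingL_det (u v w : Fin 3 → Ω) :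
    Matrix.det (Matrix.of ![u, v, w]) = SingL_om u v w := by
  rw [Matrix.det_fin_three]
  simp only [SingL_om, Matrix.of_apply, Matrix.cons_val_zero, Matrix.cons_val_one,
    Matrix.cons_val]
  ring

theorem SingL_dep (g w : Fin 3 → Ω) (hw : dt g w ≠ 0) (u v : Fin 3 → Ω) (hu : dt g u = 0)
    (hv : dt g v = 0) (hv0 : v ≠ 0) (h : SingL_om u v w = 0) : ∃ c : Ω, u = c • v := by
  rw [← SingL_det] at h
  obtain ⟨y, hy0, hy⟩ := Matrix.exists_vecMul_eq_zero_iff.2 h
  have h1 : y 0 • u + y 1 • v + y 2 • w = 0 := by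
    funext i
    have h2 := congrFun hy i
    simp only [Matrix.vecMul, dotProduct, Fin.sum_univ_three, Matrix.of_apply,
      Matrix.cons_val_zero, Matrix.cons_val_one, Matrix.cons_val, Pi.zero_apply] at h2
    simpa using h2
  have h3 : y 2 = 0 := by
    have h4 : dt g (y 0 • u + y 1 • v + y 2 • w) = 0 := by
      rw [h1]
      exact Pool.Agent.Helper74.Q8.dt_zero' g
    rw [Pool.Agent.Helper74.Q8.dt_add', Pool.Agent.Helper74.Q8.dt_add',
      Pool.Agent.Helper74.Q8.dt_smul', Pool.Agent.Helper74.Q8.dt_smul',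
      Pool.Agent.Helper74.Q8.dt_smul', hu, hv, mul_zero, mul_zero, add_zero, zero_add] at h4
    exact (mul_eq_zero.1 h4).resolve_right hw
  rw [h3, zero_smul, add_zero] at h1
  have h5 : y 0 ≠ 0 := by
    intro h6
    rw [h6, zero_smul, zero_add] at h1
    have h7 : y 1 = 0 := (smul_eq_zero.1 h1).resolve_right hv0
    apply hy0
    funext i
    fin_cases i
    · exact h6
    · exact h7
    · exact h3
  refine ⟨-(y 1 / y 0), ?_⟩
  funext i
  have h6 := congrFun h1 i
  simp only [Pi.add_apply, Pi.smul_apply, smul_eq_mul, Pi.zero_apply] at h6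
  rw [Pi.smul_apply, smul_eq_mul]
  field_simp
  linear_combination h6

theorem SingL_dep2 (g w : Fin 3 → Ω) (hw : dt g w ≠ 0) (u v : Fin 3 → Ω) (hu : dt g u = 0)
    (hv : dt g v = 0) (h : SingL_om u v w = 0) :
    ∃ α β : Ω, (α ≠ 0 ∨ β ≠ 0) ∧ α • u + β • v = 0 := by
  by_cases hv0 : v = 0
  · exact ⟨0, 1, Or.inr one_ne_zero, by rw [hv0, zero_smul, smul_zero, add_zero]⟩
  · obtain ⟨c, hc⟩ := SingL_dep g w hw u v hu hv hv0 h
    exact ⟨1, -c, Or.inl one_ne_zero, by rw [hc, one_smul, neg_smul, add_neg_cancel]⟩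

/-- spaces of singular matrices -/
theorem SingL_alg {V : Type*} [AddCommGroup V] [Module Ω V] (U W : V →ₗ[Ω] (Fin 3 → Ω))
    (g w : Fin 3 → Ω) (hU : ∀ P, dt g (U P) = 0) (hW : ∀ P, dt g (W P) = 0) (hw : dt g w ≠ 0)
    (h0 : ∀ P, SingL_om (U P) (W P) w = 0) :
    (∃ α β : Ω, (α ≠ 0 ∨ β ≠ 0) ∧ ∀ P, α • U P + β • W P = 0) ∨
      ∃ r : Fin 3 → Ω, ∀ P, (∃ c : Ω, U P = c • r) ∧ ∃ c : Ω, W P = c • r := by
  have hG : ∀ P P', SingL_om (U P) (W P') w + SingL_om (U P') (W P) w = 0 := by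
    intro P P'
    have h1 := h0 (P + P')
    have h2 := h0 P
    have h3 := h0 P'
    rw [map_add, map_add] at h1
    simp only [SingL_om, Pi.add_apply] at h1 h2 h3 ⊢
    linear_combination h1 - h2 - h3
  by_cases hz : ∀ P, U P = 0 ∧ W P = 0
  · exact Or.inl ⟨1, 0, Or.inl one_ne_zero, fun P => by rw [(hz P).1, smul_zero, zero_smul, add_zero]⟩
  push Not at hz
  obtain ⟨P0, hP0⟩ := hz
  obtain ⟨α, β, hab, h1⟩ := SingL_dep2 g w hw (U P0) (W P0) (hU P0) (hW P0) (h0 P0)
  -- a second combination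
  obtain ⟨γ, δ, hdet⟩ : ∃ γ δ : Ω, α * δ - β * γ = 1 := by
    rcases hab with h | h
    · exact ⟨0, α⁻¹, by rw [mul_zero, sub_zero, mul_inv_cancel₀ h]⟩
    · exact ⟨-β⁻¹, 0, by rw [mul_zero, mul_neg, mul_inv_cancel₀ h]; ring⟩
  obtain ⟨U', hU'⟩ : ∃ U' : V → (Fin 3 → Ω), ∀ P, U' P = α • U P + β • W P := ⟨_, fun _ => rfl⟩
  obtain ⟨W', hW'⟩ : ∃ W' : V → (Fin 3 → Ω), ∀ P, W' P = γ • U P + δ • W P := ⟨_, fun _ => rfl⟩
  have hgU : ∀ P, dt g (U' P) = 0 := fun P => by
    rw [hU', Pool.Agent.Helper74.Q8.dt_add', Pool.Agent.Helper74.Q8.dt_smul',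
      Pool.Agent.Helper74.Q8.dt_smul', hU, hW, mul_zero, mul_zero, add_zero]
  have hgW : ∀ P, dt g (W' P) = 0 := fun P => by
    rw [hW', Pool.Agent.Helper74.Q8.dt_add', Pool.Agent.Helper74.Q8.dt_smul',
      Pool.Agent.Helper74.Q8.dt_smul', hU, hW, mul_zero, mul_zero, add_zero]
  have hG' : ∀ P P', SingL_om (U' P) (W' P') w + SingL_om (U' P') (W' P) w = 0 := by
    intro P P'
    have h2 := hG P P'
    rw [hU', hU', hW', hW']
    simp only [SingL_om, Pi.add_apply, Pi.smul_apply, smul_eq_mul] at h2 ⊢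
    linear_combination (α * δ - β * γ) * h2
  have hUr : ∀ P, U P = δ • U' P - β • W' P := by
    intro P
    rw [hU', hW']
    funext i
    simp only [Pi.add_apply, Pi.sub_apply, Pi.smul_apply, smul_eq_mul]
    linear_combination (-U P i) * hdet
  have hWr : ∀ P, W P = α • W' P - γ • U' P := by
    intro P
    rw [hU', hW']
    funext i
    simp only [Pi.add_apply, Pi.sub_apply, Pi.smul_apply, smul_eq_mul]
    linear_combination (-W P i) * hdet
  have hU0 : U' P0 = 0 := by rw [hU', h1]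
  have hW0 : W' P0 ≠ 0 := by
    intro h2
    have h3 : U P0 = 0 := by rw [hUr, hU0, h2, smul_zero, smul_zero, sub_zero]
    have h4 : W P0 = 0 := by rw [hWr, hU0, h2, smul_zero, smul_zero, sub_zero]
    exact hP0 h3 h4
  obtain ⟨r, hr⟩ : ∃ r, r = W' P0 := ⟨_, rfl⟩
  rw [← hr] at hW0
  have hgr : dt g r = 0 := by rw [hr]; exact hgW P0
  have hUP : ∀ P, ∃ c : Ω, U' P = c • r := by
    intro P
    refine SingL_dep g w hw (U' P) r (hgU P) hgr hW0 ?_
    have h2 := hG' P P0
    rw [hU0, ← hr] at h2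
    have h3 : SingL_om (0 : Fin 3 → Ω) (W' P) w = 0 := by
      simp [SingL_om]
    rw [h3, add_zero] at h2
    exact h2
  by_cases hall : ∀ P, U' P = 0
  · exact Or.inl ⟨α, β, hab, fun P => by rw [← hU', hall]⟩
  push Not at hall
  obtain ⟨P1, hP1⟩ := hall
  obtain ⟨b1, hb1⟩ := hUP P1
  have hb1ne : b1 ≠ 0 := by
    intro h2
    rw [h2, zero_smul] at hb1
    exact hP1 hb1
  have hsm : ∀ (c : Ω) (v : Fin 3 → Ω), SingL_om (c • r) v w = c * SingL_om r v w := by
    intro c v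
    simp only [SingL_om, Pi.smul_apply, smul_eq_mul]
    ring
  have hanti : ∀ v : Fin 3 → Ω, SingL_om v r w = - SingL_om r v w := by
    intro v
    simp only [SingL_om]
    ring
  have hW1 : SingL_om r (W' P1) w = 0 := by
    have h4 := h0 P1
    rw [hUr, hWr, hb1] at h4
    simp only [SingL_om, Pi.sub_apply, Pi.smul_apply, smul_eq_mul] at h4
    have h5 : (α * δ - β * γ) * (b1 * SingL_om r (W' P1) w) = 0 := by
      simp only [SingL_om]
      linear_combination h4
    rw [hdet, one_mul] at h5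
    exact (mul_eq_zero.1 h5).resolve_left hb1ne
  obtain ⟨c1, hc1⟩ : ∃ c : Ω, W' P1 = c • r := by
    refine SingL_dep g w hw (W' P1) r (hgW P1) hgr hW0 ?_
    rw [hanti, hW1, neg_zero]
  have hWP : ∀ P, ∃ c : Ω, W' P = c • r := by
    intro P
    refine SingL_dep g w hw (W' P) r (hgW P) hgr hW0 ?_
    obtain ⟨b, hb⟩ := hUP P
    have h2 := hG' P P1
    rw [hb, hb1, hc1, hsm, hsm] at h2
    have h3 : SingL_om r (c1 • r) w = 0 := by
      simp only [SingL_om, Pi.smul_apply, smul_eq_mul]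
      ring
    rw [h3, mul_zero, zero_add] at h2
    rw [hanti, (mul_eq_zero.1 h2).resolve_left hb1ne, neg_zero]
  refine Or.inr ⟨r, fun P => ⟨?_, ?_⟩⟩
  · obtain ⟨b, hb⟩ := hUP P
    obtain ⟨c, hc⟩ := hWP P
    exact ⟨δ * b - β * c, by rw [hUr, hb, hc, smul_smul, smul_smul, sub_smul]⟩
  · obtain ⟨b, hb⟩ := hUP P
    obtain ⟨c, hc⟩ := hWP P
    exact ⟨α * c - γ * b, by rw [hWr, hb, hc, smul_smul, smul_smul, sub_smul]⟩

/-- rational polynomials are enough -/
theorem SingL_all {σ : Type*} [CharZero Ω] (B : Subfield Ω)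
    (U W : MvPolynomial σ Ω →ₗ[Ω] (Fin 3 → Ω)) (w : Fin 3 → Ω)
    (h0 : ∀ P, RatP B P → SingL_om (U P) (W P) w = 0) (P : MvPolynomial σ Ω) :
    SingL_om (U P) (W P) w = 0 := by
  classical
  have hmon : ∀ m : σ →₀ ℕ, RatP B (monomial m (1 : Ω)) := by
    intro m m'
    rw [coeff_monomial]
    split_ifs
    · exact one_mem B
    · exact zero_mem B
  have hmm : ∀ m m' : σ →₀ ℕ, SingL_om (U (monomial m 1)) (W (monomial m' 1)) w +
      SingL_om (U (monomial m' 1)) (W (monomial m 1)) w = 0 := by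
    intro m m'
    have h1 := h0 (monomial m 1 + monomial m' 1) (fun j => by
      rw [coeff_add]
      exact add_mem (hmon m j) (hmon m' j))
    have h2 := h0 _ (hmon m)
    have h3 := h0 _ (hmon m')
    rw [map_add, map_add] at h1
    simp only [SingL_om, Pi.add_apply] at h1 h2 h3 ⊢
    linear_combination h1 - h2 - h3
  have hP : P = ∑ m ∈ P.support, coeff m P • monomial m (1 : Ω) := by
    conv_lhs => rw [P.as_sum]
    refine Finset.sum_congr rfl fun m _ => ?_
    rw [smul_monomial, smul_eq_mul, mul_one]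
  have hUP : U P = ∑ m ∈ P.support, coeff m P • U (monomial m 1) := by
    conv_lhs => rw [hP, map_sum]
    exact Finset.sum_congr rfl fun m _ => map_smul _ _ _
  have hWP : W P = ∑ m ∈ P.support, coeff m P • W (monomial m 1) := by
    conv_lhs => rw [hP, map_sum]
    exact Finset.sum_congr rfl fun m _ => map_smul _ _ _
  have hbil : ∀ (s : Finset (σ →₀ ℕ)) (c d : (σ →₀ ℕ) → Ω) (u v : (σ →₀ ℕ) → Fin 3 → Ω),
      SingL_om (∑ m ∈ s, c m • u m) (∑ m ∈ s, d m • v m) w =
        ∑ m ∈ s, ∑ m' ∈ s, c m * d m' * SingL_om (u m) (v m') w := by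
    intro s c d u v
    have e1 : ∀ v' : Fin 3 → Ω, SingL_om (∑ m ∈ s, c m • u m) v' w =
        ∑ m ∈ s, c m * SingL_om (u m) v' w := by
      intro v'
      simp only [SingL_om, Finset.sum_apply, Pi.smul_apply, smul_eq_mul, Finset.sum_mul]
      rw [← Finset.sum_sub_distrib, ← Finset.sum_add_distrib]
      exact Finset.sum_congr rfl fun m _ => by ring
    have e2 : ∀ u' : Fin 3 → Ω, SingL_om u' (∑ m ∈ s, d m • v m) w =
        ∑ m ∈ s, d m * SingL_om u' (v m) w := by
      intro u'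
      simp only [SingL_om, Finset.sum_apply, Pi.smul_apply, smul_eq_mul, Finset.sum_mul,
        Finset.mul_sum, ← Finset.sum_sub_distrib]
      rw [← Finset.sum_add_distrib]
      exact Finset.sum_congr rfl fun m _ => by ring
    rw [e1]
    refine Finset.sum_congr rfl fun m _ => ?_
    rw [e2, Finset.mul_sum]
    exact Finset.sum_congr rfl fun m' _ => by ring
  have hsum : SingL_om (U P) (W P) w = ∑ m ∈ P.support, ∑ m' ∈ P.support,
      coeff m P * coeff m' P * SingL_om (U (monomial m 1)) (W (monomial m' 1)) w := by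
    rw [hUP, hWP, hbil]
  have hdouble : SingL_om (U P) (W P) w + SingL_om (U P) (W P) w = 0 := by
    conv_lhs => rw [hsum]
    nth_rewrite 2 [Finset.sum_comm]
    rw [← Finset.sum_add_distrib]
    refine Finset.sum_eq_zero fun m _ => ?_
    rw [← Finset.sum_add_distrib]
    refine Finset.sum_eq_zero fun m' _ => ?_
    linear_combination (coeff m P * coeff m' P) * hmm m m'
  rw [← two_mul] at hdouble
  exact (mul_eq_zero.1 hdouble).resolve_left two_ne_zero

end SingL_alg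

variable {Ω : Type*} [Field Ω] [CharZero Ω] {q : ℕ} {D : Sym (Fin 3) q → Derivation ℤ Ω Ω}
  {a : Sym (Fin 3) q → Ω} {B : Subfield Ω} {x : Fin 3 → Ω}

theorem sing_ker (h : PtL D a B x) (hs : ¬ Small D a x)
    (h0 : ∀ P, RatP B P → gg D a x P = 0) :
    ∃ k : Fin 3 → Ω, k ≠ 0 ∧ dt k x = 0 ∧ ∀ P, et D a x (P * lf k) = 0 := by
  obtain ⟨U, hU⟩ : ∃ U : Fin 2 → MvPolynomial (Fin 3) Ω →ₗ[Ω] (Fin 3 → Ω),
      ∀ i P, U i P = et D a x (P * lf (lw x i)) := by
    refine ⟨fun i => (et D a x).comp (LinearMap.mulRight Ω (lf (lw x i))), fun i P => ?_⟩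
    rw [LinearMap.comp_apply, LinearMap.mulRight_apply]
  obtain ⟨w, hw⟩ : ∃ w, w = et D a x (X 0 ^ q) := ⟨_, rfl⟩
  have hgw : dt (gr a x) w ≠ 0 := by
    rw [hw, gr_pow h]
    exact neg_ne_zero.2 one_ne_zero
  have hgU : ∀ i P, dt (gr a x) (U i P) = 0 := fun i P => by
    rw [hU]
    exact gr_lw h P (lw x i) (lw_x h.one i)
  have h1 : ∀ P, SingL_om (U 0 P) (U 1 P) w = 0 := by
    refine SingL_all B (U 0) (U 1) w fun P hP => ?_
    rw [hU, hU, hw, ← SingL_det]
    exact h0 P hP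
  have hl : ∀ P (l : Fin 3 → Ω), dt l x = 0 →
      et D a x (P * lf l) = l 1 • U 0 P + l 2 • U 1 P := by
    intro P l hl
    conv_lhs => rw [lw_span h.one l hl]
    rw [Pool.Agent.Helper74.Q8.lf_add', Pool.Agent.Helper74.Q8.lf_smul',
      Pool.Agent.Helper74.Q8.lf_smul', mul_add, mul_smul_comm, mul_smul_comm, map_add, map_smul,
      map_smul, hU, hU]
  rcases SingL_alg (U 0) (U 1) (gr a x) w (hgU 0) (hgU 1) hgw h1 with ⟨α, β, hab, h2⟩ | ⟨r, hr⟩
  · have hk1 : (α • lw x 0 + β • lw x 1) 1 = α := by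
      simp [lw, rr, h.one]
    have hk2 : (α • lw x 0 + β • lw x 1) 2 = β := by
      simp [lw, rr, h.one]
    refine ⟨α • lw x 0 + β • lw x 1, ?_, ?_, ?_⟩
    · intro h3
      rw [h3] at hk1 hk2
      rcases hab with h4 | h4
      · exact h4 hk1.symm
      · exact h4 hk2.symm
    · rw [Pool.Agent.Helper74.Q8.dt_comm', Pool.Agent.Helper74.Q8.dt_add',
        Pool.Agent.Helper74.Q8.dt_smul', Pool.Agent.Helper74.Q8.dt_smul',
        Pool.Agent.Helper74.Q8.dt_comm' x, Pool.Agent.Helper74.Q8.dt_comm' x, lw_x h.one,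
        lw_x h.one, mul_zero, mul_zero, add_zero]
    · intro P
      rw [Pool.Agent.Helper74.Q8.lf_add', Pool.Agent.Helper74.Q8.lf_smul',
        Pool.Agent.Helper74.Q8.lf_smul', mul_add, mul_smul_comm, mul_smul_comm, map_add, map_smul,
        map_smul, ← hU, ← hU]
      exact h2 P
  · exfalso
    apply hs
    refine ⟨r, fun P l hlx => ?_⟩
    obtain ⟨⟨c, hc⟩, ⟨d, hd⟩⟩ := hr P
    exact ⟨l 1 * c + l 2 * d, by rw [hl P l hlx, hc, hd, smul_smul, smul_smul, add_smul]⟩

end Pool.Agent.Helper74.PQ
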