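import Pool.Agent.Helper74.PQ.Wt
import Pool.Agent.Helper74.PQ.RatL
import Pool.Agent.Helper74.PQ.SpanL

/-!
# PQ-SMALLL: the small case

`w = et (X_0^q)`, `gr . w = -1`. (1) All `et (P lw_i) = 0`: by `et_pow` (`Λ = id`) at `m`:
`w_l = et (X_m^q)_l / x_m^q`, of weight `1 - q = -3`, so of weight `-1` (`WA.le`): `wa_pt` for a
component `w_l ≠ 0`. (2) Otherwise some `y = et (X^K lf (rr x j b)) ≠ 0`, `X^K` a monomial (write
`P` as a sum of monomials, and `lw x i = rr x 0 (i+1)`), of weight `2`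
(`et (X^K lf (rr x j b)) = x_j et (X^K X_b) - x_b et (X^K X_j)`), and all `et (P lw_i)` are multiples
of `u`, `u ≠ 0`, so `y = c u`. The cross product of `y` and `w` is not zero (`gr . y = 0`,
`gr . w = -1`, `y ≠ 0`) and a component of it, equal to that of `y` and `et (X_m^q) / x_m^q`
(`et_pow` with `Λ` = the component of the cross product with `y`), has weight `2 + 1 - 4 = -1`:
`wa_pt`. `ln_of_mem`.
-/

set_option autoImplicit false

namespace Pool.Agent.Helper74.PQ

open scoped BigOperators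
open MvPolynomial
open Pool.Agent.Helper8.LG (Bdd RowBdd form mon)
open Pool.Agent.Helper49.LN (cP mo hf pl)
open Pool.Agent.Helper6.QS
open Pool.Agent.Helper74.Q8 (rr)

variable {Ω : Type*} [Field Ω] [CharZero Ω] {q : ℕ} {D : Sym (Fin 3) q → Derivation ℤ Ω Ω}
  {a : Sym (Fin 3) q → Ω} {B : Subfield Ω} {x : Fin 3 → Ω}

omit [CharZero Ω] in
/-- the scalar product in coordinates -/
theorem SmallL_dt3 (g y : Fin 3 → Ω) : dt g y = g 0 * y 0 + g 1 * y 1 + g 2 * y 2 := by
  unfold dt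
  rw [Fin.sum_univ_three]

/-- the components of the cross product with `y` -/
def SmallL_cr (y : Fin 3 → Ω) (i j : Fin 3) : (Fin 3 → Ω) →ₗ[Ω] Ω where
  toFun v := y i * v j - y j * v i
  map_add' u v := by
    show y i * (u j + v j) - y j * (u i + v i) = _
    ring
  map_smul' c v := by
    show y i * (c * v j) - y j * (c * v i) = c * (y i * v j - y j * v i)
    ring

omit [CharZero Ω] in
theorem SmallL_cr_apply (y : Fin 3 → Ω) (i j : Fin 3) (v : Fin 3 → Ω) :
    SmallL_cr y i j v = y i * v j - y j * v i := rfl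

omit [CharZero Ω] in
theorem SmallL_cross (g y w : Fin 3 → Ω) (hy : dt g y = 0) (hw : dt g w = -1)
    (h : ∀ i j, SmallL_cr y i j w = 0) : y = 0 := by
  rw [SmallL_dt3] at hy hw
  have e0 : y 1 * w 2 - y 2 * w 1 = 0 := h 1 2
  have e1 : y 2 * w 0 - y 0 * w 2 = 0 := h 2 0
  have e2 : y 0 * w 1 - y 1 * w 0 = 0 := h 0 1
  funext i
  rw [Pi.zero_apply]
  fin_cases i
  · show y 0 = 0
    linear_combination y 0 * hw - w 0 * hy - g 1 * e2 + g 2 * e1
  · show y 1 = 0
    linear_combination y 1 * hw - w 1 * hy + g 0 * e2 - g 2 * e0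
  · show y 2 = 0
    linear_combination y 2 * hw - w 2 * hy - g 0 * e1 + g 1 * e0

omit [CharZero Ω] in
theorem SmallL_lf (x : Fin 3 → Ω) (j b : Fin 3) :
    (lf (rr x j b) : MvPolynomial (Fin 3) Ω) = x j • X b - x b • X j := by
  have h1 : ∀ i : Fin 3, rr x j b i • (X i : MvPolynomial (Fin 3) Ω) =
      (if i = b then x j • X i else 0) - (if i = j then x b • X i else 0) := by
    intro i
    show (x j * (if i = b then 1 else 0) - x b * (if i = j then 1 else 0)) •
      (X i : MvPolynomial (Fin 3) Ω) = _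
    rw [sub_smul]
    congr 1
    · split_ifs
      · rw [mul_one]
      · rw [mul_zero, zero_smul]
    · split_ifs
      · rw [mul_one]
      · rw [mul_zero, zero_smul]
  unfold lf
  rw [Finset.sum_congr rfl fun i _ => h1 i, Finset.sum_sub_distrib, Finset.sum_ite_eq',
    Finset.sum_ite_eq', if_pos (Finset.mem_univ _), if_pos (Finset.mem_univ _)]

omit [CharZero Ω] in
/-- `et (P lf (rr x j b))` -/
theorem SmallL_et (D : Sym (Fin 3) q → Derivation ℤ Ω Ω) (a : Sym (Fin 3) q → Ω)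
    (x : Fin 3 → Ω) (P : MvPolynomial (Fin 3) Ω) (j b l : Fin 3) :
    et D a x (P * lf (rr x j b)) l =
      x j * et D a x (P * X b) l - x b * et D a x (P * X j) l := by
  rw [SmallL_lf, mul_sub, mul_smul_comm, mul_smul_comm, map_sub, map_smul, map_smul]
  rfl

omit [CharZero Ω] in
/-- a monomial -/
theorem SmallL_mono {V : Type*} [AddCommGroup V] [Module Ω V]
    (L : MvPolynomial (Fin 3) Ω →ₗ[Ω] V) (P : MvPolynomial (Fin 3) Ω) (hP : L P ≠ 0) :
    ∃ K, L (monomial K 1) ≠ 0 := by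
  by_contra hc
  push Not at hc
  apply hP
  rw [P.as_sum, map_sum]
  refine Finset.sum_eq_zero fun K _ => ?_
  have h1 : (monomial K (coeff K P) : MvPolynomial (Fin 3) Ω) =
      coeff K P • monomial K 1 := by
    rw [smul_monomial, smul_eq_mul, mul_one]
  rw [h1, map_smul, hc K, smul_zero]

/-- `P ↦ et (P l)` -/
noncomputable def SmallL_L (D : Sym (Fin 3) q → Derivation ℤ Ω Ω) (a : Sym (Fin 3) q → Ω)
    (x : Fin 3 → Ω) (l : Fin 3 → Ω) : MvPolynomial (Fin 3) Ω →ₗ[Ω] (Fin 3 → Ω) where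
  toFun P := et D a x (P * lf l)
  map_add' P P' := by rw [add_mul, map_add]
  map_smul' c P := by
    rw [smul_mul_assoc, map_smul]
    rfl

omit [CharZero Ω] in
theorem SmallL_L_apply (D : Sym (Fin 3) q → Derivation ℤ Ω Ω) (a : Sym (Fin 3) q → Ω)
    (x : Fin 3 → Ω) (l : Fin 3 → Ω) (P : MvPolynomial (Fin 3) Ω) :
    SmallL_L D a x l P = et D a x (P * lf l) := rfl

omit [CharZero Ω] in
/-- the main step: a functional `Λ` killing the `et (P lw_i)`, not `et (X_0^q)`, with
`Λ (et (X_m^q))` of weight `3` -/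
theorem SmallL_main (h : PtL D a B x) (Λ : (Fin 3 → Ω) →ₗ[Ω] Ω)
    (hΛ : ∀ P i, Λ (et D a x (P * lf (lw x i))) = 0) (h0 : Λ (et D a x (X 0 ^ q)) ≠ 0)
    (e : ℤ) (he : e ≤ 3)
    (hw : ∀ m, x m ≠ 0 → WA D a B x (fun _ => True) m e (Λ (et D a x (X m ^ q)))) :
    Ln B x := by
  have hq4 := h.hq
  have hq0 : 0 < q := by omega
  refine ln_of_mem (wa_pt h.frame h.one h0 fun m hm => ?_)
  have h1 := et_pow D a h.one hq0 Λ hΛ m
  have h2 : Λ (et D a x (X 0 ^ q)) = (x m ^ q)⁻¹ * Λ (et D a x (X m ^ q)) := by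
    rw [h1, smul_eq_mul, ← mul_assoc, inv_mul_cancel₀ (pow_ne_zero _ hm), one_mul]
  rw [h2]
  refine WA.le h.one hm ?_ (WA.mul hm (WA.inv_pow hm q) (hw m hm))
  omega

theorem small_line (h : PtL D a B x) (hs : Small D a x) : Ln B x := by
  have hq4 := h.hq
  have hqΩ : (q : Ω) ≠ 0 := Nat.cast_ne_zero.mpr (by omega)
  have hX : ∀ m l, x m ≠ 0 → WA D a B x (fun _ => True) m 1 (et D a x (X m ^ q) l) :=
    fun m l hm => wa_et h.frame hqΩ h.ne hm _ (ratP_pow (ratP_X m) q) l
  by_cases hz : ∀ P i, et D a x (P * lf (lw x i)) = 0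
  · have hw : ∃ l, et D a x (X 0 ^ q) l ≠ 0 := by
      by_contra hc
      push Not at hc
      have h1 : et D a x (X 0 ^ q) = 0 := funext hc
      have h2 := gr_pow h
      rw [h1, Pool.Agent.Helper74.Q8.dt_zero'] at h2
      exact one_ne_zero (neg_eq_zero.mp h2.symm)
    obtain ⟨l, hl⟩ := hw
    refine SmallL_main h (LinearMap.proj l) (fun P i => ?_) hl 1 (by norm_num)
      fun m hm => hX m l hm
    rw [hz P i, map_zero]
  · push Not at hz
    obtain ⟨P, i, hP⟩ := hz
    obtain ⟨K, hK⟩ := SmallL_mono (SmallL_L D a x (lw x i)) P hP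
    rw [SmallL_L_apply] at hK
    obtain ⟨u, hu⟩ := hs
    have hlw : ∀ i, dt (lw x i) x = 0 := fun i => lw_x h.one i
    obtain ⟨c0, hc0⟩ := hu (monomial K 1) (lw x i) (hlw i)
    have hc0' : c0 ≠ 0 := by
      rintro rfl
      exact hK (by rw [hc0, zero_smul])
    set y : Fin 3 → Ω := et D a x (monomial K 1 * lf (lw x i)) with hy
    have hgy : dt (gr a x) y = 0 := gr_lw h _ _ (hlw i)
    have hne : ∃ s t, SmallL_cr y s t (et D a x (X 0 ^ q)) ≠ 0 := by
      by_contra hc
      push Not at hc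
      exact hK (SmallL_cross (gr a x) y _ hgy (gr_pow h) hc)
    obtain ⟨s, t, hst⟩ := hne
    have hwy : ∀ m l, x m ≠ 0 → WA D a B x (fun _ => True) m 2 (y l) := by
      intro m l hm
      have h1 : y l = x 0 * et D a x (monomial K 1 * X i.succ) l -
          x i.succ * et D a x (monomial K 1 * X 0) l := SmallL_et D a x _ 0 i.succ l
      rw [h1]
      have h2 : ∀ b c : Fin 3, WA D a B x (fun _ => True) m (1 + 1)
          (x b * et D a x (monomial K 1 * X c) l) := fun b c =>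
        WA.mul hm (WA.coord b) (wa_et h.frame hqΩ h.ne hm _
          (ratP_mul (ratP_mono K (one_mem B)) (ratP_X c)) l)
      exact WA.sub (h2 _ _) (h2 _ _)
    refine SmallL_main h (SmallL_cr y s t) (fun P' i' => ?_) hst (2 + 1) (by norm_num)
      fun m hm => ?_
    · obtain ⟨c, hc⟩ := hu P' (lw x i') (hlw i')
      have h1 : et D a x (P' * lf (lw x i')) = (c * c0⁻¹) • y := by
        rw [hc, hc0, smul_smul, mul_assoc, inv_mul_cancel₀ hc0', mul_one]
      rw [h1, map_smul, SmallL_cr_apply, mul_comm (y s), sub_self, smul_zero]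
    · rw [SmallL_cr_apply]
      exact WA.sub (WA.mul hm (hwy m s hm) (hX m t hm)) (WA.mul hm (hwy m t hm) (hX m s hm))

end Pool.Agent.Helper74.PQ
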