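import Pool.Agent.Helper74.PQ.RatPL
import Pool.Agent.Helper74.PQ.SmallL
import Pool.Agent.Helper74.PQ.FreeL
import Pool.Agent.Helper74.PQ.KerLineL
import Pool.Agent.Helper74.PQ.SingL
import Pool.Agent.Helper74.PQ.MatsL
import Pool.Agent.Helper74.PQ.CaseTL
import Pool.Agent.Helper74.PQ.DeltaL
import Pool.Agent.Helper74.PQ.RatQL
import Pool.Agent.Helper74.PQ.FinQL
import Pool.Agent.Helper74.PQ.GlL
import Pool.Agent.Helper74.Q8.AdX
import Pool.Agent.Helper6.QS.Der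

/-!
# PQ-KEYDL: the second key statement, assembly
-/

set_option autoImplicit false

namespace Pool.Agent.Helper74.PQ

open scoped BigOperators
open MvPolynomial
open Pool.Agent.Helper8.LG (Bdd RowBdd form mon)
open Pool.Agent.Helper49.LN (cP mo hf pl)
open Pool.Agent.Helper6.QS
open Pool.Agent.Helper74.Q8 (rr)

variable {Ω : Type*} [Field Ω] [CharZero Ω] {q : ℕ} {D : Sym (Fin 3) q → Derivation ℤ Ω Ω}
  {a : Sym (Fin 3) q → Ω} {B : Subfield Ω} {x : Fin 3 → Ω}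

/-- there is a rational line through the point, or the point lies on a rational conic and its
derivatives are given by rational matrices -/
theorem key_cnc (h : PtL D a B x) : Ln B x ∨ ∃ Q, Cnc D a B x Q := by
  classical
  by_cases hs : Small D a x
  · exact Or.inl (small_line h hs)
  by_cases hE : Eqv D a x
  swap
  · unfold Eqv at hE
    push Not at hE
    obtain ⟨i, j, hij⟩ := hE
    exact Or.inl (free_line h hs i j hij)
  by_cases hg : ∀ P, RatP B P → gg D a x P = 0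
  · obtain ⟨k, hk, hkx, hK⟩ := sing_ker h hs hg
    exact Or.inl (ker_line h hs hE k hk hkx hK)
  push Not at hg
  obtain ⟨P1, hP1, hg1⟩ := hg
  obtain ⟨θ, hm⟩ := mats h P1 hP1 hg1
  by_cases hnd : ∀ N ∈ Submodule.span Ω (Set.range (fam D a x θ)),
      (∀ i, (N * fam D a x θ i).trace = 0) → N = 0
  swap
  · push Not at hnd
    obtain ⟨N, hNs, hN0, hN⟩ := hnd
    exact Or.inl (case_tl hm N hN hNs hN0)
  by_cases hx : ∀ l, x l ∈ B
  · exact Or.inl (ln_of_mem hx)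
  push Not at hx
  obtain ⟨l, hl⟩ := hx
  obtain ⟨δ, hδB, hδx⟩ := exists_der B (x l) fun h1 => hl (lrat_alg h.frame _ h1)
  obtain ⟨Y, hY⟩ := Pool.Agent.Helper74.Q8.ad_X (fam D a x θ) none rfl (fam_tr hm) hnd δ hδB
  obtain ⟨Q, hQ, hQ0, hQe⟩ := delta_l hm δ hδB ⟨l, hδx⟩ Y hY
  obtain ⟨Q1, hQ1, hQ10, hQ1B, hQ1e⟩ := rat_ql hm hnd Q hQ hQ0 hQe
  rcases fin_ql h Q1 hQ1 hQ1B hQ1e with h1 | h1
  · exact Or.inl h1
  rcases gl_l h hE Q1 hQ1 hQ10 hQ1B h1 with h2 | h2
  · exact Or.inl h2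
  · exact Or.inr ⟨Q1, h2⟩

omit [CharZero Ω] in
/-- the square of a rational line -/
theorem ln_conic (hL : Ln B x) :
    ∃ Q : MvPolynomial (Fin 3) Ω, Q.IsHomogeneous 2 ∧ Q ≠ 0 ∧ RatP B Q ∧ eval x Q = 0 := by
  obtain ⟨k, hk, hkB, hkx⟩ := hL
  have h1 : (lf k : MvPolynomial (Fin 3) Ω) ≠ 0 := by
    intro h0
    apply hk
    funext i
    have h2 := congrArg (eval (Pi.single i (1 : Ω))) h0
    rw [eval_lf, map_zero, dt, Finset.sum_eq_single i, Pi.single_eq_same, mul_one] at h2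
    · exact h2
    · intro j _ hj
      rw [Pi.single_eq_of_ne hj, mul_zero]
    · intro h3
      exact absurd (Finset.mem_univ _) h3
  refine ⟨lf k * lf k, ?_, mul_ne_zero h1 h1, ?_, ?_⟩
  · exact (lf_hom k).mul (lf_hom k)
  · exact ratP_mul (ratP_lf hkB) (ratP_lf hkB)
  · rw [map_mul, eval_lf, hkx, zero_mul]

universe u

theorem keyD (q : ℕ) : KeyD.{u} q := by
  intro Ω _ _ D a B x h
  rcases key_cnc h with h1 | ⟨Q, h1⟩
  · exact ln_conic h1
  · exact ⟨Q, h1.hom, h1.ne, h1.rat, h1.zero⟩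

end Pool.Agent.Helper74.PQ
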