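import Pool.Agent.Helper74.PQ.RatPL

/-!
# PQ-NORML: the gradient

Compare `dv_normal` in `Helper6/QS/Ev.lean` (`ev_der_mo`, `ev_euler`, `ev_mon_eq`):
`D_J (F(x)) = X^J(x) + ∑_l (∂F/∂X_l)(x) D_J x_l`, so `gr . D_J x = D_J (F x) - X^J(x)` and
`gr . x = q F(x)` (Euler). `eval_fp`, `fp_hom`, `fp_rat`: see `eval_sum8`, `sum_hom8`, `sum_rat8` in
`Helper74/Q8/KeyBlk8.lean`.
-/

set_option autoImplicit false

namespace Pool.Agent.Helper74.PQ

open scoped BigOperators
open MvPolynomial
open Pool.Agent.Helper8.LG (Bdd RowBdd form mon)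
open Pool.Agent.Helper49.LN (cP mo hf pl)
open Pool.Agent.Helper6.QS
open Pool.Agent.Helper74.Q8 (rr)

variable {Ω : Type*} [Field Ω] {σ : Type*} [Fintype σ] [DecidableEq σ] {q : ℕ}

theorem eval_fp (a : Sym σ q → Ω) (x : σ → Ω) : eval x (Fp a) = form a x := by
  unfold Fp
  rw [map_sum]
  unfold form
  refine Finset.sum_congr rfl fun J _ => ?_
  rw [smul_eval, ev_mon_eq]

theorem fp_hom (a : Sym σ q → Ω) : (Fp a).IsHomogeneous q := by
  unfold Fp
  refine IsHomogeneous.sum _ _ _ fun J _ => ?_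
  have h4 := Pool.Agent.Helper49.LN.mo_hom (E := Ω) (J : Multiset σ)
  rw [Sym.card_coe] at h4
  rw [smul_eq_C_mul]
  have h5 := (isHomogeneous_C σ (a J)).mul h4
  rwa [zero_add] at h5

theorem fp_rat (B : Subfield Ω) (a : Sym σ q → Ω) (ha : ∀ J, a J ∈ B) : RatP B (Fp a) := by
  unfold Fp
  exact ratP_sum _ _ fun J _ => ratP_smul (ha J) (ratP_mo' _)

theorem fp_pderiv_rat (B : Subfield Ω) (a : Sym σ q → Ω) (ha : ∀ J, a J ∈ B) (i : σ) :
    RatP B (pderiv i (Fp a)) := ratP_pderiv (fp_rat B a ha) i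

/-- the gradient as a sum -/
theorem gr_apply (a : Sym σ q → Ω) (x : σ → Ω) (l : σ) :
    gr a x l = ∑ I : Sym σ q, a I * eval x (pderiv l (mo Ω (I : Multiset σ))) := by
  unfold gr Fp
  rw [map_sum, map_sum]
  refine Finset.sum_congr rfl fun I _ => ?_
  rw [Derivation.map_smul, smul_eval]

theorem gr_x (a : Sym σ q → Ω) (x : σ → Ω) : dt (gr a x) x = (q : Ω) * form a x := by
  rw [dt, form, Finset.mul_sum]
  simp only [gr_apply, Finset.sum_mul]
  rw [Finset.sum_comm]
  refine Finset.sum_congr rfl fun I _ => ?_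
  simp only [mul_assoc]
  rw [← Finset.mul_sum, ev_euler, Sym.card_coe, ev_mon_eq]
  ring

/-- the gradient and a derivation -/
theorem gr_der (D : Sym σ q → Derivation ℤ Ω Ω) (a : Sym σ q → Ω)
    (hD : ∀ I J, D J (a I) = if I = J then 1 else 0) (x : σ → Ω) (J : Sym σ q) :
    dt (gr a x) (fun l => D J (x l)) = D J (form a x) - mon x J := by
  have h4 : ∀ I : Sym σ q, D J (a I * mon x I) =
      (if I = J then mon x I else 0) +
        ∑ l, a I * eval x (pderiv l (mo Ω (I : Multiset σ))) * D J (x l) := by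
    intro I
    rw [Derivation.leibniz, smul_eq_mul, smul_eq_mul, hD, ev_mon_eq, ev_der_mo,
      Finset.mul_sum, add_comm]
    simp only [mul_assoc]
    congr 1
    split_ifs
    · rw [mul_one]
    · rw [mul_zero]
  have h3 : D J (form a x) = mon x J + dt (gr a x) (fun l => D J (x l)) := by
    rw [form, map_sum]
    simp only [h4]
    rw [Finset.sum_add_distrib, Finset.sum_ite_eq' Finset.univ J, if_pos (Finset.mem_univ J),
      Finset.sum_comm, dt]
    congr 1
    refine Finset.sum_congr rfl fun l _ => ?_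
    rw [gr_apply, Finset.sum_mul]
  rw [h3]
  ring

theorem gr_et (D : Sym σ q → Derivation ℤ Ω Ω) (a : Sym σ q → Ω)
    (hD : ∀ I J, D J (a I) = if I = J then 1 else 0) (hq : (q : Ω) ≠ 0) (x : σ → Ω)
    (hne : form a x ≠ 0) (f : MvPolynomial σ Ω) : dt (gr a x) (et D a x f) = - ev q x f := by
  have h1 : ∀ J : Sym σ q, dt (gr a x)
      (fun l => D J (x l) - (q : Ω)⁻¹ * (D J (form a x) / form a x) * x l) = - mon x J := by
    intro J
    have h2 : dt (gr a x) (fun l => D J (x l) - (q : Ω)⁻¹ * (D J (form a x) / form a x) * x l) =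
        dt (gr a x) (fun l => D J (x l)) -
          (q : Ω)⁻¹ * (D J (form a x) / form a x) * dt (gr a x) x := by
      simp only [dt]
      rw [Finset.mul_sum, ← Finset.sum_sub_distrib]
      refine Finset.sum_congr rfl fun l _ => ?_
      ring
    rw [h2, gr_der D a hD, gr_x]
    field_simp
    ring
  rw [et, ev, Pool.Agent.Helper49.LN.cP_apply, Pool.Agent.Helper49.LN.cP_apply,
    ← Finset.sum_neg_distrib, dt]
  simp only [Finset.sum_apply, Pi.smul_apply, smul_eq_mul, Finset.mul_sum]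
  rw [Finset.sum_comm]
  refine Finset.sum_congr rfl fun J _ => ?_
  rw [← mul_neg, ← h1 J, dt, Finset.mul_sum]
  refine Finset.sum_congr rfl fun l _ => ?_
  ring

end Pool.Agent.Helper74.PQ
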