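import Pool.Agent.Helper74.PQ.Fin24Of
import Pool.Agent.Helper10.PQ.CoverL

/-!
# PQ-FIN24: the integral points of the complement of a generic plane quartic, final form
-/

set_option autoImplicit false

namespace Pool.Agent.Helper74.PQ

open MvPolynomial
open Pool.Agent.Helper8.LG (form mon cf)
open Pool.Agent.Helper10.LN

universe u v

theorem fin24 {k₀ : Type v} {M : Type u} [Field k₀] [Field M] [CharZero M] [Algebra k₀ M]
    (hfg : (⊤ : IntermediateField k₀ M).FG) {q : ℕ} (hq : q = 4)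
    (F : MvPolynomial (Fin 3) M) (hF : F.IsHomogeneous q)
    (hcoef : ((2 + q).choose 2 : Cardinal) ≤
      Algebra.trdeg k₀ (IntermediateField.adjoin k₀ {z | ∃ J, z = coeff J F}))
    (A : Subalgebra ℤ M) (hA : A.FG) :
    ∃ Λ' : Set (Submodule M (Fin 3 → M)), Λ'.Finite ∧
      (∀ W' ∈ Λ', Module.finrank M W' ≤ 2 ∧
        TwoZeros (fun _ : Fin 1 => F) Finset.univ W') ∧
      ∀ i₀ : Fin 3, {y : Fin 3 → M | y i₀ = 1 ∧ (∀ W' ∈ Λ', y ∉ W') ∧ eval y F ≠ 0 ∧
        ∀ J : Sym (Fin 3) q, mon y J / eval y F ∈ A}.Finite :=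
  fin24_of Pool.Agent.Helper10.PQ.cover24 hfg hq F hF hcoef A hA

end Pool.Agent.Helper74.PQ
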