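import Pool.Agent.Helper74.PQ.NormL

/-!
# PQ-TANLINE: lines which meet the generic quartic in two points do not move

Notation: `M : K^2 → K^3`, `M (s, t) = s p + t r`; `T_j = (1, j)`, `j = 0, .., 4`. For a form `f` of
degree `q = 4` apply `D_f = ∑ f_J D_J` to `F(M T_j) = lam j^β` (`0^0 = 1`):
`f(M T_j) + (∂F)(M T_j) . (D_f M) T_j = (D_f lam) j^β`. So the linear map
`Φ : (N, b) ↦ ((∂F)(M T_j) . N T_j - b j^β)_(j = 0..4)`, `K^(3 x 2) × K → K^5`, is onto: for each `j`
there is a form `f` of degree 4 with `f(M T_i) = 0` for `i ≠ j` and `≠ 0` for `i = j` (product of four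
linear forms; `p, r` independent). So its kernel has dimension `7 - 5 = 2`; it contains the two linearly
independent elements `(M, q lam)` (Euler) and `(M diag(1, 0), α lam)` (apply `s d/ds` to the identity
of polynomials; the identity for all `s, t` in the infinite field `K` is one of polynomials). As
`δ(a_J) = 0`, `(δM, δ lam)` lies in the kernel: `δ p = (c_0 + c_1) p`, `δ r = c_0 r`.
Compare NoTwoCon (same argument for conics; general lemmas may be shared by copying).
-/

set_option autoImplicit false

namespace Pool.Agent.Helper74.PQ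

open scoped BigOperators
open MvPolynomial
open Pool.Agent.Helper8.LG (form mon)
open Pool.Agent.Helper49.LN (cP mo)
open Pool.Agent.Helper6.QS
open Pool.Agent.Helper74.Q8 (rr)

section general

variable {K : Type*} [Field K] {σ : Type*} [Fintype σ] [DecidableEq σ] {q : ℕ}

theorem tanLine_gr (a : Sym σ q → K) (x : σ → K) (l : σ) :
    gr a x l = ∑ J : Sym σ q, a J * eval x (pderiv l (mo K (J : Multiset σ))) := by
  unfold gr Fp
  rw [map_sum, map_sum]
  refine Finset.sum_congr rfl fun J _ => ?_
  rw [Derivation.map_smul, smul_eval]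

/-- a derivation and a form -/
theorem tanLine_der (a : Sym σ q → K) (x : σ → K) (δ : Derivation ℤ K K) :
    δ (form a x) = (∑ J : Sym σ q, δ (a J) * mon x J) + ∑ l, gr a x l * δ (x l) := by
  have h1 : ∀ J : Sym σ q, δ (a J * mon x J) = δ (a J) * mon x J +
      ∑ l, a J * eval x (pderiv l (mo K (J : Multiset σ))) * δ (x l) := by
    intro J
    rw [Derivation.leibniz, smul_eq_mul, smul_eq_mul, ev_mon_eq, ev_der_mo, Finset.mul_sum,
      add_comm, mul_comm (eval x (mo K (J : Multiset σ)))]
    simp only [mul_assoc]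
  rw [form, map_sum, Finset.sum_congr rfl fun J _ => h1 J, Finset.sum_add_distrib,
    Finset.sum_comm]
  congr 1
  refine Finset.sum_congr rfl fun l _ => ?_
  rw [tanLine_gr, Finset.sum_mul]

/-- the derivation `∑_J g_J D_J` -/
noncomputable def tanLine_D (D : Sym σ q → Derivation ℤ K K) (g : Sym σ q → K) :
    Derivation ℤ K K := ∑ J : Sym σ q, g J • D J

theorem tanLine_Da (a : Sym σ q → K) (D : Sym σ q → Derivation ℤ K K)
    (hD : ∀ I J, D J (a I) = if I = J then 1 else 0) (g : Sym σ q → K) (I : Sym σ q) :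
    tanLine_D D g (a I) = g I := by
  have h1 : tanLine_D D g (a I) = ∑ J : Sym σ q, g J * D J (a I) := by
    have h2 := map_sum (Derivation.coeFnAddMonoidHom (R := ℤ) (A := K) (M := K))
      (fun J : Sym σ q => g J • D J) Finset.univ
    have h3 := congrFun h2 (a I)
    rw [Finset.sum_apply] at h3
    exact h3
  rw [h1, Finset.sum_congr rfl fun J _ => by rw [hD I J]]
  simp only [mul_ite, mul_one, mul_zero]
  rw [Finset.sum_ite_eq Finset.univ I, if_pos (Finset.mem_univ I)]

/-- a polynomial homogeneous of degree `q` is a form -/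
theorem tanLine_form (f : MvPolynomial σ K) (hf : f.IsHomogeneous q) :
    ∃ g : Sym σ q → K, ∀ x, form g x = eval x f := by
  refine ⟨fun J => coeff (Multiset.toFinsupp (J : Multiset σ)) f, fun x => ?_⟩
  rw [← ev_hom q x f hf, ev, Pool.Agent.Helper49.LN.cP_apply, form]
  exact Finset.sum_congr rfl fun J _ => by rw [smul_eq_mul]

theorem tanLine_rr (x y : σ → K) (j b : σ) : dt (rr x j b) y = x j * y b - x b * y j := by
  unfold dt rr
  have h1 : ∀ i, (x j * (if i = b then 1 else 0) - x b * (if i = j then 1 else 0)) * y i =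
      (if i = b then x j * y b else 0) - (if i = j then x b * y j else 0) := by
    intro i
    rw [sub_mul]
    congr 1
    · split_ifs with h
      · rw [mul_one, h]
      · rw [mul_zero, zero_mul]
    · split_ifs with h
      · rw [mul_one, h]
      · rw [mul_zero, zero_mul]
  rw [Finset.sum_congr rfl fun i _ => h1 i, Finset.sum_sub_distrib, Finset.sum_ite_eq',
    Finset.sum_ite_eq', if_pos (Finset.mem_univ _), if_pos (Finset.mem_univ _)]

omit [DecidableEq σ] in
/-- the chain rule -/
theorem tanLine_chain (f : MvPolynomial σ K) (g : σ → Polynomial K) :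
    Polynomial.derivative (aeval g f) =
      ∑ l, aeval g (pderiv l f) * Polynomial.derivative (g l) := by
  classical
  induction f using MvPolynomial.induction_on with
  | C c =>
    rw [algHom_C, Polynomial.algebraMap_apply, Polynomial.derivative_C]
    symm
    refine Finset.sum_eq_zero fun l _ => ?_
    rw [pderiv_C, map_zero, zero_mul]
  | add f f' h h' =>
    rw [map_add, Polynomial.derivative_add, h, h', ← Finset.sum_add_distrib]
    refine Finset.sum_congr rfl fun l _ => ?_
    rw [map_add, map_add, add_mul]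
  | mul_X f i h =>
    rw [map_mul, aeval_X, Polynomial.derivative_mul, h, Finset.sum_mul]
    have h1 : ∀ l, aeval g (pderiv l (f * X i)) * Polynomial.derivative (g l) =
        aeval g (pderiv l f) * Polynomial.derivative (g l) * g i +
          (if l = i then aeval g f * Polynomial.derivative (g l) else 0) := by
      intro l
      rw [Derivation.leibniz, smul_eq_mul, smul_eq_mul, map_add, map_mul, map_mul, aeval_X,
        pderiv_X, Pi.single_apply]
      by_cases hl : l = i
      · subst hl
        rw [if_pos rfl, if_pos rfl, map_one]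
        ring
      · rw [if_neg hl, if_neg (Ne.symm hl), map_zero]
        ring
    rw [Finset.sum_congr rfl fun l _ => h1 l, Finset.sum_add_distrib,
      Finset.sum_ite_eq' Finset.univ i, if_pos (Finset.mem_univ i)]

omit [Fintype σ] [DecidableEq σ] in
theorem tanLine_ev (f : MvPolynomial σ K) (g : σ → Polynomial K) (s : K) :
    Polynomial.eval s (aeval g f) = eval (fun l => Polynomial.eval s (g l)) f := by
  induction f using MvPolynomial.induction_on with
  | C c => rw [algHom_C, Polynomial.algebraMap_apply, Polynomial.eval_C, eval_C]; rfl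
  | add f f' h h' => rw [map_add, Polynomial.eval_add, h, h', map_add]
  | mul_X f i h => rw [map_mul, aeval_X, Polynomial.eval_mul, h, map_mul, eval_X]

/-- the derivative of `s ↦ F (s p + y)` at `1` -/
theorem tanLine_pder [CharZero K] (a : Sym σ q → K) (p y : σ → K) (c : K) (α : ℕ)
    (hF : ∀ s : K, form a (fun l => s * p l + y l) = c * s ^ α) :
    ∑ l, gr a (fun l => p l + y l) l * p l = α * c := by
  have h1 : (aeval (fun l => Polynomial.C (p l) * Polynomial.X + Polynomial.C (y l)) (Fp a) :
      Polynomial K) = Polynomial.C c * Polynomial.X ^ α := by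
    refine Polynomial.funext fun s => ?_
    rw [tanLine_ev, Polynomial.eval_mul, Polynomial.eval_C, Polynomial.eval_pow,
      Polynomial.eval_X, ← hF s, ← eval_fp]
    have h2 : (fun l => Polynomial.eval s
        (Polynomial.C (p l) * Polynomial.X + Polynomial.C (y l))) =
        fun l => s * p l + y l := by
      funext l
      rw [Polynomial.eval_add, Polynomial.eval_mul, Polynomial.eval_C, Polynomial.eval_X,
        Polynomial.eval_C, mul_comm]
    rw [h2]
  have h3 := congrArg (fun P => Polynomial.eval 1 (Polynomial.derivative P)) h1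
  beta_reduce at h3
  rw [tanLine_chain, Polynomial.eval_finsetSum, Polynomial.derivative_C_mul,
    Polynomial.derivative_X_pow, Polynomial.eval_mul, Polynomial.eval_C, Polynomial.eval_mul,
    Polynomial.eval_C, Polynomial.eval_pow, Polynomial.eval_X, one_pow, mul_one] at h3
  rw [mul_comm (α : K) c, ← h3]
  refine Finset.sum_congr rfl fun l _ => ?_
  rw [Polynomial.eval_mul, tanLine_ev]
  have h2 : (fun l => Polynomial.eval 1
      (Polynomial.C (p l) * Polynomial.X + Polynomial.C (y l))) = fun l => p l + y l := by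
    funext l
    rw [Polynomial.eval_add, Polynomial.eval_mul, Polynomial.eval_C, Polynomial.eval_X,
      Polynomial.eval_C, mul_one]
  have h4 : Polynomial.eval 1 (Polynomial.derivative
      (Polynomial.C (p l) * Polynomial.X + Polynomial.C (y l))) = p l := by
    rw [Polynomial.derivative_add, Polynomial.derivative_C_mul, Polynomial.derivative_X,
      Polynomial.derivative_C, Polynomial.eval_add, Polynomial.eval_mul, Polynomial.eval_C,
      Polynomial.eval_one, Polynomial.eval_zero, mul_one, add_zero]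
  rw [h2, h4]
  rfl

end general

section

variable {K : Type*} [Field K]

/-- the linear map `Φ` -/
noncomputable def tanLine_Phi (g : Fin 5 → Fin 3 → K) (c : Fin 5 → K) :
    ((Fin 3 → K) × (Fin 3 → K) × K) →ₗ[K] (Fin 5 → K) where
  toFun v j := (∑ l, g j l * (v.1 l + (((j : ℕ) : K)) * v.2.1 l)) - v.2.2 * c j
  map_add' v w := by
    funext j
    simp only [Prod.fst_add, Prod.snd_add, Pi.add_apply, Fin.sum_univ_three]
    ring
  map_smul' t v := by
    funext j
    simp only [Prod.smul_fst, Prod.smul_snd, Pi.smul_apply, smul_eq_mul, RingHom.id_apply,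
      Fin.sum_univ_three]
    ring

/-- two independent elements of the kernel span it -/
theorem tanLine_ker (Φ : ((Fin 3 → K) × (Fin 3 → K) × K) →ₗ[K] (Fin 5 → K))
    (hΦ : ∀ j, ∃ v, ∃ c : K, c ≠ 0 ∧ Φ v = Pi.single j c)
    (p r : Fin 3 → K) (y y' : K) (hp : p ≠ 0) (hr : r ≠ 0)
    (h1 : Φ (p, r, y) = 0) (h2 : Φ (p, 0, y') = 0) (v : (Fin 3 → K) × (Fin 3 → K) × K)
    (hv : Φ v = 0) : ∃ c c' : K, (∀ l, v.1 l = c * p l) ∧ ∀ l, v.2.1 l = c' * r l := by
  have hsurj : LinearMap.range Φ = ⊤ := by
    rw [LinearMap.range_eq_top]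
    intro w
    choose u c hc hu using hΦ
    refine ⟨∑ j, (w j * (c j)⁻¹) • u j, ?_⟩
    rw [map_sum]
    funext i
    rw [Finset.sum_apply, Finset.sum_eq_single i]
    · rw [map_smul, hu, Pi.smul_apply, Pi.single_eq_same, smul_eq_mul, mul_assoc,
        inv_mul_cancel₀ (hc i), mul_one]
    · intro j _ hj
      rw [map_smul, hu, Pi.smul_apply, Pi.single_eq_of_ne (Ne.symm hj), smul_zero]
    · intro h
      exact absurd (Finset.mem_univ _) h
  have hdim := LinearMap.finrank_range_add_finrank_ker Φ
  rw [hsurj, finrank_top, Module.finrank_prod, Module.finrank_prod, Module.finrank_pi,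
    Module.finrank_pi, Module.finrank_self, Fintype.card_fin, Fintype.card_fin] at hdim
  have hdim2 : Module.finrank K (LinearMap.ker Φ) = 2 := by omega
  have hli : LinearIndependent K ![((p, r, y) : (Fin 3 → K) × (Fin 3 → K) × K), (p, 0, y')] := by
    rw [LinearIndependent.pair_iff]
    intro s t hst
    have h3 : s • r + t • (0 : Fin 3 → K) = 0 := congrArg (fun u => u.2.1) hst
    have h4 : s • p + t • p = 0 := congrArg (fun u => u.1) hst
    rw [smul_zero, add_zero] at h3
    have h5 : s = 0 := (smul_eq_zero.1 h3).resolve_right hr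
    rw [h5, zero_smul, zero_add] at h4
    exact ⟨h5, (smul_eq_zero.1 h4).resolve_right hp⟩
  have hspan := finrank_span_eq_card hli
  rw [Fintype.card_fin] at hspan
  have hle : Submodule.span K (Set.range
      ![((p, r, y) : (Fin 3 → K) × (Fin 3 → K) × K), (p, 0, y')]) ≤ LinearMap.ker Φ := by
    rw [Submodule.span_le]
    rintro _ ⟨i, rfl⟩
    fin_cases i
    · exact h1
    · exact h2
  have heq := Submodule.eq_of_le_of_finrank_le hle (by rw [hdim2, hspan])
  have hmem : v ∈ Submodule.span K (Set.range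
      ![((p, r, y) : (Fin 3 → K) × (Fin 3 → K) × K), (p, 0, y')]) := by
    rw [heq]
    exact hv
  obtain ⟨c, hc⟩ := (Submodule.mem_span_range_iff_exists_fun K).1 hmem
  rw [Fin.sum_univ_two] at hc
  have h3 : c 0 • p + c 1 • p = v.1 := congrArg (fun u => u.1) hc
  have h4 : c 0 • r + c 1 • (0 : Fin 3 → K) = v.2.1 := congrArg (fun u => u.2.1) hc
  refine ⟨c 0 + c 1, c 0, fun l => ?_, fun l => ?_⟩
  · rw [← h3]
    simp only [Pi.add_apply, Pi.smul_apply, smul_eq_mul]
    ring
  · rw [← h4]
    simp only [Pi.add_apply, Pi.smul_apply, smul_eq_mul, Pi.zero_apply]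
    ring

/-- a form of degree four which vanishes at four of the five points -/
theorem tanLine_sep [CharZero K] {q : ℕ} (hq : q = 4) (p r : Fin 3 → K) (b b' : Fin 3)
    (hpr : p b * r b' - p b' * r b ≠ 0) (j : Fin 5) :
    ∃ g : Sym (Fin 3) q → K, (∀ i : Fin 5, i ≠ j →
      form g (fun l => p l + ((i : ℕ) : K) * r l) = 0) ∧
      form g (fun l => p l + ((j : ℕ) : K) * r l) ≠ 0 := by
  have hhom : (∏ i ∈ (Finset.univ : Finset (Fin 5)).erase j,
      lf (rr p b b' - ((i : ℕ) : K) • rr r b' b)).IsHomogeneous q := by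
    have h1 : (∏ i ∈ (Finset.univ : Finset (Fin 5)).erase j,
        lf (rr p b b' - ((i : ℕ) : K) • rr r b' b)).IsHomogeneous
          (∑ _i ∈ (Finset.univ : Finset (Fin 5)).erase j, 1) :=
      IsHomogeneous.prod _ _ _ fun i _ => lf_hom _
    have h2 : (∑ _i ∈ (Finset.univ : Finset (Fin 5)).erase j, 1) = q := by
      rw [Finset.sum_const, Finset.card_erase_of_mem (Finset.mem_univ j), Finset.card_univ,
        Fintype.card_fin, hq]
      rfl
    rwa [h2] at h1
  have hev : ∀ k i : ℕ, eval (fun l => p l + (k : K) * r l)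
      (lf (rr p b b' - (i : K) • rr r b' b)) = ((k : K) - i) * (p b * r b' - p b' * r b) := by
    intro k i
    rw [eval_lf, Pool.Agent.Helper74.Q8.dt_comm', sub_eq_add_neg,
      Pool.Agent.Helper74.Q8.dt_add', ← neg_smul, Pool.Agent.Helper74.Q8.dt_smul',
      Pool.Agent.Helper74.Q8.dt_comm', tanLine_rr, Pool.Agent.Helper74.Q8.dt_comm', tanLine_rr]
    ring
  obtain ⟨g, hg⟩ := tanLine_form _ hhom
  refine ⟨g, fun i hi => ?_, ?_⟩
  · rw [hg, map_prod]
    refine Finset.prod_eq_zero (i := i) (Finset.mem_erase.2 ⟨hi, Finset.mem_univ _⟩) ?_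
    rw [hev, sub_self, zero_mul]
  · rw [hg, map_prod]
    refine Finset.prod_ne_zero_iff.2 fun i hi => ?_
    rw [hev]
    refine mul_ne_zero (sub_ne_zero.2 fun h => ?_) hpr
    exact (Finset.mem_erase.1 hi).1 (Fin.ext (Nat.cast_injective h).symm)

end

theorem tan_line {K : Type*} [Field K] [CharZero K] {q : ℕ} (hq : q = 4)
    (a : Sym (Fin 3) q → K) (D : Sym (Fin 3) q → Derivation ℤ K K)
    (hD : ∀ I J, D J (a I) = if I = J then 1 else 0) (p r : Fin 3 → K) (b b' : Fin 3)
    (hpr : p b * r b' - p b' * r b ≠ 0) (lam : K) (α β : ℕ) (hαβ : α + β = q)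
    (hF : ∀ s t : K, form a (fun l => s * p l + t * r l) = lam * s ^ α * t ^ β)
    (δ : Derivation ℤ K K) (hδ : ∀ J, δ (a J) = 0) :
    ∃ c c' : K, (∀ l, δ (p l) = c * p l) ∧ ∀ l, δ (r l) = c' * r l := by
  have hp : p ≠ 0 := by
    rintro rfl
    exact hpr (by simp)
  have hr : r ≠ 0 := by
    rintro rfl
    exact hpr (by simp)
  obtain ⟨x, hx⟩ : ∃ x : Fin 5 → Fin 3 → K, ∀ j, x j = fun l => p l + ((j : ℕ) : K) * r l :=
    ⟨_, fun _ => rfl⟩
  have hFx : ∀ j, form a (x j) = lam * ((j : ℕ) : K) ^ β := by
    intro j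
    have h1 := hF 1 ((j : ℕ) : K)
    rw [one_pow, mul_one] at h1
    rw [← h1, hx]
    congr 1
    funext l
    rw [one_mul]
  -- any derivation
  have hder : ∀ d : Derivation ℤ K K, tanLine_Phi (fun j => gr a (x j))
      (fun j => ((j : ℕ) : K) ^ β) (fun l => d (p l), fun l => d (r l), d lam) =
        fun j => - ∑ J : Sym (Fin 3) q, d (a J) * mon (x j) J := by
    intro d
    funext j
    have h1 := tanLine_der a (x j) d
    rw [hFx, Derivation.leibniz, smul_eq_mul, smul_eq_mul, ← Nat.cast_pow,
      Derivation.map_natCast, mul_zero, zero_add] at h1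
    have h2 : ∑ l, gr a (x j) l * d (x j l) =
        ∑ l, gr a (x j) l * (d (p l) + ((j : ℕ) : K) * d (r l)) := by
      refine Finset.sum_congr rfl fun l _ => ?_
      rw [hx, map_add, Derivation.leibniz, Derivation.map_natCast, smul_zero, add_zero,
        smul_eq_mul]
    rw [h2, Nat.cast_pow] at h1
    show (∑ l, gr a (x j) l * (d (p l) + ((j : ℕ) : K) * d (r l))) -
      d lam * ((j : ℕ) : K) ^ β = _
    linear_combination -h1
  have hk1 : tanLine_Phi (fun j => gr a (x j)) (fun j => ((j : ℕ) : K) ^ β)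
      (p, r, (q : K) * lam) = 0 := by
    funext j
    show (∑ l, gr a (x j) l * (p l + ((j : ℕ) : K) * r l)) -
      (q : K) * lam * ((j : ℕ) : K) ^ β = 0
    have h1 : (∑ l, gr a (x j) l * (p l + ((j : ℕ) : K) * r l)) = dt (gr a (x j)) (x j) := by
      rw [dt]
      refine Finset.sum_congr rfl fun l _ => ?_
      rw [hx]
    rw [h1, gr_x, hFx]
    ring
  have hk2 : tanLine_Phi (fun j => gr a (x j)) (fun j => ((j : ℕ) : K) ^ β)
      (p, 0, (α : K) * lam) = 0 := by
    funext j
    show (∑ l, gr a (x j) l * (p l + ((j : ℕ) : K) * (0 : Fin 3 → K) l)) -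
      (α : K) * lam * ((j : ℕ) : K) ^ β = 0
    have h1 := tanLine_pder a p (fun l => ((j : ℕ) : K) * r l) (lam * ((j : ℕ) : K) ^ β) α
      (fun s => by rw [hF]; ring)
    have h2 : (∑ l, gr a (x j) l * (p l + ((j : ℕ) : K) * (0 : Fin 3 → K) l)) =
        ∑ l, gr a (fun l => p l + ((j : ℕ) : K) * r l) l * p l := by
      refine Finset.sum_congr rfl fun l _ => ?_
      rw [hx, Pi.zero_apply, mul_zero, add_zero]
    rw [h2, h1]
    ring
  have hk3 : tanLine_Phi (fun j => gr a (x j)) (fun j => ((j : ℕ) : K) ^ β)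
      (fun l => δ (p l), fun l => δ (r l), δ lam) = 0 := by
    rw [hder]
    funext j
    rw [Finset.sum_eq_zero fun J _ => by rw [hδ, zero_mul], neg_zero]
    rfl
  have hon : ∀ j, ∃ v, ∃ c : K, c ≠ 0 ∧ tanLine_Phi (fun j => gr a (x j))
      (fun j => ((j : ℕ) : K) ^ β) v = Pi.single j c := by
    intro j
    obtain ⟨g, hg, hgj⟩ := tanLine_sep hq p r b b' hpr j
    refine ⟨(fun l => tanLine_D D g (p l), fun l => tanLine_D D g (r l), tanLine_D D g lam),
      - form g (x j), ?_, ?_⟩
    · rw [hx]
      exact neg_ne_zero.2 hgj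
    · rw [hder]
      funext i
      have h3 : (∑ J : Sym (Fin 3) q, tanLine_D D g (a J) * mon (x i) J) = form g (x i) := by
        rw [form]
        exact Finset.sum_congr rfl fun J _ => by rw [tanLine_Da a D hD]
      rw [h3]
      by_cases hi : i = j
      · rw [hi, Pi.single_eq_same]
      · rw [Pi.single_eq_of_ne hi, hx, hg i hi, neg_zero]
  exact tanLine_ker _ hon p r _ _ hp hr hk1 hk2 _ hk3

end Pool.Agent.Helper74.PQ
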