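import Pool.Agent.Helper10.LB.DerExt

/-!
# PQ-ALGCLL: the algebraic closure of `B` in a finite extension

`acl B K` is the field of the elements of `K` algebraic over `B`. `acl_der`: for `z` algebraic over
`B`, `P` its minimal polynomial over `B`: `0 = D' (P(z)) = (P^D)(z) + P'(z) D' z`, `P'(z) ≠ 0`
(characteristic zero), `P^D` has coefficients in `B`. `acl_const`: `const_alg`
(`Helper10/LB/DerExt.lean`): `c` is a zero of a monic polynomial over `Ω` all of whose coefficients
are killed by the `D_J`, so lie in `B`. `acl_base`: an element of `Ω` algebraic over `B` in `K` is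
algebraic over `B` in `Ω` (`isAlgebraic_algebraMap_iff`).
-/

set_option autoImplicit false

namespace Pool.Agent.Helper74.PQ

variable {Ω K : Type*} [Field Ω] [CharZero Ω] [Field K] [Algebra Ω K]

/-- the elements of `K` algebraic over `B` -/
noncomputable def acl (B : Subfield Ω) (K : Type*) [Field K] [Algebra Ω K] : Subfield K :=
  (algebraicClosure B K).toSubfield

omit [CharZero Ω] in
theorem mem_acl (B : Subfield Ω) (z : K) : z ∈ acl B K ↔ IsAlgebraic B z := by
  exact mem_algebraicClosure_iff

theorem acl_of_acl (B : Subfield Ω) (z : K) (hz : IsAlgebraic (acl B K) z) :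
    IsAlgebraic B z := by
  have h1 : IsAlgebraic (algebraicClosure B K) z := hz
  exact h1.restrictScalars B

omit [CharZero Ω] in
theorem algClL_aeval (B : Subfield Ω) (z : K) (hz : z ∈ acl B K) (Q : Polynomial B) :
    Polynomial.aeval z Q ∈ acl B K := by
  have hz' : z ∈ algebraicClosure B K := hz
  have h : Polynomial.aeval z Q ∈ algebraicClosure B K := by
    rw [Polynomial.aeval_eq_sum_range]
    exact sum_mem fun i _ => (algebraicClosure B K).smul_mem (pow_mem hz' i)
  exact h

/-- the restriction of a derivation to a stable subfield -/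
noncomputable def algClL_res (B : Subfield Ω) (D : Derivation ℤ Ω Ω) (hD : ∀ b ∈ B, D b ∈ B) :
    Derivation ℤ B B :=
  Derivation.mk' (AddMonoidHom.toIntLinearMap
    { toFun := fun b => ⟨D (b : Ω), hD b b.2⟩
      map_zero' := by ext; simp
      map_add' := fun a b => by ext; simp }) (fun a b => by
        ext
        change D ((a : Ω) * (b : Ω)) = (a : Ω) * D (b : Ω) + (b : Ω) * D (a : Ω)
        rw [D.leibniz, smul_eq_mul, smul_eq_mul])

theorem acl_der (B : Subfield Ω) (D : Derivation ℤ Ω Ω) (hD : ∀ b ∈ B, D b ∈ B)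
    (D' : Derivation ℤ K K) (hD' : ∀ x, D' (algebraMap Ω K x) = algebraMap Ω K (D x))
    (z : K) (hz : z ∈ acl B K) : D' z ∈ acl B K := by
  have hza : IsAlgebraic B z := (mem_acl B z).1 hz
  have hi : IsIntegral B z := hza.isIntegral
  have h := Pool.Agent.Helper10.LB.deriv_aeval (algClL_res B D hD) D'
    (fun x => hD' (x : Ω)) (minpoly B z) z
  rw [minpoly.aeval, map_zero] at h
  have hs : (minpoly B z).Separable := (minpoly.irreducible hi).separable
  have hne : Polynomial.aeval z (Polynomial.derivative (minpoly B z)) ≠ 0 :=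
    hs.aeval_derivative_ne_zero (minpoly.aeval B z)
  have h1 : D' z = -(Polynomial.aeval z
      (Pool.Agent.Helper10.LB.mapD (algClL_res B D hD) (minpoly B z))) /
      Polynomial.aeval z (Polynomial.derivative (minpoly B z)) := by
    rw [eq_div_iff hne]
    linear_combination -h
  rw [h1]
  exact (acl B K).div_mem ((acl B K).neg_mem (algClL_aeval B z hz _)) (algClL_aeval B z hz _)

theorem acl_const [FiniteDimensional Ω K] (B : Subfield Ω) {P : Type*}
    (D : P → Derivation ℤ Ω Ω) (hc : ∀ c : Ω, (∀ p, D p c = 0) → c ∈ B)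
    (D' : P → Derivation ℤ K K)
    (hD' : ∀ p x, D' p (algebraMap Ω K x) = algebraMap Ω K (D p x)) (c : K)
    (h : ∀ p, D' p c = 0) : IsAlgebraic (acl B K) c := by
  obtain ⟨g, hg, hco, hgc⟩ := Pool.Agent.Helper10.LB.const_alg D D' hD' c
    (IsAlgebraic.of_finite Ω c) h
  have hl : g ∈ Polynomial.lifts (algebraMap B Ω) := by
    rw [Polynomial.lifts_iff_coeff_lifts]
    intro n
    exact ⟨⟨g.coeff n, hc _ (fun p => hco n p)⟩, rfl⟩
  obtain ⟨q, hq⟩ := hl
  have hq' : q.map (algebraMap B Ω) = g := hq
  have h1 : IsAlgebraic B c := by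
    refine ⟨q, ?_, ?_⟩
    · intro h0
      rw [h0, Polynomial.map_zero] at hq'
      exact hg.ne_zero hq'.symm
    · rw [← hq', Polynomial.aeval_map_algebraMap] at hgc
      exact hgc
  exact isAlgebraic_algebraMap (⟨c, (mem_acl B c).2 h1⟩ : acl B K)

theorem acl_base (B : Subfield Ω) (x : Ω) (hx : IsAlgebraic B (algebraMap Ω K x)) :
    IsAlgebraic B x := by
  exact (isAlgebraic_algebraMap_iff (algebraMap Ω K).injective).1 hx

end Pool.Agent.Helper74.PQ
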