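import Pool.Agent.Helper74.PQ.RatPL
import Pool.Agent.Helper74.Q8.AnnPt6

/-!
# PQ-ANNL: the annihilator of a rational functional

`N = {l : v (C l) = 0 for all C}` is a rational subspace of `Ω^3` (`AnnPt6_lam`, `AnnPt6_mem`: apply
`B`-linear functionals `Ω → B` to the coordinates) which contains `l'`, and not everything
(`v ≠ 0` only depends on the part of degree `n + 1`). If its dimension is one, `l'` is proportional
to a rational vector: `Ln B x`. If its dimension is two it has a rational basis `u_0, u_1`, let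
`z ≠ 0` be rational with `u_i . z = 0` (`AnnPt6_zero`): then `AnnPt6_concl` applies, and
`v P = c P(z)`, `c = v (X_j^(n+1)) / z_j^(n+1)` with `z_j ≠ 0` (the form
`P - (P(z) / z_j^(n+1)) X_j^(n+1)` vanishes at `z`).
-/

set_option autoImplicit false

namespace Pool.Agent.Helper74.PQ

open scoped BigOperators
open MvPolynomial
open Pool.Agent.Helper8.LG (Bdd RowBdd form mon)
open Pool.Agent.Helper49.LN (cP mo hf pl)
open Pool.Agent.Helper6.QS
open Pool.Agent.Helper74.Q8 (rr)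

variable {Ω : Type*} [Field Ω] [CharZero Ω] {q : ℕ} {D : Sym (Fin 3) q → Derivation ℤ Ω Ω}
  {a : Sym (Fin 3) q → Ω} {B : Subfield Ω} {x : Fin 3 → Ω}

theorem ann_l (n : ℕ) (v : MvPolynomial (Fin 3) Ω →ₗ[Ω] Ω) (hv0 : v ≠ 0)
    (hvB : ∀ P, RatP B P → v P ∈ B) (hvn : ∀ P, v P = v (homogeneousComponent (n + 1) P))
    (l' : Fin 3 → Ω) (hl0 : l' ≠ 0) (hlx : dt l' x = 0) (hvl : ∀ C, v (C * lf l') = 0) :
    Ln B x ∨ ∃ (z : Fin 3 → Ω) (c : Ω), (∀ i, z i ∈ B) ∧ z ≠ 0 ∧ dt l' z = 0 ∧ c ≠ 0 ∧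
      ∀ P, v P = c * eval z (homogeneousComponent (n + 1) P) := by
  classical
  have hA1 : l' ∈ Pool.Agent.Helper74.Q8.AnnPt6_A v := hvl
  -- a first vector
  obtain ⟨lam, hm⟩ : ∃ lam : Ω →ₗ[B] B,
      (fun i => ((lam (l' i) : B) : Ω)) ∉ (⊥ : Submodule Ω (Fin 3 → Ω)) := by
    by_contra hcon
    push Not at hcon
    exact hl0 ((Submodule.mem_bot Ω).1 (Pool.Agent.Helper74.Q8.AnnPt6_mem _ l' hcon))
  obtain ⟨m, hmdef⟩ : ∃ m : Fin 3 → Ω, m = fun i => ((lam (l' i) : B) : Ω) := ⟨_, rfl⟩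
  rw [← hmdef, Submodule.mem_bot] at hm
  have hmB : ∀ i, m i ∈ B := fun i => by rw [hmdef]; exact (lam (l' i)).2
  have hmA : m ∈ Pool.Agent.Helper74.Q8.AnnPt6_A v := by
    rw [hmdef]
    exact Pool.Agent.Helper74.Q8.AnnPt6_lam v hvB l' hA1 lam
  by_cases hsp : l' ∈ Submodule.span Ω (Set.range ![m])
  · left
    rw [Matrix.range_cons, Matrix.range_empty, Set.union_empty,
      Submodule.mem_span_singleton] at hsp
    obtain ⟨c, hc⟩ := hsp
    have hc0 : c ≠ 0 := by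
      rintro rfl
      rw [zero_smul] at hc
      exact hl0 hc.symm
    refine ⟨m, hm, hmB, ?_⟩
    rw [← hc, Pool.Agent.Helper74.Q8.AnnPt6_dt_smul_left] at hlx
    exact (mul_eq_zero.1 hlx).resolve_left hc0
  right
  -- a second vector
  obtain ⟨lam', hm'⟩ : ∃ lam' : Ω →ₗ[B] B,
      (fun i => ((lam' (l' i) : B) : Ω)) ∉ Submodule.span Ω (Set.range ![m]) := by
    by_contra hcon
    push Not at hcon
    exact hsp (Pool.Agent.Helper74.Q8.AnnPt6_mem _ l' hcon)
  obtain ⟨m', hm'def⟩ : ∃ m' : Fin 3 → Ω, m' = fun i => ((lam' (l' i) : B) : Ω) := ⟨_, rfl⟩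
  rw [← hm'def] at hm'
  have hm'B : ∀ i, m' i ∈ B := fun i => by rw [hm'def]; exact (lam' (l' i)).2
  have hm'A : m' ∈ Pool.Agent.Helper74.Q8.AnnPt6_A v := by
    rw [hm'def]
    exact Pool.Agent.Helper74.Q8.AnnPt6_lam v hvB l' hA1 lam'
  have hli : LinearIndependent Ω (Matrix.vecCons m' ![m]) := by
    refine linearIndependent_finCons.2 ⟨?_, hm'⟩
    rw [linearIndependent_unique_iff]
    exact hm
  have hB2 : ∀ i j, (Matrix.vecCons m' ![m]) i j ∈ B := by
    intro i j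
    fin_cases i
    · exact hm'B j
    · exact hmB j
  have hA2 : ∀ i, (Matrix.vecCons m' ![m]) i ∈ Pool.Agent.Helper74.Q8.AnnPt6_A v := by
    intro i
    fin_cases i
    · exact hm'A
    · exact hmA
  obtain ⟨z, hzB, hz0, hz⟩ := Pool.Agent.Helper74.Q8.AnnPt6_zero (Matrix.vecCons m' ![m]) hB2
    (by rw [Fintype.card_fin, Fintype.card_fin]; norm_num)
  obtain ⟨h1, h2⟩ := Pool.Agent.Helper74.Q8.AnnPt6_concl v hv0 (d := n) hvn
    (Matrix.vecCons m' ![m]) hli (by rw [Fintype.card_fin, Fintype.card_fin]) hA2 z hz0 hz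
  obtain ⟨j, hj⟩ : ∃ j, z j ≠ 0 := by
    by_contra hcon
    push Not at hcon
    exact hz0 (funext hcon)
  have hj' : z j ^ (n + 1) ≠ 0 := pow_ne_zero _ hj
  have hX : homogeneousComponent (n + 1) ((X j : MvPolynomial (Fin 3) Ω) ^ (n + 1)) =
      X j ^ (n + 1) := by
    have h3 : ((X j : MvPolynomial (Fin 3) Ω) ^ (n + 1)).IsHomogeneous (n + 1) := by
      have := (isHomogeneous_X Ω j).pow (n + 1)
      rwa [one_mul] at this
    rw [homogeneousComponent_of_mem h3, if_pos rfl]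
  have hall : ∀ P, v P = v (X j ^ (n + 1)) / z j ^ (n + 1) *
      eval z (homogeneousComponent (n + 1) P) := by
    intro P
    have h3 := h2 (P - (eval z (homogeneousComponent (n + 1) P) / z j ^ (n + 1)) •
      X j ^ (n + 1)) (by
        rw [map_sub, map_smul, hX, map_sub, smul_eval, map_pow, eval_X, div_mul_cancel₀ _ hj',
          sub_self])
    rw [map_sub, map_smul, smul_eq_mul, sub_eq_zero] at h3
    rw [h3]
    ring
  refine ⟨z, v (X j ^ (n + 1)) / z j ^ (n + 1), hzB, hz0, h1 _ hA1, ?_, hall⟩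
  intro h0
  apply hv0
  refine LinearMap.ext fun P => ?_
  rw [hall P, h0, zero_mul, LinearMap.zero_apply]

end Pool.Agent.Helper74.PQ
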