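import Pool.Agent.Helper74.PQ.RatPL
import Pool.Agent.Helper10.LB.PolyD

/-!
# PQ-CONDEFS: conics, definitions

`qf S y = y^T S y`; `hs Q` is the Hessian matrix of a quadratic form `Q` (so `qf (hs Q) y = 2 Q(y)`).
`cq a A` is the polynomial `F(A (1, X, X^2))`: the form `F` on the conic parametrised by
`A (s^2, s t, t^2)`. `Std S A A' c`: the coordinates `A` bring `S` into the form
`c (y_0 y_2 - y_1^2)`.
-/

set_option autoImplicit false

namespace Pool.Agent.Helper74.PQ

open scoped BigOperators Matrix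
open MvPolynomial
open Pool.Agent.Helper8.LG (form mon)

variable {K : Type*} [Field K]

/-- `y^T S y` -/
def qf (S : Matrix (Fin 3) (Fin 3) K) (y : Fin 3 → K) : K := y ⬝ᵥ (S *ᵥ y)

/-- the Hessian matrix of a quadratic form -/
noncomputable def hs (Q : MvPolynomial (Fin 3) K) : Matrix (Fin 3) (Fin 3) K :=
  Matrix.of fun i j => coeff 0 (pderiv i (pderiv j Q))

/-- `F(A (1, X, X^2))` -/
noncomputable def cq {q : ℕ} (a : Sym (Fin 3) q → K) (A : Matrix (Fin 3) (Fin 3) K) :
    Polynomial K :=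
  form (fun J => Polynomial.C (a J)) fun l => Polynomial.C (A l 0) +
    Polynomial.X * Polynomial.C (A l 1) + Polynomial.X ^ 2 * Polynomial.C (A l 2)

/-- standard coordinates for a conic -/
structure Std (S A A' : Matrix (Fin 3) (Fin 3) K) (c : K) : Prop where
  c0 : c ≠ 0
  mul : A * A' = 1
  mul' : A' * A = 1
  std : ∀ y, qf S (A *ᵥ y) = c * (y 0 * y 2 - y 1 ^ 2)

end Pool.Agent.Helper74.PQ
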