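import Pool.Agent.Helper74.PQ.HsL

/-!
# PQ-CONFLOW: the flow on the standard conic

`s = y_1 / y_0`, `y_2 / y_0 = s^2`, `y = y_0 (1, s, s^2)`. `D s = - (M_10 + M_11 s + M_12 s^2) +
s (M_00 + M_01 s + M_02 s^2)` and `D (s^2) = - (M_20 + M_21 s + M_22 s^2) + s^2 (M_00 + M_01 s +
M_02 s^2) = 2 s D s`: a polynomial identity in `s` (`s` is transcendental over `F`), the coefficient of
`s^4` gives `M_02 = 0`. `g = - M_10 + (M_00 - M_11) X + (M_01 - M_12) X^2`.
`con_dvd`: `G = cq a A`, `G(s) = F(A y) / y_0^q` (`cq_eval`, `form_scale`), and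
`D (F(A y)) = q r F(A y)`, `D y_0 = y_0 (r - (M_00 + M_01 s))`, so
`D (G(s)) = q (M_00 + M_01 s) G(s)`. By `deriv_eval` (`Helper10/LB/PolyD.lean`):
`(mapD D G + G' g - C q (C M_00 + C M_01 X) G)(s) = 0`, all coefficients are in `F`, so the
polynomial is zero.
-/

set_option autoImplicit false

namespace Pool.Agent.Helper74.PQ

open scoped BigOperators Matrix
open MvPolynomial
open Pool.Agent.Helper8.LG (form mon)

variable {K : Type*} [Field K] [CharZero K]

omit [CharZero K] in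
/-- a polynomial with coefficients in `F` which vanishes at a transcendental element is zero -/
theorem conFlow_zero (F : Subfield K) (s : K) (hs : Transcendental F s) (P : Polynomial K)
    (hP : P ∈ Polynomial.lifts F.subtype) (h0 : P.eval s = 0) : P = 0 := by
  obtain ⟨P', hP'⟩ := (Polynomial.mem_lifts P).1 hP
  have h1 : Polynomial.aeval s P' = 0 := by
    rw [Polynomial.aeval_def, Polynomial.eval₂_eq_eval_map]
    have : (algebraMap F K) = F.subtype := rfl
    rw [this, hP', h0]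
  have h2 := (transcendental_iff.1 hs) P' h1
  rw [← hP', h2, Polynomial.map_zero]

omit [CharZero K] in
theorem conFlow_C (F : Subfield K) (z : K) (hz : z ∈ F) :
    Polynomial.C z ∈ Polynomial.lifts F.subtype :=
  (Polynomial.lifts_iff_coeff_lifts _).2 fun n => by
    rw [Polynomial.coeff_C]
    split_ifs
    · exact ⟨⟨z, hz⟩, rfl⟩
    · exact ⟨0, rfl⟩

omit [CharZero K] in
theorem conFlow_X (F : Subfield K) : (Polynomial.X : Polynomial K) ∈ Polynomial.lifts F.subtype :=
  Polynomial.X_mem_lifts _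

omit [CharZero K] in
/-- the coordinates in terms of `s` -/
theorem conFlow_y (y : Fin 3 → K) (hy : y 0 * y 2 = y 1 ^ 2) (hy0 : y 0 ≠ 0) :
    y 1 = y 0 * (y 1 / y 0) ∧ y 2 = y 0 * (y 1 / y 0) ^ 2 := by
  constructor
  · field_simp
  · field_simp
    linear_combination hy

theorem con_flow (F : Subfield K) (D : Derivation ℤ K K) (y : Fin 3 → K)
    (hy : y 0 * y 2 = y 1 ^ 2) (hy0 : y 0 ≠ 0) (M : Matrix (Fin 3) (Fin 3) K)
    (hM : ∀ i j, M i j ∈ F) (r : K) (hD : ∀ i, D (y i) = - (M *ᵥ y) i + r * y i)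
    (hs : Transcendental F (y 1 / y 0)) :
    M 0 2 = 0 ∧ D (y 0) = y 0 * (r - (M 0 0 + M 0 1 * (y 1 / y 0))) ∧
      D (y 1 / y 0) = (Polynomial.C (- M 1 0) + Polynomial.C (M 0 0 - M 1 1) * Polynomial.X +
        Polynomial.C (M 0 1 - M 1 2) * Polynomial.X ^ 2).eval (y 1 / y 0) := by
  obtain ⟨h1, h2⟩ := conFlow_y y hy hy0
  set s : K := y 1 / y 0 with hsdef
  have hmul : ∀ i, (M *ᵥ y) i = y 0 * (M i 0 + M i 1 * s + M i 2 * s ^ 2) := by
    intro i
    rw [Matrix.mulVec, dotProduct, Fin.sum_univ_three, h1, h2]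
    ring
  have d0 : D (y 0) = y 0 * (r - (M 0 0 + M 0 1 * s + M 0 2 * s ^ 2)) := by
    rw [hD 0, hmul 0]
    ring
  have d1 : D (y 1) = y 0 * D s + s * D (y 0) := by
    have := congrArg D h1
    rw [D.leibniz, smul_eq_mul, smul_eq_mul] at this
    exact this
  have d2 : D (y 2) = y 0 * (2 * s * D s) + s ^ 2 * D (y 0) := by
    have := congrArg D h2
    rw [D.leibniz, D.leibniz_pow, smul_eq_mul, smul_eq_mul, smul_eq_mul, nsmul_eq_mul] at this
    rw [this]
    push_cast
    ring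
  have ds : D s = - (M 1 0 + M 1 1 * s + M 1 2 * s ^ 2) + s * (M 0 0 + M 0 1 * s + M 0 2 * s ^ 2) := by
    have e : y 0 * D s = y 0 * (- (M 1 0 + M 1 1 * s + M 1 2 * s ^ 2) +
        s * (M 0 0 + M 0 1 * s + M 0 2 * s ^ 2)) := by
      have := d1
      rw [hD 1, hmul 1, d0, h1] at this
      linear_combination -this
    exact mul_left_cancel₀ hy0 e
  have e4 : M 0 2 * s ^ 4 + (M 0 1 - 2 * M 1 2) * s ^ 3 + (M 0 0 - 2 * M 1 1 + M 2 2) * s ^ 2 +
      (M 2 1 - 2 * M 1 0) * s + M 2 0 = 0 := by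
    have e : y 0 * (M 0 2 * s ^ 4 + (M 0 1 - 2 * M 1 2) * s ^ 3 +
        (M 0 0 - 2 * M 1 1 + M 2 2) * s ^ 2 + (M 2 1 - 2 * M 1 0) * s + M 2 0) = y 0 * 0 := by
      have := d2
      rw [hD 2, hmul 2, d0, h2, ds] at this
      linear_combination -this
    exact mul_left_cancel₀ hy0 e
  have hm : M 0 2 = 0 := by
    have hF : ∀ a b : K, a ∈ F → b ∈ F → a - 2 * b ∈ F := fun a b ha hb =>
      F.sub_mem ha (F.mul_mem (by have := natCast_mem F 2; simpa using this) hb)
    set P : Polynomial K := Polynomial.C (M 0 2) * Polynomial.X ^ 4 +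
      Polynomial.C (M 0 1 - 2 * M 1 2) * Polynomial.X ^ 3 +
      Polynomial.C (M 0 0 - 2 * M 1 1 + M 2 2) * Polynomial.X ^ 2 +
      Polynomial.C (M 2 1 - 2 * M 1 0) * Polynomial.X + Polynomial.C (M 2 0) with hPdef
    have hX := conFlow_X F
    have hP : P ∈ Polynomial.lifts F.subtype := by
      refine add_mem (add_mem (add_mem (add_mem ?_ ?_) ?_) ?_) ?_
      · exact mul_mem (conFlow_C F _ (hM 0 2)) (pow_mem hX 4)
      · exact mul_mem (conFlow_C F _ (hF _ _ (hM 0 1) (hM 1 2))) (pow_mem hX 3)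
      · exact mul_mem (conFlow_C F _ (F.add_mem (hF _ _ (hM 0 0) (hM 1 1)) (hM 2 2)))
          (pow_mem hX 2)
      · exact mul_mem (conFlow_C F _ (hF _ _ (hM 2 1) (hM 1 0))) hX
      · exact conFlow_C F _ (hM 2 0)
    have h0 : P.eval s = 0 := by
      rw [hPdef]
      simp only [Polynomial.eval_add, Polynomial.eval_mul, Polynomial.eval_C,
        Polynomial.eval_pow, Polynomial.eval_X]
      exact e4
    have hz := conFlow_zero F s hs P hP h0
    have hc := congrArg (fun p => Polynomial.coeff p 4) hz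
    simp only [hPdef, Polynomial.coeff_add, Polynomial.coeff_C_mul, Polynomial.coeff_X_pow,
      Polynomial.coeff_X, Polynomial.coeff_C, Polynomial.coeff_zero] at hc
    norm_num at hc
    exact hc
  refine ⟨hm, ?_, ?_⟩
  · rw [d0, hm]
    ring
  · rw [ds, hm]
    simp only [Polynomial.eval_add, Polynomial.eval_mul, Polynomial.eval_C,
      Polynomial.eval_pow, Polynomial.eval_X]
    ring

theorem con_dvd (F : Subfield K) (D : Derivation ℤ K K) (hDF : ∀ z ∈ F, D z ∈ F)
    {q : ℕ} (a : Sym (Fin 3) q → K) (ha : ∀ J, a J ∈ F) (A : Matrix (Fin 3) (Fin 3) K)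
    (hA : ∀ i j, A i j ∈ F) (y : Fin 3 → K)
    (hy : y 0 * y 2 = y 1 ^ 2) (hy0 : y 0 ≠ 0) (M : Matrix (Fin 3) (Fin 3) K)
    (hM : ∀ i j, M i j ∈ F) (r : K) (hD : ∀ i, D (y i) = - (M *ᵥ y) i + r * y i)
    (hs : Transcendental F (y 1 / y 0))
    (hG : D (form a (A *ᵥ y)) = q * r * form a (A *ᵥ y)) :
    cq a A ∣ Pool.Agent.Helper10.LB.mapD D (cq a A) + Polynomial.derivative (cq a A) *
      (Polynomial.C (- M 1 0) + Polynomial.C (M 0 0 - M 1 1) * Polynomial.X +
        Polynomial.C (M 0 1 - M 1 2) * Polynomial.X ^ 2) := by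
  obtain ⟨hm, hd0, hds⟩ := con_flow F D y hy hy0 M hM r hD hs
  obtain ⟨h1, h2⟩ := conFlow_y y hy hy0
  set s : K := y 1 / y 0 with hsdef
  have hyv : y = y 0 • ![1, s, s ^ 2] := by
    funext i
    fin_cases i
    · simp
    · simpa using h1
    · simpa using h2
  have hAy : A *ᵥ y = y 0 • (A *ᵥ ![1, s, s ^ 2]) := by
    conv_lhs => rw [hyv]
    rw [Matrix.mulVec_smul]
  have hform : form a (A *ᵥ y) = y 0 ^ q * (cq a A).eval s := by
    rw [hAy, form_scale, cq_eval]
  have hpow : D (y 0 ^ q) = y 0 ^ q * (q * (r - (M 0 0 + M 0 1 * s))) := by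
    rcases Nat.eq_zero_or_pos q with h | h
    · subst h
      simp
    · rw [D.leibniz_pow, hd0, smul_eq_mul, nsmul_eq_mul]
      have : y 0 ^ q = y 0 ^ (q - 1) * y 0 := by
        rw [← pow_succ]
        congr 1
        omega
      rw [this]
      ring
  have hDG : D ((cq a A).eval s) = (q : K) * (M 0 0 + M 0 1 * s) * (cq a A).eval s := by
    rw [hform, D.leibniz, smul_eq_mul, smul_eq_mul, hpow] at hG
    have hne : y 0 ^ q ≠ 0 := pow_ne_zero _ hy0
    apply mul_left_cancel₀ hne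
    linear_combination hG
  rw [Pool.Agent.Helper10.LB.deriv_eval, hds] at hDG
  set g : Polynomial K := Polynomial.C (- M 1 0) + Polynomial.C (M 0 0 - M 1 1) * Polynomial.X +
        Polynomial.C (M 0 1 - M 1 2) * Polynomial.X ^ 2 with hg
  have hX := conFlow_X F
  have hGl : cq a A ∈ Polynomial.lifts F.subtype :=
    (Polynomial.lifts_iff_coeff_lifts _).2 fun n => ⟨⟨_, cq_coeff_mem F a ha A hA n⟩, rfl⟩
  have hmD : Pool.Agent.Helper10.LB.mapD D (cq a A) ∈ Polynomial.lifts F.subtype :=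
    (Polynomial.lifts_iff_coeff_lifts _).2 fun n => by
      rw [Pool.Agent.Helper10.LB.coeff_mapD]
      exact ⟨⟨_, hDF _ (cq_coeff_mem F a ha A hA n)⟩, rfl⟩
  have hdG : Polynomial.derivative (cq a A) ∈ Polynomial.lifts F.subtype :=
    (Polynomial.lifts_iff_coeff_lifts _).2 fun n => by
      rw [Polynomial.coeff_derivative]
      refine ⟨⟨_, F.mul_mem (cq_coeff_mem F a ha A hA (n + 1))
        (F.add_mem (natCast_mem F n) F.one_mem)⟩, rfl⟩
  have hgl : g ∈ Polynomial.lifts F.subtype := by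
    refine add_mem (add_mem ?_ ?_) ?_
    · exact conFlow_C F _ (F.neg_mem (hM 1 0))
    · exact mul_mem (conFlow_C F _ (F.sub_mem (hM 0 0) (hM 1 1))) hX
    · exact mul_mem (conFlow_C F _ (F.sub_mem (hM 0 1) (hM 1 2))) (pow_mem hX 2)
  set R : Polynomial K := Polynomial.C (- (q : K) * M 0 0) +
    Polynomial.C (- (q : K) * M 0 1) * Polynomial.X with hR
  have hRl : R ∈ Polynomial.lifts F.subtype := by
    have hq : - (q : K) ∈ F := F.neg_mem (natCast_mem F q)
    exact add_mem (conFlow_C F _ (F.mul_mem hq (hM 0 0)))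
      (mul_mem (conFlow_C F _ (F.mul_mem hq (hM 0 1))) hX)
  have hz := conFlow_zero F s hs
    (Pool.Agent.Helper10.LB.mapD D (cq a A) + Polynomial.derivative (cq a A) * g + R * cq a A)
    (add_mem (add_mem hmD (mul_mem hdG hgl)) (mul_mem hRl hGl)) (by
      simp only [Polynomial.eval_add, Polynomial.eval_mul]
      have hRe : R.eval s = - (q : K) * (M 0 0 + M 0 1 * s) := by
        rw [hR]
        simp only [Polynomial.eval_add, Polynomial.eval_mul, Polynomial.eval_C,
          Polynomial.eval_X]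
        ring
      rw [hRe]
      linear_combination hDG)
  refine ⟨- R, ?_⟩
  linear_combination hz

end Pool.Agent.Helper74.PQ
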