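import Pool.Agent.Helper10.LB.PolyD

/-!
# PQ-RADL: the squarefree part of an invariant polynomial is invariant

Let `π` be an irreducible factor of `h`; `g = π^m κ`, `m ≥ 1`, `π` does not divide `κ`. From
`g ∣ D g + g' r`: `D (π^m κ) + (π^m κ)' r = π^(m-1) (m (D π + π' r) κ + π (D κ + κ' r))` is
divisible by `π^m`, so `π ∣ D π + π' r` (characteristic zero). `h` is squarefree (separable) and so
associated to the product of its distinct irreducible factors, and by the product rule
`h ∣ D h + h' r`. (Alternatively by strong induction on the degree, or: it is enough that every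
irreducible `π ∣ h` divides `D h + h' r`: `h = π h_1`.)
-/

set_option autoImplicit false

namespace Pool.Agent.Helper74.PQ

open Polynomial Pool.Agent.Helper10.LB

/-- the operator `p ↦ D p + p' r` -/
private noncomputable def radT {K : Type*} [Field K] (D : Derivation ℤ K K) (r p : K[X]) : K[X] :=
  mapD D p + derivative p * r

private theorem radT_mul {K : Type*} [Field K] (D : Derivation ℤ K K) (r p q : K[X]) :
    radT D r (p * q) = radT D r p * q + p * radT D r q := by
  unfold radT
  rw [mapD_mul, derivative_mul]
  ring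

private theorem radT_zero {K : Type*} [Field K] (D : Derivation ℤ K K) (r : K[X]) :
    radT D r 0 = 0 := by
  have h := radT_mul D r 0 0
  rwa [zero_mul, mul_zero, zero_mul, zero_add] at h

private theorem radT_one {K : Type*} [Field K] (D : Derivation ℤ K K) (r : K[X]) :
    radT D r 1 = 0 := by
  have h := radT_mul D r 1 1
  rw [one_mul, mul_one, one_mul] at h
  simpa using h

private theorem radT_pow {K : Type*} [Field K] (D : Derivation ℤ K K) (r p : K[X]) (m : ℕ) :
    radT D r (p ^ (m + 1)) = (m + 1 : ℕ) * (p ^ m * radT D r p) := by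
  induction m with
  | zero => simp
  | succ m ih =>
    rw [pow_succ p (m + 1), radT_mul, ih]
    push_cast
    ring

/-- an irreducible factor of an invariant polynomial is invariant -/
private theorem radT_irr {K : Type*} [Field K] [CharZero K] (D : Derivation ℤ K K) (g r p : K[X])
    (hg : g ≠ 0) (hp : Irreducible p) (h1 : p ∣ g) (hdvd : g ∣ radT D r g) : p ∣ radT D r p := by
  have hpp : Prime p := hp.prime
  obtain ⟨m, κ, hκ, rfl⟩ := WfDvdMonoid.max_power_factor hg hp
  obtain _ | m := m
  · exact absurd (by simpa using h1) hκ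
  have h2 : p ^ (m + 1) ∣ radT D r (p ^ (m + 1) * κ) := (Dvd.intro _ rfl).trans hdvd
  rw [radT_mul] at h2
  have h3 : p ^ (m + 1) ∣ radT D r (p ^ (m + 1)) * κ :=
    (dvd_add_left (Dvd.intro _ rfl)).1 h2
  rw [radT_pow] at h3
  have h4 : p ^ m * p ∣ p ^ m * (radT D r p * (((m + 1 : ℕ) : K[X]) * κ)) := by
    rw [← pow_succ]
    refine h3.trans (dvd_of_eq ?_)
    ring
  have h5 := (mul_dvd_mul_iff_left (pow_ne_zero m hpp.ne_zero)).1 h4
  rcases hpp.dvd_or_dvd h5 with h6 | h6
  · exact h6
  rcases hpp.dvd_or_dvd h6 with h7 | h7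
  · have hu : IsUnit ((m + 1 : ℕ) : K[X]) := by
      rw [← map_natCast (C : K →+* K[X]), isUnit_C]
      exact isUnit_iff_ne_zero.2 (Nat.cast_ne_zero.2 (Nat.succ_ne_zero m))
    exact absurd (isUnit_of_dvd_unit h7 hu) hp.not_isUnit
  · exact absurd h7 hκ

/-- a product of invariant irreducible polynomials is invariant -/
private theorem radT_prod {K : Type*} [Field K] (D : Derivation ℤ K K) (r h : K[X])
    (hh : ∀ p : K[X], Irreducible p → p ∣ h → p ∣ radT D r p) : h ∣ radT D r h := by
  induction h using WfDvdMonoid.induction_on_irreducible with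
  | zero => rw [radT_zero]
  | unit u hu => exact hu.dvd
  | mul a i ha hi ih =>
    rw [radT_mul]
    refine dvd_add ?_ ?_
    · exact mul_dvd_mul_right (hh i hi (Dvd.intro _ rfl)) a
    · exact mul_dvd_mul_left i (ih fun p hp hpa => hh p hp (hpa.mul_left i))

theorem rad_dvd {K : Type*} [Field K] [CharZero K] (D : Derivation ℤ K K) (g h r : K[X])
    (hg : g ≠ 0) (hh : h.Separable) (h1 : h ∣ g) (hdvd : g ∣ mapD D g + derivative g * r) :
    h ∣ mapD D h + derivative h * r :=
  radT_prod D r h fun p hp hph => radT_irr D g r p hg hp (hph.trans h1) hdvd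

end Pool.Agent.Helper74.PQ
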