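import Pool.Agent.Helper74.PQ.NoTwoCon
import Pool.Agent.Helper10.LB.NoTwo

/-!
# PQ-THREECON: at least three distinct roots

Copy of the first half of `three_roots` (`Helper10/LB/NoTwo.lean`, its lemmas are private: copy
them): if `deg h ≤ 2` go to the splitting field of `h` (`der_ext`), `cq a A` has the top coefficient
`F(A e_2)` (`cq_top`) and the factorisation `C lead ((X - ρ_1)^α (X - ρ_2)^β)`, `α + β = 2 q`,
`ρ_1 ≠ ρ_2`. So `F(A v2(S_0, S_1)) = lead (S_1 - ρ_1 S_0)^α (S_1 - ρ_2 S_0)^β`. With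
`S_0 = (s - t) / (ρ_2 - ρ_1)`, `S_1 = (ρ_2 s - ρ_1 t) / (ρ_2 - ρ_1)` one has
`v2(S_0, S_1) = N v2(s, t)`, `N` invertible: `no_two_con` with `M = A N`.
-/

set_option autoImplicit false

namespace Pool.Agent.Helper74.PQ

open scoped BigOperators Matrix
open MvPolynomial
open Pool.Agent.Helper8.LG (form mon)

section ThreeCon_poly

open Polynomial

/-- the factorisation -/
theorem ThreeCon_fact {K : Type*} [Field K] (f h : K[X]) (hf0 : f ≠ 0) (hh0 : h ≠ 0)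
    (hh : h.Splits) (k : ℕ) (hdvd : f ∣ h ^ k) (ρ₁ ρ₂ : K) (hρ : ρ₁ ≠ ρ₂)
    (hr : ∀ r ∈ h.roots, r = ρ₁ ∨ r = ρ₂) :
    ∃ α β : ℕ, α + β = f.natDegree ∧
      f = Polynomial.C f.leadingCoeff *
        ((Polynomial.X - Polynomial.C ρ₁) ^ α * (Polynomial.X - Polynomial.C ρ₂) ^ β) := by
  classical
  have hs : f.Splits := (hh.pow k).of_dvd (pow_ne_zero _ hh0) hdvd
  have hsub : f.roots.toFinset ⊆ {ρ₁, ρ₂} := by
    intro r hr1
    rw [Multiset.mem_toFinset, mem_roots hf0] at hr1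
    have h1 : (h ^ k).IsRoot r := hr1.dvd hdvd
    rw [IsRoot, Polynomial.eval_pow] at h1
    have h2 : r ∈ h.roots := by
      rw [mem_roots hh0]
      exact eq_zero_of_pow_eq_zero h1
    rcases hr r h2 with h3 | h3
    · simp [h3]
    · simp [h3]
  refine ⟨f.roots.count ρ₁, f.roots.count ρ₂, ?_, ?_⟩
  · rw [hs.natDegree_eq_card_roots, ← Multiset.toFinset_sum_count_eq,
      Finset.sum_subset hsub fun r _ h1 => ?_, Finset.sum_pair hρ]
    rw [Multiset.mem_toFinset] at h1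
    exact Multiset.count_eq_zero_of_notMem h1
  · conv_lhs => rw [hs.eq_prod_roots]
    congr 1
    rw [Finset.prod_multiset_map_count, Finset.prod_subset hsub fun r _ h1 => ?_,
      Finset.prod_pair hρ]
    rw [Multiset.mem_toFinset] at h1
    rw [Multiset.count_eq_zero_of_notMem h1, pow_zero]

/-- at most two roots -/
theorem ThreeCon_roots {K : Type*} [Field K] (h : K[X]) (hn : h.natDegree ≤ 2) :
    ∃ ρ₁ ρ₂ : K, ρ₁ ≠ ρ₂ ∧ ∀ r ∈ h.roots, r = ρ₁ ∨ r = ρ₂ := by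
  classical
  have h1 : h.roots.toFinset.card ≤ 2 :=
    (Multiset.toFinset_card_le _).trans ((card_roots' h).trans hn)
  rcases Nat.lt_or_ge h.roots.toFinset.card 2 with h2 | h2
  · rcases Nat.eq_zero_or_pos h.roots.toFinset.card with h3 | h3
    · refine ⟨0, 1, zero_ne_one, fun r hr => ?_⟩
      rw [Finset.card_eq_zero] at h3
      rw [← Multiset.mem_toFinset, h3] at hr
      exact absurd hr (Finset.notMem_empty _)
    · obtain ⟨ρ, hρ⟩ := Finset.card_eq_one.1 (by omega : h.roots.toFinset.card = 1)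
      refine ⟨ρ, ρ + 1, fun h4 => ?_, fun r hr => ?_⟩
      · exact one_ne_zero (left_eq_add.1 h4)
      · rw [← Multiset.mem_toFinset, hρ, Finset.mem_singleton] at hr
        exact Or.inl hr
  · obtain ⟨ρ₁, ρ₂, hne, hρ⟩ := Finset.card_eq_two.1 (le_antisymm h1 h2)
    refine ⟨ρ₁, ρ₂, hne, fun r hr => ?_⟩
    rw [← Multiset.mem_toFinset, hρ, Finset.mem_insert, Finset.mem_singleton] at hr
    exact hr

end ThreeCon_poly

section ThreeCon_hom

variable {K : Type*} [Field K] {q : ℕ}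

/-- the homogeneous version of the factorisation -/
theorem ThreeCon_hom (a : Sym (Fin 3) q → K) (A : Matrix (Fin 3) (Fin 3) K) (lead ρ₁ ρ₂ : K)
    (α β : ℕ) (hαβ : α + β = 2 * q) (hlead : lead = form a (A *ᵥ ![0, 0, 1]))
    (h : cq a A = Polynomial.C lead *
      ((Polynomial.X - Polynomial.C ρ₁) ^ α * (Polynomial.X - Polynomial.C ρ₂) ^ β))
    (S T : K) : form a (A *ᵥ ![S ^ 2, S * T, T ^ 2]) =
      lead * (T - ρ₁ * S) ^ α * (T - ρ₂ * S) ^ β := by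
  by_cases hS : S = 0
  · have h1 : (![S ^ 2, S * T, T ^ 2] : Fin 3 → K) = T ^ 2 • ![0, 0, 1] := by
      rw [hS]
      funext i
      fin_cases i <;> simp
    rw [h1, Matrix.mulVec_smul, form_scale, ← hlead, hS, mul_zero, mul_zero, sub_zero,
      mul_assoc, ← pow_add, hαβ, ← pow_mul, mul_comm]
  · have h1 : (![S ^ 2, S * T, T ^ 2] : Fin 3 → K) = S ^ 2 • ![1, T / S, (T / S) ^ 2] := by
      funext i
      fin_cases i
      · simp
      · simp
        field_simp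
      · simp
        field_simp
    have h2 : T - ρ₁ * S = S * (T / S - ρ₁) := by field_simp
    have h3 : T - ρ₂ * S = S * (T / S - ρ₂) := by field_simp
    rw [h1, Matrix.mulVec_smul, form_scale, ← cq_eval, h, h2, h3, mul_pow, mul_pow, ← pow_mul,
      ← hαβ, pow_add]
    simp only [Polynomial.eval_mul, Polynomial.eval_C, Polynomial.eval_pow, Polynomial.eval_sub,
      Polynomial.eval_X]
    ring

/-- the change of coordinates -/
def ThreeCon_N (ρ₁ ρ₂ e : K) : Matrix (Fin 3) (Fin 3) K :=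
  !![e ^ 2, -(2 * e ^ 2), e ^ 2; ρ₂ * e ^ 2, -((ρ₁ + ρ₂) * e ^ 2), ρ₁ * e ^ 2;
    ρ₂ ^ 2 * e ^ 2, -(2 * ρ₁ * ρ₂ * e ^ 2), ρ₁ ^ 2 * e ^ 2]

/-- the inverse -/
def ThreeCon_N' (ρ₁ ρ₂ : K) : Matrix (Fin 3) (Fin 3) K :=
  !![ρ₁ ^ 2, -(2 * ρ₁), 1; ρ₁ * ρ₂, -(ρ₁ + ρ₂), 1; ρ₂ ^ 2, -(2 * ρ₂), 1]

theorem ThreeCon_mul (ρ₁ ρ₂ e : K) (he : e * (ρ₂ - ρ₁) = 1) :
    ThreeCon_N ρ₁ ρ₂ e * ThreeCon_N' ρ₁ ρ₂ = 1 := by
  have h2 : e ^ 2 * (ρ₂ - ρ₁) ^ 2 = 1 := by rw [← mul_pow, he, one_pow]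
  ext i j
  unfold ThreeCon_N ThreeCon_N'
  fin_cases i <;> fin_cases j <;> simp [Matrix.mul_apply, Fin.sum_univ_three]
  · linear_combination h2
  · ring
  · ring
  · ring
  · linear_combination h2
  · ring
  · ring
  · ring
  · linear_combination h2

theorem ThreeCon_vec (ρ₁ ρ₂ e s t : K) :
    ThreeCon_N ρ₁ ρ₂ e *ᵥ ![s ^ 2, s * t, t ^ 2] =
      ![(e * (s - t)) ^ 2, e * (s - t) * (e * (ρ₂ * s - ρ₁ * t)), (e * (ρ₂ * s - ρ₁ * t)) ^ 2] := by
  unfold ThreeCon_N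
  funext i
  fin_cases i <;>
    simp [Matrix.mulVec, dotProduct, Fin.sum_univ_three] <;> ring

end ThreeCon_hom

theorem three_con {K : Type*} [Field K] [CharZero K] {q : ℕ} (hq : q = 4)
    (a : Sym (Fin 3) q → K) (D : Sym (Fin 3) q → Derivation ℤ K K)
    (hD : ∀ I J, D J (a I) = if I = J then 1 else 0) (A A' : Matrix (Fin 3) (Fin 3) K)
    (hA : A * A' = 1) (htop : form a (A *ᵥ ![0, 0, 1]) ≠ 0) (h : Polynomial K) (h0 : h ≠ 0)
    (n : ℕ) (hdvd : cq a A ∣ h ^ n) : 3 ≤ h.natDegree := by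
  classical
  by_contra hlt
  have hn2 : h.natDegree ≤ 2 := by omega
  let L := h.SplittingField
  let φ : K →+* L := algebraMap K L
  have hφ : Function.Injective φ := φ.injective
  have : CharZero L := charZero_of_injective_algebraMap hφ
  have hhL0 : h.map φ ≠ 0 := (Polynomial.map_ne_zero_iff hφ).2 h0
  have hhL : (h.map φ).Splits := Polynomial.SplittingField.splits h
  obtain ⟨ρ₁, ρ₂, hρ, hroots⟩ :=
    ThreeCon_roots (h.map φ) (by rw [Polynomial.natDegree_map]; exact hn2)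
  choose D' hD' using fun J : Sym (Fin 3) q => Pool.Agent.Helper10.LB.der_ext (K := L) (D J)
  have hDual : ∀ I J, D' J (φ (a I)) = if I = J then 1 else 0 := by
    intro I J
    have h1 := hD' J (a I)
    rw [hD I J] at h1
    rw [show D' J (φ (a I)) = _ from h1]
    split_ifs
    · exact map_one φ
    · exact map_zero φ
  have hc : (cq (fun J => φ (a J)) (A.map φ)).coeff (2 * q) =
      form (fun J => φ (a J)) (A.map φ *ᵥ ![0, 0, 1]) := cq_top _ _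
  have hne : form (fun J => φ (a J)) (A.map φ *ᵥ ![0, 0, 1]) ≠ 0 := by
    rw [← hc, ← cq_map, Polynomial.coeff_map, cq_top]
    exact (map_ne_zero φ).2 htop
  have hf0 : cq (fun J => φ (a J)) (A.map φ) ≠ 0 := by
    intro h1
    rw [h1, Polynomial.coeff_zero] at hc
    exact hne hc.symm
  have hdeg : (cq (fun J => φ (a J)) (A.map φ)).natDegree = 2 * q := by
    refine le_antisymm (cq_deg _ _) (Polynomial.le_natDegree_of_ne_zero ?_)
    rw [hc]
    exact hne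
  obtain ⟨α, β, h1, h2⟩ := ThreeCon_fact _ _ hf0 hhL0 hhL n (by
    rw [← cq_map, ← Polynomial.map_pow]
    exact Polynomial.map_dvd φ hdvd) ρ₁ ρ₂ hρ hroots
  rw [hdeg] at h1
  rw [Polynomial.leadingCoeff, hdeg, hc] at h2
  have hhom := ThreeCon_hom (fun J => φ (a J)) (A.map φ) _ ρ₁ ρ₂ α β h1 rfl h2
  have he : (ρ₂ - ρ₁)⁻¹ * (ρ₂ - ρ₁) = 1 := inv_mul_cancel₀ (sub_ne_zero.2 hρ.symm)
  have hAA : A.map φ * A'.map φ = 1 := by
    rw [← Matrix.map_mul, hA, Matrix.map_one φ (map_zero φ) (map_one φ)]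
  refine no_two_con hq (fun J => φ (a J)) D' hDual
    (A.map φ * ThreeCon_N ρ₁ ρ₂ (ρ₂ - ρ₁)⁻¹) (ThreeCon_N' ρ₁ ρ₂ * A'.map φ) ?_
    (form (fun J => φ (a J)) (A.map φ *ᵥ ![0, 0, 1])) α β h1 ?_
  · rw [mul_assoc, ← mul_assoc (ThreeCon_N ρ₁ ρ₂ (ρ₂ - ρ₁)⁻¹), ThreeCon_mul _ _ _ he, one_mul, hAA]
  · intro s t
    rw [← Matrix.mulVec_mulVec, ThreeCon_vec, hhom]
    have e1 : (ρ₂ - ρ₁)⁻¹ * (ρ₂ * s - ρ₁ * t) - ρ₁ * ((ρ₂ - ρ₁)⁻¹ * (s - t)) = s := by
      linear_combination s * he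
    have e2 : (ρ₂ - ρ₁)⁻¹ * (ρ₂ * s - ρ₁ * t) - ρ₂ * ((ρ₂ - ρ₁)⁻¹ * (s - t)) = t := by
      linear_combination t * he
    rw [e1, e2]

end Pool.Agent.Helper74.PQ
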