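import Pool.Agent.Helper74.PQ.ConicStd
import Pool.Agent.Helper74.PQ.ThreeCon
import Pool.Agent.Helper74.PQ.RadL
import Pool.Agent.Helper74.PQ.ConFlow
import Pool.Agent.Helper74.PQ.AlgClL
import Pool.Agent.Helper74.PQ.RatL
import Pool.Agent.Helper10.LB.Riccati
import Pool.Agent.Helper10.LB.CaseTwo

/-!
# PQ-CONRIC: smooth rational conics, when all constants are rational

`S = hs Q`, `qf S x = 2 Q(x) = 0`. `conic_std`: `K, A, A', c`; `D' J` the extensions of the `D J`
to `K` (`der_ext`), `F = acl B K`, stable under the `D' J` (`acl_der`, `lrat_der`). `y = A' x`,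
`A y = x`, `y_0 y_2 = y_1^2` (`Std.std`).
(1) `y_0 = 0`: `y_1 = 0`, `x = y_2 A e_2`, `x_0 = 1`: all `x_l` are algebraic over `B`:
`acl_base`, `lrat_alg`, `ln_of_mem`. (2) `y_0 ≠ 0`, `s = y_1 / y_0` algebraic over `F`:
`x = y_0 A (1, s, s^2)`, `x_0 = 1`: the same. (3) `s` transcendental over `F`. With
`r_J = (1/q) D_J F(x) / F(x)`, `Cnc.conn` (`et (X^J) = D_J x - r_J x` by `cP_mo`) gives
`D_J x = - c_J x + r_J x`; `D' y = (D' A') A y + A' (D' x) = - M y + r y`,
`M = A' c_J A - (D' A') A` has entries in `F`. `con_flow`, `con_dvd` (`F(A y) = F(x)`). Over the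
field `F` take `h, w` of `exists_sqfree` (`Helper10/LB/CaseTwo.lean`) for `cq a A` (lifted to `F`,
`cq_coeff_mem`, `exists_lift_sub`), map to `K`; `three_con` (the `D' J` are dual to the
`algebraMap (a J)`): `3 ≤ deg h`; `rad_dvd`; `riccati` (`Helper10/LB/Riccati.lean`) with
`hconst = acl_const`, `h(s) ≠ 0` because `s` is transcendental: `s` is algebraic over `F`, a
contradiction. Compare the end of `case_two` in `Helper10/LB/CaseTwo.lean`.
-/

set_option autoImplicit false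

namespace Pool.Agent.Helper74.PQ

open scoped BigOperators Matrix
open MvPolynomial
open Pool.Agent.Helper8.LG (form mon)

/-- the derivatives of the point in terms of rational matrices -/
theorem conRic_conn {Ω : Type*} [Field Ω] [CharZero Ω] {q : ℕ}
    {D : Sym (Fin 3) q → Derivation ℤ Ω Ω} {a : Sym (Fin 3) q → Ω} {B : Subfield Ω}
    {x : Fin 3 → Ω} (h : PtL D a B x) (Q : MvPolynomial (Fin 3) Ω) (hQ : Cnc D a B x Q) :
    ∃ (c : Sym (Fin 3) q → Matrix (Fin 3) (Fin 3) Ω) (r : Sym (Fin 3) q → Ω),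
      (∀ J i j, c J i j ∈ B) ∧ (∀ J l, D J (x l) = - (c J *ᵥ x) l + r J * x l) ∧
      (∀ J, D J (form a x) = q * r J * form a x) := by
  choose c hc1 hc2 using hQ.conn
  refine ⟨c, fun J => (q : Ω)⁻¹ * (D J (form a x) / form a x), hc1, fun J l => ?_, fun J => ?_⟩
  · have h1 := congrFun (hc2 J) l
    unfold et at h1
    rw [Pool.Agent.Helper49.LN.cP_mo] at h1
    have h2 : D J (x l) - (q : Ω)⁻¹ * (D J (form a x) / form a x) * x l = - (c J *ᵥ x) l := h1
    linear_combination h2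
  · have hq0 : (q : Ω) ≠ 0 := by
      have hq' : q ≠ 0 := by
        have := h.hq
        omega
      exact Nat.cast_ne_zero.mpr hq'
    have hgen : ∀ d f q' : Ω, f ≠ 0 → q' ≠ 0 → d = q' * (q'⁻¹ * (d / f)) * f := by
      intro d f q' hf hq0
      field_simp
    exact hgen (D J (form a x)) (form a x) q h.ne hq0

/-- entries of matrix products in a subfield -/
theorem conRic_mul_mem {K : Type*} [Field K] (F : Subfield K)
    (A B : Matrix (Fin 3) (Fin 3) K) (hA : ∀ i j, A i j ∈ F) (hB : ∀ i j, B i j ∈ F)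
    (i j : Fin 3) : (A * B) i j ∈ F := by
  rw [Matrix.mul_apply]
  exact F.sum_mem fun l _ => F.mul_mem (hA i l) (hB l j)

/-- the flow in the coordinates `y = A' x` -/
theorem conRic_flow {K : Type*} [Field K] (D : Derivation ℤ K K)
    (A A' c : Matrix (Fin 3) (Fin 3) K) (hA : A * A' = 1) (x : Fin 3 → K) (r : K)
    (hx : ∀ l, D (x l) = - (c *ᵥ x) l + r * x l) (i : Fin 3) :
    D ((A' *ᵥ x) i) = - ((A' * c * A - (Matrix.of fun i j => D (A' i j)) * A) *ᵥ (A' *ᵥ x)) i +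
      r * (A' *ᵥ x) i := by
  have h1 : (A' * c * A - (Matrix.of fun i j => D (A' i j)) * A) *ᵥ (A' *ᵥ x) =
      A' *ᵥ (c *ᵥ x) - (Matrix.of fun i j => D (A' i j)) *ᵥ x := by
    rw [Matrix.sub_mulVec, Matrix.mulVec_mulVec, Matrix.mulVec_mulVec, Matrix.mul_assoc,
      Matrix.mul_assoc _ A A', hA, Matrix.mul_one, Matrix.mul_one, Matrix.mulVec_mulVec]
  rw [h1]
  have h2 : D ((A' *ᵥ x) i) = ((Matrix.of fun i j => D (A' i j)) *ᵥ x) i -
      (A' *ᵥ (c *ᵥ x)) i + r * (A' *ᵥ x) i := by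
    simp only [Matrix.mulVec, dotProduct, Matrix.of_apply]
    rw [map_sum, Finset.mul_sum, ← Finset.sum_sub_distrib, ← Finset.sum_add_distrib]
    refine Finset.sum_congr rfl fun l _ => ?_
    rw [D.leibniz, hx l, smul_eq_mul, smul_eq_mul]
    simp only [Matrix.mulVec, dotProduct]
    ring
  rw [h2, Pi.sub_apply]
  ring

/-- the quadratic polynomial has degree at most two -/
theorem conRic_deg {K : Type*} [Field K] (b0 b1 b2 : K) :
    (Polynomial.C b0 + Polynomial.C b1 * Polynomial.X +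
      Polynomial.C b2 * Polynomial.X ^ 2).natDegree ≤ 2 := by
  compute_degree

/-- the point is algebraic, if `s` is -/
theorem conRic_alg {K : Type*} [Field K] (F : Subfield K) (A : Matrix (Fin 3) (Fin 3) K)
    (hA : ∀ i j, A i j ∈ F) (x : Fin 3 → K) (h0 : x 0 = 1) (y0 s t : K)
    (hs : IsAlgebraic F s) (ht : IsAlgebraic F t) (z : K) (hz : IsAlgebraic F z)
    (hx : ∀ l, x l = y0 * (A l 0 * z + A l 1 * s + A l 2 * t)) (l : Fin 3) :
    IsAlgebraic F (x l) := by
  have hF : ∀ i j, IsAlgebraic F (A i j) := fun i j =>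
    isAlgebraic_algebraMap (⟨A i j, hA i j⟩ : F)
  have h1 : ∀ l, IsAlgebraic F (A l 0 * z + A l 1 * s + A l 2 * t) := fun l =>
    (((hF l 0).mul hz).add ((hF l 1).mul hs)).add ((hF l 2).mul ht)
  have h2 : y0 = (A 0 0 * z + A 0 1 * s + A 0 2 * t)⁻¹ := by
    have h3 := hx 0
    rw [h0] at h3
    exact eq_inv_of_mul_eq_one_left h3.symm
  have h4 : IsAlgebraic F y0 := by
    rw [h2]
    exact (h1 0).inv
  rw [hx l]
  exact h4.mul (h1 l)

/-- the statement over the big field, transcendental case -/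
theorem conRic_tr {K : Type*} [Field K] [CharZero K] {q : ℕ} (hq : q = 4) (F : Subfield K)
    (a : Sym (Fin 3) q → K) (D : Sym (Fin 3) q → Derivation ℤ K K)
    (hD : ∀ I J, D J (a I) = if I = J then 1 else 0) (haF : ∀ J, a J ∈ F)
    (hDF : ∀ J, ∀ z ∈ F, D J z ∈ F) (hconst : ∀ c : K, (∀ J, D J c = 0) → IsAlgebraic F c)
    (A A' : Matrix (Fin 3) (Fin 3) K) (hA : A * A' = 1) (hAF : ∀ i j, A i j ∈ F)
    (htop : form a (A *ᵥ ![0, 0, 1]) ≠ 0)
    (y : Fin 3 → K) (hy : y 0 * y 2 = y 1 ^ 2) (hy0 : y 0 ≠ 0)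
    (M : Sym (Fin 3) q → Matrix (Fin 3) (Fin 3) K) (hM : ∀ J i j, M J i j ∈ F)
    (r : Sym (Fin 3) q → K) (hDy : ∀ J i, D J (y i) = - (M J *ᵥ y) i + r J * y i)
    (hG : ∀ J, D J (form a (A *ᵥ y)) = q * r J * form a (A *ᵥ y)) :
    IsAlgebraic F (y 1 / y 0) := by
  by_contra hs0
  have hs : Transcendental F (y 1 / y 0) := hs0
  have hG0 : cq a A ≠ 0 := by
    intro h0
    apply htop
    rw [← cq_top, h0, Polynomial.coeff_zero]
  obtain ⟨G', hG'⟩ := Pool.Agent.Helper10.LB.exists_lift_sub F (cq a A)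
    (cq_coeff_mem F a haF A hAF)
  have hG'0 : G' ≠ 0 := by
    rintro rfl
    rw [Polynomial.map_zero] at hG'
    exact hG0 hG'.symm
  obtain ⟨h, w, hmon, hsep, hw, n, hn⟩ := Pool.Agent.Helper10.LB.exists_sqfree G' hG'0
  have hsep' : (h.map F.subtype).Separable := hsep.map
  have hh0 : h.map F.subtype ≠ 0 :=
    (Polynomial.map_ne_zero_iff F.subtype.injective).2 hmon.ne_zero
  have hdvd1 : h.map F.subtype ∣ cq a A := by
    rw [← hG', ← hw, Polynomial.map_mul]
    exact Dvd.intro _ rfl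
  have hdvd2 : cq a A ∣ (h.map F.subtype) ^ n := by
    rw [← hG', ← Polynomial.map_pow]
    exact Polynomial.map_dvd F.subtype hn
  have hr : 3 ≤ (h.map F.subtype).natDegree :=
    three_con hq a D hD A A' hA htop (h.map F.subtype) hh0 n hdvd2
  refine hs (Pool.Agent.Helper10.LB.riccati F D hconst (h.map F.subtype)
    (fun n => by rw [Polynomial.coeff_map]; exact (h.coeff n).2) hsep' hr
    (fun J => Polynomial.C (- M J 1 0) + Polynomial.C (M J 0 0 - M J 1 1) * Polynomial.X +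
        Polynomial.C (M J 0 1 - M J 1 2) * Polynomial.X ^ 2)
    (fun J => conRic_deg _ _ _) (fun J => ?_) (y 1 / y 0) (fun J => ?_) ?_)
  · exact rad_dvd (D J) (cq a A) (h.map F.subtype) _ hG0 hsep' hdvd1
      (con_dvd F (D J) (hDF J) a haF A hAF y hy hy0 (M J) (hM J) (r J) (hDy J) hs (hG J))
  · exact (con_flow F (D J) y hy hy0 (M J) (hM J) (r J) (hDy J) hs).2.2
  · intro h0
    refine hs ⟨h, hmon.ne_zero, ?_⟩
    rw [Polynomial.aeval_def, Polynomial.eval₂_eq_eval_map]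
    exact h0

/-- the statement over the big field -/
theorem conRic_key {K : Type*} [Field K] [CharZero K] {q : ℕ} (hq : q = 4) (F : Subfield K)
    (a : Sym (Fin 3) q → K) (D : Sym (Fin 3) q → Derivation ℤ K K)
    (hD : ∀ I J, D J (a I) = if I = J then 1 else 0) (haF : ∀ J, a J ∈ F)
    (hDF : ∀ J, ∀ z ∈ F, D J z ∈ F) (hconst : ∀ c : K, (∀ J, D J c = 0) → IsAlgebraic F c)
    (S A A' : Matrix (Fin 3) (Fin 3) K) (c0 : K) (hstd : Std S A A' c0)
    (hAF : ∀ i j, A i j ∈ F) (hAF' : ∀ i j, A' i j ∈ F)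
    (htop : form a (A *ᵥ ![0, 0, 1]) ≠ 0) (x : Fin 3 → K) (hx0 : x 0 = 1) (hS : qf S x = 0)
    (c : Sym (Fin 3) q → Matrix (Fin 3) (Fin 3) K) (hc : ∀ J i j, c J i j ∈ F)
    (r : Sym (Fin 3) q → K) (hDx : ∀ J l, D J (x l) = - (c J *ᵥ x) l + r J * x l)
    (hG : ∀ J, D J (form a x) = q * r J * form a x) (l : Fin 3) : IsAlgebraic F (x l) := by
  have hAy : A *ᵥ (A' *ᵥ x) = x := by
    rw [Matrix.mulVec_mulVec, hstd.mul, Matrix.one_mulVec]
  have hDy : ∀ J i, D J ((A' *ᵥ x) i) = - ((A' * c J * A -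
      (Matrix.of fun i j => D J (A' i j)) * A) *ᵥ (A' *ᵥ x)) i + r J * (A' *ᵥ x) i :=
    fun J i => conRic_flow (D J) A A' (c J) hstd.mul x (r J) (hDx J) i
  have hM : ∀ J i j, (A' * c J * A - (Matrix.of fun i j => D J (A' i j)) * A) i j ∈ F := by
    intro J i j
    rw [Matrix.sub_apply]
    exact F.sub_mem (conRic_mul_mem F _ _ (conRic_mul_mem F _ _ hAF' (hc J)) hAF i j)
      (conRic_mul_mem F _ _ (fun i j => hDF J _ (hAF' i j)) hAF i j)
  have hquad : (A' *ᵥ x) 0 * (A' *ᵥ x) 2 = (A' *ᵥ x) 1 ^ 2 := by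
    have h1 := hstd.std (A' *ᵥ x)
    rw [hAy, hS] at h1
    have h2 := (mul_eq_zero.1 h1.symm).resolve_left hstd.c0
    exact sub_eq_zero.1 h2
  have hxl : ∀ l, x l = A l 0 * (A' *ᵥ x) 0 + A l 1 * (A' *ᵥ x) 1 + A l 2 * (A' *ᵥ x) 2 := by
    intro l
    have h1 := congrFun hAy l
    rw [← h1]
    simp only [Matrix.mulVec, dotProduct, Fin.sum_univ_three]
  have hG' : ∀ J, D J (form a (A *ᵥ (A' *ᵥ x))) = q * r J * form a (A *ᵥ (A' *ᵥ x)) := by
    rw [hAy]
    exact hG
  generalize A' *ᵥ x = y at hAy hDy hquad hxl hG'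
  by_cases hy0 : y 0 = 0
  · rw [hy0, zero_mul] at hquad
    have hy1 : y 1 = 0 := pow_eq_zero_iff (two_ne_zero) |>.1 hquad.symm
    refine conRic_alg F A hAF x hx0 (y 2) 0 1 isAlgebraic_zero isAlgebraic_one 0
      isAlgebraic_zero (fun l => ?_) l
    rw [hxl l, hy0, hy1]
    ring
  · have hs : IsAlgebraic F (y 1 / y 0) :=
      conRic_tr hq F a D hD haF hDF hconst A A' hstd.mul hAF htop y hquad hy0 _ hM r hDy hG'
    refine conRic_alg F A hAF x hx0 (y 0) (y 1 / y 0) ((y 1 / y 0) ^ 2) hs (hs.pow 2) 1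
      isAlgebraic_one (fun l => ?_) l
    have h2 : y 2 = y 0 * (y 1 / y 0) ^ 2 := by
      field_simp
      linear_combination hquad
    have h1 : y 1 = y 0 * (y 1 / y 0) := by
      field_simp
    rw [hxl l]
    linear_combination A l 1 * h1 + A l 2 * h2

theorem con_ric {Ω : Type*} [Field Ω] [CharZero Ω] {q : ℕ}
    {D : Sym (Fin 3) q → Derivation ℤ Ω Ω} {a : Sym (Fin 3) q → Ω} {B : Subfield Ω}
    {x : Fin 3 → Ω} (h : PtL D a B x) (hc : ∀ c : Ω, (∀ J, D J c = 0) → c ∈ B)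
    (Q : MvPolynomial (Fin 3) Ω) (hQ : Cnc D a B x Q) (hd : (hs Q).det ≠ 0) : Ln B x := by
  obtain ⟨c, r, hcB, hDx, hG⟩ := conRic_conn h Q hQ
  have hqf : qf (hs Q) x = 0 := by
    rw [hs_eval Q hQ.hom x, hQ.zero, mul_zero]
  obtain ⟨K, iK, iA, iF, A, A', c0, hstd, hA, hA', htop⟩ := conic_std B a h.frame.mem (hs Q)
    (hs_symm Q) (hs_mem B Q hQ.rat) hd x hqf h.ne
  have hK0 : CharZero K := charZero_of_injective_algebraMap (algebraMap Ω K).injective
  choose D' hD' using fun J => Pool.Agent.Helper10.LB.der_ext (K := K) (D J)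
  have hBF : ∀ z ∈ B, algebraMap Ω K z ∈ acl B K := by
    intro z hz
    rw [mem_acl]
    exact isAlgebraic_algebraMap (A := K) (⟨z, hz⟩ : B)
  have hmv : ∀ (J : Sym (Fin 3) q) l, ((c J).map (algebraMap Ω K) *ᵥ
      fun l => algebraMap Ω K (x l)) l = algebraMap Ω K ((c J *ᵥ x) l) := by
    intro J l
    simp only [Matrix.mulVec, dotProduct, Matrix.map_apply]
    rw [map_sum]
    exact Finset.sum_congr rfl fun i _ => (map_mul _ _ _).symm
  have hform : form (fun J => algebraMap Ω K (a J)) (fun l => algebraMap Ω K (x l)) =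
      algebraMap Ω K (form a x) := (Pool.Agent.Helper10.LB.pd_map_form (algebraMap Ω K) a x).symm
  refine ln_of_mem fun l => lrat_alg h.frame (x l) (acl_base (K := K) B (x l)
    (acl_of_acl B _ ?_))
  refine conRic_key h.hq (acl B K) (fun J => algebraMap Ω K (a J)) D' (fun I J => ?_)
    (fun J => hBF _ (h.frame.mem J))
    (fun J z hz => acl_der B (D J) (fun b hb => lrat_der h.frame J b hb) (D' J) (hD' J) z hz)
    (fun c hcc => acl_const B D hc D' hD' c hcc) _ A A' c0 hstd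
    (fun i j => (mem_acl B _).2 (hA i j)) (fun i j => (mem_acl B _).2 (hA' i j)) htop
    (fun l => algebraMap Ω K (x l)) ?_ ?_ (fun J => (c J).map (algebraMap Ω K))
    (fun J i j => hBF _ (hcB J i j)) (fun J => algebraMap Ω K (r J)) (fun J l => ?_)
    (fun J => ?_) l
  · rw [hD', h.frame.dual]
    split_ifs
    · exact map_one _
    · exact map_zero _
  · show algebraMap Ω K (x 0) = 1
    rw [h.one, map_one]
  · rw [qf_map, hqf, map_zero]
  · rw [hD', hDx, hmv, map_add, map_neg, map_mul]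
  · rw [hform, hD', hG, map_mul, map_mul, map_natCast]

end Pool.Agent.Helper74.PQ
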