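import Pool.Agent.Helper74.PQ.ConicNF
import Pool.Agent.Helper74.PQ.ThreeCon
import Pool.Agent.Helper10.LB.LineArith
import Pool.Agent.Helper10.LN.TwoZeros

/-!
# PQ-CONICFIN: finitely many integral points on a smooth conic

`a = cf q F` (`form_cf`). If the set has a point `p` (`p ≠ 0` because `p i₀ = 1`): `conic_nf`,
`conic_cq` (with `p`), `conic_top`: coordinates `A2, A2'` with `F(A2 e_2) ≠ 0`, and `three_con`
for `g = cq a A2`. `g` is `F` on the line of a form of degree `2 q` in two variables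
(`ConicFin_form`). `la_param` (`Helper10/LB/LineArith.lean`, `ι` = one element, `Z = ∅`,
`σ = Fin 2`, the ring `A'` generated by `A` and the entries of `A2'`): the set of
`s` with `g(s) ≠ 0` and `s^j / g(s) ∈ A'`, `j ≤ 2 q`, is finite. For `y` in our set let
`w = A2' y`, `w_0 w_2 = w_1^2`, `y = A2 w`. If `w_0 = 0`: `w = w_2 e_2` and `y i₀ = 1` determines `y`.
If `w_0 ≠ 0`: `s = w_1 / w_0`, `w = w_0 (1, s, s^2)`, `g(s) = F(y) / w_0^q` (`cq_eval`, `form_scale`) and
`s^j / g(s) = (monomial of degree q in w) / F(y) ∈ A'`; `y` is proportional to `A2 (1, s, s^2)` and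
`y i₀ = 1`, so it is determined by `s`.
-/

set_option autoImplicit false

namespace Pool.Agent.Helper74.PQ

open scoped BigOperators Matrix
open MvPolynomial
open Pool.Agent.Helper8.LG (form mon cf form_cf poly_mon_eq)
open Pool.Agent.Helper10.LB (lf_eval lf_natDegree_le la_param)

/-- a polynomial of degree at most `m` is the form of degree `m` on the line -/
theorem ConicFin_form {K : Type*} [Field K] [CharZero K] (m : ℕ) (g : Polynomial K)
    (hg : g.natDegree ≤ m) : ∃ a' : Sym (Fin 2) m → K,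
      Pool.Agent.Helper10.LB.lf a' ![1, 0] ![0, 1] = g := by
  classical
  obtain ⟨G, hG⟩ : ∃ G : MvPolynomial (Fin (1 + 1)) K,
      G = ∑ k ∈ Finset.range (m + 1), C (g.coeff k) * (X 0 ^ (m - k) * X 1 ^ k) := ⟨_, rfl⟩
  have hhom : G.IsHomogeneous m := by
    rw [hG]
    refine IsHomogeneous.sum _ _ _ fun k hk => ?_
    have hk' : k ≤ m := Nat.lt_succ_iff.1 (Finset.mem_range.1 hk)
    have h1 : (X 0 ^ (m - k) * X 1 ^ k : MvPolynomial (Fin (1 + 1)) K).IsHomogeneous
        ((m - k) + k) := (isHomogeneous_X_pow 0 (m - k)).mul (isHomogeneous_X_pow 1 k)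
    rw [Nat.sub_add_cancel hk'] at h1
    have h2 := (isHomogeneous_C (Fin (1 + 1)) (g.coeff k)).mul h1
    rwa [zero_add] at h2
  refine ⟨cf m G, Polynomial.funext fun z => ?_⟩
  rw [lf_eval, form_cf G hhom, hG, Polynomial.eval_eq_sum_range' (Nat.lt_succ_of_le hg), map_sum]
  refine Finset.sum_congr rfl fun k _ => ?_
  simp

/-- products of linear forms divided by `F` -/
theorem ConicFin_prod {K : Type*} [Field K] (B : Subalgebra ℤ K) {q : ℕ} (y : Fin 3 → K) (f : K)
    (h : ∀ J : Sym (Fin 3) q, mon y J / f ∈ B) (s : Multiset (Fin 3 → K))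
    (hs : ∀ c ∈ s, ∀ l, c l ∈ B) :
    ∀ t : Multiset (Fin 3), s.card + t.card = q →
      (s.map fun c => ∑ l, c l * y l).prod * (t.map y).prod / f ∈ B := by
  induction s using Multiset.induction_on with
  | empty =>
    intro t ht
    rw [Multiset.map_zero, Multiset.prod_zero, one_mul]
    rw [Multiset.card_zero, zero_add] at ht
    exact h ⟨t, ht⟩
  | cons c s ih =>
    intro t ht
    rw [Multiset.card_cons] at ht
    have e1 : ((c ::ₘ s).map fun c => ∑ l, c l * y l).prod * (t.map y).prod / f =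
        ∑ l, c l * ((s.map fun c => ∑ l, c l * y l).prod * (((l ::ₘ t)).map y).prod / f) := by
      rw [Multiset.map_cons, Multiset.prod_cons, Finset.sum_mul, Finset.sum_mul, Finset.sum_div]
      refine Finset.sum_congr rfl fun l _ => ?_
      rw [Multiset.map_cons, Multiset.prod_cons]
      ring
    rw [e1]
    refine sum_mem fun l _ => mul_mem (hs c (Multiset.mem_cons_self c s) l)
      (ih (fun c' hc' => hs c' (Multiset.mem_cons_of_mem hc')) (l ::ₘ t) ?_)
    rw [Multiset.card_cons]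
    omega

theorem conic_fin {M : Type*} [Field M] [CharZero M] {q : ℕ} (hq : q = 4)
    (F : MvPolynomial (Fin 3) M) (hF : F.IsHomogeneous q)
    (D : Sym (Fin 3) q → Derivation ℤ M M)
    (hD : ∀ I J, D J (cf q F I) = if I = J then 1 else 0) (A : Subalgebra ℤ M) (hA : A.FG)
    (S : Matrix (Fin 3) (Fin 3) M) (hS : S.IsSymm) (hd : S.det ≠ 0) (i₀ : Fin 3) :
    {y : Fin 3 → M | y i₀ = 1 ∧ qf S y = 0 ∧ eval y F ≠ 0 ∧
      ∀ J : Sym (Fin 3) q, mon y J / eval y F ∈ A}.Finite := by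
  classical
  rcases Set.eq_empty_or_nonempty {y : Fin 3 → M | y i₀ = 1 ∧ qf S y = 0 ∧ eval y F ≠ 0 ∧
      ∀ J : Sym (Fin 3) q, mon y J / eval y F ∈ A} with hem | ⟨p, hp1, hp2, hp3, -⟩
  · rw [hem]
    exact Set.finite_empty
  have hfe : ∀ y, form (cf q F) y = eval y F := form_cf F hF
  have hp0 : p ≠ 0 := by
    intro h
    rw [h] at hp1
    exact zero_ne_one hp1
  obtain ⟨A₁, A₁', c, h1⟩ := conic_nf S hS hd p hp0 hp2
  have hne : cq (cf q F) A₁ ≠ 0 := conic_cq (cf q F) S A₁ A₁' c h1 p hp2 (by rw [hfe]; exact hp3)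
  obtain ⟨A2, A2', h2, htop⟩ := conic_top (cf q F) S A₁ A₁' c h1 hne
  obtain ⟨g, hg⟩ : ∃ g, g = cq (cf q F) A2 := ⟨_, rfl⟩
  have hgd : g.natDegree ≤ 2 * q := by rw [hg]; exact cq_deg _ _
  have hgt : g.coeff (2 * q) ≠ 0 := by rw [hg, cq_top]; exact htop
  have hge : ∀ s, g.eval s = eval (A2 *ᵥ ![1, s, s ^ 2]) F := by
    intro s
    rw [hg, cq_eval, hfe]
  obtain ⟨a', ha'⟩ := ConicFin_form (2 * q) g hgd
  -- the ring
  obtain ⟨T, hT⟩ : ∃ T : Set M, T = Set.range fun ij : Fin 3 × Fin 3 => A2' ij.1 ij.2 := ⟨_, rfl⟩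
  obtain ⟨B, hB⟩ : ∃ B : Subalgebra ℤ M, B = A ⊔ Algebra.adjoin ℤ T := ⟨_, rfl⟩
  have hBfg : B.FG := by
    rw [hB]
    refine hA.sup (Subalgebra.fg_def.2 ⟨T, ?_, rfl⟩)
    rw [hT]
    exact Set.finite_range _
  have hAB : ∀ e ∈ A, e ∈ B := fun e he => by
    rw [hB]
    exact (le_sup_left : A ≤ _) he
  have hTB : ∀ i j, A2' i j ∈ B := fun i j => by
    rw [hB]
    refine (le_sup_right : Algebra.adjoin ℤ T ≤ _) (Algebra.subset_adjoin ?_)
    rw [hT]
    exact ⟨(i, j), rfl⟩
  -- the parameters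
  have hfin := la_param (AlgebraicClosure M) (σ := Fin 2) (ι := Unit) (d := fun _ => 2 * q)
    (fun _ => a') ∅ B hBfg ![1, 0] ![0, 1] 0 1 (by simp) (by
      intro i _
      rw [← Pool.Agent.Helper10.LB.lf_coeff_top a' ![1, 0] ![0, 1], ha']
      exact hgt) (by
      intro h h0 hh
      obtain ⟨n, hn⟩ := hh () (Finset.notMem_empty _)
      rw [ha', hg] at hn
      exact three_con hq (cf q F) D hD A2 A2' h2.mul htop h h0 n hn)
  refine ((hfin.image fun s i => (A2 *ᵥ ![1, s, s ^ 2]) i / (A2 *ᵥ ![1, s, s ^ 2]) i₀).union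
    (Set.finite_singleton fun i => (A2 *ᵥ ![0, 0, 1]) i / (A2 *ᵥ ![0, 0, 1]) i₀)).subset ?_
  rintro y ⟨hy1, hy2, hy3, hy4⟩
  obtain ⟨w, hw⟩ : ∃ w, w = A2' *ᵥ y := ⟨_, rfl⟩
  have hyw : y = A2 *ᵥ w := by
    rw [hw, Matrix.mulVec_mulVec, h2.mul, Matrix.one_mulVec]
  have hww : w 0 * w 2 = w 1 ^ 2 := by
    have h3 := h2.std w
    rw [← hyw, hy2] at h3
    exact sub_eq_zero.1 ((mul_eq_zero.1 h3.symm).resolve_left h2.c0)
  have hwsum : ∀ i, w i = ∑ l, A2' i l * y l := fun i => by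
    rw [hw]
    rfl
  by_cases hw0 : w 0 = 0
  · right
    have hw1 : w 1 = 0 := by
      rw [hw0, zero_mul] at hww
      exact (pow_eq_zero_iff two_ne_zero).1 hww.symm
    have e : w = w 2 • ![0, 0, 1] := by
      ext i
      fin_cases i
      · simp [hw0]
      · simp [hw1]
      · simp
    have e2 : ∀ i, y i = w 2 * (A2 *ᵥ ![0, 0, 1]) i := by
      intro i
      have h3 : y = w 2 • (A2 *ᵥ ![0, 0, 1]) := by
        rw [← Matrix.mulVec_smul, ← e]
        exact hyw
      rw [h3]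
      rfl
    have h4 : w 2 * (A2 *ᵥ ![0, 0, 1]) i₀ = 1 := by rw [← e2, hy1]
    have h5 : (A2 *ᵥ ![0, 0, 1]) i₀ ≠ 0 := right_ne_zero_of_mul_eq_one h4
    rw [Set.mem_singleton_iff]
    funext i
    rw [eq_div_iff h5, e2 i]
    linear_combination (A2 *ᵥ ![0, 0, 1]) i * h4
  · left
    obtain ⟨s, hs⟩ : ∃ s, s = w 1 / w 0 := ⟨_, rfl⟩
    have hs1 : w 1 = w 0 * s := by
      rw [hs]
      field_simp
    have hs2 : w 2 = w 0 * s ^ 2 := by
      have h3 : w 0 * w 2 = w 0 * (w 0 * s ^ 2) := by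
        rw [hww, hs1]
        ring
      exact mul_left_cancel₀ hw0 h3
    have e : w = w 0 • ![1, s, s ^ 2] := by
      ext i
      fin_cases i
      · simp
      · simp [hs1]
      · simp [hs2]
    have e2 : y = w 0 • (A2 *ᵥ ![1, s, s ^ 2]) := by
      rw [← Matrix.mulVec_smul, ← e]
      exact hyw
    have hgs : eval y F = w 0 ^ q * g.eval s := by
      rw [hge, ← hfe, ← hfe, ← form_scale, ← e2]
    have hg0 : g.eval s ≠ 0 := by
      intro h3
      rw [h3, mul_zero] at hgs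
      exact hy3 hgs
    have hlf : form a' (fun l => (![1, 0] : Fin 2 → M) l + s * (![0, 1] : Fin 2 → M) l) =
        g.eval s := by
      rw [← lf_eval, ha']
    refine ⟨s, fun i _ => ⟨?_, fun J => ?_⟩, ?_⟩
    · rw [hlf]
      exact hg0
    · rw [hlf, poly_mon_eq (N := 1)]
      obtain ⟨j, hj⟩ : ∃ j, j = (Multiset.toFinsupp (J : Multiset (Fin 2))) 1 := ⟨_, rfl⟩
      have hjle : j ≤ 2 * q := by
        rw [hj, Multiset.toFinsupp_apply]
        exact (Multiset.count_le_card _ _).trans (le_of_eq J.2)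
      have e3 : (∏ i : Fin (1 + 1), ((![1, 0] : Fin 2 → M) i + s * (![0, 1] : Fin 2 → M) i) ^
          (Multiset.toFinsupp (J : Multiset (Fin 2))) i) = s ^ j := by
        rw [Fin.prod_univ_two, hj]
        simp
      have e4 : (∏ i : Fin (1 + 1), (fun l : Fin 2 => (![1, 0] : Fin 2 → M) l +
          s * (![0, 1] : Fin 2 → M) l) i ^
          (Multiset.toFinsupp (J : Multiset (Fin 2))) i) = s ^ j := e3
      rw [e4]
      -- the monomial in `w`
      obtain ⟨k, b, hkb, hb⟩ : ∃ k b, j = b + 2 * k ∧ b + k ≤ q := by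
        refine ⟨j / 2, j % 2, by omega, by omega⟩
      have h6 := ConicFin_prod B y (eval y F) (fun J => hAB _ (hy4 J))
        (Multiset.replicate (q - b - k) (A2' 0) + Multiset.replicate b (A2' 1) +
          Multiset.replicate k (A2' 2)) (by
          intro c hc l
          rw [Multiset.mem_add, Multiset.mem_add] at hc
          rcases hc with (hc | hc) | hc
          · rw [Multiset.eq_of_mem_replicate hc]
            exact hTB 0 l
          · rw [Multiset.eq_of_mem_replicate hc]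
            exact hTB 1 l
          · rw [Multiset.eq_of_mem_replicate hc]
            exact hTB 2 l) 0 (by
          simp only [Multiset.card_add, Multiset.card_replicate, Multiset.card_zero]
          omega)
      simp only [Multiset.map_add, Multiset.prod_add, Multiset.map_replicate,
        Multiset.prod_replicate, Multiset.map_zero, Multiset.prod_zero, mul_one] at h6
      rw [← hwsum 0, ← hwsum 1, ← hwsum 2, hgs, hs1, hs2] at h6
      have e5 : s ^ j / g.eval s =
          w 0 ^ (q - b - k) * (w 0 * s) ^ b * (w 0 * s ^ 2) ^ k / (w 0 ^ q * g.eval s) := by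
        have h7 : w 0 ^ q = w 0 ^ (q - b - k) * w 0 ^ b * w 0 ^ k := by
          rw [← pow_add, ← pow_add]
          congr 1
          omega
        have h8 : w 0 ^ (q - b - k) * (w 0 * s) ^ b * (w 0 * s ^ 2) ^ k = w 0 ^ q * s ^ j := by
          rw [h7, hkb, mul_pow, mul_pow, ← pow_mul, pow_add]
          ring
        rw [h8, mul_div_mul_left _ _ (pow_ne_zero _ hw0)]
      rw [e5]
      exact h6
    · have h4 : w 0 * (A2 *ᵥ ![1, s, s ^ 2]) i₀ = 1 := by
        have h3 := congrFun e2 i₀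
        rw [hy1] at h3
        exact h3.symm
      have h5 : (A2 *ᵥ ![1, s, s ^ 2]) i₀ ≠ 0 := right_ne_zero_of_mul_eq_one h4
      funext i
      change (A2 *ᵥ ![1, s, s ^ 2]) i / (A2 *ᵥ ![1, s, s ^ 2]) i₀ = y i
      rw [div_eq_iff h5, e2]
      change (A2 *ᵥ ![1, s, s ^ 2]) i = w 0 * (A2 *ᵥ ![1, s, s ^ 2]) i *
        (A2 *ᵥ ![1, s, s ^ 2]) i₀
      linear_combination -(A2 *ᵥ ![1, s, s ^ 2]) i * h4

end Pool.Agent.Helper74.PQ
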