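import Pool.Agent.Helper74.PQ.HsL

/-!
# PQ-CONICNF: standard coordinates of a conic with a point

`conic_nf`: `S p ≠ 0`: there is `w` with `p^T S w = 1`; `r = w - (w^T S w / 2) p` is isotropic with
`p^T S r = 1`; `v ≠ 0` with `p^T S v = r^T S v = 0` has `d = v^T S v ≠ 0` (nondegenerate). With
`c = - d` and the columns `(c / 2) p, v, r`: `qf S (A y) = c y_0 y_2 + d y_1^2`.
`conic_top`: `cq a A ≠ 0`: there is a natural number `n` with `F(A (1, n, n^2)) ≠ 0`; take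
`A2 = A M`, `M = (0 0 1; 0 1 n; 1 2n n^2)`, which has the inverse
`(n^2 -2n 1; -n 1 0; 1 0 0)`, and `(M y)_0 (M y)_2 - (M y)_1^2 = y_0 y_2 - y_1^2`.
-/

set_option autoImplicit false

namespace Pool.Agent.Helper74.PQ

open scoped BigOperators Matrix
open MvPolynomial
open Pool.Agent.Helper8.LG (form mon)

variable {K : Type*} [Field K] [CharZero K]

omit [CharZero K] in
theorem conicNF_symm (S : Matrix (Fin 3) (Fin 3) K) (hS : S.IsSymm) (x y : Fin 3 → K) :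
    x ⬝ᵥ (S *ᵥ y) = y ⬝ᵥ (S *ᵥ x) := by
  rw [Matrix.dotProduct_mulVec, ← Matrix.mulVec_transpose, hS.eq, dotProduct_comm]

theorem conic_nf (S : Matrix (Fin 3) (Fin 3) K) (hS : S.IsSymm) (hd : S.det ≠ 0)
    (p : Fin 3 → K) (hp : p ≠ 0) (hpS : qf S p = 0) : ∃ A A' c, Std S A A' c := by
  have hsym := conicNF_symm S hS
  have hpp : p ⬝ᵥ (S *ᵥ p) = 0 := hpS
  -- the vector `w`
  have hSp : S *ᵥ p ≠ 0 := by
    intro h0
    apply hp
    have h1 : IsUnit S := (Matrix.isUnit_iff_isUnit_det S).2 (isUnit_iff_ne_zero.2 hd)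
    exact Matrix.mulVec_injective_of_isUnit h1 (by rw [h0, Matrix.mulVec_zero])
  obtain ⟨i, hi⟩ : ∃ i, (S *ᵥ p) i ≠ 0 := by
    by_contra hcon
    push Not at hcon
    exact hSp (funext hcon)
  obtain ⟨w, hw⟩ : ∃ w : Fin 3 → K, w ⬝ᵥ (S *ᵥ p) = 1 := by
    refine ⟨Pi.single i ((S *ᵥ p) i)⁻¹, ?_⟩
    rw [single_dotProduct, inv_mul_cancel₀ hi]
  obtain ⟨t, ht⟩ : ∃ t, t = w ⬝ᵥ (S *ᵥ w) := ⟨_, rfl⟩
  obtain ⟨r, hr⟩ : ∃ r : Fin 3 → K, r = w - (t / 2) • p := ⟨_, rfl⟩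
  have hrp : r ⬝ᵥ (S *ᵥ p) = 1 := by
    rw [hr, sub_dotProduct, smul_dotProduct, hpp, hw, smul_zero, sub_zero]
  have hpr : p ⬝ᵥ (S *ᵥ r) = 1 := by rw [hsym, hrp]
  have hwp : p ⬝ᵥ (S *ᵥ w) = 1 := by rw [hsym, hw]
  have hrr : r ⬝ᵥ (S *ᵥ r) = 0 := by
    rw [hr, Matrix.mulVec_sub, Matrix.mulVec_smul, dotProduct_sub, sub_dotProduct,
      sub_dotProduct, smul_dotProduct, dotProduct_smul, dotProduct_smul, smul_dotProduct,
      hpp, hw, hwp, ← ht]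
    simp only [smul_eq_mul]
    ring
  -- the vector `v`
  obtain ⟨v, hv⟩ : ∃ v : Fin 3 → K, v = (S *ᵥ p) ⨯₃ (S *ᵥ r) := ⟨_, rfl⟩
  have hvp : v ⬝ᵥ (S *ᵥ p) = 0 := by
    rw [hv, dotProduct_comm]
    exact dot_self_cross _ _
  have hvr : v ⬝ᵥ (S *ᵥ r) = 0 := by
    rw [hv, dotProduct_comm]
    exact dot_cross_self _ _
  have hpv : p ⬝ᵥ (S *ᵥ v) = 0 := by rw [hsym, hvp]
  have hrv : r ⬝ᵥ (S *ᵥ v) = 0 := by rw [hsym, hvr]
  obtain ⟨d, hdd⟩ : ∃ d, d = v ⬝ᵥ (S *ᵥ v) := ⟨_, rfl⟩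
  have hdet : p ⬝ᵥ (v ⨯₃ r) = 1 := by
    have h1 : v ⬝ᵥ (p ⨯₃ r) = -1 := by
      rw [hv, cross_dot_cross, dotProduct_comm (S *ᵥ p) p, dotProduct_comm (S *ᵥ r) r,
        dotProduct_comm (S *ᵥ p) r, dotProduct_comm (S *ᵥ r) p, hpp, hrr, hrp, hpr]
      ring
    rw [triple_product_permutation, ← cross_anticomm, dotProduct_neg, h1, neg_neg]
  -- the matrix with these columns
  obtain ⟨P, hP⟩ : ∃ P : Matrix (Fin 3) (Fin 3) K, P = Matrix.of ![p, v, r] := ⟨_, rfl⟩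
  have hPdet : P.det = 1 := by
    rw [hP, ← hdet, triple_product_eq_det]
    rfl
  have hprod : P * S * Pᵀ = !![0, 0, 1; 0, d, 0; 1, 0, 0] := by
    have h1 : ∀ i j, (P * S * Pᵀ) i j = P i ⬝ᵥ (S *ᵥ (P j)) := by
      intro i j
      rw [Matrix.mul_apply', Matrix.dotProduct_mulVec]
      rfl
    ext i j
    rw [h1, hP]
    fin_cases i <;> fin_cases j
    · exact hpp
    · exact hpv
    · exact hpr
    · exact hvp
    · exact hdd.symm
    · exact hvr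
    · exact hrp
    · exact hrv
    · exact hrr
  have hdS : S.det = -d := by
    have h1 := congrArg Matrix.det hprod
    have h2 : (!![0, 0, 1; 0, d, 0; 1, 0, 0] : Matrix (Fin 3) (Fin 3) K).det = -d := by
      rw [Matrix.det_fin_three]
      simp
    rw [Matrix.det_mul, Matrix.det_mul, Matrix.det_transpose, hPdet, one_mul, mul_one, h2] at h1
    exact h1
  have hd0 : -d ≠ 0 := by rw [← hdS]; exact hd
  -- the coordinates
  obtain ⟨A, hA⟩ : ∃ A : Matrix (Fin 3) (Fin 3) K, A = (Matrix.of ![(-d / 2) • p, v, r])ᵀ :=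
    ⟨_, rfl⟩
  have hAdet : IsUnit A.det := by
    have h1 : A.det = (-d / 2) * P.det := by
      rw [hA, hP, Matrix.det_transpose, Matrix.det_fin_three, Matrix.det_fin_three]
      simp
      ring
    rw [h1, hPdet, mul_one]
    exact isUnit_iff_ne_zero.2 (div_ne_zero hd0 two_ne_zero)
  refine ⟨A, A⁻¹, -d, hd0, Matrix.mul_nonsing_inv _ hAdet, Matrix.nonsing_inv_mul _ hAdet, ?_⟩
  intro y
  have hAy : A *ᵥ y = (y 0 * (-d / 2)) • p + y 1 • v + y 2 • r := by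
    rw [hA]
    ext i
    simp [Matrix.mulVec, dotProduct, Fin.sum_univ_three]
    ring
  unfold qf
  rw [hAy]
  simp only [Matrix.mulVec_add, Matrix.mulVec_smul, dotProduct_add, add_dotProduct,
    smul_dotProduct, dotProduct_smul, smul_eq_mul, hpp, hpv, hpr, hvp, hvr, hrp, hrv, hrr, ← hdd]
  ring

theorem conic_top {q : ℕ} (a : Sym (Fin 3) q → K) (S A A' : Matrix (Fin 3) (Fin 3) K) (c : K)
    (h : Std S A A' c) (hne : cq a A ≠ 0) :
    ∃ A2 A2', Std S A2 A2' c ∧ form a (A2 *ᵥ ![0, 0, 1]) ≠ 0 := by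
  obtain ⟨n, hn⟩ : ∃ n : ℕ, (cq a A).eval (n : K) ≠ 0 := by
    by_contra hcon
    push Not at hcon
    apply hne
    apply Polynomial.eq_zero_of_infinite_isRoot
    exact (Set.infinite_range_of_injective (Nat.cast_injective (R := K))).mono (by
      rintro _ ⟨m, rfl⟩
      exact hcon m)
  obtain ⟨s, hs⟩ : ∃ s : K, s = (n : K) := ⟨_, rfl⟩
  rw [← hs, cq_eval] at hn
  have e1 : (!![0, 0, 1; 0, 1, s; 1, 2 * s, s ^ 2] : Matrix (Fin 3) (Fin 3) K) *
      !![s ^ 2, -2 * s, 1; -s, 1, 0; 1, 0, 0] = 1 := by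
    ext i j
    fin_cases i <;> fin_cases j <;> simp [Matrix.mul_apply, Fin.sum_univ_three] <;> ring
  have e2 : (!![s ^ 2, -2 * s, 1; -s, 1, 0; 1, 0, 0] : Matrix (Fin 3) (Fin 3) K) *
      !![0, 0, 1; 0, 1, s; 1, 2 * s, s ^ 2] = 1 := mul_eq_one_comm.1 e1
  refine ⟨A * !![0, 0, 1; 0, 1, s; 1, 2 * s, s ^ 2],
    !![s ^ 2, -2 * s, 1; -s, 1, 0; 1, 0, 0] * A', ⟨h.c0, ?_, ?_, ?_⟩, ?_⟩
  · rw [Matrix.mul_assoc, ← Matrix.mul_assoc _ _ A', e1, Matrix.one_mul, h.mul]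
  · rw [Matrix.mul_assoc, ← Matrix.mul_assoc A', h.mul', Matrix.one_mul, e2]
  · intro y
    rw [← Matrix.mulVec_mulVec, h.std]
    simp [Matrix.mulVec, dotProduct, Fin.sum_univ_three]
    left
    ring
  · rw [← Matrix.mulVec_mulVec]
    have e3 : (!![0, 0, 1; 0, 1, s; 1, 2 * s, s ^ 2] : Matrix (Fin 3) (Fin 3) K) *ᵥ ![0, 0, 1] =
        ![1, s, s ^ 2] := by
      ext i
      fin_cases i <;> simp [Matrix.mulVec, dotProduct, Fin.sum_univ_three]
    rw [e3]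
    exact hn

/-- a point with `F ≠ 0` on the conic -/
theorem conic_cq {q : ℕ} (a : Sym (Fin 3) q → K) (S A A' : Matrix (Fin 3) (Fin 3) K) (c : K)
    (h : Std S A A' c) (x : Fin 3 → K) (hx : qf S x = 0) (hne : form a x ≠ 0) :
    cq a A ≠ 0 := by
  obtain ⟨y, hy⟩ : ∃ y, y = A' *ᵥ x := ⟨_, rfl⟩
  have hxy : x = A *ᵥ y := by
    rw [hy, Matrix.mulVec_mulVec, h.mul, Matrix.one_mulVec]
  rw [hxy, h.std, mul_eq_zero] at hx
  have hx' := sub_eq_zero.1 (hx.resolve_left h.c0)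
  intro h0
  apply hne
  by_cases hy0 : y 0 = 0
  · have hy1 : y 1 = 0 := by
      rw [hy0, zero_mul] at hx'
      exact pow_eq_zero_iff (two_ne_zero) |>.1 hx'.symm
    have e : y = y 2 • ![0, 0, 1] := by
      ext i
      fin_cases i
      · simp [hy0]
      · simp [hy1]
      · simp
    rw [hxy, e, Matrix.mulVec_smul, form_scale, ← cq_top, h0, Polynomial.coeff_zero, mul_zero]
  · have e : y = y 0 • ![1, y 1 / y 0, (y 1 / y 0) ^ 2] := by
      ext i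
      fin_cases i
      · simp
      · simp
        field_simp
      · simp
        field_simp
        linear_combination hx'
    rw [hxy, e, Matrix.mulVec_smul, form_scale, ← cq_eval, h0, Polynomial.eval_zero, mul_zero]

end Pool.Agent.Helper74.PQ
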