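import Pool.Agent.Helper74.PQ.HsL

/-!
# PQ-CONICSPLIT: degenerate conics

`S = hs Q ≠ 0` (`hs_ne`), `det S = 0`: `z ≠ 0` with `S z = 0`; `2 Q = qf S` (`hs_eval`). If all zeros
are multiples of `z`: one subspace. Otherwise let `p` be another zero: if all zeros lie in the plane
spanned by `z` and `p`: one subspace. Otherwise let `r` be a zero outside of it; `z, p, r` is a
basis, and `qf S (α z + β p + γ r) = 2 β γ p^T S r` with `p^T S r ≠ 0` (`S ≠ 0`). The two subspaces
spanned by `z, p` and by `z, r`.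
-/

set_option autoImplicit false

namespace Pool.Agent.Helper74.PQ

open scoped BigOperators Matrix
open MvPolynomial

theorem ConicSplit_pair {M : Type*} [Field M] (S : Matrix (Fin 3) (Fin 3) M) (hS : S.IsSymm)
    (u v : Fin 3 → M) : u ⬝ᵥ (S *ᵥ v) = v ⬝ᵥ (S *ᵥ u) := by
  rw [Matrix.dotProduct_mulVec, ← Matrix.mulVec_transpose, hS.eq, dotProduct_comm]

theorem ConicSplit_qf {M : Type*} [Field M] (S : Matrix (Fin 3) (Fin 3) M) (hS : S.IsSymm)
    (z p r : Fin 3 → M) (hz : S *ᵥ z = 0) (hp : qf S p = 0) (hr : qf S r = 0) (α β γ : M) :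
    qf S (α • z + β • p + γ • r) = 2 * (β * γ * (p ⬝ᵥ (S *ᵥ r))) := by
  have h1 : z ⬝ᵥ (S *ᵥ p) = 0 := by rw [ConicSplit_pair S hS, hz, dotProduct_zero]
  have h2 : z ⬝ᵥ (S *ᵥ r) = 0 := by rw [ConicSplit_pair S hS, hz, dotProduct_zero]
  have h3 : r ⬝ᵥ (S *ᵥ p) = p ⬝ᵥ (S *ᵥ r) := ConicSplit_pair S hS r p
  unfold qf at hp hr ⊢
  rw [Matrix.mulVec_add, Matrix.mulVec_add, Matrix.mulVec_smul, Matrix.mulVec_smul,
    Matrix.mulVec_smul, hz, smul_zero, zero_add]
  simp only [add_dotProduct, dotProduct_add, smul_dotProduct, dotProduct_smul, smul_eq_mul,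
    h1, h2, h3, hp, hr]
  ring

theorem ConicSplit_rank {M : Type*} [Field M] (u v : Fin 3 → M) :
    Module.finrank M (Submodule.span M {u, v}) ≤ 2 := by
  classical
  have h1 := finrank_span_finset_le_card (R := M) ({u, v} : Finset (Fin 3 → M))
  rw [Finset.coe_pair] at h1
  exact h1.trans Finset.card_le_two

theorem conic_split {M : Type*} [Field M] [CharZero M] (Q : MvPolynomial (Fin 3) M)
    (hQ : Q.IsHomogeneous 2) (h0 : Q ≠ 0) (hd : (hs Q).det = 0) :
    ∃ Λ : Set (Submodule M (Fin 3 → M)), Λ.Finite ∧ (∀ W ∈ Λ, Module.finrank M W ≤ 2) ∧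
      ∀ y, eval y Q = 0 → ∃ W ∈ Λ, y ∈ W := by
  obtain ⟨z, hz0, hz⟩ := Matrix.exists_mulVec_eq_zero_iff.2 hd
  have hq : ∀ y, eval y Q = 0 ↔ qf (hs Q) y = 0 := by
    intro y
    rw [hs_eval Q hQ y, mul_eq_zero, or_iff_right (two_ne_zero : (2 : M) ≠ 0)]
  by_cases c1 : ∀ y, eval y Q = 0 → y ∈ Submodule.span M {z, z}
  · exact ⟨{Submodule.span M {z, z}}, Set.finite_singleton _, fun W hW => by
      rw [Set.mem_singleton_iff.1 hW]; exact ConicSplit_rank z z, fun y hy => ⟨_, rfl, c1 y hy⟩⟩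
  push Not at c1
  obtain ⟨p, hp, hpz⟩ := c1
  by_cases c2 : ∀ y, eval y Q = 0 → y ∈ Submodule.span M {z, p}
  · exact ⟨{Submodule.span M {z, p}}, Set.finite_singleton _, fun W hW => by
      rw [Set.mem_singleton_iff.1 hW]; exact ConicSplit_rank z p, fun y hy => ⟨_, rfl, c2 y hy⟩⟩
  push Not at c2
  obtain ⟨r, hr, hrz⟩ := c2
  have l1 : Submodule.span M {z, z} < Submodule.span M {z, p} := by
    refine lt_of_le_of_ne (Submodule.span_mono ?_) fun h => hpz ?_
    · intro y hy
      rw [Set.pair_eq_singleton] at hy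
      rw [Set.mem_singleton_iff.1 hy]
      exact Set.mem_insert _ _
    · rw [h]
      exact Submodule.subset_span (Set.mem_insert_of_mem _ rfl)
  have l2 : Submodule.span M {z, p} < Submodule.span M {z, p, r} := by
    refine lt_of_le_of_ne (Submodule.span_mono ?_) fun h => hrz ?_
    · intro y hy
      rcases hy with hy | hy
      · rw [hy]; exact Set.mem_insert _ _
      · rw [Set.mem_singleton_iff.1 hy]; exact Set.mem_insert_of_mem _ (Set.mem_insert _ _)
    · rw [h]
      exact Submodule.subset_span (Set.mem_insert_of_mem _ (Set.mem_insert_of_mem _ rfl))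
  have l0 : (⊥ : Submodule M (Fin 3 → M)) < Submodule.span M {z, z} := by
    rw [bot_lt_iff_ne_bot, Submodule.ne_bot_iff]
    exact ⟨z, Submodule.subset_span (Set.mem_insert _ _), hz0⟩
  have r0 := Submodule.finrank_lt_finrank_of_lt l0
  have r1 := Submodule.finrank_lt_finrank_of_lt l1
  have r2 := Submodule.finrank_lt_finrank_of_lt l2
  have htop : Submodule.span M {z, p, r} = ⊤ := by
    refine Submodule.eq_top_of_finrank_eq (le_antisymm (Submodule.finrank_le _) ?_)
    rw [Module.finrank_fintype_fun_eq_card, Fintype.card_fin]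
    omega
  have hall : ∀ y, ∃ α β γ : M, α • z + β • p + γ • r = y := by
    intro y
    have hy : y ∈ Submodule.span M {z, p, r} := htop ▸ Submodule.mem_top
    exact Submodule.mem_span_triple.1 hy
  have hne : p ⬝ᵥ (hs Q *ᵥ r) ≠ 0 := by
    intro h
    apply h0
    refine MvPolynomial.funext fun y => ?_
    obtain ⟨α, β, γ, rfl⟩ := hall y
    rw [map_zero, hq, ConicSplit_qf (hs Q) (hs_symm Q) z p r hz ((hq p).1 hp) ((hq r).1 hr), h,
      mul_zero, mul_zero]
  refine ⟨{Submodule.span M {z, p}, Submodule.span M {z, r}}, Set.toFinite _, fun W hW => ?_,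
    fun y hy => ?_⟩
  · rcases hW with hW | hW
    · rw [hW]; exact ConicSplit_rank z p
    · rw [Set.mem_singleton_iff.1 hW]; exact ConicSplit_rank z r
  · obtain ⟨α, β, γ, rfl⟩ := hall y
    rw [hq, ConicSplit_qf (hs Q) (hs_symm Q) z p r hz ((hq p).1 hp) ((hq r).1 hr), mul_eq_zero,
      or_iff_right (two_ne_zero : (2 : M) ≠ 0), mul_eq_zero, or_iff_left hne, mul_eq_zero] at hy
    rcases hy with hy | hy
    · refine ⟨_, Set.mem_insert_of_mem _ rfl, Submodule.mem_span_pair.2 ⟨α, γ, ?_⟩⟩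
      rw [hy, zero_smul, add_zero]
    · refine ⟨_, Set.mem_insert _ _, Submodule.mem_span_pair.2 ⟨α, β, ?_⟩⟩
      rw [hy, zero_smul, add_zero]

end Pool.Agent.Helper74.PQ
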