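import Pool.Agent.Helper74.PQ.ConicNF
import Pool.Agent.Helper10.LB.DerExt

/-!
# PQ-CONICSTD: standard coordinates over a finite extension

`S` over `B` has a zero `p ≠ 0` with coordinates algebraic over `B` in a finite extension `K` of
`Ω`: if `S_00 = 0` take `p = (1, 0, 0)`, otherwise `p = (t, 1, 0)` with
`S_00 t^2 + 2 S_01 t + S_11 = 0` in the splitting field `K` of this polynomial over `Ω`. Let `B'` be
the algebraic closure of `B` in `K` (an intermediate field): `conic_nf` over the field `B'` gives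
`A, A', c` over `B'`; `cq a A ≠ 0` (over `B'`) because it is not zero over `K` (`conic_cq` with the
point `x`, `cq_map`); `conic_top` over `B'`; map to `K`.
-/

set_option autoImplicit false

namespace Pool.Agent.Helper74.PQ

open scoped BigOperators Matrix
open MvPolynomial
open Pool.Agent.Helper8.LG (form mon)

universe u

private theorem ConicStd_quad {K : Type*} [Field K] (T : Matrix (Fin 3) (Fin 3) K)
    (y : Fin 3 → K) : y ⬝ᵥ (T *ᵥ y) = T 0 0 * y 0 ^ 2 + T 1 1 * y 1 ^ 2 + T 2 2 * y 2 ^ 2 +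
      (T 0 1 + T 1 0) * (y 0 * y 1) + (T 0 2 + T 2 0) * (y 0 * y 2) +
      (T 1 2 + T 2 1) * (y 1 * y 2) := by
  simp only [Matrix.mulVec, dotProduct, Fin.sum_univ_three]
  ring

private theorem ConicStd_conj {K : Type*} [Field K] (S A : Matrix (Fin 3) (Fin 3) K)
    (y : Fin 3 → K) : qf S (A *ᵥ y) = y ⬝ᵥ ((Aᵀ * S * A) *ᵥ y) := by
  unfold qf
  rw [← Matrix.mulVec_mulVec, ← Matrix.mulVec_mulVec, Matrix.dotProduct_mulVec y Aᵀ,
    Matrix.vecMul_transpose]

/-- standard coordinates over a larger field -/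
private theorem ConicStd_map {K L : Type*} [Field K] [Field L] (φ : K →+* L)
    (S A A' : Matrix (Fin 3) (Fin 3) K) (c : K) (h : Std S A A' c) :
    Std (S.map φ) (A.map φ) (A'.map φ) (φ c) := by
  obtain ⟨T, hT⟩ : ∃ T, T = Aᵀ * S * A := ⟨_, rfl⟩
  have hstd : ∀ y : Fin 3 → K, T 0 0 * y 0 ^ 2 + T 1 1 * y 1 ^ 2 + T 2 2 * y 2 ^ 2 +
      (T 0 1 + T 1 0) * (y 0 * y 1) + (T 0 2 + T 2 0) * (y 0 * y 2) +
      (T 1 2 + T 2 1) * (y 1 * y 2) = c * (y 0 * y 2 - y 1 ^ 2) := by
    intro y
    rw [← ConicStd_quad, hT, ← ConicStd_conj, h.std]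
  have h0 := hstd ![1, 0, 0]
  have h1 := hstd ![0, 1, 0]
  have h2 := hstd ![0, 0, 1]
  have h01 := hstd ![1, 1, 0]
  have h02 := hstd ![1, 0, 1]
  have h12 := hstd ![0, 1, 1]
  simp only [Matrix.cons_val_zero, Matrix.cons_val_one, Matrix.cons_val] at h0 h1 h2 h01 h02 h12
  have e00 : T 0 0 = 0 := by linear_combination h0
  have e11 : T 1 1 = -c := by linear_combination h1
  have e22 : T 2 2 = 0 := by linear_combination h2
  have e01 : T 0 1 + T 1 0 = 0 := by linear_combination h01 - e00 - e11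
  have e02 : T 0 2 + T 2 0 = c := by linear_combination h02 - e00 - e22
  have e12 : T 1 2 + T 2 1 = 0 := by linear_combination h12 - e11 - e22
  have hTm : (A.map φ)ᵀ * (S.map φ) * (A.map φ) = T.map φ := by
    rw [hT, Matrix.map_mul, Matrix.map_mul, Matrix.transpose_map]
  refine ⟨(map_ne_zero φ).2 h.c0, ?_, ?_, ?_⟩
  · rw [← Matrix.map_mul, h.mul, Matrix.map_one _ (map_zero φ) (map_one φ)]
  · rw [← Matrix.map_mul, h.mul', Matrix.map_one _ (map_zero φ) (map_one φ)]
  · intro y
    rw [ConicStd_conj, hTm, ConicStd_quad]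
    simp only [Matrix.map_apply]
    rw [← map_add, ← map_add, ← map_add, e00, e11, e22, e01, e02, e12, map_zero, map_neg]
    ring

/-- a root in a finite extension -/
private theorem ConicStd_root {Ω : Type u} [Field Ω] (f : Polynomial Ω) (hf : f.natDegree = 2) :
    ∃ (K : Type u) (_ : Field K) (_ : Algebra Ω K) (_ : FiniteDimensional Ω K) (t : K),
      Polynomial.aeval t f = 0 := by
  obtain ⟨t, ht⟩ := (Polynomial.SplittingField.splits f).exists_eval_eq_zero (by
    rw [Polynomial.degree_map]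
    intro h
    rw [Polynomial.natDegree_eq_of_degree_eq_some h] at hf
    exact absurd hf (by norm_num))
  exact ⟨f.SplittingField, inferInstance, inferInstance, inferInstance, t,
    by rw [Polynomial.aeval_def, Polynomial.eval₂_eq_eval_map, ht]⟩

/-- a zero with algebraic coordinates in a finite extension -/
private theorem ConicStd_point {Ω : Type u} [Field Ω] (B : Subfield Ω)
    (S : Matrix (Fin 3) (Fin 3) Ω) (hS : S.IsSymm) (hSB : ∀ i j, S i j ∈ B) :
    ∃ (K : Type u) (_ : Field K) (_ : Algebra Ω K) (_ : FiniteDimensional Ω K) (p : Fin 3 → K),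
      p ≠ 0 ∧ qf (S.map (algebraMap Ω K)) p = 0 ∧ ∀ i, IsAlgebraic B (p i) := by
  have h10 : S 1 0 = S 0 1 := hS.apply 0 1
  by_cases h0 : S 0 0 = 0
  · refine ⟨Ω, inferInstance, inferInstance, inferInstance, ![1, 0, 0], ?_, ?_, ?_⟩
    · intro h
      exact one_ne_zero (congrFun h 0)
    · rw [qf, ConicStd_quad]
      simp [h0]
    · intro i
      fin_cases i
      · exact isAlgebraic_one
      · exact isAlgebraic_zero
      · exact isAlgebraic_zero
  · obtain ⟨g, hg⟩ : ∃ g : Polynomial B, g = Polynomial.C ⟨S 0 0, hSB 0 0⟩ * Polynomial.X ^ 2 +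
      Polynomial.C (⟨S 0 1, hSB 0 1⟩ + ⟨S 0 1, hSB 0 1⟩) * Polynomial.X +
      Polynomial.C ⟨S 1 1, hSB 1 1⟩ := ⟨_, rfl⟩
    have hgd : g.natDegree = 2 := by
      rw [hg]
      exact Polynomial.natDegree_quadratic (by
        intro h
        exact h0 (congrArg Subtype.val h))
    have hg0 : g ≠ 0 := by
      intro h
      rw [h, Polynomial.natDegree_zero] at hgd
      exact absurd hgd (by norm_num)
    obtain ⟨f, hf⟩ : ∃ f : Polynomial Ω, f = g.map B.subtype := ⟨_, rfl⟩
    have hfd : f.natDegree = 2 := by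
      rw [hf, Polynomial.natDegree_map, hgd]
    obtain ⟨K, _, _, _, t, ht⟩ := ConicStd_root f hfd
    refine ⟨K, inferInstance, inferInstance, inferInstance, ?_⟩
    have htg : Polynomial.aeval t g = 0 := by
      rw [← ht, hf, ← Polynomial.aeval_map_algebraMap Ω]
      rfl
    have hteq : algebraMap Ω K (S 0 0) * t ^ 2 +
        (algebraMap Ω K (S 0 1) + algebraMap Ω K (S 0 1)) * t +
        algebraMap Ω K (S 1 1) = 0 := by
      rw [← map_add, ← ht, hf, hg]
      simp
    refine ⟨![t, 1, 0], ?_, ?_, ?_⟩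
    · intro h
      exact one_ne_zero (congrFun h 1)
    · rw [qf, ConicStd_quad]
      simp only [Matrix.map_apply, h10, Matrix.cons_val_zero, Matrix.cons_val_one, Matrix.cons_val]
      linear_combination hteq
    · intro i
      fin_cases i
      · exact ⟨g, hg0, htg⟩
      · exact isAlgebraic_one
      · exact isAlgebraic_zero

theorem conic_std {Ω : Type u} [Field Ω] [CharZero Ω] (B : Subfield Ω) {q : ℕ}
    (a : Sym (Fin 3) q → Ω) (ha : ∀ J, a J ∈ B) (S : Matrix (Fin 3) (Fin 3) Ω)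
    (hS : S.IsSymm) (hSB : ∀ i j, S i j ∈ B) (hd : S.det ≠ 0) (x : Fin 3 → Ω)
    (hx : qf S x = 0) (hne : form a x ≠ 0) :
    ∃ (K : Type u) (_ : Field K) (_ : Algebra Ω K) (_ : FiniteDimensional Ω K)
      (A A' : Matrix (Fin 3) (Fin 3) K) (c : K), Std (S.map (algebraMap Ω K)) A A' c ∧
      (∀ i j, IsAlgebraic B (A i j)) ∧ (∀ i j, IsAlgebraic B (A' i j)) ∧
      form (fun J => algebraMap Ω K (a J)) (A *ᵥ ![0, 0, 1]) ≠ 0 := by
  obtain ⟨K, _, _, _, p, hp, hpS, hpB⟩ := ConicStd_point B S hS hSB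
  have : CharZero K := charZero_of_injective_algebraMap (algebraMap Ω K).injective
  have hmem : ∀ z : Ω, z ∈ B → algebraMap Ω K z ∈ algebraicClosure B K := by
    intro z hz
    rw [mem_algebraicClosure_iff]
    exact isAlgebraic_algebraMap (⟨z, hz⟩ : B)
  obtain ⟨φ, hφ⟩ : ∃ φ : algebraicClosure B K →+* K, ∀ z, φ z = (z : K) :=
    ⟨algebraMap _ K, fun z => rfl⟩
  obtain ⟨S', hS'⟩ : ∃ S' : Matrix (Fin 3) (Fin 3) (algebraicClosure B K),
      S'.map φ = S.map (algebraMap Ω K) := by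
    refine ⟨Matrix.of fun i j => ⟨algebraMap Ω K (S i j), hmem _ (hSB i j)⟩, ?_⟩
    ext i j
    rw [Matrix.map_apply, hφ]
    rfl
  obtain ⟨a', ha'⟩ : ∃ a' : Sym (Fin 3) q → algebraicClosure B K,
      ∀ J, φ (a' J) = algebraMap Ω K (a J) :=
    ⟨fun J => ⟨algebraMap Ω K (a J), hmem _ (ha J)⟩, fun J => hφ _⟩
  obtain ⟨p', hp'⟩ : ∃ p' : Fin 3 → algebraicClosure B K, ∀ i, φ (p' i) = p i :=
    ⟨fun i => ⟨p i, mem_algebraicClosure_iff.2 (hpB i)⟩, fun i => hφ _⟩
  have hinj : Function.Injective φ := φ.injective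
  have hSs : S'.IsSymm := by
    apply Matrix.IsSymm.ext
    intro i j
    apply hinj
    have h1 := congrFun (congrFun hS' i) j
    have h2 := congrFun (congrFun hS' j) i
    rw [Matrix.map_apply, Matrix.map_apply] at h1 h2
    rw [h1, h2, hS.apply]
  have hdS : S'.det ≠ 0 := by
    intro h
    apply hd
    have h1 : φ S'.det = (S'.map φ).det := RingHom.map_det φ S'
    have h2 : algebraMap Ω K S.det = (S.map (algebraMap Ω K)).det :=
      RingHom.map_det (algebraMap Ω K) S
    rw [h, hS', ← h2, map_zero] at h1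
    exact (map_eq_zero _).1 h1.symm
  have hp0 : p' ≠ 0 := by
    intro h
    apply hp
    funext i
    rw [← hp', h]
    simp
  have hpq : qf S' p' = 0 := by
    apply hinj
    rw [← qf_map, hS', map_zero, ← hpS]
    congr 1
    funext i
    exact hp' i
  obtain ⟨A, A', c, hA⟩ := conic_nf S' hSs hdS p' hp0 hpq
  have hA1 := ConicStd_map φ S' A A' c hA
  have hcq : cq a' A ≠ 0 := by
    intro h
    have h1 := cq_map φ a' A
    rw [h, Polynomial.map_zero] at h1
    refine conic_cq (fun J => φ (a' J)) (S'.map φ) (A.map φ) (A'.map φ) (φ c) hA1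
      (fun i => algebraMap Ω K (x i)) ?_ ?_ h1.symm
    · rw [hS', qf_map, hx, map_zero]
    · rw [funext ha', ← Pool.Agent.Helper10.LB.pd_map_form]
      exact (map_ne_zero _).2 hne
  obtain ⟨A2, A2', hA2, hne2⟩ := conic_top a' S' A A' c hA hcq
  refine ⟨K, inferInstance, inferInstance, inferInstance, A2.map φ, A2'.map φ, φ c, ?_, ?_, ?_, ?_⟩
  · rw [← hS']
    exact ConicStd_map φ S' A2 A2' c hA2
  · intro i j
    rw [Matrix.map_apply, hφ]
    exact mem_algebraicClosure_iff.1 (A2 i j).2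
  · intro i j
    rw [Matrix.map_apply, hφ]
    exact mem_algebraicClosure_iff.1 (A2' i j).2
  · have h1 : (A2.map φ) *ᵥ ![0, 0, 1] = fun i => φ ((A2 *ᵥ ![0, 0, 1]) i) := by
      funext i
      simp [Matrix.mulVec, dotProduct, Fin.sum_univ_three]
    rw [h1, ← funext ha', ← Pool.Agent.Helper10.LB.pd_map_form]
    exact (map_ne_zero _).2 hne2

end Pool.Agent.Helper74.PQ
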