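import Pool.Agent.Helper74.Q8.Defs

/-!
# PQ: the complement of a generic plane quartic, definitions

The degree `q` is a VARIABLE in all statements (`q = 4` is a field of `PtL`); keep it a variable in
all proofs.

`LFrame D a B x`: a field with derivations `D_J` dual to the coefficients `a_J` of the form `F` of
degree `q`, a subfield `B`, and a point `x`; everything which is bounded, up to a power of `Δ`, at
all valuation rings where `Δ` bounds the derivations, finitely many elements of `B` and the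
logarithmic derivatives of `F(x / x_m)` (`x_m` a maximal coordinate) lies in `B`.

`et f = D_f x - (1/q) (D_f F(x) / F(x)) x`, where `D_f = ∑_J f_J D_J` (only the part of degree `q`
of `f` matters). `gr` is the gradient of `F` at `x`: `gr . et f = - f(x)`, `gr . x = q F(x)`.

`WA .. C m e y`: `y` has weight (at most) `e` at the valuation rings with property `C` at which
`x_m` is a maximal coordinate: `y / x_m^e` is bounded there by a power of `Δ`. The components of
`et f`, `f` with coefficients in `B`, and the coordinates of `x` have weight `1`.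

`Ln B x`: there is a rational line through `x`. `Small`: all `et (P l)`, `l` a linear form vanishing
at `x`, are multiples of one vector. `Eqv`: `et (X_j ∂F/∂X_i) = - x_j e_i`.

`lw x i`, `i = 0, 1`: the linear forms `X_(i+1) - x_(i+1) X_0` (for `x_0 = 1`); `gg P` is the
determinant with rows `et (P lw_0)`, `et (P lw_1)`, `et (X_0^q)`; `um θ P` the matrices
`θ_j (et (P lw_i))`.

`Cnc`: `x` lies on the rational conic `Q = 0` and `D_J x` is given by rational matrices.
-/

set_option autoImplicit false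

namespace Pool.Agent.Helper74.PQ

open scoped BigOperators
open MvPolynomial
open Pool.Agent.Helper8.LG (Bdd RowBdd form mon)
open Pool.Agent.Helper49.LN (cP mo hf pl)
open Pool.Agent.Helper6.QS
open Pool.Agent.Helper74.Q8 (rr)

section general

variable {Ω : Type*} [Field Ω] {σ : Type*} [Fintype σ] [DecidableEq σ] {q : ℕ}

/-- the frame of a point `x` of the complement of the hypersurface -/
structure LFrame (D : Sym σ q → Derivation ℤ Ω Ω) (a : Sym σ q → Ω) (B : Subfield Ω)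
    (x : σ → Ω) : Prop where
  dual : ∀ I J, D J (a I) = if I = J then 1 else 0
  mem : ∀ J, a J ∈ B
  rat : ∀ (s : Finset Ω), (∀ b ∈ s, b ∈ B) → ∀ (y : Ω) (M : ℕ),
    (∀ (O : ValuationSubring Ω) (Δ : Ω), Bdd D Δ O → (∀ b ∈ s, Δ * b ∈ O) →
      RowBdd D Δ O x (form a) 1 0 → Δ ^ M * y ∈ O) → y ∈ B

/-- `y` has weight at most `e` at the valuation rings with property `C` at which `x_m` is a maximal
coordinate -/
def WA (D : Sym σ q → Derivation ℤ Ω Ω) (a : Sym σ q → Ω) (B : Subfield Ω) (x : σ → Ω)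
    (C : ValuationSubring Ω → Prop) (m : σ) (e : ℤ) (y : Ω) : Prop :=
  ∃ s : Finset Ω, (∀ b ∈ s, b ∈ B) ∧ ∃ M : ℕ, ∀ (O : ValuationSubring Ω) (Δ : Ω), Bdd D Δ O →
    (∀ b ∈ s, Δ * b ∈ O) → RowBdd D Δ O x (form a) 1 0 → (∀ l, x l / x m ∈ O) → C O →
    Δ ^ M * (y * x m ^ (-e)) ∈ O

/-- `D_f x - (1/q) (D_f F(x) / F(x)) x` -/
noncomputable def et (D : Sym σ q → Derivation ℤ Ω Ω) (a : Sym σ q → Ω) (x : σ → Ω) :
    MvPolynomial σ Ω →ₗ[Ω] (σ → Ω) :=
  cP fun J l => D J (x l) - (q : Ω)⁻¹ * (D J (form a x) / form a x) * x l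

/-- the polynomial `F` -/
noncomputable def Fp (a : Sym σ q → Ω) : MvPolynomial σ Ω :=
  ∑ J : Sym σ q, a J • mo Ω (J : Multiset σ)

/-- the gradient of `F` at `x` -/
noncomputable def gr (a : Sym σ q → Ω) (x : σ → Ω) : σ → Ω := fun l => eval x (pderiv l (Fp a))

/-- there is a rational line through `x` -/
def Ln (B : Subfield Ω) (x : σ → Ω) : Prop := ∃ h : σ → Ω, h ≠ 0 ∧ (∀ i, h i ∈ B) ∧ dt h x = 0

/-- the small case -/
def Small (D : Sym σ q → Derivation ℤ Ω Ω) (a : Sym σ q → Ω) (x : σ → Ω) : Prop :=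
  ∃ u : σ → Ω, ∀ (P : MvPolynomial σ Ω) (l : σ → Ω), dt l x = 0 →
    ∃ c : Ω, et D a x (P * lf l) = c • u

/-- the equivariant case -/
def Eqv (D : Sym σ q → Derivation ℤ Ω Ω) (a : Sym σ q → Ω) (x : σ → Ω) : Prop :=
  ∀ i j, et D a x (X j * pderiv i (Fp a)) = - Pi.single i (x j)

end general

variable {Ω : Type*} [Field Ω] {q : ℕ}

/-- the point `x` -/
structure PtL (D : Sym (Fin 3) q → Derivation ℤ Ω Ω) (a : Sym (Fin 3) q → Ω) (B : Subfield Ω)
    (x : Fin 3 → Ω) : Prop where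
  hq : q = 4
  frame : LFrame D a B x
  one : x 0 = 1
  ne : form a x ≠ 0

/-- the linear forms `x_0 X_(i+1) - x_(i+1) X_0` -/
def lw (x : Fin 3 → Ω) (i : Fin 2) : Fin 3 → Ω := rr x 0 i.succ

/-- the determinant of `et (P lw_0)`, `et (P lw_1)`, `et (X_0^q)` -/
noncomputable def gg (D : Sym (Fin 3) q → Derivation ℤ Ω Ω) (a : Sym (Fin 3) q → Ω)
    (x : Fin 3 → Ω) (P : MvPolynomial (Fin 3) Ω) : Ω :=
  Matrix.det (Matrix.of ![et D a x (P * lf (lw x 0)), et D a x (P * lf (lw x 1)),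
    et D a x (X 0 ^ q)])

/-- the matrices `θ_j (et (P lw_i))` -/
noncomputable def um (D : Sym (Fin 3) q → Derivation ℤ Ω Ω) (a : Sym (Fin 3) q → Ω)
    (x : Fin 3 → Ω) (θ : Fin 2 → Fin 3 → Ω) :
    MvPolynomial (Fin 3) Ω →ₗ[Ω] Matrix (Fin 2) (Fin 2) Ω where
  toFun P := Matrix.of fun i j => dt (θ j) (et D a x (P * lf (lw x i)))
  map_add' P P' := by
    ext i j
    show dt (θ j) (et D a x ((P + P') * lf (lw x i))) =
      dt (θ j) (et D a x (P * lf (lw x i))) + dt (θ j) (et D a x (P' * lf (lw x i)))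
    rw [add_mul, map_add, Pool.Agent.Helper74.Q8.dt_add']
  map_smul' c P := by
    ext i j
    show dt (θ j) (et D a x ((c • P) * lf (lw x i))) = c * dt (θ j) (et D a x (P * lf (lw x i)))
    rw [smul_mul_assoc, map_smul, Pool.Agent.Helper74.Q8.dt_smul']

theorem um_apply (D : Sym (Fin 3) q → Derivation ℤ Ω Ω) (a : Sym (Fin 3) q → Ω)
    (x : Fin 3 → Ω) (θ : Fin 2 → Fin 3 → Ω) (P : MvPolynomial (Fin 3) Ω) (i j : Fin 2) :
    um D a x θ P i j = dt (θ j) (et D a x (P * lf (lw x i))) := rfl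

/-- the family of matrices: `1` and the matrices of the monomials -/
noncomputable def fam (D : Sym (Fin 3) q → Derivation ℤ Ω Ω) (a : Sym (Fin 3) q → Ω)
    (x : Fin 3 → Ω) (θ : Fin 2 → Fin 3 → Ω) : Option (Fin 3 →₀ ℕ) → Matrix (Fin 2) (Fin 2) Ω
  | none => 1
  | some p => um D a x θ (monomial p 1)

/-- **The matrices.** `θ_j` are the coordinates of `gr^⊥` in the basis `et (P_1 lw_0)`,
`et (P_1 lw_1)`. -/
structure MtL (D : Sym (Fin 3) q → Derivation ℤ Ω Ω) (a : Sym (Fin 3) q → Ω) (B : Subfield Ω)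
    (x : Fin 3 → Ω) (θ : Fin 2 → Fin 3 → Ω) (P1 : MvPolynomial (Fin 3) Ω) : Prop where
  pt : PtL D a B x
  r1 : RatP B P1
  tp : ∀ v, dt (gr a x) v = 0 → (∀ j, dt (θ j) v = 0) → v = 0
  a1 : um D a x θ P1 = 1
  det : ∀ P, RatP B P → (um D a x θ P).det ∈ B

/-- `x` lies on the rational conic `Q = 0` and its derivatives are given by rational matrices -/
structure Cnc (D : Sym (Fin 3) q → Derivation ℤ Ω Ω) (a : Sym (Fin 3) q → Ω) (B : Subfield Ω)
    (x : Fin 3 → Ω) (Q : MvPolynomial (Fin 3) Ω) : Prop where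
  hom : Q.IsHomogeneous 2
  ne : Q ≠ 0
  rat : RatP B Q
  zero : eval x Q = 0
  conn : ∀ J : Sym (Fin 3) q, ∃ c : Matrix (Fin 3) (Fin 3) Ω, (∀ i j, c i j ∈ B) ∧
    et D a x (mo Ω (J : Multiset (Fin 3))) = - c.mulVec x

universe u

/-- **The first key statement**: when all constants are rational, there is a rational line through
the point. -/
def KeyC (q : ℕ) : Prop :=
  ∀ (Ω : Type u) [Field Ω] [CharZero Ω] (D : Sym (Fin 3) q → Derivation ℤ Ω Ω)
    (a : Sym (Fin 3) q → Ω) (B : Subfield Ω) (x : Fin 3 → Ω), PtL D a B x →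
    (∀ c : Ω, (∀ J, D J c = 0) → c ∈ B) → Ln B x

/-- **The second key statement**: the point lies on a rational conic. -/
def KeyD (q : ℕ) : Prop :=
  ∀ (Ω : Type u) [Field Ω] [CharZero Ω] (D : Sym (Fin 3) q → Derivation ℤ Ω Ω)
    (a : Sym (Fin 3) q → Ω) (B : Subfield Ω) (x : Fin 3 → Ω), PtL D a B x →
    ∃ Q : MvPolynomial (Fin 3) Ω, Q.IsHomogeneous 2 ∧ Q ≠ 0 ∧ RatP B Q ∧ eval x Q = 0

end Pool.Agent.Helper74.PQ
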