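import Pool.Agent.Helper74.PQ.ConDefs

/-!
# PQ-HSL: the Hessian matrix, the polynomial `cq`

`hs_eval`: linearity, monomials of degree two. `cq_eval`: `pd_map_form` of
`Helper10/LB/PolyD.lean`, as `lf_eval`; `cq_deg`, `cq_top` as `lf_natDegree_le`, `lf_coeff_top`;
`cq_map` as `lf_map`. `cq_hom`: for `s ≠ 0` homogeneity, `s = 0` by `cq_top`.
-/

set_option autoImplicit false

namespace Pool.Agent.Helper74.PQ

open scoped BigOperators Matrix
open MvPolynomial
open Pool.Agent.Helper8.LG (form mon)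

variable {K : Type*} [Field K]

private theorem HsL_comm (Q : MvPolynomial (Fin 3) K) (i j : Fin 3) :
    pderiv i (pderiv j Q) = pderiv j (pderiv i Q) := by
  have h : ⁅pderiv (R := K) (σ := Fin 3) i, pderiv (R := K) (σ := Fin 3) j⁆ = 0 := by
    refine MvPolynomial.derivation_ext fun k => ?_
    rw [Derivation.commutator_apply, pderiv_X, pderiv_X, Derivation.zero_apply]
    have h1 : ∀ (l : Fin 3) (u v : Fin 3), pderiv u ((Pi.single v (1 : MvPolynomial (Fin 3) K) :
        Fin 3 → MvPolynomial (Fin 3) K) l) = 0 := by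
      intro l u v
      rw [Pi.single_apply]
      split_ifs
      · exact pderiv_one
      · exact map_zero _
    rw [h1, h1, sub_zero]
  have h2 := congrArg (fun d => d Q) h
  simp only [Derivation.commutator_apply, Derivation.zero_apply] at h2
  exact sub_eq_zero.mp h2

theorem hs_symm (Q : MvPolynomial (Fin 3) K) : (hs Q).IsSymm := by
  ext i j
  show coeff 0 (pderiv j (pderiv i Q)) = coeff 0 (pderiv i (pderiv j Q))
  rw [HsL_comm]

theorem hs_eval (Q : MvPolynomial (Fin 3) K) (hQ : Q.IsHomogeneous 2) (y : Fin 3 → K) :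
    qf (hs Q) y = 2 * eval y Q := by
  have h1 : ∑ j, y j * eval y (pderiv j Q) = 2 * eval y Q := by
    have h := congrArg (eval y) hQ.sum_X_mul_pderiv
    rw [map_sum] at h
    simp only [map_mul, eval_X, nsmul_eq_mul, map_natCast] at h
    rw [h]
    norm_num
  have h2 : ∀ j, ∑ i, y i * coeff 0 (pderiv i (pderiv j Q)) = eval y (pderiv j Q) := by
    intro j
    have hj : (pderiv j Q).IsHomogeneous 1 := hQ.pderiv
    have h := congrArg (eval y) hj.sum_X_mul_pderiv
    rw [map_sum] at h
    simp only [map_mul, eval_X, one_smul] at h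
    rw [← h]
    refine Finset.sum_congr rfl fun i _ => ?_
    have hi : (pderiv i (pderiv j Q)).IsHomogeneous 0 := hj.pderiv
    have hc : pderiv i (pderiv j Q) = C (coeff 0 (pderiv i (pderiv j Q))) :=
      totalDegree_eq_zero_iff_eq_C.mp (Nat.le_zero.mp hi.totalDegree_le)
    conv_rhs => rw [hc, eval_C]
  rw [← h1]
  unfold qf
  simp only [dotProduct, Matrix.mulVec]
  have h3 : ∀ i, ∑ j, hs Q i j * y j = eval y (pderiv i Q) := by
    intro i
    rw [← h2 i]
    refine Finset.sum_congr rfl fun j _ => ?_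
    show coeff 0 (pderiv i (pderiv j Q)) * y j = _
    rw [HsL_comm, mul_comm]
  refine Finset.sum_congr rfl fun i _ => ?_
  rw [h3]

theorem hs_ne [CharZero K] (Q : MvPolynomial (Fin 3) K) (hQ : Q.IsHomogeneous 2) (h0 : Q ≠ 0) :
    hs Q ≠ 0 := by
  intro h
  refine h0 (MvPolynomial.funext fun y => ?_)
  have h1 := hs_eval Q hQ y
  rw [h] at h1
  have h2 : qf (0 : Matrix (Fin 3) (Fin 3) K) y = 0 := by
    unfold qf
    rw [Matrix.zero_mulVec, dotProduct_zero]
  rw [h2] at h1
  rw [map_zero]
  exact (mul_eq_zero.mp h1.symm).resolve_left two_ne_zero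

theorem hs_mem (B : Subfield K) (Q : MvPolynomial (Fin 3) K)
    (hQ : Pool.Agent.Helper6.QS.RatP B Q) (i j : Fin 3) : hs Q i j ∈ B := by
  exact ratP_pderiv (ratP_pderiv hQ j) i 0

theorem qf_smul (S : Matrix (Fin 3) (Fin 3) K) (c : K) (y : Fin 3 → K) :
    qf S (c • y) = c ^ 2 * qf S y := by
  unfold qf
  rw [Matrix.mulVec_smul, dotProduct_smul, smul_dotProduct, smul_eq_mul, smul_eq_mul]
  ring

theorem qf_map {L : Type*} [Field L] (φ : K →+* L) (S : Matrix (Fin 3) (Fin 3) K)
    (y : Fin 3 → K) : qf (S.map φ) (fun i => φ (y i)) = φ (qf S y) := by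
  unfold qf
  simp only [dotProduct, Matrix.mulVec, Matrix.map_apply, map_sum, map_mul]

private theorem HsL_mulVec {R : Type*} [CommRing R] (A : Matrix (Fin 3) (Fin 3) R) (u v w : R)
    (l : Fin 3) : (A *ᵥ ![u, v, w]) l = A l 0 * u + A l 1 * v + A l 2 * w := by
  simp [Matrix.mulVec, dotProduct, Fin.sum_univ_three]

/-- the product of the quadratic factors over a multiset -/
private theorem HsL_prod (u v w : Fin 3 → K) (s : Multiset (Fin 3)) :
    ((s.map fun l => Polynomial.C (u l) + Polynomial.X * Polynomial.C (v l) +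
        Polynomial.X ^ 2 * Polynomial.C (w l)).prod).natDegree ≤ 2 * s.card ∧
      ((s.map fun l => Polynomial.C (u l) + Polynomial.X * Polynomial.C (v l) +
        Polynomial.X ^ 2 * Polynomial.C (w l)).prod).coeff (2 * s.card) = (s.map w).prod := by
  have hlin : ∀ l, (Polynomial.C (u l) + Polynomial.X * Polynomial.C (v l) +
      Polynomial.X ^ 2 * Polynomial.C (w l)).natDegree ≤ 2 := by
    intro l
    refine Polynomial.natDegree_add_le_of_degree_le
      (Polynomial.natDegree_add_le_of_degree_le ?_ ?_) ?_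
    · rw [Polynomial.natDegree_C]
      exact Nat.zero_le _
    · refine (Polynomial.natDegree_mul_C_le _ _).trans ?_
      exact Polynomial.natDegree_X_le.trans (by norm_num)
    · refine (Polynomial.natDegree_mul_C_le _ _).trans ?_
      exact Polynomial.natDegree_X_pow_le 2
  have hco : ∀ l, (Polynomial.C (u l) + Polynomial.X * Polynomial.C (v l) +
      Polynomial.X ^ 2 * Polynomial.C (w l)).coeff 2 = w l := by
    intro l
    rw [Polynomial.coeff_add, Polynomial.coeff_add, Polynomial.coeff_mul_C,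
      Polynomial.coeff_mul_C, Polynomial.coeff_C, Polynomial.coeff_X_pow, Polynomial.coeff_X]
    simp
  induction s using Multiset.induction_on with
  | empty => simp
  | cons b s ih =>
    obtain ⟨i1, i2⟩ := ih
    rw [Multiset.map_cons, Multiset.prod_cons, Multiset.card_cons,
      show 2 * (s.card + 1) = 2 + 2 * s.card by ring, Multiset.map_cons, Multiset.prod_cons]
    refine ⟨Polynomial.natDegree_mul_le_of_le (hlin b) i1, ?_⟩
    rw [Polynomial.coeff_mul_add_eq_of_natDegree_le (hlin b) i1, hco, i2]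

theorem cq_eval {q : ℕ} (a : Sym (Fin 3) q → K) (A : Matrix (Fin 3) (Fin 3) K) (s : K) :
    (cq a A).eval s = form a (A *ᵥ ![1, s, s ^ 2]) := by
  have h := Pool.Agent.Helper10.LB.pd_map_form (Polynomial.evalRingHom s)
    (fun J => Polynomial.C (a J)) fun l => Polynomial.C (A l 0) +
    Polynomial.X * Polynomial.C (A l 1) + Polynomial.X ^ 2 * Polynomial.C (A l 2)
  unfold cq
  rw [← Polynomial.coe_evalRingHom, h]
  simp only [Polynomial.coe_evalRingHom, Polynomial.eval_C, Polynomial.eval_add,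
    Polynomial.eval_mul, Polynomial.eval_X, Polynomial.eval_pow]
  congr 1
  funext l
  rw [HsL_mulVec]
  ring

theorem cq_deg {q : ℕ} (a : Sym (Fin 3) q → K) (A : Matrix (Fin 3) (Fin 3) K) :
    (cq a A).natDegree ≤ 2 * q := by
  unfold cq form mon
  refine Polynomial.natDegree_sum_le_of_forall_le _ _ fun J _ => ?_
  have h := (HsL_prod (fun l => A l 0) (fun l => A l 1) (fun l => A l 2)
    (J : Multiset (Fin 3))).1
  rw [Sym.card_coe] at h
  exact (Polynomial.natDegree_C_mul_le _ _).trans h

theorem cq_top {q : ℕ} (a : Sym (Fin 3) q → K) (A : Matrix (Fin 3) (Fin 3) K) :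
    (cq a A).coeff (2 * q) = form a (A *ᵥ ![0, 0, 1]) := by
  have h0 : A *ᵥ ![0, 0, 1] = fun l => A l 2 := by
    funext l
    rw [HsL_mulVec]
    ring
  rw [h0]
  unfold cq form mon
  rw [Polynomial.finsetSum_coeff]
  refine Finset.sum_congr rfl fun J _ => ?_
  have h := (HsL_prod (fun l => A l 0) (fun l => A l 1) (fun l => A l 2)
    (J : Multiset (Fin 3))).2
  rw [Sym.card_coe] at h
  rw [Polynomial.coeff_C_mul, h]

theorem cq_map {L : Type*} [Field L] (φ : K →+* L) {q : ℕ} (a : Sym (Fin 3) q → K)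
    (A : Matrix (Fin 3) (Fin 3) K) : (cq a A).map φ = cq (fun J => φ (a J)) (A.map φ) := by
  have h := Pool.Agent.Helper10.LB.pd_map_form (Polynomial.mapRingHom φ)
    (fun J => Polynomial.C (a J)) fun l => Polynomial.C (A l 0) +
    Polynomial.X * Polynomial.C (A l 1) + Polynomial.X ^ 2 * Polynomial.C (A l 2)
  unfold cq
  rw [← Polynomial.coe_mapRingHom, h]
  simp

theorem cq_coeff_mem {q : ℕ} (B : Subfield K) (a : Sym (Fin 3) q → K) (ha : ∀ J, a J ∈ B)
    (A : Matrix (Fin 3) (Fin 3) K) (hA : ∀ i j, A i j ∈ B) (n : ℕ) : (cq a A).coeff n ∈ B := by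
  have h := cq_map B.subtype (fun J => (⟨a J, ha J⟩ : B)) (Matrix.of fun i j => ⟨A i j, hA i j⟩)
  have h1 : cq (fun J => B.subtype (⟨a J, ha J⟩ : B))
      ((Matrix.of fun i j => (⟨A i j, hA i j⟩ : B)).map B.subtype) = cq a A := rfl
  rw [h1] at h
  rw [← h, Polynomial.coeff_map]
  exact SetLike.coe_mem _

theorem form_scale {q : ℕ} (a : Sym (Fin 3) q → K) (c : K) (y : Fin 3 → K) :
    form a (c • y) = c ^ q * form a y := by
  unfold form mon
  rw [Finset.mul_sum]
  refine Finset.sum_congr rfl fun J _ => ?_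
  have h : ((J : Multiset (Fin 3)).map (c • y)).prod =
      c ^ (Multiset.card (J : Multiset (Fin 3))) * ((J : Multiset (Fin 3)).map y).prod := by
    have : (c • y) = fun i => c * y i := rfl
    rw [this, Multiset.prod_map_mul, Multiset.map_const', Multiset.prod_replicate]
  rw [h, Sym.card_coe]
  ring

end Pool.Agent.Helper74.PQ
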