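import Pool.Agent.Helper74.PQ.RatL
import Pool.Agent.Helper74.PQ.HsL

/-!
# PQ-DEGL: degenerate rational conics

`S` symmetric over `B`, `det S = 0`, `qf S x = 0`. If a diagonal entry `a` of `S` is not zero,
complete the square: `a qf S = u^2 + (binary form)`, the binary form has discriminant
`a det S = 0`, so up to a factor it is the square of a rational linear form `v`, and
`u(x)^2 = - A v(x)^2` or similar: the quotient `t` of the values is algebraic over `B`, so in `B`, and
`v - t u` is a rational line through `x`. If all diagonal entries are zero, one of the other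
entries is zero and `qf S` is a product of a coordinate and a rational linear form.
-/

set_option autoImplicit false

namespace Pool.Agent.Helper74.PQ

open scoped BigOperators Matrix
open MvPolynomial
open Pool.Agent.Helper8.LG (form mon)

private theorem DegL_sq {Ω : Type*} [Field Ω] {B : Subfield Ω}
    (hcl : ∀ y, IsAlgebraic B y → y ∈ B) (t : Ω) (ht : t ^ 2 ∈ B) : t ∈ B := by
  refine hcl t ?_
  have h : IsAlgebraic B (t ^ 2) := by
    have := isAlgebraic_algebraMap (R := B) (A := Ω) (⟨t ^ 2, ht⟩ : B)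
    exact this
  exact h.of_pow (by norm_num)

private theorem DegL_rel {Ω : Type*} [Field Ω] {B : Subfield Ω}
    (hcl : ∀ y, IsAlgebraic B y → y ∈ B) (u v A : Ω) (hA : A ∈ B) (h : v ^ 2 = A * u ^ 2) :
    (u = 0 ∧ v = 0) ∨ ∃ t ∈ B, v = t * u := by
  by_cases hu : u = 0
  · left
    refine ⟨hu, ?_⟩
    rw [hu] at h
    have : v ^ 2 = 0 := by rw [h]; ring
    exact pow_eq_zero_iff (two_ne_zero) |>.mp this
  · right
    refine ⟨v / u, DegL_sq hcl _ ?_, ?_⟩
    · rw [div_pow, h, mul_div_assoc, div_self (pow_ne_zero 2 hu), mul_one]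
      exact hA
    · rw [div_mul_cancel₀ _ hu]

/-- a conic with a nonzero diagonal entry `a` -/
private theorem DegL_key {Ω : Type*} [Field Ω] {B : Subfield Ω}
    (hcl : ∀ y, IsAlgebraic B y → y ∈ B) (a b c d e f X Y Z : Ω) (ha : a ∈ B) (hb : b ∈ B)
    (hc : c ∈ B) (hd : d ∈ B) (he : e ∈ B) (hf : f ∈ B) (a0 : a ≠ 0)
    (hdet : a * (d * f - e ^ 2) - b * (b * f - e * c) + c * (b * e - d * c) = 0)
    (hq : a * X ^ 2 + d * Y ^ 2 + f * Z ^ 2 + 2 * b * (X * Y) + 2 * c * (X * Z) +
      2 * e * (Y * Z) = 0) :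
    ∃ p ∈ B, ∃ q ∈ B, ∃ r ∈ B, (p ≠ 0 ∨ q ≠ 0 ∨ r ≠ 0) ∧ p * X + q * Y + r * Z = 0 := by
  have hA : a * d - b ^ 2 ∈ B := B.sub_mem (B.mul_mem ha hd) (B.pow_mem hb 2)
  have hE : a * e - b * c ∈ B := B.sub_mem (B.mul_mem ha he) (B.mul_mem hb hc)
  have hC : a * f - c ^ 2 ∈ B := B.sub_mem (B.mul_mem ha hf) (B.pow_mem hc 2)
  have hdisc : (a * d - b ^ 2) * (a * f - c ^ 2) = (a * e - b * c) ^ 2 := by
    linear_combination a * hdet
  by_cases A0 : a * d - b ^ 2 = 0
  · have E0 : a * e - b * c = 0 := by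
      rw [A0, zero_mul] at hdisc
      exact (pow_eq_zero_iff two_ne_zero).mp hdisc.symm
    have h1 : (a * X + b * Y + c * Z) ^ 2 = (-(a * f - c ^ 2)) * Z ^ 2 := by
      linear_combination a * hq - Y ^ 2 * A0 - 2 * (Y * Z) * E0
    rcases DegL_rel hcl Z (a * X + b * Y + c * Z) _ (B.neg_mem hC) h1 with ⟨-, h2⟩ | ⟨t, ht, h2⟩
    · exact ⟨a, ha, b, hb, c, hc, Or.inl a0, h2⟩
    · refine ⟨a, ha, b, hb, c - t, B.sub_mem hc ht, Or.inl a0, ?_⟩
      linear_combination h2
  · have h1 : ((a * d - b ^ 2) * Y + (a * e - b * c) * Z) ^ 2 =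
        (-(a * d - b ^ 2)) * (a * X + b * Y + c * Z) ^ 2 := by
      linear_combination a * (a * d - b ^ 2) * hq - Z ^ 2 * hdisc
    rcases DegL_rel hcl (a * X + b * Y + c * Z) _ _ (B.neg_mem hA) h1 with ⟨h2, -⟩ | ⟨t, ht, h2⟩
    · exact ⟨a, ha, b, hb, c, hc, Or.inl a0, h2⟩
    · refine ⟨-(t * a), B.neg_mem (B.mul_mem ht ha), (a * d - b ^ 2) - t * b,
        B.sub_mem hA (B.mul_mem ht hb), (a * e - b * c) - t * c,
        B.sub_mem hE (B.mul_mem ht hc), ?_, ?_⟩
      · by_cases t0 : t = 0
        · right; left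
          rw [t0]
          intro h3
          exact A0 (by linear_combination h3)
        · left
          exact neg_ne_zero.mpr (mul_ne_zero t0 a0)
      · linear_combination h2

theorem ln_deg {Ω : Type*} [Field Ω] [CharZero Ω] {B : Subfield Ω} {x : Fin 3 → Ω}
    (hcl : ∀ y, IsAlgebraic B y → y ∈ B) (hx : x 0 = 1) (S : Matrix (Fin 3) (Fin 3) Ω)
    (hS : S.IsSymm) (hSB : ∀ i j, S i j ∈ B) (h0 : S ≠ 0) (hd : S.det = 0)
    (hSx : qf S x = 0) : Ln B x := by
  have s10 : S 1 0 = S 0 1 := hS.apply 0 1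
  have s20 : S 2 0 = S 0 2 := hS.apply 0 2
  have s21 : S 2 1 = S 1 2 := hS.apply 1 2
  have mk : ∀ p q r : Ω, p ∈ B → q ∈ B → r ∈ B → (p ≠ 0 ∨ q ≠ 0 ∨ r ≠ 0) →
      p * x 0 + q * x 1 + r * x 2 = 0 → Ln B x := by
    intro p q r hp hq hr hne h
    refine ⟨![p, q, r], ?_, ?_, ?_⟩
    · intro h1
      have e0 := congrFun h1 0
      have e1 := congrFun h1 1
      have e2 := congrFun h1 2
      simp at e0 e1 e2
      rcases hne with h2 | h2 | h2
      · exact h2 e0
      · exact h2 e1
      · exact h2 e2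
    · intro i
      fin_cases i
      · exact hp
      · exact hq
      · exact hr
    · show ∑ i, ![p, q, r] i * x i = 0
      rw [Fin.sum_univ_three]
      exact h
  have hq : S 0 0 * x 0 ^ 2 + S 1 1 * x 1 ^ 2 + S 2 2 * x 2 ^ 2 + 2 * S 0 1 * (x 0 * x 1) +
      2 * S 0 2 * (x 0 * x 2) + 2 * S 1 2 * (x 1 * x 2) = 0 := by
    have h := hSx
    unfold qf at h
    simp only [dotProduct, Matrix.mulVec, Fin.sum_univ_three, s10, s20, s21] at h
    linear_combination h
  have hdet : S 0 0 * (S 1 1 * S 2 2 - S 1 2 ^ 2) - S 0 1 * (S 0 1 * S 2 2 - S 1 2 * S 0 2) +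
      S 0 2 * (S 0 1 * S 1 2 - S 1 1 * S 0 2) = 0 := by
    rw [Matrix.det_fin_three, s10, s20, s21] at hd
    linear_combination hd
  by_cases a0 : S 0 0 = 0
  · by_cases a1 : S 1 1 = 0
    · by_cases a2 : S 2 2 = 0
      · have h2 : (2 : Ω) ≠ 0 := two_ne_zero
        rw [a0, a1, a2] at hdet hq
        have h3 : 2 * (S 0 1 * S 0 2 * S 1 2) = 0 := by linear_combination hdet
        have h4 : S 0 1 * S 0 2 * S 1 2 = 0 := (mul_eq_zero.mp h3).resolve_left h2
        have h5 : S 0 1 * (x 0 * x 1) + S 0 2 * (x 0 * x 2) + S 1 2 * (x 1 * x 2) = 0 := by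
          have : 2 * (S 0 1 * (x 0 * x 1) + S 0 2 * (x 0 * x 2) + S 1 2 * (x 1 * x 2)) = 0 := by
            linear_combination hq
          exact (mul_eq_zero.mp this).resolve_left h2
        have hne : S 0 1 ≠ 0 ∨ S 0 2 ≠ 0 ∨ S 1 2 ≠ 0 := by
          by_contra hcon
          push Not at hcon
          obtain ⟨c1, c2, c3⟩ := hcon
          refine h0 ?_
          ext i j
          fin_cases i <;> fin_cases j <;> simp_all
        rcases mul_eq_zero.mp h4 with h6 | h6
        · rcases mul_eq_zero.mp h6 with h7 | h7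
          · -- S 0 1 = 0
            rw [h7] at h5
            have h8 : x 2 * (S 0 2 * x 0 + S 1 2 * x 1) = 0 := by linear_combination h5
            rcases mul_eq_zero.mp h8 with h9 | h9
            · refine mk 0 0 1 B.zero_mem B.zero_mem B.one_mem (Or.inr (Or.inr one_ne_zero)) ?_
              linear_combination h9
            · refine mk (S 0 2) (S 1 2) 0 (hSB _ _) (hSB _ _) B.zero_mem ?_ ?_
              · rcases hne with h | h | h
                · exact absurd h7 h
                · exact Or.inl h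
                · exact Or.inr (Or.inl h)
              · linear_combination h9
          · -- S 0 2 = 0
            rw [h7] at h5
            have h8 : x 1 * (S 0 1 * x 0 + S 1 2 * x 2) = 0 := by linear_combination h5
            rcases mul_eq_zero.mp h8 with h9 | h9
            · refine mk 0 1 0 B.zero_mem B.one_mem B.zero_mem (Or.inr (Or.inl one_ne_zero)) ?_
              linear_combination h9
            · refine mk (S 0 1) 0 (S 1 2) (hSB _ _) B.zero_mem (hSB _ _) ?_ ?_
              · rcases hne with h | h | h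
                · exact Or.inl h
                · exact absurd h7 h
                · exact Or.inr (Or.inr h)
              · linear_combination h9
        · -- S 1 2 = 0
          rw [h6] at h5
          have h8 : S 0 1 * x 1 + S 0 2 * x 2 = 0 := by
            rw [hx] at h5
            linear_combination h5
          refine mk 0 (S 0 1) (S 0 2) B.zero_mem (hSB _ _) (hSB _ _) ?_ ?_
          · rcases hne with h | h | h
            · exact Or.inr (Or.inl h)
            · exact Or.inr (Or.inr h)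
            · exact absurd h6 h
          · linear_combination h8
      · obtain ⟨p, hp, q, hq', r, hr, hne, h⟩ := DegL_key hcl (S 2 2) (S 0 2) (S 1 2) (S 0 0)
          (S 0 1) (S 1 1) (x 2) (x 0) (x 1) (hSB _ _) (hSB _ _) (hSB _ _) (hSB _ _) (hSB _ _)
          (hSB _ _) a2 (by linear_combination hdet) (by linear_combination hq)
        refine mk q r p hq' hr hp ?_ (by linear_combination h)
        tauto
    · obtain ⟨p, hp, q, hq', r, hr, hne, h⟩ := DegL_key hcl (S 1 1) (S 0 1) (S 1 2) (S 0 0)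
        (S 0 2) (S 2 2) (x 1) (x 0) (x 2) (hSB _ _) (hSB _ _) (hSB _ _) (hSB _ _) (hSB _ _)
        (hSB _ _) a1 (by linear_combination hdet) (by linear_combination hq)
      refine mk q p r hq' hp hr ?_ (by linear_combination h)
      tauto
  · obtain ⟨p, hp, q, hq', r, hr, hne, h⟩ := DegL_key hcl (S 0 0) (S 0 1) (S 0 2) (S 1 1)
      (S 1 2) (S 2 2) (x 0) (x 1) (x 2) (hSB _ _) (hSB _ _) (hSB _ _) (hSB _ _) (hSB _ _)
      (hSB _ _) a0 (by linear_combination hdet) (by linear_combination hq)
    exact mk p q r hp hq' hr hne (by linear_combination h)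

end Pool.Agent.Helper74.PQ
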