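import Pool.Agent.Helper74.PQ.Cover24
import Pool.Agent.Helper74.PQ.ConicFin
import Pool.Agent.Helper74.PQ.ConicSplit
import Pool.Agent.Helper10.LN.ArithInput

/-!
# PQ-FIN24OF: the integral points of the complement of a generic plane quartic
-/

set_option autoImplicit false

namespace Pool.Agent.Helper74.PQ

open MvPolynomial
open Pool.Agent.Helper8.LG (form mon cf)
open Pool.Agent.Helper10.LN
open Pool.Agent.Helper10.LB

universe u v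

/-- the assembly: the engine gives conics, the conics give lines and finitely many points -/
theorem fin24_of {k₀ : Type v} {M : Type u} [Field k₀] [Field M] [CharZero M] [Algebra k₀ M]
    (hcov : Cover24.{u, v}) (hfg : (⊤ : IntermediateField k₀ M).FG) {q : ℕ} (hq : q = 4)
    (F : MvPolynomial (Fin 3) M) (hF : F.IsHomogeneous q)
    (hcoef : ((2 + q).choose 2 : Cardinal) ≤
      Algebra.trdeg k₀ (IntermediateField.adjoin k₀ {z | ∃ J, z = coeff J F}))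
    (A : Subalgebra ℤ M) (hA : A.FG) :
    ∃ Λ' : Set (Submodule M (Fin 3 → M)), Λ'.Finite ∧
      (∀ W' ∈ Λ', Module.finrank M W' ≤ 2 ∧
        TwoZeros (fun _ : Fin 1 => F) Finset.univ W') ∧
      ∀ i₀ : Fin 3, {y : Fin 3 → M | y i₀ = 1 ∧ (∀ W' ∈ Λ', y ∉ W') ∧ eval y F ≠ 0 ∧
        ∀ J : Sym (Fin 3) q, mon y J / eval y F ∈ A}.Finite := by
  classical
  obtain ⟨D, hD, hT⟩ := hcov k₀ M hfg q hq F hF hcoef (Algebra.adjoin k₀ (A : Set M))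
    (fa_adjoin_fg A hA)
  choose T hT2 hTc using hT
  have hsp : ∀ Q : MvPolynomial (Fin 3) M, ∃ Λ : Set (Submodule M (Fin 3 → M)), Λ.Finite ∧
      (∀ W ∈ Λ, Module.finrank M W ≤ 2) ∧
      (Q.IsHomogeneous 2 → Q ≠ 0 → (hs Q).det = 0 → ∀ y, eval y Q = 0 → ∃ W ∈ Λ, y ∈ W) := by
    intro Q
    by_cases h : Q.IsHomogeneous 2 ∧ Q ≠ 0 ∧ (hs Q).det = 0
    · obtain ⟨Λ, h1, h2, h3⟩ := conic_split Q h.1 h.2.1 h.2.2
      exact ⟨Λ, h1, h2, fun _ _ _ => h3⟩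
    · exact ⟨∅, Set.finite_empty, fun W hW => absurd hW (Set.notMem_empty W),
        fun h1 h2 h3 => absurd ⟨h1, h2, h3⟩ h⟩
  choose Λ hΛf hΛ2 hΛc using hsp
  obtain ⟨S, hS⟩ : ∃ S : Submodule M (Fin 3 → M) → Fin 3 → Set (Fin 3 → M),
      S = fun W' i₀ => {y : Fin 3 → M | y i₀ = 1 ∧ y ∈ W' ∧ ∀ i ∈ (Finset.univ : Finset (Fin 1)),
        eval y ((fun _ : Fin 1 => F) i) ≠ 0 ∧
          ∀ J : Sym (Fin 3) ((fun _ : Fin 1 => q) i),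
            mon y J / eval y ((fun _ : Fin 1 => F) i) ∈ A} := ⟨_, rfl⟩
  obtain ⟨Λ₀, hΛ₀⟩ : ∃ Λ₀ : Set (Submodule M (Fin 3 → M)),
      Λ₀ = ⋃ i₀ : Fin 3, ⋃ Q ∈ T i₀, Λ Q := ⟨_, rfl⟩
  have hΛ₀f : Λ₀.Finite := by
    rw [hΛ₀]
    exact Set.finite_iUnion fun i₀ => Set.Finite.biUnion (T i₀).finite_toSet fun Q _ => hΛf Q
  have hΛ₀2 : ∀ W ∈ Λ₀, Module.finrank M W ≤ 2 := by
    intro W hW
    rw [hΛ₀] at hW
    obtain ⟨i₀, hW⟩ := Set.mem_iUnion.1 hW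
    obtain ⟨Q, hW⟩ := Set.mem_iUnion.1 hW
    obtain ⟨_, hW⟩ := Set.mem_iUnion.1 hW
    exact hΛ2 Q W hW
  refine ⟨{W' ∈ Λ₀ | ∃ i₀, (S W' i₀).Infinite}, hΛ₀f.subset fun W' h => h.1, ?_, ?_⟩
  · rintro W' ⟨hW', i₀, hinf⟩
    refine ⟨hΛ₀2 W' hW', ?_⟩
    rw [hS] at hinf
    exact twoZeros_of_infinite (fun _ : Fin 1 => q) (fun _ : Fin 1 => F) (fun _ => hF)
      Finset.univ A hA W' (hΛ₀2 W' hW') i₀ hinf
  · intro i₀
    have h1 : (⋃ W' ∈ {W' ∈ Λ₀ | (S W' i₀).Finite}, S W' i₀).Finite :=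
      Set.Finite.biUnion (hΛ₀f.subset fun W' h => h.1) fun W' h => h.2
    have h2 : (⋃ Q ∈ (T i₀).filter (fun Q => (hs Q).det ≠ 0),
        {y : Fin 3 → M | y i₀ = 1 ∧ qf (hs Q) y = 0 ∧ eval y F ≠ 0 ∧
          ∀ J : Sym (Fin 3) q, mon y J / eval y F ∈ A}).Finite := by
      refine Set.Finite.biUnion (Finset.finite_toSet _) fun Q hQ => ?_
      exact conic_fin hq F hF D hD A hA (hs Q) (hs_symm Q) (Finset.mem_filter.1 hQ).2 i₀
    refine (h1.union h2).subset ?_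
    rintro y ⟨hy1, hyΛ, hyF, hyA⟩
    obtain ⟨Q, hQT, hQy⟩ := hTc i₀ y hy1 hyF fun J => Algebra.subset_adjoin (hyA J)
    have hQh := (hT2 i₀ Q hQT).1
    by_cases hd : (hs Q).det = 0
    · left
      obtain ⟨W', hW', hyW⟩ := hΛc Q hQh (hT2 i₀ Q hQT).2 hd y hQy
      have hW0 : W' ∈ Λ₀ := by
        rw [hΛ₀]
        exact Set.mem_iUnion.2 ⟨i₀, Set.mem_iUnion.2 ⟨Q, Set.mem_iUnion.2 ⟨hQT, hW'⟩⟩⟩
      have h3 : (S W' i₀).Finite := by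
        by_contra hinf
        exact hyΛ W' ⟨hW0, i₀, hinf⟩ hyW
      refine Set.mem_biUnion (x := W') ⟨hW0, h3⟩ ?_
      rw [hS]
      exact ⟨hy1, hyW, fun _ _ => ⟨hyF, hyA⟩⟩
    · right
      refine Set.mem_biUnion (x := Q) (Finset.mem_filter.2 ⟨hQT, hd⟩) ?_
      refine ⟨hy1, ?_, hyF, hyA⟩
      rw [hs_eval Q hQh, hQy, mul_zero]

end Pool.Agent.Helper74.PQ
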