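import Pool.Agent.Helper74.PQ.Wt
import Pool.Agent.Helper74.PQ.RatL
import Pool.Agent.Helper74.PQ.SpanL

/-!
# PQ-GRATL: the quadratic form `gg` is rational

`lw x 0 = rr x 0 1`, `lw x 1 = rr x 0 2`, `x_0 = 1`. At `m = 0`: `gg P` has weight
`2 + 2 + 1`, and `x_0 = 1` (so all weights are the same there; or divide by `x_0^5 = 1`). At
`m = 1`, `x_1 ≠ 0`: `rr x 1 0 = - lw x 0`, `rr x 1 2 = x_1 lw x 1 - x_2 lw x 0`, so
`det (et (P rr x 1 0), et (P rr x 1 2), w) = - x_1 gg P` with `w = et (X_0^q)`, similarly at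
`m = 2`. And `w` may be replaced by `et (X_m^q) / x_m^q` (`et_pow` with
`Λ v = det (et (P l), et (P l'), v)`, which kills the `et (P' lw_i)` by `gr_det`, `gr_lw`). So
`gg P` has weight `2 + 2 + 1 - 1 - 4 = 0` at every `m`: `wa_rat`. The vectors
`et (P lf (rr x m b)) = x_m et (P X_b) - x_b et (P X_m)` have weight `2` (`wa_et`).
-/

set_option autoImplicit false

namespace Pool.Agent.Helper74.PQ

open scoped BigOperators
open MvPolynomial
open Pool.Agent.Helper8.LG (Bdd RowBdd form mon)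
open Pool.Agent.Helper49.LN (cP mo hf pl)
open Pool.Agent.Helper6.QS
open Pool.Agent.Helper74.Q8 (rr)

variable {Ω : Type*} [Field Ω] [CharZero Ω] {q : ℕ} {D : Sym (Fin 3) q → Derivation ℤ Ω Ω}
  {a : Sym (Fin 3) q → Ω} {B : Subfield Ω} {x : Fin 3 → Ω}

omit [CharZero Ω] in
private theorem GRatL_lf_rr (x : Fin 3 → Ω) (m b : Fin 3) :
    (lf (rr x m b) : MvPolynomial (Fin 3) Ω) = x m • X b - x b • X m := by
  unfold lf rr
  simp only [sub_smul, Finset.sum_sub_distrib, mul_ite, mul_one, mul_zero, ite_smul, zero_smul,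
    Finset.sum_ite_eq', Finset.mem_univ, if_true]

omit [CharZero Ω] in
private theorem GRatL_et_rr (D : Sym (Fin 3) q → Derivation ℤ Ω Ω) (a : Sym (Fin 3) q → Ω)
    (x : Fin 3 → Ω) (P : MvPolynomial (Fin 3) Ω) (m b : Fin 3) :
    et D a x (P * lf (rr x m b)) = x m • et D a x (P * X b) - x b • et D a x (P * X m) := by
  rw [GRatL_lf_rr, mul_sub, map_sub, mul_smul_comm, mul_smul_comm, map_smul, map_smul]

private theorem GRatL_q (h : PtL D a B x) : (q : Ω) ≠ 0 :=
  Nat.cast_ne_zero.mpr (by have := h.hq; omega)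

private theorem GRatL_wt2 (h : PtL D a B x) (P : MvPolynomial (Fin 3) Ω) (hP : RatP B P)
    (m b l : Fin 3) (hm : x m ≠ 0) :
    WA D a B x (fun _ => True) m 2 (et D a x (P * lf (rr x m b)) l) := by
  have h1 : ∀ c, WA D a B x (fun _ => True) m 1 (et D a x (P * X c) l) := fun c =>
    wa_et h.frame (GRatL_q h) h.ne hm _ (ratP_mul hP (ratP_X c)) l
  have e : et D a x (P * lf (rr x m b)) l =
      x m * et D a x (P * X b) l - x b * et D a x (P * X m) l := by
    rw [GRatL_et_rr]
    rfl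
  rw [e, show (2 : ℤ) = 1 + 1 by norm_num]
  exact WA.sub (WA.mul hm (WA.coord m) (h1 b)) (WA.mul hm (WA.coord b) (h1 m))

private theorem GRatL_wt1 (h : PtL D a B x) (m l : Fin 3) (hm : x m ≠ 0) :
    WA D a B x (fun _ => True) m 1 (et D a x (X m ^ q) l) :=
  wa_et h.frame (GRatL_q h) h.ne hm _ (ratP_pow (ratP_X m) q) l

/-- the determinant with rows `et (P rr x m b)`, `et (P rr x m c)`, `et (X_m^q)` has weight `5` -/
private theorem GRatL_wt5 (h : PtL D a B x) (P : MvPolynomial (Fin 3) Ω) (hP : RatP B P)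
    (m b c : Fin 3) (hm : x m ≠ 0) :
    WA D a B x (fun _ => True) m 5 (Matrix.det (Matrix.of ![et D a x (P * lf (rr x m b)),
      et D a x (P * lf (rr x m c)), et D a x (X m ^ q)])) := by
  have e := WA.det (D := D) (a := a) (B := B) (C := fun _ => True) hm
    (Matrix.of ![et D a x (P * lf (rr x m b)), et D a x (P * lf (rr x m c)),
      et D a x (X m ^ q)]) ![2, 2, 1] (by
      intro i j
      fin_cases i
      · exact GRatL_wt2 h P hP m b j hm
      · exact GRatL_wt2 h P hP m c j hm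
      · exact GRatL_wt1 h m j hm)
  exact e

omit [CharZero Ω] in
private theorem GRatL_det1 (u v w : Fin 3 → Ω) (c d : Ω) :
    Matrix.det (Matrix.of ![-u, c • v - d • u, w]) = -(c * Matrix.det (Matrix.of ![u, v, w])) := by
  rw [Matrix.det_fin_three, Matrix.det_fin_three]
  simp
  ring

omit [CharZero Ω] in
private theorem GRatL_det2 (u v w : Fin 3 → Ω) (c d : Ω) :
    Matrix.det (Matrix.of ![-v, c • u - d • v, w]) = c * Matrix.det (Matrix.of ![u, v, w]) := by
  rw [Matrix.det_fin_three, Matrix.det_fin_three]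
  simp
  ring

/-- the determinant as a function of the last row -/
private noncomputable def GRatL_lam (u v : Fin 3 → Ω) : (Fin 3 → Ω) →ₗ[Ω] Ω where
  toFun w := Matrix.det (Matrix.of ![u, v, w])
  map_add' w w' := by
    rw [Matrix.det_fin_three, Matrix.det_fin_three, Matrix.det_fin_three]
    simp
    ring
  map_smul' c w := by
    rw [Matrix.det_fin_three, Matrix.det_fin_three]
    simp
    ring

private theorem GRatL_pow (h : PtL D a B x) (P : MvPolynomial (Fin 3) Ω) (m : Fin 3) :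
    Matrix.det (Matrix.of ![et D a x (P * lf (lw x 0)), et D a x (P * lf (lw x 1)),
      et D a x (X m ^ q)]) = x m ^ q * gg D a x P := by
  have e := et_pow D a h.one (by have := h.hq; omega)
    (GRatL_lam (et D a x (P * lf (lw x 0))) (et D a x (P * lf (lw x 1))))
    (fun P' i => gr_det h _ _ _ (gr_lw h P _ (lw_x h.one 0)) (gr_lw h P _ (lw_x h.one 1))
      (gr_lw h P' _ (lw_x h.one i))) m
  exact e

theorem g_rat (h : PtL D a B x) (P : MvPolynomial (Fin 3) Ω) (hP : RatP B P) :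
    gg D a x P ∈ B := by
  have hq : (q : ℤ) = 4 := by exact_mod_cast h.hq
  refine wa_rat h.frame h.one fun m hm => ?_
  have hp := GRatL_pow h P m
  have hk : x m ^ q ≠ 0 := pow_ne_zero _ hm
  have hi := WA.inv_pow (D := D) (a := a) (B := B) (C := fun _ => True) hm q
  have hj := WA.inv (D := D) (a := a) (B := B) (C := fun _ => True) hm
  have hx := h.one
  fin_cases m
  · have w := GRatL_wt5 h P hP 0 1 2 hm
    have e : gg D a x P = Matrix.det (Matrix.of ![et D a x (P * lf (rr x 0 1)),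
        et D a x (P * lf (rr x 0 2)), et D a x (X 0 ^ q)]) := rfl
    rw [← e] at w
    obtain ⟨s, hs, M, hM⟩ := w
    refine ⟨s, hs, M, fun O Δ h1 h2 h3 h4 h5 => ?_⟩
    have := hM O Δ h1 h2 h3 h4 h5
    change Δ ^ M * (gg D a x P * x 0 ^ (-(5 : ℤ))) ∈ O at this
    change Δ ^ M * (gg D a x P * x 0 ^ (-(0 : ℤ))) ∈ O
    rw [hx, one_zpow] at this ⊢
    exact this
  · have w := GRatL_wt5 h P hP 1 0 2 hm
    have r0 : rr x 1 0 = -lw x 0 := by
      funext i
      show x 1 * (if i = 0 then 1 else 0) - x 0 * (if i = 1 then 1 else 0) =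
        -(x 0 * (if i = 1 then 1 else 0) - x 1 * (if i = 0 then 1 else 0))
      ring
    have r2 : rr x 1 2 = x 1 • lw x 1 - x 2 • lw x 0 := by
      funext i
      show x 1 * (if i = 2 then 1 else 0) - x 2 * (if i = 1 then 1 else 0) =
        x 1 * (x 0 * (if i = 2 then 1 else 0) - x 2 * (if i = 0 then 1 else 0)) -
        x 2 * (x 0 * (if i = 1 then 1 else 0) - x 1 * (if i = 0 then 1 else 0))
      rw [hx]
      ring
    have l0 : et D a x (P * lf (rr x 1 0)) = -et D a x (P * lf (lw x 0)) := by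
      rw [r0, ← neg_one_smul Ω (lw x 0), Pool.Agent.Helper74.Q8.lf_smul', mul_smul_comm, map_smul,
        neg_one_smul]
    have l2 : et D a x (P * lf (rr x 1 2)) = x 1 • et D a x (P * lf (lw x 1)) -
        x 2 • et D a x (P * lf (lw x 0)) := by
      rw [r2, sub_eq_add_neg, ← neg_smul, Pool.Agent.Helper74.Q8.lf_add',
        Pool.Agent.Helper74.Q8.lf_smul', Pool.Agent.Helper74.Q8.lf_smul', mul_add, map_add,
        mul_smul_comm, map_smul, mul_smul_comm, map_smul, neg_smul, sub_eq_add_neg]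
    rw [l0, l2, GRatL_det1] at w
    have e : gg D a x P = (x 1 ^ q)⁻¹ * ((x 1)⁻¹ * (-(-(x 1 * (x 1 ^ q * gg D a x P))))) := by
      have h1 : x 1 ≠ 0 := hm
      have h2 : x 1 ^ q ≠ 0 := hk
      field_simp
    have w' := WA.mul hm hi (WA.mul hm hj (WA.neg w))
    have e5 : -(q : ℤ) + (-1 + 5) = 0 := by rw [hq]; norm_num
    rw [e5] at w'
    change WA D a B x (fun _ => True) 1 0 (gg D a x P)
    rw [e]
    change WA D a B x (fun _ => True) 1 0 ((x 1 ^ q)⁻¹ * ((x 1)⁻¹ * (-(-(x 1 * Matrix.det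
      (Matrix.of ![et D a x (P * lf (lw x 0)), et D a x (P * lf (lw x 1)),
      et D a x (X 1 ^ q)])))))) at w'
    change Matrix.det (Matrix.of ![et D a x (P * lf (lw x 0)), et D a x (P * lf (lw x 1)),
      et D a x (X 1 ^ q)]) = x 1 ^ q * gg D a x P at hp
    rw [hp] at w'
    exact w'
  · have w := GRatL_wt5 h P hP 2 0 1 hm
    have r0 : rr x 2 0 = -lw x 1 := by
      funext i
      show x 2 * (if i = 0 then 1 else 0) - x 0 * (if i = 2 then 1 else 0) =
        -(x 0 * (if i = 2 then 1 else 0) - x 2 * (if i = 0 then 1 else 0))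
      ring
    have r2 : rr x 2 1 = x 2 • lw x 0 - x 1 • lw x 1 := by
      funext i
      show x 2 * (if i = 1 then 1 else 0) - x 1 * (if i = 2 then 1 else 0) =
        x 2 * (x 0 * (if i = 1 then 1 else 0) - x 1 * (if i = 0 then 1 else 0)) -
        x 1 * (x 0 * (if i = 2 then 1 else 0) - x 2 * (if i = 0 then 1 else 0))
      rw [hx]
      ring
    have l0 : et D a x (P * lf (rr x 2 0)) = -et D a x (P * lf (lw x 1)) := by
      rw [r0, ← neg_one_smul Ω (lw x 1), Pool.Agent.Helper74.Q8.lf_smul', mul_smul_comm, map_smul,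
        neg_one_smul]
    have l2 : et D a x (P * lf (rr x 2 1)) = x 2 • et D a x (P * lf (lw x 0)) -
        x 1 • et D a x (P * lf (lw x 1)) := by
      rw [r2, sub_eq_add_neg, ← neg_smul, Pool.Agent.Helper74.Q8.lf_add',
        Pool.Agent.Helper74.Q8.lf_smul', Pool.Agent.Helper74.Q8.lf_smul', mul_add, map_add,
        mul_smul_comm, map_smul, mul_smul_comm, map_smul, neg_smul, sub_eq_add_neg]
    rw [l0, l2, GRatL_det2] at w
    have e : gg D a x P = (x 2 ^ q)⁻¹ * ((x 2)⁻¹ * (x 2 * (x 2 ^ q * gg D a x P))) := by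
      have h1 : x 2 ≠ 0 := hm
      have h2 : x 2 ^ q ≠ 0 := hk
      field_simp
    have w' := WA.mul hm hi (WA.mul hm hj w)
    have e5 : -(q : ℤ) + (-1 + 5) = 0 := by rw [hq]; norm_num
    rw [e5] at w'
    change WA D a B x (fun _ => True) 2 0 (gg D a x P)
    rw [e]
    change WA D a B x (fun _ => True) 2 0 ((x 2 ^ q)⁻¹ * ((x 2)⁻¹ * (x 2 * Matrix.det
      (Matrix.of ![et D a x (P * lf (lw x 0)), et D a x (P * lf (lw x 1)),
      et D a x (X 2 ^ q)])))) at w'
    change Matrix.det (Matrix.of ![et D a x (P * lf (lw x 0)), et D a x (P * lf (lw x 1)),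
      et D a x (X 2 ^ q)]) = x 2 ^ q * gg D a x P at hp
    rw [hp] at w'
    exact w'

end Pool.Agent.Helper74.PQ
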