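import Pool.Agent.Helper74.PQ.KeyDL
import Pool.Agent.Helper74.PQ.DegL
import Pool.Agent.Helper74.PQ.ConRic

/-!
# PQ-KEYCL: the first key statement, assembly
-/

set_option autoImplicit false

namespace Pool.Agent.Helper74.PQ

open scoped BigOperators Matrix
open MvPolynomial
open Pool.Agent.Helper8.LG (form mon)

open Pool.Agent.Helper6.QS

universe u

theorem keyC (q : ℕ) : KeyC.{u} q := by
  intro Ω _ _ D a B x h hc
  rcases key_cnc h with h1 | ⟨Q, hQ⟩
  · exact h1
  by_cases hd : (hs Q).det = 0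
  · refine ln_deg (fun y hy => lrat_alg h.frame y hy) h.one (hs Q) (hs_symm Q)
      (hs_mem B Q hQ.rat) (hs_ne Q hQ.hom hQ.ne) hd ?_
    rw [hs_eval Q hQ.hom, hQ.zero, mul_zero]
  · exact con_ric h hc Q hQ hd

end Pool.Agent.Helper74.PQ
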