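import Pool.Agent.Helper74.PQ.LnParam
import Pool.Agent.Helper74.PQ.BadLine

/-!
# PQ-LINEW: `ln_param` and `bad_line` with a given linear form
-/

set_option autoImplicit false

namespace Pool.Agent.Helper74.PQ

open scoped BigOperators
open MvPolynomial
open Pool.Agent.Helper8.LG (form mon)
open Pool.Agent.Helper6.QS

theorem lineW_dt {Ω : Type*} [Field Ω] (w x : Fin 3 → Ω) :
    dt w x = w 0 * x 0 + w 1 * x 1 + w 2 * x 2 := by
  simp only [dt, Fin.sum_univ_three]

theorem ln_param_w {Ω : Type*} [Field Ω] [CharZero Ω] {q : ℕ} (a : Sym (Fin 3) q → Ω)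
    (B : Subfield Ω) (ha : ∀ J, a J ∈ B) (x : Fin 3 → Ω) (hx : x 0 = 1) (hne : form a x ≠ 0)
    (w : Fin 3 → Ω) (hw : w ≠ 0) (hwB : ∀ i, w i ∈ B) (hwx : dt w x = 0) :
    (∀ l, x l ∈ B) ∨ ∃ (u v : Fin 3 → Ω) (lam z : Ω), (∀ l, u l ∈ B) ∧ (∀ l, v l ∈ B) ∧
      (∃ b b', u b * v b' - u b' * v b ≠ 0) ∧ form a v ≠ 0 ∧ lam ≠ 0 ∧
      (∀ l, x l = lam * (u l + z * v l)) ∧ dt w u = 0 ∧ dt w v = 0 := by
  rcases ln_param ha hx hne ⟨w, hw, hwB, hwx⟩ with h1 | ⟨u, v, lam, z, b, b', hu, hv, hpi, hFv,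
    hlam, hz, hxl⟩
  · exact Or.inl h1
  right
  have h1 : lam * (dt w u + z * dt w v) = 0 := by
    have h2 : dt w x = lam * (dt w u + z * dt w v) := by
      rw [lineW_dt, lineW_dt, lineW_dt, hxl 0, hxl 1, hxl 2]
      ring
    rw [← h2, hwx]
  have h3 : dt w u + z * dt w v = 0 := (mul_eq_zero.1 h1).resolve_left hlam
  have huB : dt w u ∈ B := by
    rw [lineW_dt]
    exact add_mem (add_mem (mul_mem (hwB 0) (hu 0)) (mul_mem (hwB 1) (hu 1)))
      (mul_mem (hwB 2) (hu 2))
  have hvB : dt w v ∈ B := by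
    rw [lineW_dt]
    exact add_mem (add_mem (mul_mem (hwB 0) (hv 0)) (mul_mem (hwB 1) (hv 1)))
      (mul_mem (hwB 2) (hv 2))
  have h4 : dt w v = 0 := by
    by_contra hne'
    apply hz
    have h5 : z = - dt w u / dt w v := by
      rw [eq_div_iff hne']
      linear_combination h3
    rw [h5]
    exact div_mem (neg_mem huB) hvB
  refine ⟨u, v, lam, z, hu, hv, ⟨b, b', hpi⟩, hFv, hlam, hxl, ?_, h4⟩
  rw [h4, mul_zero, add_zero] at h3
  exact h3

theorem bad_line_w {Ω : Type*} [Field Ω] [CharZero Ω] {q : ℕ} (hq : q = 4)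
    (D : Sym (Fin 3) q → Derivation ℤ Ω Ω) (a : Sym (Fin 3) q → Ω)
    (hD : ∀ I J, D J (a I) = if I = J then 1 else 0) (u v : Fin 3 → Ω) (b b' : Fin 3)
    (hpi : u b * v b' - u b' * v b ≠ 0) (htop : form a v ≠ 0) (h : Polynomial Ω) (h0 : h ≠ 0)
    (n : ℕ) (hn : Pool.Agent.Helper10.LB.lf a u v ∣ h ^ n) (hdeg : h.natDegree < 3)
    (δ : Derivation ℤ Ω Ω) (hδ : ∀ J, δ (a J) = 0) (w : Fin 3 → Ω) (hwu : dt w u = 0)
    (hwv : dt w v = 0) : ∀ i j, w i * δ (w j) = w j * δ (w i) := by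
  obtain ⟨c, hc⟩ := bad_line hq a D hD u v b b' hpi htop h h0 n hn hdeg δ hδ
  rw [lineW_dt] at hwu hwv
  -- the cross product
  obtain ⟨p, hp⟩ : ∃ p : Fin 3 → Ω, p = ![u 1 * v 2 - u 2 * v 1, u 2 * v 0 - u 0 * v 2,
    u 0 * v 1 - u 1 * v 0] := ⟨_, rfl⟩
  have hp0 : p 0 = u 1 * v 2 - u 2 * v 1 := by rw [hp]; rfl
  have hp1 : p 1 = u 2 * v 0 - u 0 * v 2 := by rw [hp]; rfl
  have hp2 : p 2 = u 0 * v 1 - u 1 * v 0 := by rw [hp]; rfl
  have hδp : ∀ i, δ (p i) = c * p i := by
    intro i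
    fin_cases i
    · change δ (p 0) = c * p 0
      rw [hp0]
      exact hc 1 2
    · change δ (p 1) = c * p 1
      rw [hp1]
      exact hc 2 0
    · change δ (p 2) = c * p 2
      rw [hp2]
      exact hc 0 1
  have hpne : ∃ i, p i ≠ 0 := by
    by_contra hne
    push Not at hne
    have e0 := hne 0
    have e1 := hne 1
    have e2 := hne 2
    rw [hp0] at e0
    rw [hp1] at e1
    rw [hp2] at e2
    apply hpi
    fin_cases b <;> fin_cases b' <;>
      simp only [Fin.zero_eta, Fin.mk_one, Fin.reduceFinMk, Fin.isValue] <;>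
      first
        | ring1
        | linear_combination e0
        | linear_combination e1
        | linear_combination e2
        | linear_combination -e0
        | linear_combination -e1
        | linear_combination -e2
  -- `w` is a multiple of `p`
  have hcr : ∀ i j, w i * p j = w j * p i := by
    have c01 : w 0 * p 1 = w 1 * p 0 := by
      rw [hp0, hp1]
      linear_combination v 2 * (-hwu) + u 2 * hwv
    have c12 : w 1 * p 2 = w 2 * p 1 := by
      rw [hp1, hp2]
      linear_combination v 0 * (-hwu) + u 0 * hwv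
    have c20 : w 2 * p 0 = w 0 * p 2 := by
      rw [hp0, hp2]
      linear_combination v 1 * (-hwu) + u 1 * hwv
    intro i j
    fin_cases i <;> fin_cases j <;>
      first
        | rfl
        | exact c01
        | exact c12
        | exact c20
        | exact c01.symm
        | exact c12.symm
        | exact c20.symm
  obtain ⟨k, hk⟩ := hpne
  have hw : ∀ i, w i = w k / p k * p i := by
    intro i
    rw [div_mul_eq_mul_div, eq_div_iff hk]
    exact hcr i k
  intro i j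
  have h1 : ∀ l, δ (w l) = δ (w k / p k) * p l + w k / p k * (c * p l) := by
    intro l
    conv_lhs => rw [hw l]
    rw [Derivation.leibniz, smul_eq_mul, smul_eq_mul, hδp l]
    ring
  rw [h1 i, h1 j, hw i, hw j]
  ring

end Pool.Agent.Helper74.PQ
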