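import Pool.Agent.Helper74.PQ.HsL
import Pool.Agent.Helper74.PQ.NormL

/-!
# PQ-NOTWOCON: the conic meets the generic quartic in at least three points

Notation: `v2 (s, t) = (s^2, s t, t^2)`, `T_j = (1, j)`, `j = 0, .., 8`. For `f` a form of degree
`q = 4` apply `D_f = ∑ f_J D_J` to `F(M v2(T_j)) = lam 1^α j^β` (the `T_j` are integers):
`f(M v2(T_j)) + (∂F)(M v2(T_j)) . (D_f M) v2(T_j) = (D_f lam) j^β` (with `0^0 = 1`).
So the linear map `Φ : (N, b) ↦ ((∂F)(M v2(T_j)) . N v2(T_j) - b j^β)_(j = 0..8)` from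
`gl_3(K) × K` (dimension 10) to `K^9` is onto: for each `j` there is a form `f` of degree 4 with
`f(M v2(T_i)) = 0` for `i ≠ j` and `≠ 0` for `i = j`: the product of four linear forms
`ℓ(M' y)`, `ℓ(y) = y_2 - (i_1 + i_2) y_1 + i_1 i_2 y_0`, `ℓ(v2(1, i)) = (i - i_1)(i - i_2)`. But the
kernel contains the two linearly independent elements `(M, q lam)` (Euler) and
`(M diag(0, 1, 2), β lam)` (apply `t d/dt` to the identity `F(M v2(1, t)) = lam t^β`): rank at
most 8, a contradiction.
-/

set_option autoImplicit false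

namespace Pool.Agent.Helper74.PQ

open scoped BigOperators Matrix
open MvPolynomial
open Pool.Agent.Helper8.LG (form mon)
open Pool.Agent.Helper49.LN (cP mo)
open Pool.Agent.Helper6.QS

section der

variable {K : Type*} [Field K] {R : Type*} [CommRing R] [Algebra K R] {σ : Type*} [Fintype σ]
  [DecidableEq σ] {q : ℕ}

private theorem NoTwoCon_der (δ : Derivation ℤ R R) (x : σ → R) (m : Multiset σ) :
    δ (aeval x (mo K m)) = ∑ l, aeval x (pderiv l (mo K m)) * δ (x l) := by
  induction m using Multiset.induction_on with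
  | empty => simp [mo]
  | cons a m ih =>
    have h1 : mo K (a ::ₘ m) = X a * mo K m := by
      rw [mo, mo, Multiset.map_cons, Multiset.prod_cons]
    rw [h1, map_mul, aeval_X, Derivation.leibniz, ih, smul_eq_mul, smul_eq_mul, Finset.mul_sum]
    have h2 : ∀ l, aeval x (pderiv l (X a * mo K m)) * δ (x l) =
        x a * (aeval x (pderiv l (mo K m)) * δ (x l)) +
          (if l = a then aeval x (mo K m) * δ (x l) else 0) := by
      intro l
      rw [Derivation.leibniz, smul_eq_mul, smul_eq_mul, map_add, map_mul, map_mul, aeval_X,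
        pderiv_X, Pi.single_apply]
      by_cases h : a = l
      · subst h
        rw [if_pos rfl, if_pos rfl, map_one]
        ring
      · rw [if_neg h, if_neg (Ne.symm h), map_zero]
        ring
    simp only [h2]
    rw [Finset.sum_add_distrib, Finset.sum_ite_eq' Finset.univ a, if_pos (Finset.mem_univ a)]

omit [Fintype σ] [DecidableEq σ] in
private theorem NoTwoCon_mon (x : σ → R) (J : Sym σ q) :
    mon x J = aeval x (mo K (J : Multiset σ)) := by
  rw [mon, mo, map_multiset_prod, Multiset.map_map]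
  congr 1
  exact Multiset.map_congr rfl fun j _ => (aeval_X x j).symm

private theorem NoTwoCon_form (δ : Derivation ℤ R R) (a : Sym σ q → R) (x : σ → R) :
    δ (form a x) = ∑ J, δ (a J) * mon x J +
      ∑ l, (∑ J, a J * aeval x (pderiv l (mo K (J : Multiset σ)))) * δ (x l) := by
  rw [form, map_sum]
  have h1 : ∀ J : Sym σ q, δ (a J * mon x J) = δ (a J) * mon x J +
      ∑ l, a J * aeval x (pderiv l (mo K (J : Multiset σ))) * δ (x l) := by
    intro J
    rw [Derivation.leibniz, smul_eq_mul, smul_eq_mul, NoTwoCon_mon (K := K), NoTwoCon_der,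
      Finset.mul_sum, add_comm, mul_comm]
    simp only [mul_assoc]
  simp only [h1]
  rw [Finset.sum_add_distrib, Finset.sum_comm (s := Finset.univ (α := Sym σ q))]
  simp only [Finset.sum_mul]

end der

/-- the dimension count -/
private theorem NoTwoCon_lin {K : Type*} [Field K] [CharZero K] (g u : Fin 9 → Fin 3 → K)
    (w : Fin 9 → K) (M M' : Matrix (Fin 3) (Fin 3) K) (hM : M * M' = 1) (c0 c1 : K)
    (h1 : ∀ j, ∑ l, g j l * (M *ᵥ u j) l = c0 * w j)
    (h2 : ∀ j, ∑ l, g j l * ((M * Matrix.diagonal ![0, 1, 2]) *ᵥ u j) l = c1 * w j)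
    (h3 : ∀ j, ∃ (N : Matrix (Fin 3) (Fin 3) K) (b : K), ∀ i,
      ∑ l, g i l * (N *ᵥ u i) l - b * w i = if i = j then 1 else 0) : False := by
  let Φ : (Matrix (Fin 3) (Fin 3) K × K) →ₗ[K] (Fin 9 → K) :=
    { toFun := fun p j => ∑ l, g j l * (p.1 *ᵥ u j) l - p.2 * w j
      map_add' := by
        intro p p'
        funext j
        simp only [Prod.fst_add, Prod.snd_add, Matrix.add_mulVec, Pi.add_apply, mul_add,
          Finset.sum_add_distrib, add_mul]
        ring
      map_smul' := by
        intro c p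
        funext j
        simp only [Prod.smul_fst, Prod.smul_snd, Matrix.smul_mulVec, Pi.smul_apply, smul_eq_mul,
          RingHom.id_apply, mul_sub, Finset.mul_sum]
        refine congrArg₂ _ (Finset.sum_congr rfl fun l _ => by ring) (by ring) }
  have hΦ : ∀ p j, Φ p j = ∑ l, g j l * (p.1 *ᵥ u j) l - p.2 * w j := fun _ _ => rfl
  have hr : LinearMap.range Φ = ⊤ := by
    rw [eq_top_iff, ← (Pi.basisFun K (Fin 9)).span_eq, Submodule.span_le]
    rintro _ ⟨j, rfl⟩
    obtain ⟨N, b, h⟩ := h3 j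
    refine ⟨(N, b), ?_⟩
    funext i
    rw [hΦ, h i, Pi.basisFun_apply, Pi.single_apply]
  have hf := LinearMap.finrank_range_add_finrank_ker Φ
  rw [hr, finrank_top, Module.finrank_fintype_fun_eq_card, Fintype.card_fin, Module.finrank_prod,
    Module.finrank_matrix, Fintype.card_fin, Module.finrank_self] at hf
  have hk : Module.finrank K (LinearMap.ker Φ) = 1 := by omega
  have m1 : ((M, c0) : Matrix (Fin 3) (Fin 3) K × K) ∈ LinearMap.ker Φ := by
    rw [LinearMap.mem_ker]
    funext j
    rw [hΦ, h1 j]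
    exact sub_self _
  have m2 : ((M * Matrix.diagonal ![0, 1, 2], c1) : Matrix (Fin 3) (Fin 3) K × K) ∈
      LinearMap.ker Φ := by
    rw [LinearMap.mem_ker]
    funext j
    rw [hΦ, h2 j]
    exact sub_self _
  have hv : (⟨_, m1⟩ : LinearMap.ker Φ) ≠ 0 := by
    intro h
    have h4 : M = 0 := congrArg (fun v : LinearMap.ker Φ => v.1.1) h
    rw [h4, zero_mul] at hM
    exact one_ne_zero hM.symm
  obtain ⟨c, hc⟩ := (finrank_eq_one_iff_of_nonzero' _ hv).1 hk ⟨_, m2⟩
  have h5 : c • M = M * Matrix.diagonal ![0, 1, 2] :=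
    congrArg (fun v : LinearMap.ker Φ => v.1.1) hc
  have hM' : M' * M = 1 := mul_eq_one_comm.1 hM
  have h6 : c • (1 : Matrix (Fin 3) (Fin 3) K) = Matrix.diagonal ![0, 1, 2] := by
    rw [← hM', ← Matrix.mul_smul, h5, ← mul_assoc, hM', one_mul]
  have h7 := congrFun (congrFun h6 0) 0
  have h8 := congrFun (congrFun h6 1) 1
  rw [Matrix.smul_apply, Matrix.one_apply_eq, Matrix.diagonal_apply_eq, smul_eq_mul, mul_one]
    at h7 h8
  rw [h7] at h8
  exact zero_ne_one h8

/-- the four linear forms -/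
private def NoTwoCon_l {K : Type*} [Field K] (b c : K) (M' : Matrix (Fin 3) (Fin 3) K) :
    Fin 3 → K := fun l => M' 2 l - (b + c) * M' 1 l + b * c * M' 0 l

private theorem NoTwoCon_l_dt {K : Type*} [Field K] (b c t : K)
    (M M' : Matrix (Fin 3) (Fin 3) K) (hM : M * M' = 1) :
    dt (NoTwoCon_l b c M') (M *ᵥ ![1, t, t ^ 2]) = (t - b) * (t - c) := by
  have hM' : M' * M = 1 := mul_eq_one_comm.1 hM
  have h : M' *ᵥ (M *ᵥ ![1, t, t ^ 2]) = ![1, t, t ^ 2] := by
    rw [Matrix.mulVec_mulVec, hM', Matrix.one_mulVec]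
  have h0 := congrFun h 0
  have h1 := congrFun h 1
  have h2 := congrFun h 2
  have e0 : (![1, t, t ^ 2] : Fin 3 → K) 0 = 1 := rfl
  have e1 : (![1, t, t ^ 2] : Fin 3 → K) 1 = t := rfl
  have e2 : (![1, t, t ^ 2] : Fin 3 → K) 2 = t ^ 2 := rfl
  rw [e0] at h0
  rw [e1] at h1
  rw [e2] at h2
  set y := M *ᵥ ![1, t, t ^ 2] with hy
  simp only [Matrix.mulVec, dotProduct, Fin.sum_univ_three] at h0 h1 h2
  rw [dt, Fin.sum_univ_three]
  simp only [NoTwoCon_l]
  linear_combination h2 - (b + c) * h1 + b * c * h0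

private theorem NoTwoCon_f {K : Type*} [Field K] [CharZero K] (M M' : Matrix (Fin 3) (Fin 3) K)
    (hM : M * M' = 1) (j : Fin 9) : ∃ f : MvPolynomial (Fin 3) K, f.IsHomogeneous 4 ∧
      ∀ i : Fin 9, eval (M *ᵥ ![1, ((i : ℕ) : K), ((i : ℕ) : K) ^ 2]) f =
        if i = j then -1 else 0 := by
  let e : Fin 8 → K := fun k => ((j.succAbove k : ℕ) : K)
  let f0 : MvPolynomial (Fin 3) K := lf (NoTwoCon_l (e 0) (e 1) M') *
    lf (NoTwoCon_l (e 2) (e 3) M') * lf (NoTwoCon_l (e 4) (e 5) M') *
    lf (NoTwoCon_l (e 6) (e 7) M')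
  have h0 : f0.IsHomogeneous 4 := (((lf_hom _).mul (lf_hom _)).mul (lf_hom _)).mul (lf_hom _)
  have h1 : ∀ t : K, eval (M *ᵥ ![1, t, t ^ 2]) f0 = ∏ k, (t - e k) := by
    intro t
    simp only [f0, map_mul, eval_lf, NoTwoCon_l_dt _ _ _ _ _ hM, Fin.prod_univ_eight]
    ring
  have h2 : (∏ k, (((j : ℕ) : K) - e k)) ≠ 0 := by
    refine Finset.prod_ne_zero_iff.2 fun k _ hk => ?_
    rw [sub_eq_zero] at hk
    exact Fin.ne_succAbove j k (Fin.ext (Nat.cast_injective hk))
  have h3 : ∀ i : Fin 9, i ≠ j → (∏ k, (((i : ℕ) : K) - e k)) = 0 := by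
    intro i hi
    obtain ⟨k, hk⟩ := Fin.exists_succAbove_eq hi
    refine Finset.prod_eq_zero (Finset.mem_univ k) ?_
    rw [sub_eq_zero]
    simp only [e, hk]
  refine ⟨C (-(∏ k, (((j : ℕ) : K) - e k))⁻¹) * f0, ?_, ?_⟩
  · simpa using (isHomogeneous_C (Fin 3) (-(∏ k, (((j : ℕ) : K) - e k))⁻¹)).mul h0
  · intro i
    rw [map_mul, eval_C, h1]
    split_ifs with hi
    · rw [hi, neg_mul, inv_mul_cancel₀ h2]
    · rw [h3 i hi, mul_zero]

theorem no_two_con {K : Type*} [Field K] [CharZero K] {q : ℕ} (hq : q = 4)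
    (a : Sym (Fin 3) q → K) (D : Sym (Fin 3) q → Derivation ℤ K K)
    (hD : ∀ I J, D J (a I) = if I = J then 1 else 0) (M M' : Matrix (Fin 3) (Fin 3) K)
    (hM : M * M' = 1) (lam : K) (α β : ℕ) (hαβ : α + β = 2 * q)
    (hF : ∀ s t : K, form a (M *ᵥ ![s ^ 2, s * t, t ^ 2]) = lam * s ^ α * t ^ β) : False := by
  have hF1 : ∀ t : K, form a (M *ᵥ ![1, t, t ^ 2]) = lam * t ^ β := by
    intro t
    have h := hF 1 t
    simpa using h
  let u : Fin 9 → Fin 3 → K := fun i => ![1, ((i : ℕ) : K), ((i : ℕ) : K) ^ 2]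
  let w : Fin 9 → K := fun i => ((i : ℕ) : K) ^ β
  let g : Fin 9 → Fin 3 → K := fun i l =>
    ∑ J : Sym (Fin 3) q, a J * aeval (M *ᵥ u i) (pderiv l (mo K (J : Multiset (Fin 3))))
  have hfu : ∀ i, form a (M *ᵥ u i) = lam * w i := fun i => hF1 _
  -- Euler
  have h1 : ∀ j, ∑ l, g j l * (M *ᵥ u j) l = ((q : K) * lam) * w j := by
    intro j
    rw [mul_assoc, ← hfu j, form, Finset.mul_sum]
    simp only [g, Finset.sum_mul]
    rw [Finset.sum_comm]
    refine Finset.sum_congr rfl fun J _ => ?_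
    simp only [mul_assoc]
    rw [← Finset.mul_sum]
    have h := ev_euler (M *ᵥ u j) (J : Multiset (Fin 3))
    rw [Sym.card_coe, ← ev_mon_eq] at h
    have h' : ∑ l, aeval (M *ᵥ u j) (pderiv l (mo K (J : Multiset (Fin 3)))) * (M *ᵥ u j) l =
        (q : K) * mon (M *ᵥ u j) J := h
    rw [h']
    ring
  -- the second element of the kernel
  have h2 : ∀ j, ∑ l, g j l * ((M * Matrix.diagonal ![0, 1, 2]) *ᵥ u j) l =
      ((β : K) * lam) * w j := by
    intro j
    have hcq : cq a M = Polynomial.C lam * Polynomial.X ^ β := by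
      refine Polynomial.funext fun t => ?_
      rw [cq_eval, hF1]
      simp
    have hder := NoTwoCon_form (K := K)
      (Polynomial.derivative' (R := K) |>.restrictScalars ℤ)
      (fun J => Polynomial.C (a J)) fun l => Polynomial.C (M l 0) +
        Polynomial.X * Polynomial.C (M l 1) + Polynomial.X ^ 2 * Polynomial.C (M l 2)
    change Polynomial.derivative (cq a M) = ∑ J, Polynomial.derivative (Polynomial.C (a J)) * _ +
      ∑ l, _ * Polynomial.derivative _ at hder
    simp only [Polynomial.derivative_C, zero_mul, Finset.sum_const_zero, zero_add] at hder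
    rw [hcq] at hder
    have hx : ∀ l, Polynomial.eval ((j : ℕ) : K) (Polynomial.C (M l 0) +
        Polynomial.X * Polynomial.C (M l 1) + Polynomial.X ^ 2 * Polynomial.C (M l 2)) =
        (M *ᵥ u j) l := by
      intro l
      simp only [u, Matrix.mulVec, dotProduct, Fin.sum_univ_three, Matrix.cons_val_zero,
        Matrix.cons_val_one, Matrix.cons_val, Polynomial.eval_add, Polynomial.eval_mul,
        Polynomial.eval_C, Polynomial.eval_X, Polynomial.eval_pow]
      ring
    have hp : ∀ p : MvPolynomial (Fin 3) K, Polynomial.eval ((j : ℕ) : K)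
        (aeval (fun l => Polynomial.C (M l 0) + Polynomial.X * Polynomial.C (M l 1) +
          Polynomial.X ^ 2 * Polynomial.C (M l 2)) p) = aeval (M *ᵥ u j) p := by
      intro p
      have h := comp_aeval_apply (fun l => Polynomial.C (M l 0) +
        Polynomial.X * Polynomial.C (M l 1) + Polynomial.X ^ 2 * Polynomial.C (M l 2))
        (Polynomial.aeval ((j : ℕ) : K)) p
      simp only [Polynomial.coe_aeval_eq_eval, hx] at h
      exact h
    have hd : ∀ l, ((j : ℕ) : K) * Polynomial.eval ((j : ℕ) : K) (Polynomial.derivative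
        (Polynomial.C (M l 0) + Polynomial.X * Polynomial.C (M l 1) +
          Polynomial.X ^ 2 * Polynomial.C (M l 2))) =
        ((M * Matrix.diagonal ![0, 1, 2]) *ᵥ u j) l := by
      intro l
      simp only [u, Matrix.mulVec, dotProduct, Fin.sum_univ_three, Matrix.cons_val_zero,
        Matrix.cons_val_one, Matrix.cons_val, Matrix.mul_diagonal, Polynomial.derivative_add,
        Polynomial.derivative_mul, Polynomial.derivative_C, Polynomial.derivative_X,
        Polynomial.derivative_X_pow, Polynomial.eval_add, Polynomial.eval_mul,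
        Polynomial.eval_C, Polynomial.eval_X, Polynomial.eval_pow, Polynomial.eval_zero,
        Polynomial.eval_one]
      norm_num
      ring
    have hw : ((j : ℕ) : K) * Polynomial.eval ((j : ℕ) : K) (Polynomial.derivative
        (Polynomial.C lam * Polynomial.X ^ β)) = ((β : K) * lam) * w j := by
      simp only [w, Polynomial.derivative_mul, Polynomial.derivative_C, Polynomial.eval_add,
        Polynomial.eval_mul, Polynomial.eval_C, Polynomial.eval_zero,
        Polynomial.derivative_X_pow, Polynomial.eval_pow, Polynomial.eval_X]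
      cases β with
      | zero => simp
      | succ b =>
        rw [Nat.add_sub_cancel]
        ring
    rw [← hw, hder]
    simp only [Polynomial.eval_finsetSum, Polynomial.eval_mul, hp, Polynomial.eval_C]
    rw [Finset.mul_sum]
    refine Finset.sum_congr rfl fun l _ => ?_
    rw [← hd]
    show (∑ J : Sym (Fin 3) q, a J *
      aeval (M *ᵥ u j) (pderiv l (mo K (J : Multiset (Fin 3))))) * _ = _
    ring
  refine NoTwoCon_lin g u w M M' hM _ _ h1 h2 fun j => ?_
  obtain ⟨f, hf, hfe⟩ := NoTwoCon_f M M' hM j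
  have hf' : f.IsHomogeneous q := by
    rw [hq]
    exact hf
  refine ⟨Matrix.of fun l k => ∑ J : Sym (Fin 3) q,
    coeff (Multiset.toFinsupp (J : Multiset (Fin 3))) f * D J (M l k),
    ∑ J : Sym (Fin 3) q, coeff (Multiset.toFinsupp (J : Multiset (Fin 3))) f * D J lam,
    fun i => ?_⟩
  have hJ : ∀ J, ∑ l, g i l * ∑ k, D J (M l k) * u i k - D J lam * w i =
      - mon (M *ᵥ u i) J := by
    intro J
    have h := NoTwoCon_form (K := K) (D J) a (M *ᵥ u i)
    rw [hfu i, Derivation.leibniz] at h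
    have hw : D J (w i) = 0 := by
      show D J (((i : ℕ) : K) ^ β) = 0
      rw [← Nat.cast_pow, Derivation.map_natCast]
    have hu : ∀ k, D J (u i k) = 0 := by
      intro k
      have hn : ∃ n : ℕ, u i k = (n : K) := by
        fin_cases k
        · exact ⟨1, by simp [u]⟩
        · exact ⟨i, by simp [u]⟩
        · exact ⟨(i : ℕ) ^ 2, by simp [u]⟩
      obtain ⟨n, hn⟩ := hn
      rw [hn, Derivation.map_natCast]
    have hMu : ∀ l, D J ((M *ᵥ u i) l) = ∑ k, D J (M l k) * u i k := by
      intro l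
      simp only [Matrix.mulVec, dotProduct, map_sum]
      refine Finset.sum_congr rfl fun k _ => ?_
      rw [Derivation.leibniz, hu, smul_zero, zero_add, smul_eq_mul, mul_comm]
    have hs : ∑ I, D J (a I) * mon (M *ᵥ u i) I = mon (M *ᵥ u i) J := by
      simp only [hD, ite_mul, one_mul, zero_mul]
      rw [Finset.sum_ite_eq' Finset.univ J, if_pos (Finset.mem_univ J)]
    rw [hw, smul_zero, zero_add, smul_eq_mul, hs] at h
    simp only [hMu] at h
    show ∑ l, (∑ I : Sym (Fin 3) q, a I *
      aeval (M *ᵥ u i) (pderiv l (mo K (I : Multiset (Fin 3))))) *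
      ∑ k, D J (M l k) * u i k - D J lam * w i = - mon (M *ᵥ u i) J
    rw [mul_comm (w i)] at h
    rw [h]
    ring
  have hev : ∑ J : Sym (Fin 3) q, coeff (Multiset.toFinsupp (J : Multiset (Fin 3))) f *
      mon (M *ᵥ u i) J = eval (M *ᵥ u i) f := by
    rw [← ev_hom q _ f hf', ev, Pool.Agent.Helper49.LN.cP_apply]
    rfl
  have hneg : (if i = j then (1 : K) else 0) = - eval (M *ᵥ u i) f := by
    rw [hfe i]
    split_ifs <;> simp
  rw [hneg, ← hev, ← Finset.sum_neg_distrib]
  have e1 : ∀ J : Sym (Fin 3) q, -(coeff (Multiset.toFinsupp (J : Multiset (Fin 3))) f *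
      mon (M *ᵥ u i) J) = coeff (Multiset.toFinsupp (J : Multiset (Fin 3))) f *
      (∑ l, g i l * ∑ k, D J (M l k) * u i k) -
      coeff (Multiset.toFinsupp (J : Multiset (Fin 3))) f * D J lam * w i := by
    intro J
    rw [mul_assoc, ← mul_sub, hJ, mul_neg]
  simp only [e1]
  rw [Finset.sum_sub_distrib, ← Finset.sum_mul]
  congr 1
  simp only [Matrix.mulVec, dotProduct, Matrix.of_apply, Finset.mul_sum, Finset.sum_mul]
  symm
  rw [Finset.sum_comm]
  refine Finset.sum_congr rfl fun l _ => ?_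
  rw [Finset.sum_comm]
  refine Finset.sum_congr rfl fun k _ => Finset.sum_congr rfl fun J _ => ?_
  ring

end Pool.Agent.Helper74.PQ
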