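import Pool.Agent.Helper74.PQ.Defs

/-!
# PQ-RATPL: polynomials with coefficients in `B`
-/

set_option autoImplicit false

namespace Pool.Agent.Helper74.PQ

open scoped BigOperators
open MvPolynomial
open Pool.Agent.Helper49.LN (cP mo hf pl)
open Pool.Agent.Helper6.QS
open Pool.Agent.Helper74.Q8 (rr)

variable {Ω : Type*} [Field Ω] {σ : Type*} {B : Subfield Ω}

theorem ratP_add {f g : MvPolynomial σ Ω} (hf : RatP B f) (hg : RatP B g) : RatP B (f + g) :=
  fun m => by
    rw [coeff_add]
    exact add_mem (hf m) (hg m)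

theorem ratP_sub {f g : MvPolynomial σ Ω} (hf : RatP B f) (hg : RatP B g) : RatP B (f - g) :=
  fun m => by
    rw [coeff_sub]
    exact sub_mem (hf m) (hg m)

theorem ratP_neg {f : MvPolynomial σ Ω} (hf : RatP B f) : RatP B (-f) :=
  fun m => by
    rw [coeff_neg]
    exact neg_mem (hf m)

theorem ratP_zero : RatP B (0 : MvPolynomial σ Ω) := fun m => by
  rw [coeff_zero]
  exact zero_mem _

theorem ratP_smul {c : Ω} {f : MvPolynomial σ Ω} (hc : c ∈ B) (hf : RatP B f) :
    RatP B (c • f) := fun m => by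
  rw [coeff_smul, smul_eq_mul]
  exact mul_mem hc (hf m)

theorem ratP_sum {ι : Type*} (s : Finset ι) (f : ι → MvPolynomial σ Ω)
    (hf : ∀ i ∈ s, RatP B (f i)) : RatP B (∑ i ∈ s, f i) := fun m => by
  rw [coeff_sum]
  exact sum_mem fun i hi => hf i hi m

theorem ratP_mul {f g : MvPolynomial σ Ω} (hf : RatP B f) (hg : RatP B g) : RatP B (f * g) := by
  classical
  intro m
  rw [coeff_mul]
  exact sum_mem fun p _ => mul_mem (hf p.1) (hg p.2)

theorem ratP_mono (e : σ →₀ ℕ) {c : Ω} (hc : c ∈ B) : RatP B (monomial e c) := by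
  classical
  intro m
  rw [coeff_monomial]
  split_ifs
  · exact hc
  · exact zero_mem _

theorem ratP_C {c : Ω} (hc : c ∈ B) : RatP B (C c : MvPolynomial σ Ω) := ratP_mono 0 hc

theorem ratP_one : RatP B (1 : MvPolynomial σ Ω) := by
  rw [← C_1]
  exact ratP_C (one_mem _)

theorem ratP_X (i : σ) : RatP B (X i : MvPolynomial σ Ω) := ratP_mono _ (one_mem _)

theorem ratP_pow {f : MvPolynomial σ Ω} (hf : RatP B f) (n : ℕ) : RatP B (f ^ n) := by
  induction n with
  | zero => rw [pow_zero]; exact ratP_one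
  | succ n ih => rw [pow_succ]; exact ratP_mul ih hf

theorem ratP_lf [Fintype σ] {l : σ → Ω} (hl : ∀ i, l i ∈ B) : RatP B (lf l) := by
  unfold lf
  exact ratP_sum _ _ fun i _ => ratP_smul (hl i) (ratP_X i)

theorem ratP_mo' [DecidableEq σ] (K : Multiset σ) : RatP B (mo Ω K) := by
  induction K using Multiset.induction_on with
  | empty =>
    have h1 : mo Ω (0 : Multiset σ) = 1 := by simp [mo]
    rw [h1]
    exact ratP_one
  | cons a K ih =>
    have h1 : mo Ω (a ::ₘ K) = X a * mo Ω K := by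
      rw [mo, mo, Multiset.map_cons, Multiset.prod_cons]
    rw [h1]
    exact ratP_mul (ratP_X a) ih

theorem ratP_pderiv {f : MvPolynomial σ Ω} (hf : RatP B f) (i : σ) : RatP B (pderiv i f) := by
  classical
  rw [f.as_sum, map_sum]
  refine ratP_sum _ _ fun m _ => ?_
  rw [pderiv_monomial]
  exact ratP_mono _ (mul_mem (hf m) (natCast_mem B _))

theorem ratP_hom {f : MvPolynomial σ Ω} (hf : RatP B f) (n : ℕ) :
    RatP B (homogeneousComponent n f) := by
  intro m
  rw [coeff_homogeneousComponent]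
  split_ifs
  · exact hf m
  · exact zero_mem _

theorem ratP_eval {f : MvPolynomial σ Ω} (hf : RatP B f) {z : σ → Ω} (hz : ∀ i, z i ∈ B) :
    eval z f ∈ B := by
  rw [eval_eq]
  exact sum_mem fun m _ => mul_mem (hf m) (prod_mem fun i _ => pow_mem (hz i) _)

end Pool.Agent.Helper74.PQ
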