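import Pool.Agent.Helper74.PQ.RatPL
import Pool.Agent.Helper74.LG.KeyAbs

/-!
# PQ-WT: the weight calculus

All proofs: take the union of the two finite sets and the sum of the exponents (`Δ ∈ O`, so larger
exponents are allowed). `wa_et`: with `u = x / x_m` one has
`et (X^J) = x_m (D_J u - (1/q) (D_J (F u) / F u) u)`, because `F(x) = x_m^q F(u)`
(`q (1/q) = 1` is used); `Δ D_J u_l ∈ O` by `Bdd`, `Δ D_J (F u) / F u ∈ O` by `RowBdd`, and
`1/q` is put in the finite set; for general `f` write `et f` as the sum over `J` (`cP_apply`),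
the coefficients are in `B`. `wa_rat`, `wa_pt`: choose the maximal coordinate with
`exists_max_coord` (see `rat_max`, `rat_pt` in `Helper6/QS/Rat.lean`); take the union of the finite
sets over all `m`. `WA.cover`: at each `O` one of the `μ k` is maximal.
-/

set_option autoImplicit false

namespace Pool.Agent.Helper74.PQ

open scoped BigOperators
open MvPolynomial
open Pool.Agent.Helper8.LG (Bdd RowBdd form mon)
open Pool.Agent.Helper49.LN (cP mo hf pl)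
open Pool.Agent.Helper6.QS
open Pool.Agent.Helper74.Q8 (rr)

variable {Ω : Type*} [Field Ω] {σ : Type*} [Fintype σ] [DecidableEq σ] {q : ℕ}
  {D : Sym σ q → Derivation ℤ Ω Ω} {a : Sym σ q → Ω} {B : Subfield Ω} {x : σ → Ω}
  {C C' : ValuationSubring Ω → Prop} {m : σ} {e e' : ℤ} {y z : Ω}

section

omit [Fintype σ] [DecidableEq σ] in
theorem wt_pow_mem {O : ValuationSubring Ω} {Δ w : Ω} (hΔ : Δ ∈ O) {M N : ℕ} (h : M ≤ N)
    (hw : Δ ^ M * w ∈ O) : Δ ^ N * w ∈ O := by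
  obtain ⟨k, rfl⟩ := Nat.exists_eq_add_of_le h
  have h1 : Δ ^ (M + k) * w = Δ ^ k * (Δ ^ M * w) := by
    rw [pow_add]
    ring
  rw [h1]
  exact O.mul_mem _ _ (O.toSubring.pow_mem hΔ k) hw

/-- common finite set and exponent for a finite family of statements -/
theorem wt_union {ι : Type*} [Finite ι] (p : ι → Prop)
    (R : ι → ValuationSubring Ω → Ω → Prop) (w : ι → ValuationSubring Ω → Ω)
    (h : ∀ k, p k → ∃ s : Finset Ω, (∀ b ∈ s, b ∈ B) ∧ ∃ M : ℕ,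
      ∀ (O : ValuationSubring Ω) (Δ : Ω), Bdd D Δ O → (∀ b ∈ s, Δ * b ∈ O) → R k O Δ →
        Δ ^ M * w k O ∈ O) :
    ∃ s : Finset Ω, (∀ b ∈ s, b ∈ B) ∧ ∃ M : ℕ, ∀ k, p k →
      ∀ (O : ValuationSubring Ω) (Δ : Ω), Bdd D Δ O → (∀ b ∈ s, Δ * b ∈ O) → R k O Δ →
        Δ ^ M * w k O ∈ O := by
  classical
  have : Fintype ι := Fintype.ofFinite ι
  have h' : ∀ k, ∃ s : Finset Ω, (∀ b ∈ s, b ∈ B) ∧ ∃ M : ℕ, p k →
      ∀ (O : ValuationSubring Ω) (Δ : Ω), Bdd D Δ O → (∀ b ∈ s, Δ * b ∈ O) → R k O Δ →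
        Δ ^ M * w k O ∈ O := by
    intro k
    by_cases hk : p k
    · obtain ⟨s, hs, M, hM⟩ := h k hk
      exact ⟨s, hs, M, fun _ => hM⟩
    · exact ⟨∅, by simp, 0, fun h => absurd h hk⟩
  choose s hs M hM using h'
  refine ⟨Finset.univ.biUnion s, ?_, ∑ k, M k, ?_⟩
  · intro b hb
    obtain ⟨k, -, hk⟩ := Finset.mem_biUnion.1 hb
    exact hs k b hk
  · intro k hk O Δ hΔ hsO hR
    refine wt_pow_mem hΔ.1 (Finset.single_le_sum (fun _ _ => Nat.zero_le _) (Finset.mem_univ k)) ?_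
    exact hM k hk O Δ hΔ
      (fun b hb => hsO b (Finset.mem_biUnion.2 ⟨k, Finset.mem_univ k, hb⟩)) hR

/-- combination of two statements -/
theorem wt_two {C : ValuationSubring Ω → Prop} {m : σ} {e e' e'' : ℤ} {y z w : Ω}
    (hy : WA D a B x C m e y) (hz : WA D a B x C m e' z)
    (h : ∀ (O : ValuationSubring Ω) (Δ : Ω) (M : ℕ), Δ ∈ O → Δ ^ M * (y * x m ^ (-e)) ∈ O →
      Δ ^ M * (z * x m ^ (-e')) ∈ O → Δ ^ (M + M) * (w * x m ^ (-e'')) ∈ O) :
    WA D a B x C m e'' w := by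
  classical
  obtain ⟨s, hs, M, hM⟩ := hy
  obtain ⟨t, ht, N, hN⟩ := hz
  refine ⟨s ∪ t, ?_, (M + N) + (M + N), ?_⟩
  · intro b hb
    rcases Finset.mem_union.1 hb with hb | hb
    · exact hs b hb
    · exact ht b hb
  · intro O Δ hΔ hsO hR hmax hC
    refine h O Δ (M + N) hΔ.1 ?_ ?_
    · exact wt_pow_mem hΔ.1 (Nat.le_add_right M N)
        (hM O Δ hΔ (fun b hb => hsO b (Finset.mem_union_left _ hb)) hR hmax hC)
    · exact wt_pow_mem hΔ.1 (Nat.le_add_left N M)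
        (hN O Δ hΔ (fun b hb => hsO b (Finset.mem_union_right _ hb)) hR hmax hC)

end

theorem WA.mul (hm : x m ≠ 0) (hy : WA D a B x C m e y) (hz : WA D a B x C m e' z) :
    WA D a B x C m (e + e') (y * z) := by
  refine wt_two hy hz fun O Δ M hΔ h1 h2 => ?_
  have h3 : Δ ^ (M + M) * (y * z * x m ^ (-(e + e'))) =
      (Δ ^ M * (y * x m ^ (-e))) * (Δ ^ M * (z * x m ^ (-e'))) := by
    rw [neg_add, zpow_add₀ hm, pow_add]
    ring
  rw [h3]
  exact O.mul_mem _ _ h1 h2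

theorem WA.add (hy : WA D a B x C m e y) (hz : WA D a B x C m e z) :
    WA D a B x C m e (y + z) := by
  refine wt_two hy hz fun O Δ M hΔ h1 h2 => ?_
  have h3 : Δ ^ (M + M) * ((y + z) * x m ^ (-e)) =
      Δ ^ M * (Δ ^ M * (y * x m ^ (-e)) + Δ ^ M * (z * x m ^ (-e))) := by
    rw [pow_add]
    ring
  rw [h3]
  exact O.mul_mem _ _ (O.toSubring.pow_mem hΔ M) (O.add_mem _ _ h1 h2)

theorem WA.zero : WA D a B x C m e 0 := by
  refine ⟨∅, by simp, 0, fun O Δ _ _ _ _ _ => ?_⟩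
  rw [zero_mul, mul_zero]
  exact O.zero_mem

theorem WA.neg (hy : WA D a B x C m e y) : WA D a B x C m e (-y) := by
  obtain ⟨s, hs, M, hM⟩ := hy
  refine ⟨s, hs, M, fun O Δ h1 h2 h3 h4 h5 => ?_⟩
  rw [neg_mul, mul_neg]
  exact O.neg_mem _ (hM O Δ h1 h2 h3 h4 h5)

theorem WA.sub (hy : WA D a B x C m e y) (hz : WA D a B x C m e z) :
    WA D a B x C m e (y - z) := by
  rw [sub_eq_add_neg]
  exact hy.add hz.neg

theorem WA.sum {ι : Type*} (s : Finset ι) (f : ι → Ω) (hf : ∀ i ∈ s, WA D a B x C m e (f i)) :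
    WA D a B x C m e (∑ i ∈ s, f i) := by
  classical
  induction s using Finset.induction_on with
  | empty =>
    rw [Finset.sum_empty]
    exact WA.zero
  | insert i s hi ih =>
    rw [Finset.sum_insert hi]
    exact (hf i (Finset.mem_insert_self i s)).add
      (ih fun j hj => hf j (Finset.mem_insert_of_mem hj))

theorem WA.of_mem (hy : y ∈ B) : WA D a B x C m 0 y := by
  refine ⟨{y}, by simpa using hy, 1, fun O Δ _ h2 _ _ _ => ?_⟩
  rw [neg_zero, zpow_zero, mul_one, pow_one]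
  exact h2 y (Finset.mem_singleton_self y)

theorem WA.smul_mem (hm : x m ≠ 0) (hz : z ∈ B) (hy : WA D a B x C m e y) :
    WA D a B x C m e (z * y) := by
  have h1 := (WA.of_mem (D := D) (a := a) (x := x) (C := C) (m := m) hz).mul hm hy
  rwa [zero_add] at h1

theorem WA.coord (l : σ) : WA D a B x C m 1 (x l) := by
  refine ⟨∅, by simp, 0, fun O Δ _ _ _ h4 _ => ?_⟩
  rw [pow_zero, one_mul, zpow_neg_one, ← div_eq_mul_inv]
  exact h4 l

theorem WA.inv (hm : x m ≠ 0) : WA D a B x C m (-1) (x m)⁻¹ := by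
  refine ⟨∅, by simp, 0, fun O Δ _ _ _ _ _ => ?_⟩
  rw [pow_zero, one_mul, neg_neg, zpow_one, inv_mul_cancel₀ hm]
  exact O.one_mem

theorem WA.inv_pow (hm : x m ≠ 0) (n : ℕ) : WA D a B x C m (-n) ((x m) ^ n)⁻¹ := by
  refine ⟨∅, by simp, 0, fun O Δ _ _ _ _ _ => ?_⟩
  rw [pow_zero, one_mul, neg_neg, zpow_natCast, inv_mul_cancel₀ (pow_ne_zero n hm)]
  exact O.one_mem

theorem WA.le {i₀ : σ} (h1 : x i₀ = 1) (hm : x m ≠ 0) (he : e ≤ e')
    (hy : WA D a B x C m e y) : WA D a B x C m e' y := by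
  obtain ⟨s, hs, M, hM⟩ := hy
  refine ⟨s, hs, M, fun O Δ k1 k2 k3 k4 k5 => ?_⟩
  obtain ⟨n, hn⟩ := Int.eq_ofNat_of_zero_le (sub_nonneg.2 he)
  have h2 : x m ^ (-e') = x m ^ (-e) * (x i₀ / x m) ^ n := by
    have h3 : -e' = -e + -(n : ℤ) := by
      rw [← hn]
      ring
    rw [h3, zpow_add₀ hm, h1, one_div, _root_.inv_pow, zpow_neg (x m) (n : ℤ), zpow_natCast]
  rw [h2, ← mul_assoc, ← mul_assoc]
  exact O.mul_mem _ _ (by rw [mul_assoc]; exact hM O Δ k1 k2 k3 k4 k5)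
    (O.toSubring.pow_mem (k4 i₀) n)

theorem WA.of_C (hy : ∀ O, C O → y ∈ O) : WA D a B x C m 0 y := by
  refine ⟨∅, by simp, 0, fun O Δ _ _ _ _ h5 => ?_⟩
  rw [pow_zero, one_mul, neg_zero, zpow_zero, mul_one]
  exact hy O h5

theorem WA.mono (hC : ∀ O, C' O → C O) (hy : WA D a B x C m e y) : WA D a B x C' m e y := by
  obtain ⟨s, hs, M, hM⟩ := hy
  exact ⟨s, hs, M, fun O Δ k1 k2 k3 k4 k5 => hM O Δ k1 k2 k3 k4 (hC O k5)⟩

theorem WA.cover {ι : Type*} [Finite ι] (μ : ι → Ω) (hμ : ∃ k, μ k ≠ 0)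
    (hy : ∀ k, μ k ≠ 0 → WA D a B x (fun O => C O ∧ ∀ j, μ j / μ k ∈ O) m e y) :
    WA D a B x C m e y := by
  classical
  have : Fintype ι := Fintype.ofFinite ι
  obtain ⟨s, hs, M, hM⟩ := wt_union (D := D) (B := B) (fun k => μ k ≠ 0)
    (fun k O Δ => RowBdd D Δ O x (form a) 1 0 ∧ (∀ l, x l / x m ∈ O) ∧ C O ∧ ∀ j, μ j / μ k ∈ O)
    (fun _ _ => y * x m ^ (-e)) (by
      intro k hk
      obtain ⟨s, hs, M, hM⟩ := hy k hk
      exact ⟨s, hs, M, fun O Δ h1 h2 h3 => hM O Δ h1 h2 h3.1 h3.2.1 h3.2.2⟩)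
  refine ⟨s, hs, M, fun O Δ k1 k2 k3 k4 k5 => ?_⟩
  obtain ⟨k₀, hk₀⟩ := hμ
  obtain ⟨k, hk, hmax⟩ := Pool.Agent.Helper74.LG.exists_max_coord O μ k₀ hk₀
  exact hM k hk O Δ k1 k2 ⟨k3, k4, k5, hmax⟩

/-- determinants: the rows have weights `e 0`, `e 1`, `e 2` -/
theorem WA.det (hm : x m ≠ 0) (A : Matrix (Fin 3) (Fin 3) Ω) (e : Fin 3 → ℤ)
    (hA : ∀ i j, WA D a B x C m (e i) (A i j)) : WA D a B x C m (e 0 + e 1 + e 2) A.det := by
  have h : ∀ i j k, WA D a B x C m (e 0 + e 1 + e 2) (A 0 i * A 1 j * A 2 k) := fun i j k =>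
    ((hA 0 i).mul hm (hA 1 j)).mul hm (hA 2 k)
  rw [Matrix.det_fin_three]
  exact (((((h _ _ _).sub (h _ _ _)).sub (h _ _ _)).add (h _ _ _)).add (h _ _ _)).sub (h _ _ _)

theorem wt_form (c : Ω) (u : σ → Ω) : form a (fun l => c * u l) = c ^ q * form a u := by
  unfold form
  rw [Finset.mul_sum]
  refine Finset.sum_congr rfl fun J _ => ?_
  have h1 : mon (fun l => c * u l) J = c ^ q * mon u J := by
    unfold mon
    rw [Multiset.prod_map_mul, Multiset.map_const', Multiset.prod_replicate, Sym.card_coe]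
  rw [h1]
  ring

omit [Fintype σ] [DecidableEq σ] in
/-- the transformation formula for one derivation -/
theorem wt_trans (d : Derivation ℤ Ω Ω) (hq : (q : Ω) ≠ 0) {c G u : Ω} (hc : c ≠ 0)
    (hG : G ≠ 0) :
    d (c * u) - (q : Ω)⁻¹ * (d (c ^ q * G) / (c ^ q * G)) * (c * u) =
      c * (d u - (q : Ω)⁻¹ * (d G / G) * u) := by
  have hcq : c ^ q ≠ 0 := pow_ne_zero q hc
  have h1 : d (c ^ q) * c = q * c ^ q * d c := by
    rw [Derivation.leibniz_pow, nsmul_eq_mul, smul_eq_mul]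
    have hq0 : q ≠ 0 := by
      rintro rfl
      exact hq Nat.cast_zero
    obtain ⟨r, rfl⟩ := Nat.exists_eq_succ_of_ne_zero hq0
    rw [Nat.succ_sub_one, pow_succ]
    ring
  have h2 : d (c ^ q * G) / (c ^ q * G) = q * (d c / c) + d G / G := by
    rw [Derivation.leibniz, smul_eq_mul, smul_eq_mul]
    field_simp
    linear_combination G * h1
  rw [h2, Derivation.leibniz, smul_eq_mul, smul_eq_mul]
  field_simp
  ring

theorem wt_et_mo (hq : (q : Ω) ≠ 0) (hne : form a x ≠ 0) (hm : x m ≠ 0) (J : Sym σ q) (l : σ) :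
    WA D a B x C m 1 (D J (x l) - (q : Ω)⁻¹ * (D J (form a x) / form a x) * x l) := by
  have hx : x = fun l => x m * (x l / x m) := by
    funext l
    field_simp
  have hf : form a x = x m ^ q * form a (fun l => x l / x m) := by
    conv_lhs => rw [hx]
    exact wt_form (x m) _
  have hu : form a (fun l => x l / x m) ≠ 0 := by
    intro h
    rw [hf, h, mul_zero] at hne
    exact hne rfl
  have h1 := wt_trans (D J) hq (u := x l / x m) hm hu
  rw [← hf, mul_div_cancel₀ (x l) hm] at h1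
  refine ⟨{(q : Ω)⁻¹}, ?_, 2, fun O Δ k1 k2 k3 k4 _ => ?_⟩
  · intro b hb
    rw [Finset.mem_singleton.1 hb]
    exact B.inv_mem (natCast_mem B q)
  · have h2 : Δ * (q : Ω)⁻¹ ∈ O := k2 _ (Finset.mem_singleton_self _)
    have h3 : Δ * D J (x l / x m) ∈ O := k1.2 J _ (k4 l)
    have h4 := (k3 m hm k4).2 J
    rw [pow_zero, div_one, one_mul] at h4
    have h5 : Δ ^ 2 * ((D J (x l) - (q : Ω)⁻¹ * (D J (form a x) / form a x) * x l) *
        x m ^ (-(1 : ℤ))) = Δ * (Δ * D J (x l / x m)) -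
        (Δ * (q : Ω)⁻¹) * (Δ * (D J (form a fun l => x l / x m) / form a fun l => x l / x m)) *
          (x l / x m) := by
      rw [h1, zpow_neg_one]
      field_simp
    rw [h5]
    exact O.toSubring.sub_mem (O.mul_mem _ _ k1.1 h3) (O.mul_mem _ _ (O.mul_mem _ _ h2 h4) (k4 l))

theorem wa_et (hB : LFrame D a B x) (hq : (q : Ω) ≠ 0) (hne : form a x ≠ 0) (hm : x m ≠ 0)
    (f : MvPolynomial σ Ω) (hf : RatP B f) (l : σ) : WA D a B x C m 1 (et D a x f l) := by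
  rw [et, Pool.Agent.Helper49.LN.cP_apply, Finset.sum_apply]
  refine WA.sum _ _ fun J _ => ?_
  rw [Pi.smul_apply, smul_eq_mul]
  exact WA.smul_mem hm (hf _) (wt_et_mo hq hne hm J l)

theorem wa_rat (hB : LFrame D a B x) {i₀ : σ} (h1 : x i₀ = 1)
    (hy : ∀ m, x m ≠ 0 → WA D a B x (fun _ => True) m 0 y) : y ∈ B := by
  obtain ⟨s, hs, M, hM⟩ := wt_union (D := D) (B := B) (fun m => x m ≠ 0)
    (fun m O Δ => RowBdd D Δ O x (form a) 1 0 ∧ (∀ l, x l / x m ∈ O))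
    (fun _ _ => y) (by
      intro m hm
      obtain ⟨s, hs, M, hM⟩ := hy m hm
      refine ⟨s, hs, M, fun O Δ h1 h2 h3 => ?_⟩
      have h4 := hM O Δ h1 h2 h3.1 h3.2 trivial
      rwa [neg_zero, zpow_zero, mul_one] at h4)
  refine hB.rat s hs y M fun O Δ k1 k2 k3 => ?_
  obtain ⟨m, hm, hmax⟩ := Pool.Agent.Helper74.LG.exists_max_coord O x i₀
    (by rw [h1]; exact one_ne_zero)
  exact hM m hm O Δ k1 k2 ⟨k3, hmax⟩

theorem wa_pt (hB : LFrame D a B x) {i₀ : σ} (h1 : x i₀ = 1) (hy0 : y ≠ 0)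
    (hy : ∀ m, x m ≠ 0 → WA D a B x (fun _ => True) m (-1) y) : ∀ l, x l ∈ B := by
  have key : ∀ l, y * x l ∈ B := fun l => wa_rat hB h1 fun m hm => by
    have h2 := (hy m hm).mul hm (WA.coord l)
    rwa [neg_add_cancel] at h2
  have hyB : y ∈ B := by
    have h2 := key i₀
    rwa [h1, mul_one] at h2
  intro l
  have h2 : x l = y⁻¹ * (y * x l) := by
    rw [← mul_assoc, inv_mul_cancel₀ hy0, one_mul]
  rw [h2]
  exact B.mul_mem (B.inv_mem hyB) (key l)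

end Pool.Agent.Helper74.PQ
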